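import Mathlib

open scoped ContDiff Topology ENNReal
open Set MeasureTheory Filter

noncomputable section

namespace KleinEmb

/-- A smooth Riemannian metric on the Klein bottle `K = ℝ² / Γ`, where `Γ` is the group generated by
`(x, y) ↦ (x + 1/2, -y)` and `(x, y) ↦ (x, y + 1)`: a smooth `Γ`-invariant Riemannian metric
`E dx² + 2 F dx dy + G dy²` on the plane. -/
structure KleinMetric where
  E : ℝ × ℝ → ℝ
  F : ℝ × ℝ → ℝ
  G : ℝ × ℝ → ℝ
  smooth_E : ContDiff ℝ ∞ E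
  smooth_F : ContDiff ℝ ∞ F
  smooth_G : ContDiff ℝ ∞ G
  E_pos : ∀ p, 0 < E p
  det_pos : ∀ p, 0 < E p * G p - F p ^ 2
  E_glide : ∀ x y, E (x + 1 / 2, -y) = E (x, y)
  F_glide : ∀ x y, F (x + 1 / 2, -y) = -F (x, y)
  G_glide : ∀ x y, G (x + 1 / 2, -y) = G (x, y)
  E_shift : ∀ x y, E (x, y + 1) = E (x, y)
  F_shift : ∀ x y, F (x, y + 1) = F (x, y)
  G_shift : ∀ x y, G (x, y + 1) = G (x, y)

/-- The elements of `Γ`: `deck n k` is `(x, y) ↦ (x + n/2, (-1)^n y + k)`. -/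
def deck (n k : ℤ) (p : ℝ × ℝ) : ℝ × ℝ := (p.1 + n / 2, (-1) ^ n * p.2 + k)

namespace KleinMetric

variable (g : KleinMetric)

/-- The inner product `g_p (v, w)`. -/
def inn (p v w : ℝ × ℝ) : ℝ :=
  g.E p * (v.1 * w.1) + g.F p * (v.1 * w.2 + v.2 * w.1) + g.G p * (v.2 * w.2)

/-- The `g`-length of the tangent vector `v` at `p`. -/
def len (p v : ℝ × ℝ) : ℝ := √(g.inn p v v)

/-- Geodesics `γ = (x, y)` of (the lift to the plane of) `g`, defined by the Euler-Lagrange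
equations of the energy `∫ (E x'² + 2 F x' y' + G y'²) / 2`. -/
def IsGeodesic (γ : ℝ → ℝ × ℝ) : Prop :=
  ContDiff ℝ 2 γ ∧ ∀ t,
    deriv (fun s => g.E (γ s) * (deriv γ s).1 + g.F (γ s) * (deriv γ s).2) t =
      (fderiv ℝ g.E (γ t) (1, 0) * (deriv γ t).1 ^ 2
        + 2 * fderiv ℝ g.F (γ t) (1, 0) * ((deriv γ t).1 * (deriv γ t).2)
        + fderiv ℝ g.G (γ t) (1, 0) * (deriv γ t).2 ^ 2) / 2 ∧
    deriv (fun s => g.F (γ s) * (deriv γ s).1 + g.G (γ s) * (deriv γ s).2) t =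
      (fderiv ℝ g.E (γ t) (0, 1) * (deriv γ t).1 ^ 2
        + 2 * fderiv ℝ g.F (γ t) (0, 1) * ((deriv γ t).1 * (deriv γ t).2)
        + fderiv ℝ g.G (γ t) (0, 1) * (deriv γ t).2 ^ 2) / 2

open Classical in
/-- The exponential map: `expMap p v = γ 1` for the geodesic with `γ 0 = p`, `γ' 0 = v`. -/
def expMap (p v : ℝ × ℝ) : ℝ × ℝ :=
  if h : ∃ γ : ℝ → ℝ × ℝ, g.IsGeodesic γ ∧ γ 0 = p ∧ deriv γ 0 = v then
    (Classical.choose h) 1 else p

/-- `r > 0` is an embedded radius if for every point `p` the exponential map of `K` at `p`,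
restricted to the open ball of radius `r` in the tangent space, is a diffeomorphism onto its
image, i.e. an injective immersion into `K = ℝ² / Γ` (equal dimensions). -/
def IsEmbRadius (r : ℝ) : Prop :=
  0 < r ∧ ∀ p : ℝ × ℝ,
    (∀ v w : ℝ × ℝ, g.len p v < r → g.len p w < r →
      ∀ n k : ℤ, g.expMap p v = deck n k (g.expMap p w) → v = w) ∧
    (∀ v : ℝ × ℝ, g.len p v < r → Function.Bijective (fderiv ℝ (g.expMap p) v))

/-- The injectivity radius of `(K, g)`: the supremum of all embedded radii. -/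
def inj : ℝ≥0∞ := ⨆ (r : ℝ) (_ : g.IsEmbRadius r), ENNReal.ofReal r

/-- The Riemannian volume (area) of `(K, g)`. -/
def vol : ℝ := ∫ x in (0 : ℝ)..(1 / 2), ∫ y in (0 : ℝ)..1, √(g.E (x, y) * g.G (x, y) - g.F (x, y) ^ 2)

/-- The embolic functional `Vol (K, g) / Inj (K, g) ^ 2`. -/
def embRatio : ℝ≥0∞ := ENNReal.ofReal g.vol / g.inj ^ 2

end KleinMetric

end KleinEmb
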