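import Pool.Agent.Helper719.Emb.Defs

open scoped ContDiff Topology ENNReal
open Set MeasureTheory Filter

noncomputable section

namespace KleinEmb

/-- area density -/
def KleinMetric.W (g : KleinMetric) (p : ℝ × ℝ) : ℝ := √(g.E p * g.G p - g.F p ^ 2)

end KleinEmb
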