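import Pool.Agent.Helper719.Emb.Defs
import Pool.Agent.Helper719.Emb.P_W

open scoped ContDiff Topology ENNReal
open Set MeasureTheory Filter

noncomputable section

namespace KleinEmb



theorem W_smooth (g : KleinMetric) : ContDiff ℝ ∞ g.W ∧ (∀ p, 0 < g.W p) ∧
    (∀ p, g.W p ^ 2 = g.E p * g.G p - g.F p ^ 2) ∧
    (∀ x y, g.W (x + 1 / 2, -y) = g.W (x, y)) ∧ (∀ x y, g.W (x, y + 1) = g.W (x, y)) ∧
    (∀ x y, g.E (x + 1, y) = g.E (x, y)) ∧ (∀ x y, g.F (x + 1, y) = g.F (x, y)) ∧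
    (∀ x y, g.G (x + 1, y) = g.G (x, y)) ∧ (∀ x y, g.W (x + 1, y) = g.W (x, y)) := by
  have hE : ∀ x y, g.E (x + 1, y) = g.E (x, y) := by
    intro x y
    have h1 := g.E_glide (x + 1 / 2) (-y)
    rw [neg_neg, g.E_glide] at h1
    rw [← h1]; congr 2; ring
  have hF : ∀ x y, g.F (x + 1, y) = g.F (x, y) := by
    intro x y
    have h1 := g.F_glide (x + 1 / 2) (-y)
    rw [neg_neg, g.F_glide, neg_neg] at h1
    rw [← h1]; congr 2; ring
  have hG : ∀ x y, g.G (x + 1, y) = g.G (x, y) := by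
    intro x y
    have h1 := g.G_glide (x + 1 / 2) (-y)
    rw [neg_neg, g.G_glide] at h1
    rw [← h1]; congr 2; ring
  refine ⟨?_, ?_, ?_, ?_, ?_, hE, hF, hG, ?_⟩
  · have h : ContDiff ℝ ∞ (fun p => g.E p * g.G p - g.F p ^ 2) :=
      (g.smooth_E.mul g.smooth_G).sub (g.smooth_F.pow 2)
    exact h.sqrt (fun p => (g.det_pos p).ne')
  · intro p
    exact Real.sqrt_pos.mpr (g.det_pos p)
  · intro p
    exact Real.sq_sqrt (g.det_pos p).le
  · intro x y
    unfold KleinMetric.W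
    rw [g.E_glide, g.F_glide, g.G_glide, neg_sq]
  · intro x y
    unfold KleinMetric.W
    rw [g.E_shift, g.F_shift, g.G_shift]
  · intro x y
    unfold KleinMetric.W
    rw [hE, hF, hG]

end KleinEmb
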