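import Pool.Agent.Helper719.Emb.Defs

open scoped ContDiff Topology ENNReal
open Set MeasureTheory Filter

noncomputable section

namespace KleinEmb



theorem abel_poly_aux_sin_eq_cos (n : ℕ) :
    ∫ x in (0 : ℝ)..(Real.pi / 2), Real.sin x ^ n = ∫ x in (0 : ℝ)..(Real.pi / 2), Real.cos x ^ n := by
  have h := intervalIntegral.integral_comp_sub_left (a := 0) (b := Real.pi / 2)
    (fun x => Real.cos x ^ n) (Real.pi / 2)
  simp only [Real.cos_pi_div_two_sub, sub_self, sub_zero] at h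
  exact h

theorem abel_poly_aux_rec (n : ℕ) :
    ∫ x in (0 : ℝ)..(Real.pi / 2), Real.cos x ^ (n + 2) =
      ((n : ℝ) + 1) / (n + 2) * ∫ x in (0 : ℝ)..(Real.pi / 2), Real.cos x ^ n := by
  rw [integral_cos_pow]
  simp

theorem abel_poly_aux_prod (n : ℕ) :
    (∫ x in (0 : ℝ)..(Real.pi / 2), Real.cos x ^ (n + 1)) *
      (∫ x in (0 : ℝ)..(Real.pi / 2), Real.cos x ^ n) = (Real.pi / 2) / (n + 1) := by
  induction n with
  | zero => simp
  | succ k ih =>
    rw [abel_poly_aux_rec, mul_assoc, mul_comm (∫ x in (0 : ℝ)..(Real.pi / 2), Real.cos x ^ k), ih]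
    have h1 : (k : ℝ) + 1 ≠ 0 := by positivity
    have h2 : (k : ℝ) + 2 ≠ 0 := by positivity
    have h3 : (k : ℝ) + 1 + 1 ≠ 0 := by positivity
    push_cast
    field_simp
    ring

theorem abel_poly (n : ℕ) :
    ∫ a in (0 : ℝ)..(Real.pi / 2), ∫ t in (0 : ℝ)..(Real.pi / 2),
      Real.sin a * (Real.sin a * Real.cos t) ^ n = (Real.pi / 2) * ∫ x in (0 : ℝ)..1, x ^ n := by
  have h1 : ∀ a : ℝ, (∫ t in (0 : ℝ)..(Real.pi / 2),
      Real.sin a * (Real.sin a * Real.cos t) ^ n) =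
      Real.sin a ^ (n + 1) * ∫ t in (0 : ℝ)..(Real.pi / 2), Real.cos t ^ n := by
    intro a
    rw [← intervalIntegral.integral_const_mul]
    refine intervalIntegral.integral_congr (fun t _ => ?_)
    beta_reduce
    rw [mul_pow]
    ring
  simp only [h1]
  rw [intervalIntegral.integral_mul_const, abel_poly_aux_sin_eq_cos, abel_poly_aux_prod,
    integral_pow]
  simp
  ring

end KleinEmb
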