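import Pool.Agent.Helper719.Emb.Defs
import Pool.Agent.Helper719.Emb.P_abel_poly

open scoped ContDiff Topology ENNReal
open Set MeasureTheory Filter

noncomputable section

namespace KleinEmb



theorem ac_aux_cont (f : ℝ → ℝ) (hf : Continuous f) :
    Continuous fun a : ℝ => ∫ t in (0 : ℝ)..(Real.pi / 2),
      Real.sin a * f (Real.sin a * Real.cos t) := by
  apply intervalIntegral.continuous_parametric_intervalIntegral_of_continuous'
  fun_prop

theorem ac_aux_cont2 (f : ℝ → ℝ) (hf : Continuous f) (a : ℝ) :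
    Continuous fun t : ℝ => Real.sin a * f (Real.sin a * Real.cos t) := by
  fun_prop

theorem ac_add (f g : ℝ → ℝ) (hf : Continuous f) (hg : Continuous g) :
    ∫ a in (0 : ℝ)..(Real.pi / 2), ∫ t in (0 : ℝ)..(Real.pi / 2),
      Real.sin a * (f (Real.sin a * Real.cos t) + g (Real.sin a * Real.cos t)) =
    (∫ a in (0 : ℝ)..(Real.pi / 2), ∫ t in (0 : ℝ)..(Real.pi / 2),
      Real.sin a * f (Real.sin a * Real.cos t)) +
    ∫ a in (0 : ℝ)..(Real.pi / 2), ∫ t in (0 : ℝ)..(Real.pi / 2),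
      Real.sin a * g (Real.sin a * Real.cos t) := by
  rw [← intervalIntegral.integral_add ((ac_aux_cont f hf).intervalIntegrable _ _)
    ((ac_aux_cont g hg).intervalIntegrable _ _)]
  refine intervalIntegral.integral_congr fun a _ => ?_
  try simp only
  rw [← intervalIntegral.integral_add ((ac_aux_cont2 f hf a).intervalIntegrable _ _)
    ((ac_aux_cont2 g hg a).intervalIntegrable _ _)]
  refine intervalIntegral.integral_congr fun t _ => ?_
  try simp only
  ring

theorem ac_smul (c : ℝ) (f : ℝ → ℝ) :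
    ∫ a in (0 : ℝ)..(Real.pi / 2), ∫ t in (0 : ℝ)..(Real.pi / 2),
      Real.sin a * (c * f (Real.sin a * Real.cos t)) =
    c * ∫ a in (0 : ℝ)..(Real.pi / 2), ∫ t in (0 : ℝ)..(Real.pi / 2),
      Real.sin a * f (Real.sin a * Real.cos t) := by
  rw [← intervalIntegral.integral_const_mul]
  refine intervalIntegral.integral_congr fun a _ => ?_
  try simp only
  rw [← intervalIntegral.integral_const_mul]
  refine intervalIntegral.integral_congr fun t _ => ?_
  try simp only
  ring

theorem ac_mem (a t : ℝ) (ha : a ∈ Icc (0 : ℝ) (Real.pi / 2)) (ht : t ∈ Icc (0 : ℝ) (Real.pi / 2)) :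
    Real.sin a * Real.cos t ∈ Icc (0 : ℝ) 1 := by
  have h1 : 0 ≤ Real.sin a := Real.sin_nonneg_of_nonneg_of_le_pi ha.1 (by linarith [ha.2, Real.pi_pos])
  have h2 : 0 ≤ Real.cos t :=
    Real.cos_nonneg_of_mem_Icc ⟨by linarith [ht.1, Real.pi_pos], ht.2⟩
  exact ⟨mul_nonneg h1 h2, mul_le_one₀ (Real.sin_le_one a) h2 (Real.cos_le_one t)⟩

theorem ac_bound (f : ℝ → ℝ) (C : ℝ) (hf : ∀ x ∈ Icc (0 : ℝ) 1, |f x| ≤ C) :
    |∫ a in (0 : ℝ)..(Real.pi / 2), ∫ t in (0 : ℝ)..(Real.pi / 2),
      Real.sin a * f (Real.sin a * Real.cos t)| ≤ C * (Real.pi / 2) * (Real.pi / 2) := by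
  have hpi : (0 : ℝ) ≤ Real.pi / 2 := by positivity
  have hC : 0 ≤ C := le_trans (abs_nonneg _) (hf 0 ⟨le_refl _, zero_le_one⟩)
  have h := intervalIntegral.norm_integral_le_of_norm_le_const (a := 0) (b := Real.pi / 2)
    (f := fun a => ∫ t in (0 : ℝ)..(Real.pi / 2), Real.sin a * f (Real.sin a * Real.cos t))
    (C := C * (Real.pi / 2)) ?_
  · rw [sub_zero, abs_of_nonneg hpi, Real.norm_eq_abs] at h
    exact h
  · intro a ha
    rw [uIoc_of_le hpi] at ha
    have h := intervalIntegral.norm_integral_le_of_norm_le_const (a := 0) (b := Real.pi / 2)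
      (f := fun t => Real.sin a * f (Real.sin a * Real.cos t)) (C := C) ?_
    · rw [sub_zero, abs_of_nonneg hpi] at h
      exact h
    · intro t ht
      rw [uIoc_of_le hpi] at ht
      rw [norm_mul, Real.norm_eq_abs, Real.norm_eq_abs]
      calc |Real.sin a| * |f (Real.sin a * Real.cos t)| ≤ 1 * C :=
            mul_le_mul (Real.abs_sin_le_one a) (hf _ (ac_mem a t ⟨ha.1.le, ha.2⟩ ⟨ht.1.le, ht.2⟩))
              (abs_nonneg _) zero_le_one
        _ = C := one_mul C

theorem ac_poly (p : Polynomial ℝ) :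
    ∫ a in (0 : ℝ)..(Real.pi / 2), ∫ t in (0 : ℝ)..(Real.pi / 2),
      Real.sin a * p.eval (Real.sin a * Real.cos t) =
        (Real.pi / 2) * ∫ x in (0 : ℝ)..1, p.eval x := by
  induction p using Polynomial.induction_on' with
  | add p q hp hq =>
    simp only [Polynomial.eval_add]
    rw [ac_add _ _ p.continuous q.continuous, hp, hq, intervalIntegral.integral_add
      (p.continuous.intervalIntegrable _ _) (q.continuous.intervalIntegrable _ _)]
    ring
  | monomial n c =>
    simp only [Polynomial.eval_monomial]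
    rw [ac_smul c (fun x => x ^ n), abel_poly, intervalIntegral.integral_const_mul]
    ring

theorem abel_cont (h : ℝ → ℝ) (hh : ContinuousOn h (Icc 0 1)) :
    ∫ a in (0 : ℝ)..(Real.pi / 2), ∫ t in (0 : ℝ)..(Real.pi / 2),
      Real.sin a * h (Real.sin a * Real.cos t) = (Real.pi / 2) * ∫ x in (0 : ℝ)..1, h x := by
  have hpi : (0 : ℝ) ≤ Real.pi / 2 := by positivity
  obtain ⟨H, hH, hHh⟩ : ∃ H : ℝ → ℝ, Continuous H ∧ ∀ x ∈ Icc (0 : ℝ) 1, H x = h x := by
    refine ⟨IccExtend (zero_le_one' ℝ) ((Icc (0 : ℝ) 1).restrict h), ?_, ?_⟩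
    · exact (continuousOn_iff_continuous_restrict.mp hh).Icc_extend'
    · intro x hx
      rw [IccExtend_of_mem _ _ hx]
      rfl
  have e1 : ∫ a in (0 : ℝ)..(Real.pi / 2), ∫ t in (0 : ℝ)..(Real.pi / 2),
      Real.sin a * h (Real.sin a * Real.cos t) = ∫ a in (0 : ℝ)..(Real.pi / 2),
        ∫ t in (0 : ℝ)..(Real.pi / 2), Real.sin a * H (Real.sin a * Real.cos t) := by
    refine intervalIntegral.integral_congr fun a ha => ?_
    refine intervalIntegral.integral_congr fun t ht => ?_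
    rw [uIcc_of_le hpi] at ha ht
    try simp only
    rw [hHh _ (ac_mem a t ha ht)]
  have e2 : ∫ x in (0 : ℝ)..1, h x = ∫ x in (0 : ℝ)..1, H x := by
    refine intervalIntegral.integral_congr fun x hx => ?_
    rw [uIcc_of_le zero_le_one] at hx
    exact (hHh x hx).symm
  rw [e1, e2]
  refine eq_of_abs_sub_le_all fun ε hε => ?_
  set K : ℝ := Real.pi / 2 * (Real.pi / 2) + Real.pi / 2 with hK
  have hKpos : 0 < K := by positivity
  obtain ⟨p, hp⟩ := exists_polynomial_near_of_continuousOn 0 1 H hH.continuousOn (ε / K) (by positivity)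
  have h1 := ac_bound (fun x => H x - p.eval x) (ε / K) (fun x hx => by
    rw [abs_sub_comm]; exact (hp x hx).le)
  have h2 := ac_add H (fun x => - p.eval x) hH (p.continuous.neg)
  have h3 := ac_smul (-1) (fun x => p.eval x)
  have h4 := ac_poly p
  simp only [← sub_eq_add_neg] at h2
  have h3' : ∫ a in (0 : ℝ)..(Real.pi / 2), ∫ t in (0 : ℝ)..(Real.pi / 2),
      Real.sin a * (-Polynomial.eval (Real.sin a * Real.cos t) p) =
      - (Real.pi / 2 * ∫ x in (0 : ℝ)..1, p.eval x) := by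
    rw [← h4]
    simpa using h3
  have h5 : ∫ x in (0 : ℝ)..1, (H x - p.eval x) =
      (∫ x in (0 : ℝ)..1, H x) - ∫ x in (0 : ℝ)..1, p.eval x :=
    intervalIntegral.integral_sub (hH.intervalIntegrable _ _) (p.continuous.intervalIntegrable _ _)
  have h6 : |∫ x in (0 : ℝ)..1, (H x - p.eval x)| ≤ ε / K := by
    have h := intervalIntegral.norm_integral_le_of_norm_le_const (a := (0 : ℝ)) (b := 1)
      (f := fun x => H x - p.eval x) (C := ε / K) ?_
    · rw [sub_zero, abs_one, mul_one, Real.norm_eq_abs] at h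
      exact h
    · intro x hx
      rw [uIoc_of_le zero_le_one] at hx
      rw [Real.norm_eq_abs, abs_sub_comm]
      exact (hp x ⟨hx.1.le, hx.2⟩).le
  rw [h2, h3'] at h1
  rw [h5] at h6
  have h7 : ε / K * (Real.pi / 2) * (Real.pi / 2) + Real.pi / 2 * (ε / K) = ε := by
    field_simp
    rw [hK]
    ring
  set A := ∫ a in (0 : ℝ)..(Real.pi / 2), ∫ t in (0 : ℝ)..(Real.pi / 2),
    Real.sin a * H (Real.sin a * Real.cos t)
  set B := ∫ x in (0 : ℝ)..1, H x
  set P := ∫ x in (0 : ℝ)..1, p.eval x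
  have h8 : |Real.pi / 2 * (B - P)| ≤ Real.pi / 2 * (ε / K) := by
    rw [abs_mul, abs_of_nonneg hpi]
    exact mul_le_mul_of_nonneg_left h6 hpi
  have h9 : A - Real.pi / 2 * B = (A + -(Real.pi / 2 * P)) - Real.pi / 2 * (B - P) := by ring
  rw [h9]
  calc |(A + -(Real.pi / 2 * P)) - Real.pi / 2 * (B - P)|
      ≤ |A + -(Real.pi / 2 * P)| + |Real.pi / 2 * (B - P)| := abs_sub _ _
    _ ≤ ε / K * (Real.pi / 2) * (Real.pi / 2) + Real.pi / 2 * (ε / K) := add_le_add h1 h8
    _ = ε := h7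

end KleinEmb
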