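import Pool.Agent.Helper719.Emb.Defs

open scoped ContDiff Topology ENNReal
open Set MeasureTheory Filter

noncomputable section

namespace KleinEmb

/-- velocity of the position-momentum pair `z = (p, P)` -/
def KleinMetric.vel (g : KleinMetric) (z : (ℝ × ℝ) × (ℝ × ℝ)) : ℝ × ℝ :=
  ((g.G z.1 * z.2.1 - g.F z.1 * z.2.2) / (g.E z.1 * g.G z.1 - g.F z.1 ^ 2),
   (g.E z.1 * z.2.2 - g.F z.1 * z.2.1) / (g.E z.1 * g.G z.1 - g.F z.1 ^ 2))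

/-- half of the derivative in direction `d` of `g_p (v, v)` -/
def KleinMetric.force (g : KleinMetric) (p v d : ℝ × ℝ) : ℝ :=
  (fderiv ℝ g.E p d * v.1 ^ 2 + 2 * fderiv ℝ g.F p d * (v.1 * v.2) + fderiv ℝ g.G p d * v.2 ^ 2) / 2

/-- the geodesic vector field in the variables (position, momentum) -/
def KleinMetric.field (g : KleinMetric) (z : (ℝ × ℝ) × (ℝ × ℝ)) : (ℝ × ℝ) × (ℝ × ℝ) :=
  (g.vel z, (g.force z.1 (g.vel z) (1, 0), g.force z.1 (g.vel z) (0, 1)))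

/-- momentum of a tangent vector -/
def KleinMetric.mom (g : KleinMetric) (p v : ℝ × ℝ) : ℝ × ℝ :=
  (g.E p * v.1 + g.F p * v.2, g.F p * v.1 + g.G p * v.2)

/-- the Hamiltonian -/
def KleinMetric.ener (g : KleinMetric) (z : (ℝ × ℝ) × (ℝ × ℝ)) : ℝ :=
  (z.2.1 * (g.vel z).1 + z.2.2 * (g.vel z).2) / 2

/-- the (global) geodesic flow -/
def KleinMetric.IsFlow (g : KleinMetric) (φ : ℝ → (ℝ × ℝ) × (ℝ × ℝ) → (ℝ × ℝ) × (ℝ × ℝ)) : Prop :=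
  (∀ z, φ 0 z = z) ∧ (∀ z t, HasDerivAt (fun s => φ s z) (g.field (φ t z)) t) ∧
    ContDiff ℝ 2 (fun w : ℝ × ((ℝ × ℝ) × (ℝ × ℝ)) => φ w.1 w.2)

end KleinEmb
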