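import Pool.Agent.Helper719.Emb.Defs
import Pool.Agent.Helper719.Emb.P_ham

open scoped ContDiff Topology ENNReal
open Set MeasureTheory Filter

noncomputable section

namespace KleinEmb



theorem alg (g : KleinMetric) (p v w : ℝ × ℝ) :
    g.vel (p, g.mom p v) = v ∧ g.ener (p, g.mom p v) = g.inn p v v / 2 ∧
    (g.mom p v).1 * w.1 + (g.mom p v).2 * w.2 = g.inn p v w ∧
    g.inn p w v = g.inn p v w ∧ 0 ≤ g.inn p v v ∧ (g.inn p v v = 0 → v = 0) ∧
    g.inn p v w ≤ g.len p v * g.len p w ∧ g.len p v ^ 2 = g.inn p v v ∧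
    (∀ P : ℝ × ℝ, g.mom p (g.vel (p, P)) = P) := by
  obtain ⟨v1, v2⟩ := v
  obtain ⟨w1, w2⟩ := w
  have hE := g.E_pos p
  have hD := g.det_pos p
  have hDne : g.E p * g.G p - g.F p ^ 2 ≠ 0 := hD.ne'
  have hvel : ∀ a b : ℝ, g.vel (p, g.mom p (a, b)) = (a, b) := by
    intro a b
    simp only [KleinMetric.vel, KleinMetric.mom]
    apply Prod.ext
    · simp only []
      rw [div_eq_iff hDne]
      ring
    · simp only []
      rw [div_eq_iff hDne]
      ring
  have hmom : (g.mom p (v1, v2)).1 * w1 + (g.mom p (v1, v2)).2 * w2 =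
      g.inn p (v1, v2) (w1, w2) := by
    simp only [KleinMetric.mom, KleinMetric.inn]
    ring
  have hsymm : g.inn p (w1, w2) (v1, v2) = g.inn p (v1, v2) (w1, w2) := by
    simp only [KleinMetric.inn]
    ring
  have hsq : ∀ a b : ℝ, g.E p * g.inn p (a, b) (a, b) =
      (g.E p * a + g.F p * b) ^ 2 + (g.E p * g.G p - g.F p ^ 2) * b ^ 2 := by
    intro a b
    simp only [KleinMetric.inn]
    ring
  have hnn : ∀ a b : ℝ, 0 ≤ g.inn p (a, b) (a, b) := by
    intro a b
    have h1 : 0 ≤ g.E p * g.inn p (a, b) (a, b) := by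
      rw [hsq]
      positivity
    exact nonneg_of_mul_nonneg_right h1 hE
  have hCS : g.inn p (v1, v2) (w1, w2) ^ 2 ≤
      g.inn p (v1, v2) (v1, v2) * g.inn p (w1, w2) (w1, w2) := by
    have h1 : g.inn p (v1, v2) (v1, v2) * g.inn p (w1, w2) (w1, w2) -
        g.inn p (v1, v2) (w1, w2) ^ 2 =
        (g.E p * g.G p - g.F p ^ 2) * (v1 * w2 - v2 * w1) ^ 2 := by
      simp only [KleinMetric.inn]
      ring
    have h2 : 0 ≤ (g.E p * g.G p - g.F p ^ 2) * (v1 * w2 - v2 * w1) ^ 2 := by positivity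
    linarith
  refine ⟨hvel v1 v2, ?_, hmom, hsymm, hnn v1 v2, ?_, ?_, ?_, ?_⟩
  · rw [KleinMetric.ener, hvel v1 v2]
    simp only [KleinMetric.mom, KleinMetric.inn]
    ring
  · intro h0
    have h1 := hsq v1 v2
    rw [h0, mul_zero] at h1
    have h2 : 0 ≤ (g.E p * v1 + g.F p * v2) ^ 2 := sq_nonneg _
    have h3 : 0 ≤ (g.E p * g.G p - g.F p ^ 2) * v2 ^ 2 := by positivity
    have h4 : (g.E p * g.G p - g.F p ^ 2) * v2 ^ 2 = 0 := by linarith
    have h5 : v2 = 0 := by
      rcases mul_eq_zero.1 h4 with h | h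
      · exact absurd h hDne
      · exact pow_eq_zero_iff (two_ne_zero) |>.1 h
    have h6 : (g.E p * v1 + g.F p * v2) ^ 2 = 0 := by linarith
    have h7 : g.E p * v1 + g.F p * v2 = 0 := pow_eq_zero_iff (two_ne_zero) |>.1 h6
    rw [h5, mul_zero, add_zero] at h7
    have h8 : v1 = 0 := by
      rcases mul_eq_zero.1 h7 with h | h
      · exact absurd h hE.ne'
      · exact h
    rw [h5, h8]
    rfl
  · rw [KleinMetric.len, KleinMetric.len, ← Real.sqrt_mul (hnn v1 v2)]
    exact Real.le_sqrt_of_sq_le hCS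
  · rw [KleinMetric.len, Real.sq_sqrt (hnn v1 v2)]
  · intro P
    obtain ⟨P1, P2⟩ := P
    simp only [KleinMetric.vel, KleinMetric.mom]
    apply Prod.ext
    · simp only []
      rw [← mul_div_assoc, ← mul_div_assoc, ← add_div, div_eq_iff hDne]
      ring
    · simp only []
      rw [← mul_div_assoc, ← mul_div_assoc, ← add_div, div_eq_iff hDne]
      ring
end KleinEmb
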