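import Pool.Agent.Helper719.Emb.Defs

open scoped ContDiff Topology ENNReal
open Set MeasureTheory Filter

noncomputable section

namespace KleinEmb



theorem avg_cont (f : ℝ × ℝ → ℝ) (hf : ContDiff ℝ 1 f) :
    Differentiable ℝ (fun y => (∫ x in (0 : ℝ)..(2 * Real.pi), f (x, y)) / (2 * Real.pi)) := by
  intro y0
  apply DifferentiableAt.div_const
  have hfc : Continuous f := hf.continuous
  have hfd : Continuous (fderiv ℝ f) := hf.continuous_fderiv (by norm_num)
  set F' : ℝ → ℝ → ℝ := fun y x => fderiv ℝ f (x, y) (0, 1) with hF'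
  have hF'c : Continuous (fun p : ℝ × ℝ => F' p.2 p.1) := by
    have : (fun p : ℝ × ℝ => F' p.2 p.1) = fun p => fderiv ℝ f p (0, 1) := by
      funext p; rfl
    rw [this]
    exact hfd.clm_apply continuous_const
  have hK : IsCompact (Set.Icc (0 : ℝ) (2 * Real.pi) ×ˢ Set.Icc (y0 - 1) (y0 + 1)) :=
    isCompact_Icc.prod isCompact_Icc
  obtain ⟨C, hC⟩ := hK.exists_bound_of_continuousOn hF'c.continuousOn
  have h2pi : (0 : ℝ) ≤ 2 * Real.pi := by positivity
  have h := intervalIntegral.hasDerivAt_integral_of_dominated_loc_of_deriv_le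
    (μ := MeasureTheory.volume) (a := 0) (b := 2 * Real.pi)
    (F := fun y x => f (x, y)) (F' := F') (x₀ := y0) (s := Set.Icc (y0 - 1) (y0 + 1))
    (bound := fun _ => C) (Icc_mem_nhds (by linarith) (by linarith))
    (Filter.Eventually.of_forall fun y =>
      (hfc.comp (continuous_id.prodMk continuous_const)).aestronglyMeasurable)
    ((hfc.comp (continuous_id.prodMk continuous_const)).intervalIntegrable _ _)
    ((hF'c.comp (continuous_id.prodMk continuous_const)).aestronglyMeasurable)
    (Filter.Eventually.of_forall fun t ht y hy => ?_)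
    intervalIntegrable_const
    (Filter.Eventually.of_forall fun t ht y hy => ?_)
  · exact h.2.differentiableAt
  · rw [Set.uIoc_of_le h2pi] at ht
    exact hC (t, y) ⟨⟨ht.1.le, ht.2⟩, hy⟩
  · have h1 : HasFDerivAt f (fderiv ℝ f (t, y)) (t, y) :=
      (hf.differentiable (by norm_num)).differentiableAt.hasFDerivAt
    have h2 : HasDerivAt (fun y : ℝ => ((t, y) : ℝ × ℝ)) (0, 1) y :=
      (hasDerivAt_const y t).prodMk (hasDerivAt_id y)
    exact h1.comp_hasDerivAt y h2

end KleinEmb
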