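import Pool.Agent.Helper719.Emb.Defs
import Pool.Agent.Helper719.Emb.P_avg_cont

open scoped ContDiff Topology ENNReal
open Set MeasureTheory Filter

noncomputable section

namespace KleinEmb



theorem area_avg (f : ℝ × ℝ → ℝ) (hf : ContDiff ℝ 1 f) (hpos : ∀ p, 0 < f p) (b : ℝ) (hb : 0 < b)
    (hglide : ∀ x y, f (x + Real.pi, -y) = f (x, y)) (hshift : ∀ x y, f (x, y + 2 * b) = f (x, y)) :
    2 * Real.pi * ∫ y in (0 : ℝ)..b,
      ((∫ x in (0 : ℝ)..(2 * Real.pi), f (x, y)) / (2 * Real.pi)) ^ 2 ≤
      ∫ x in (0 : ℝ)..Real.pi, ∫ y in (0 : ℝ)..(2 * b), f (x, y) ^ 2 := by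
  have hpi := Real.pi_pos
  have hcf : Continuous f := hf.continuous
  set A : ℝ → ℝ := fun y => (∫ x in (0 : ℝ)..(2 * Real.pi), f (x, y)) / (2 * Real.pi) with hA
  have hAc : Continuous A := (avg_cont f hf).continuous
  have hper : ∀ x y, f (x + 2 * Real.pi, y) = f (x, y) := by
    intro x y
    have h1 := hglide (x + Real.pi) (-y)
    rw [neg_neg] at h1
    have h2 : x + Real.pi + Real.pi = x + 2 * Real.pi := by ring
    rw [h2] at h1
    rw [h1, hglide]
  have hneg : ∀ x y, f (x, -y) = f (x + Real.pi, y) := by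
    intro x y
    have := hglide x (-y)
    rw [neg_neg] at this
    exact this.symm
  have hAneg : ∀ y, A (-y) = A y := by
    intro y
    simp only [hA]
    congr 1
    have h1 : Function.Periodic (fun x => f (x, y)) (2 * Real.pi) := fun x => hper x y
    have h2 := h1.intervalIntegral_add_eq Real.pi 0
    simp only [hneg]
    rw [intervalIntegral.integral_comp_add_right (fun x => f (x, y)) Real.pi]
    rw [zero_add] at h2 ⊢
    rw [← h2, add_comm]
  have hAper : ∀ y, A (y + 2 * b) = A y := by
    intro y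
    simp only [hA, hshift]
  have hA2 : ∫ y in (0 : ℝ)..(2 * b), A y ^ 2 = 2 * ∫ y in (0 : ℝ)..b, A y ^ 2 := by
    have hi : ∀ u v, IntervalIntegrable (fun y => A y ^ 2) volume u v :=
      fun u v => (hAc.pow 2).intervalIntegrable u v
    rw [← intervalIntegral.integral_add_adjacent_intervals (hi 0 b) (hi b (2 * b)),
      two_mul (∫ y in (0 : ℝ)..b, A y ^ 2)]
    congr 1
    have h1 := intervalIntegral.integral_comp_sub_left (a := 0) (b := b) (fun y => A y ^ 2) (2 * b)
    have h2 : ∀ y, A (2 * b - y) = A y := by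
      intro y
      have : 2 * b - y = -y + 2 * b := by ring
      rw [this, hAper, hAneg]
    simp only [h2] at h1
    have e1 : 2 * b - b = b := by ring
    rw [e1, sub_zero] at h1
    exact h1.symm
  set S : ℝ → ℝ := fun x => ∫ y in (0 : ℝ)..(2 * b), f (x, y) ^ 2 with hS
  have hSc : Continuous S := by
    apply intervalIntegral.continuous_parametric_intervalIntegral_of_continuous'
      (f := fun x y => f (x, y) ^ 2)
    exact (hcf.pow 2)
  have hSper : ∀ x, S (x + Real.pi) = S x := by
    intro x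
    simp only [hS]
    have h1 : Function.Periodic (fun y => f (x, y) ^ 2) (2 * b) := fun y => by
      show f (x, y + 2 * b) ^ 2 = f (x, y) ^ 2
      rw [hshift]
    have h2 := h1.intervalIntegral_add_eq (-(2 * b)) 0
    simp only [← hneg]
    rw [intervalIntegral.integral_comp_neg (fun y => f (x, y) ^ 2)]
    rw [zero_add, neg_add_cancel] at h2
    rw [neg_zero]
    exact h2
  have hS2 : ∫ x in (0 : ℝ)..(2 * Real.pi), S x = 2 * ∫ x in (0 : ℝ)..Real.pi, S x := by
    have hi : ∀ u v, IntervalIntegrable S volume u v := fun u v => hSc.intervalIntegrable u v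
    rw [← intervalIntegral.integral_add_adjacent_intervals (hi 0 Real.pi) (hi Real.pi (2 * Real.pi)),
      two_mul (∫ x in (0 : ℝ)..Real.pi, S x)]
    congr 1
    have h1 := intervalIntegral.integral_comp_add_right (a := 0) (b := Real.pi) S Real.pi
    simp only [hSper] at h1
    rw [zero_add, ← two_mul] at h1
    exact h1.symm
  have hfub : ∫ x in (0 : ℝ)..(2 * Real.pi), S x =
      ∫ y in (0 : ℝ)..(2 * b), ∫ x in (0 : ℝ)..(2 * Real.pi), f (x, y) ^ 2 := by
    apply intervalIntegral_intervalIntegral_swap (F := fun x y => f (x, y) ^ 2)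
    have hc : Continuous (Function.uncurry fun x y => f (x, y) ^ 2) := hcf.pow 2
    have hsub : uIoc (0 : ℝ) (2 * Real.pi) ×ˢ uIoc (0 : ℝ) (2 * b) ⊆
        uIcc (0 : ℝ) (2 * Real.pi) ×ˢ uIcc (0 : ℝ) (2 * b) :=
      Set.prod_mono uIoc_subset_uIcc uIoc_subset_uIcc
    exact (hc.continuousOn.integrableOn_compact (isCompact_uIcc.prod isCompact_uIcc)).mono_set hsub
  have hCS : ∀ y, 2 * Real.pi * A y ^ 2 ≤ ∫ x in (0 : ℝ)..(2 * Real.pi), f (x, y) ^ 2 := by
    intro y
    have hc1 : Continuous (fun x => f (x, y)) := hcf.comp (continuous_id.prodMk continuous_const)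
    have h0 : 0 ≤ ∫ x in (0 : ℝ)..(2 * Real.pi), (f (x, y) - A y) ^ 2 :=
      intervalIntegral.integral_nonneg (by positivity) fun x _ => sq_nonneg _
    have h1 : ∫ x in (0 : ℝ)..(2 * Real.pi), (f (x, y) - A y) ^ 2 =
        (∫ x in (0 : ℝ)..(2 * Real.pi), f (x, y) ^ 2) -
          (2 * A y) * (∫ x in (0 : ℝ)..(2 * Real.pi), f (x, y)) + 2 * Real.pi * A y ^ 2 := by
      have e1 : ∀ x, (f (x, y) - A y) ^ 2 = f (x, y) ^ 2 - (2 * A y) * f (x, y) + A y ^ 2 := by
        intro x; ring
      simp only [e1]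
      rw [intervalIntegral.integral_add, intervalIntegral.integral_sub,
        intervalIntegral.integral_const_mul, intervalIntegral.integral_const]
      · simp
      · exact (hc1.pow 2).intervalIntegrable _ _
      · exact (continuous_const.mul hc1).intervalIntegrable _ _
      · exact ((hc1.pow 2).sub (continuous_const.mul hc1)).intervalIntegrable _ _
      · exact continuous_const.intervalIntegrable _ _
    have h2 : ∫ x in (0 : ℝ)..(2 * Real.pi), f (x, y) = 2 * Real.pi * A y := by
      simp only [hA]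
      field_simp
    rw [h1, h2] at h0
    nlinarith
  have hmono : ∫ y in (0 : ℝ)..(2 * b), 2 * Real.pi * A y ^ 2 ≤
      ∫ y in (0 : ℝ)..(2 * b), ∫ x in (0 : ℝ)..(2 * Real.pi), f (x, y) ^ 2 := by
    apply intervalIntegral.integral_mono_on (by positivity)
    · exact (continuous_const.mul (hAc.pow 2)).intervalIntegrable _ _
    · apply Continuous.intervalIntegrable
      apply intervalIntegral.continuous_parametric_intervalIntegral_of_continuous'
        (f := fun y x => f (x, y) ^ 2)
      exact (hcf.comp continuous_swap).pow 2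
    · intro y _
      exact hCS y
  rw [intervalIntegral.integral_const_mul, hA2, ← hfub, hS2] at hmono
  have hfin : 2 * Real.pi * (∫ y in (0 : ℝ)..b, A y ^ 2) ≤ ∫ x in (0 : ℝ)..Real.pi, S x := by
    linarith
  exact hfin

end KleinEmb
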