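import Pool.Agent.Helper719.Emb.Defs

open scoped ContDiff Topology ENNReal
open Set MeasureTheory Filter

noncomputable section

namespace KleinEmb



theorem ae_iter (W : ℝ × ℝ → ℝ) (hW : Continuous W) (hn : ∀ p, 0 ≤ W p) (a b : ℝ) (ha : 0 ≤ a)
    (hb : 0 ≤ b) :
    ∫ x in (0 : ℝ)..a, ∫ y in (0 : ℝ)..b, W (x, y) =
      (∫⁻ p in Ico 0 a ×ˢ Ico 0 b, ENNReal.ofReal (W p)).toReal := by
  have hint : IntegrableOn W (Ico 0 a ×ˢ Ico 0 b) (volume : Measure (ℝ × ℝ)) :=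
    (hW.continuousOn.integrableOn_compact (isCompact_Icc.prod isCompact_Icc)).mono_set
      (Set.prod_mono Ico_subset_Icc_self Ico_subset_Icc_self)
  rw [← integral_eq_lintegral_of_nonneg_ae (Filter.Eventually.of_forall hn)
    hW.aestronglyMeasurable]
  have h1 : ∫ p in Ico 0 a ×ˢ Ico 0 b, W p ∂(volume : Measure (ℝ × ℝ)) =
      ∫ x in Ico 0 a, ∫ y in Ico 0 b, W (x, y) := by
    rw [Measure.volume_eq_prod] at hint ⊢
    exact setIntegral_prod W hint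
  rw [h1, intervalIntegral.integral_of_le ha]
  rw [← integral_Icc_eq_integral_Ioc, integral_Icc_eq_integral_Ico]
  refine setIntegral_congr_fun measurableSet_Ico fun x _ => ?_
  show ∫ y in (0 : ℝ)..b, W (x, y) = _
  rw [intervalIntegral.integral_of_le hb, ← integral_Icc_eq_integral_Ioc,
    integral_Icc_eq_integral_Ico]

/-- sign of the glide -/
def ae_sg (n : ℤ) : ℝ := (-1) ^ n

theorem ae_sg_cases (n : ℤ) : ae_sg n = 1 ∨ ae_sg n = -1 := by
  unfold ae_sg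
  rcases Int.even_or_odd n with h | h
  · left; exact h.neg_one_zpow
  · right; exact h.neg_one_zpow

theorem ae_sg_succ (n : ℤ) : ae_sg (n + 1) = -ae_sg n := by
  unfold ae_sg
  rw [zpow_add₀ (by norm_num)]; simp

/-- the glides -/
def ae_T (A B : ℝ) (m : ℤ × ℤ) (w : ℝ × ℝ) : ℝ × ℝ := (w.1 + m.1 * A, ae_sg m.1 * w.2 + m.2 * B)

theorem ae_T_inj (A B : ℝ) (m : ℤ × ℤ) : Function.Injective (ae_T A B m) := by
  intro v w h
  have h1 := congrArg Prod.fst h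
  have h2 := congrArg Prod.snd h
  simp only [ae_T] at h1 h2
  refine Prod.ext (by linarith) ?_
  rcases ae_sg_cases m.1 with hs | hs <;> rw [hs] at h2 <;> linarith

theorem ae_T_cont (A B : ℝ) (m : ℤ × ℤ) : Continuous (ae_T A B m) := by
  unfold ae_T
  fun_prop

theorem ae_T_mp (A B : ℝ) (m : ℤ × ℤ) : MeasurePreserving (ae_T A B m) volume volume := by
  have h1 : MeasurePreserving (fun x : ℝ => x + m.1 * A) volume volume :=
    measurePreserving_add_right volume _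
  have h2 : MeasurePreserving (fun y : ℝ => ae_sg m.1 * y + m.2 * B) volume volume := by
    rcases ae_sg_cases m.1 with hs | hs
    · rw [hs]
      simpa using measurePreserving_add_right (volume : Measure ℝ) ((m.2 : ℝ) * B)
    · rw [hs]
      have h3 := (measurePreserving_add_right (volume : Measure ℝ) ((m.2 : ℝ) * B)).comp
        (Measure.measurePreserving_neg (volume : Measure ℝ))
      have h4 : (fun y : ℝ => (-1 : ℝ) * y + m.2 * B) = (fun x : ℝ => x + (m.2 : ℝ) * B) ∘ Neg.neg := by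
        funext y; simp
      rw [h4]
      exact h3
  have h3 := h1.prod h2
  rw [← Measure.volume_eq_prod] at h3
  exact h3

theorem ae_T_emb (A B : ℝ) (m : ℤ × ℤ) : MeasurableEmbedding (ae_T A B m) :=
  (ae_T_cont A B m).measurableEmbedding (ae_T_inj A B m)

/-- existence for images of the box -/
theorem ae_ex_img {A B : ℝ} (hA : 0 < A) (hB : 0 < B) (w : ℝ × ℝ) :
    ∃ m : ℤ × ℤ, ∃ p ∈ Ico 0 A ×ˢ Ico 0 B, ae_T A B m p = w := by
  set n := ⌊w.1 / A⌋ with hn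
  have h1 := Int.floor_le (w.1 / A)
  have h2 := Int.lt_floor_add_one (w.1 / A)
  rw [le_div_iff₀ hA] at h1
  rw [div_lt_iff₀ hA] at h2
  rw [← hn] at h1 h2
  rcases ae_sg_cases n with hs | hs
  · have h3 := Int.floor_le (w.2 / B)
    have h4 := Int.lt_floor_add_one (w.2 / B)
    rw [le_div_iff₀ hB] at h3
    rw [div_lt_iff₀ hB] at h4
    refine ⟨(n, ⌊w.2 / B⌋), (w.1 - n * A, w.2 - ⌊w.2 / B⌋ * B), ⟨⟨?_, ?_⟩, ?_, ?_⟩, ?_⟩
    · simp only; linarith
    · simp only; linarith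
    · simp only; linarith
    · simp only; linarith
    · simp only [ae_T, hs]
      refine Prod.ext ?_ ?_ <;> simp only <;> ring
  · have h3 := Int.le_ceil (w.2 / B)
    have h4 := Int.ceil_lt_add_one (w.2 / B)
    rw [div_le_iff₀ hB] at h3
    have h5 : (⌈w.2 / B⌉ : ℝ) * B < w.2 + B := by
      have := mul_lt_mul_of_pos_right h4 hB
      rwa [add_mul, div_mul_cancel₀ _ hB.ne', one_mul] at this
    refine ⟨(n, ⌈w.2 / B⌉), (w.1 - n * A, ⌈w.2 / B⌉ * B - w.2), ⟨⟨?_, ?_⟩, ?_, ?_⟩, ?_⟩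
    · simp only; linarith
    · simp only; linarith
    · simp only; linarith
    · simp only; linarith
    · simp only [ae_T, hs]
      refine Prod.ext ?_ ?_ <;> simp only <;> ring

theorem ae_int {A x y : ℝ} (hA : 0 < A) (hx : x ∈ Ico 0 A) (hy : y ∈ Ico 0 A) {n n' : ℤ}
    (h : x + n * A = y + n' * A) : n = n' ∧ x = y := by
  have h1 : (((n - n' : ℤ)) : ℝ) * A = y - x := by push_cast; linarith
  have h2 : ((n - n' : ℤ) : ℝ) * A < 1 * A := by rw [h1]; linarith [hx.1, hy.2]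
  have h3 : (-1) * A < ((n - n' : ℤ) : ℝ) * A := by rw [h1]; linarith [hx.2, hy.1]
  have h4 : ((n - n' : ℤ) : ℝ) < 1 := lt_of_mul_lt_mul_right h2 hA.le
  have h5 : (-1 : ℝ) < ((n - n' : ℤ) : ℝ) := lt_of_mul_lt_mul_right h3 hA.le
  have h6 : n - n' < 1 := by exact_mod_cast h4
  have h7 : -1 < n - n' := by exact_mod_cast h5
  have h8 : n = n' := by omega
  refine ⟨h8, ?_⟩
  rw [h8] at h
  linarith

theorem ae_uniq_img {A B : ℝ} (hA : 0 < A) (hB : 0 < B) {m m' : ℤ × ℤ} {p p' : ℝ × ℝ}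
    (hp : p ∈ Ico 0 A ×ˢ Ico 0 B) (hp' : p' ∈ Ico 0 A ×ˢ Ico 0 B)
    (h : ae_T A B m p = ae_T A B m' p') : m = m' := by
  have h1 := congrArg Prod.fst h
  have h2 := congrArg Prod.snd h
  simp only [ae_T] at h1 h2
  obtain ⟨h3, h4⟩ := ae_int hA hp.1 hp'.1 h1
  rw [← h3] at h2
  refine Prod.ext h3 ?_
  rcases ae_sg_cases m.1 with hs | hs
  · rw [hs] at h2
    exact (ae_int hB hp.2 hp'.2 (by linarith)).1
  · rw [hs] at h2
    have := (ae_int (n := m'.2) (n' := m.2) hB hp.2 hp'.2 (by linarith)).1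
    exact this.symm

/-- existence for preimages of the box -/
theorem ae_ex_pre {A B : ℝ} (hA : 0 < A) (hB : 0 < B) (w : ℝ × ℝ) :
    ∃ m : ℤ × ℤ, ae_T A B m w ∈ Ico 0 A ×ˢ Ico 0 B := by
  have h1 := Int.floor_le (w.1 / A)
  have h2 := Int.lt_floor_add_one (w.1 / A)
  rw [le_div_iff₀ hA] at h1
  rw [div_lt_iff₀ hA] at h2
  set n := ⌊w.1 / A⌋ with hn
  set y := ae_sg (-n) * w.2 with hy
  have h3 := Int.floor_le (y / B)
  have h4 := Int.lt_floor_add_one (y / B)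
  rw [le_div_iff₀ hB] at h3
  rw [div_lt_iff₀ hB] at h4
  refine ⟨(-n, -⌊y / B⌋), ⟨⟨?_, ?_⟩, ?_, ?_⟩⟩
  · simp only [ae_T]; push_cast; linarith
  · simp only [ae_T]; push_cast; linarith
  · show 0 ≤ ae_sg (-n) * w.2 + ((-⌊y / B⌋ : ℤ) : ℝ) * B
    rw [← hy]; push_cast; linarith
  · show ae_sg (-n) * w.2 + ((-⌊y / B⌋ : ℤ) : ℝ) * B < B
    rw [← hy]; push_cast; linarith

theorem ae_uniq_pre {A B : ℝ} (hA : 0 < A) (hB : 0 < B) {m m' : ℤ × ℤ} {w : ℝ × ℝ}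
    (hp : ae_T A B m w ∈ Ico 0 A ×ˢ Ico 0 B) (hp' : ae_T A B m' w ∈ Ico 0 A ×ˢ Ico 0 B) :
    m = m' := by
  have h1 := ae_int (n := m'.1) (n' := m.1) hA hp.1 hp'.1 (by simp only [ae_T]; ring)
  have h2 : m.1 = m'.1 := h1.1.symm
  refine Prod.ext h2 ?_
  have h3 := ae_int (n := m'.2) (n' := m.2) hB hp.2 hp'.2 (by simp only [ae_T]; rw [h2]; ring)
  exact h3.1.symm

theorem ae_equiv {A B C D : ℝ} (Φ : ℝ × ℝ → ℝ × ℝ)
    (h5 : ∀ x y, Φ (x + A, -y) = ((Φ (x, y)).1 + C, -(Φ (x, y)).2))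
    (h6 : ∀ x y, Φ (x, y + B) = ((Φ (x, y)).1, (Φ (x, y)).2 + D)) (m : ℤ × ℤ) (p : ℝ × ℝ) :
    Φ (ae_T A B m p) = ae_T C D m (Φ p) := by
  have hk : ∀ (k : ℤ) (x y : ℝ), Φ (x, y + k * B) = ((Φ (x, y)).1, (Φ (x, y)).2 + k * D) := by
    intro k
    induction k using Int.induction_on with
    | zero => intro x y; simp
    | succ i ih =>
      intro x y
      have h := h6 x (y + ((i : ℤ) : ℝ) * B)
      rw [ih x y] at h
      have e : y + (((i : ℤ) + 1 : ℤ) : ℝ) * B = y + ((i : ℤ) : ℝ) * B + B := by push_cast; ring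
      rw [e, h]
      refine Prod.ext rfl ?_
      simp only; push_cast; ring
    | pred i ih =>
      intro x y
      have h := h6 x (y + ((-(i : ℤ) - 1 : ℤ) : ℝ) * B)
      have e : y + ((-(i : ℤ) - 1 : ℤ) : ℝ) * B + B = y + ((-(i : ℤ) : ℤ) : ℝ) * B := by
        push_cast; ring
      rw [e, ih x y] at h
      have h1 := congrArg Prod.fst h
      have h2 := congrArg Prod.snd h
      simp only at h1 h2
      refine Prod.ext h1.symm ?_
      simp only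
      push_cast at h2 ⊢
      linarith
  have hn : ∀ (n : ℤ) (x y : ℝ), Φ (x + n * A, ae_sg n * y) =
      ((Φ (x, y)).1 + n * C, ae_sg n * (Φ (x, y)).2) := by
    intro n
    induction n using Int.induction_on with
    | zero => intro x y; simp [ae_sg]
    | succ i ih =>
      intro x y
      have h := h5 (x + (i : ℤ) * A) (ae_sg i * y)
      rw [ih x y] at h
      have e : x + (((i : ℤ) + 1 : ℤ) : ℝ) * A = x + ((i : ℤ) : ℝ) * A + A := by push_cast; ring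
      rw [e, ae_sg_succ, neg_mul, h]
      refine Prod.ext ?_ ?_
      · simp only; push_cast; ring
      · simp only; ring
    | pred i ih =>
      intro x y
      have h := h5 (x + ((-(i : ℤ) - 1 : ℤ) : ℝ) * A) (ae_sg (-(i : ℤ) - 1) * y)
      have e : x + ((-(i : ℤ) - 1 : ℤ) : ℝ) * A + A = x + ((-(i : ℤ) : ℤ) : ℝ) * A := by
        push_cast; ring
      have e2 : ae_sg (-(i : ℤ)) = - ae_sg (-(i : ℤ) - 1) := by
        have := ae_sg_succ (-(i : ℤ) - 1)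
        rwa [sub_add_cancel] at this
      have e3 : -(ae_sg (-(i : ℤ) - 1) * y) = ae_sg (-(i : ℤ)) * y := by rw [e2]; ring
      rw [e, e3, ih x y] at h
      have h1 := congrArg Prod.fst h
      have h2 := congrArg Prod.snd h
      simp only at h1 h2
      refine Prod.ext ?_ ?_
      · simp only
        push_cast at h1 ⊢
        linarith
      · simp only
        rw [e2] at h2
        linarith
  obtain ⟨n, k⟩ := m
  obtain ⟨x, y⟩ := p
  have := hk k (x + n * A) (ae_sg n * y)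
  rw [hn n x y] at this
  simpa only [ae_T] using this

theorem ae_dom {A B C D : ℝ} (hA : 0 < A) (hB : 0 < B) (hC : 0 < C) (hD : 0 < D)
    (Φ Ψ : ℝ × ℝ → ℝ × ℝ) (hΨ : Continuous Ψ) (h1 : ∀ p, Ψ (Φ p) = p)
    (h2 : ∀ w, Φ (Ψ w) = w)
    (heq : ∀ m p, Φ (ae_T A B m p) = ae_T C D m (Φ p)) (h : ℝ × ℝ → ℝ≥0∞)
    (hinv : ∀ m w, h (ae_T C D m w) = h w) :
    ∫⁻ w in Φ '' (Ico 0 A ×ˢ Ico 0 B), h w = ∫⁻ w in Ico 0 C ×ˢ Ico 0 D, h w := by
  set D1 : Set (ℝ × ℝ) := Ico 0 A ×ˢ Ico 0 B with hD1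
  set D2 : Set (ℝ × ℝ) := Ico 0 C ×ˢ Ico 0 D with hD2
  have hm1 : MeasurableSet D1 := measurableSet_Ico.prod measurableSet_Ico
  have hm2 : MeasurableSet D2 := measurableSet_Ico.prod measurableSet_Ico
  have hpre : Φ '' D1 = Ψ ⁻¹' D1 := by
    ext w
    constructor
    · rintro ⟨p, hp, rfl⟩
      rw [mem_preimage, h1]; exact hp
    · intro hw
      exact ⟨Ψ w, hw, h2 w⟩
  have hmA : MeasurableSet (Φ '' D1) := by
    rw [hpre]; exact hΨ.measurable hm1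
  have hinj : Function.Injective Φ := Function.LeftInverse.injective h1
  -- first decomposition
  have e1 : Φ '' D1 = ⋃ m : ℤ × ℤ, (Φ '' D1 ∩ ae_T C D m ⁻¹' D2) := by
    rw [← inter_iUnion]
    refine (inter_eq_left.mpr fun w _ => ?_).symm
    obtain ⟨m, hm⟩ := ae_ex_pre hC hD w
    exact mem_iUnion.mpr ⟨m, hm⟩
  have e2 : D2 = ⋃ m : ℤ × ℤ, (ae_T C D m '' (Φ '' D1) ∩ D2) := by
    rw [← iUnion_inter]
    refine (inter_eq_right.mpr fun w _ => ?_).symm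
    obtain ⟨m, p, hp, hpw⟩ := ae_ex_img hA hB (Ψ w)
    refine mem_iUnion.mpr ⟨m, Φ p, ⟨p, hp, rfl⟩, ?_⟩
    rw [← heq, hpw, h2]
  have d1 : Pairwise (Function.onFun Disjoint fun m : ℤ × ℤ => (Φ '' D1 ∩ ae_T C D m ⁻¹' D2)) := by
    intro m m' hmm
    refine Set.disjoint_left.mpr fun w hw hw' => hmm ?_
    exact ae_uniq_pre hC hD hw.2 hw'.2
  have d2 : Pairwise (Function.onFun Disjoint
      fun m : ℤ × ℤ => (ae_T C D m '' (Φ '' D1) ∩ D2)) := by
    intro m m' hmm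
    refine Set.disjoint_left.mpr fun w hw hw' => hmm ?_
    obtain ⟨_, ⟨p, hp, rfl⟩, hpw⟩ := hw.1
    obtain ⟨_, ⟨p', hp', rfl⟩, hpw'⟩ := hw'.1
    rw [← heq] at hpw hpw'
    exact ae_uniq_img hA hB hp hp' (hinj (hpw.trans hpw'.symm))
  have m1 : ∀ m : ℤ × ℤ, MeasurableSet (Φ '' D1 ∩ ae_T C D m ⁻¹' D2) := fun m =>
    hmA.inter ((ae_T_cont C D m).measurable hm2)
  have m2 : ∀ m : ℤ × ℤ, MeasurableSet (ae_T C D m '' (Φ '' D1) ∩ D2) := fun m =>
    ((ae_T_emb C D m).measurableSet_image.mpr hmA).inter hm2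
  calc ∫⁻ w in Φ '' D1, h w = ∫⁻ w in ⋃ m : ℤ × ℤ, (Φ '' D1 ∩ ae_T C D m ⁻¹' D2), h w := by
        rw [← e1]
    _ = ∑' m : ℤ × ℤ, ∫⁻ w in (Φ '' D1 ∩ ae_T C D m ⁻¹' D2), h w := lintegral_iUnion m1 d1 _
    _ = ∑' m : ℤ × ℤ, ∫⁻ w in (ae_T C D m '' (Φ '' D1) ∩ D2), h w := by
        congr 1
        funext m
        rw [← Set.image_inter_preimage (ae_T C D m)]
        rw [← (ae_T_mp C D m).setLIntegral_comp_emb (ae_T_emb C D m)]
        simp only [hinv]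
    _ = ∫⁻ w in ⋃ m : ℤ × ℤ, (ae_T C D m '' (Φ '' D1) ∩ D2), h w :=
        (lintegral_iUnion m2 d2 _).symm
    _ = ∫⁻ w in D2, h w := by rw [← e2]

theorem ae_det (L : ℝ × ℝ →L[ℝ] ℝ × ℝ) :
    L.det = (L (1, 0)).1 * (L (0, 1)).2 - (L (0, 1)).1 * (L (1, 0)).2 := by
  rw [ContinuousLinearMap.det, ← LinearMap.det_toMatrix (Module.Basis.finTwoProd ℝ),
    Matrix.det_fin_two]
  simp [LinearMap.toMatrix_apply]

theorem area_eq (g : KleinMetric) (b : ℝ) (Φ Ψ : ℝ × ℝ → ℝ × ℝ) (f : ℝ × ℝ → ℝ) (hb : 0 < b)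
    (hΦ : ContDiff ℝ ∞ Φ) (hΨ : ContDiff ℝ ∞ Ψ) (hf : ContDiff ℝ ∞ f) (h1 : ∀ p, Ψ (Φ p) = p)
    (h2 : ∀ w, Φ (Ψ w) = w) (hpos : ∀ w, 0 < f w)
    (h3 : ∀ x y, f (x + Real.pi, -y) = f (x, y)) (h4 : ∀ x y, f (x, y + 2 * b) = f (x, y))
    (h5 : ∀ x y, Φ (x + 1 / 2, -y) = ((Φ (x, y)).1 + Real.pi, -(Φ (x, y)).2))
    (h6 : ∀ x y, Φ (x, y + 1) = ((Φ (x, y)).1, (Φ (x, y)).2 + 2 * b))
    (h7 : ∀ p v, g.inn p v v = f (Φ p) ^ 2 * ((fderiv ℝ Φ p v).1 ^ 2 + (fderiv ℝ Φ p v).2 ^ 2)) :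
    g.vol = ∫ x in (0 : ℝ)..Real.pi, ∫ y in (0 : ℝ)..(2 * b), f (x, y) ^ 2 := by
  have hpi := Real.pi_pos
  have hEc := g.smooth_E.continuous
  have hFc := g.smooth_F.continuous
  have hGc := g.smooth_G.continuous
  have hfc := hf.continuous
  -- the determinant
  have hW : ∀ p, √(g.E p * g.G p - g.F p ^ 2) = |(fderiv ℝ Φ p).det| * f (Φ p) ^ 2 := by
    intro p
    have e1 := h7 p (1, 0)
    have e2 := h7 p (0, 1)
    have e3 := h7 p (1, 1)
    have hadd : fderiv ℝ Φ p (1, 1) = fderiv ℝ Φ p (1, 0) + fderiv ℝ Φ p (0, 1) := by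
      rw [← map_add]; simp
    rw [hadd] at e3
    simp only [KleinMetric.inn, Prod.fst_add, Prod.snd_add] at e1 e2 e3
    set u := fderiv ℝ Φ p (1, 0)
    set v := fderiv ℝ Φ p (0, 1)
    have hE : g.E p = f (Φ p) ^ 2 * (u.1 ^ 2 + u.2 ^ 2) := by linarith
    have hG : g.G p = f (Φ p) ^ 2 * (v.1 ^ 2 + v.2 ^ 2) := by linarith
    have hF : g.F p = f (Φ p) ^ 2 * (u.1 * v.1 + u.2 * v.2) := by
      nlinarith
    rw [ae_det, hE, hG, hF]
    have : f (Φ p) ^ 2 * (u.1 ^ 2 + u.2 ^ 2) * (f (Φ p) ^ 2 * (v.1 ^ 2 + v.2 ^ 2)) -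
        (f (Φ p) ^ 2 * (u.1 * v.1 + u.2 * v.2)) ^ 2 =
        ((u.1 * v.2 - v.1 * u.2) * f (Φ p) ^ 2) ^ 2 := by ring
    rw [this, Real.sqrt_sq_eq_abs, abs_mul, abs_of_nonneg (sq_nonneg (f (Φ p)))]
  have hTinv : ∀ (m : ℤ × ℤ) (w : ℝ × ℝ), f (ae_T Real.pi (2 * b) m w) = f w := by
    intro m w
    have := ae_equiv (A := Real.pi) (B := 2 * b) (C := 0) (D := 0)
      (fun w => (f w, 0)) (by intro x y; simp [h3]) (by intro x y; simp [h4]) m w
    have := congrArg Prod.fst this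
    simpa [ae_T] using this
  have hcv := lintegral_image_eq_lintegral_abs_det_fderiv_mul (volume : Measure (ℝ × ℝ))
    (s := Ico 0 (1 / 2) ×ˢ Ico 0 1) (f := Φ) (f' := fun p => fderiv ℝ Φ p)
    (measurableSet_Ico.prod measurableSet_Ico)
    (fun p _ => ((hΦ.differentiable (by simp)) p).hasFDerivAt.hasFDerivWithinAt)
    ((Function.LeftInverse.injective h1).injOn) (fun w => ENNReal.ofReal (f w ^ 2))
  rw [ae_dom (A := 1 / 2) (B := 1) (C := Real.pi) (D := 2 * b) (by norm_num) one_pos hpi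
    (by positivity) Φ Ψ hΨ.continuous h1 h2
    (ae_equiv Φ h5 h6) (fun w => ENNReal.ofReal (f w ^ 2))
    (by intro m w; simp only [hTinv])] at hcv
  unfold KleinMetric.vol
  rw [ae_iter (fun p => √(g.E p * g.G p - g.F p ^ 2)) (by fun_prop)
    (fun p => Real.sqrt_nonneg _) (1 / 2) 1 (by norm_num) (by norm_num)]
  rw [ae_iter (fun p => f p ^ 2) (by fun_prop) (fun p => sq_nonneg _) Real.pi (2 * b) hpi.le
    (by positivity)]
  rw [hcv]
  congr 1
  refine lintegral_congr fun p => ?_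
  rw [hW, ENNReal.ofReal_mul (abs_nonneg _)]

end KleinEmb
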