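import Pool.Agent.Helper719.Emb.Defs

open scoped ContDiff Topology ENNReal
open Set MeasureTheory Filter

noncomputable section

namespace KleinEmb



theorem opt_sinh : Real.sinh (Real.log (1 + √2)) = 1 := by
  have h : Real.log (1 + √2) = Real.arsinh 1 := by
    unfold Real.arsinh
    norm_num
  rw [h, Real.sinh_arsinh]

theorem opt_cosh : Real.cosh (Real.log (1 + √2)) = √2 := by
  have h := Real.cosh_sq (Real.log (1 + √2))
  rw [opt_sinh] at h
  rw [← Real.sqrt_sq (Real.cosh_pos _).le, h]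
  norm_num

theorem opt_int : ∫ t in (0 : ℝ)..(Real.log (1 + √2)), 1 / Real.cosh t ^ 2 = 1 / √2 := by
  have h : ∀ t ∈ Set.uIcc 0 (Real.log (1 + √2)),
      HasDerivAt (fun t => Real.sinh t / Real.cosh t) (1 / Real.cosh t ^ 2) t := by
    intro t _
    have h1 := (Real.hasDerivAt_sinh t).div (Real.hasDerivAt_cosh t) (Real.cosh_pos t).ne'
    have h2 : Real.cosh t * Real.cosh t - Real.sinh t * Real.sinh t = 1 := by
      nlinarith [Real.cosh_sq t]
    rw [h2] at h1
    exact h1
  have hc : Continuous fun t => 1 / Real.cosh t ^ 2 :=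
    continuous_const.div (Real.continuous_cosh.pow 2) fun t => pow_ne_zero _ (Real.cosh_pos t).ne'
  rw [intervalIntegral.integral_eq_sub_of_hasDerivAt h (hc.intervalIntegrable _ _), opt_sinh,
    opt_cosh, Real.sinh_zero]
  simp

theorem opt_ge (h : ℝ → ℝ) (hh : Continuous h) (κ : ℝ) (hκ : 0 < κ)
    (h1 : κ / √2 ≤ ∫ t in (0 : ℝ)..(Real.log (1 + √2)), h t / Real.cosh t) :
    κ ^ 2 / √2 + ∫ t in (0 : ℝ)..(Real.log (1 + √2)), (h t - κ / Real.cosh t) ^ 2 ≤
      ∫ t in (0 : ℝ)..(Real.log (1 + √2)), h t ^ 2 := by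
  set c0 := Real.log (1 + √2) with hc0
  have hcc : ∀ t, Real.cosh t ≠ 0 := fun t => (Real.cosh_pos t).ne'
  have c1 : Continuous fun t => h t ^ 2 := hh.pow 2
  have c2 : Continuous fun t => h t / Real.cosh t := hh.div Real.continuous_cosh hcc
  have c3 : Continuous fun t => 1 / Real.cosh t ^ 2 :=
    continuous_const.div (Real.continuous_cosh.pow 2) fun t => pow_ne_zero _ (hcc t)
  have e : ∫ t in (0 : ℝ)..c0, (h t - κ / Real.cosh t) ^ 2 =
      (∫ t in (0 : ℝ)..c0, h t ^ 2) - 2 * κ * (∫ t in (0 : ℝ)..c0, h t / Real.cosh t) +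
        κ ^ 2 * (1 / √2) := by
    have e1 : ∫ t in (0 : ℝ)..c0, (h t - κ / Real.cosh t) ^ 2 =
        ∫ t in (0 : ℝ)..c0, ((h t ^ 2 - 2 * κ * (h t / Real.cosh t)) +
          κ ^ 2 * (1 / Real.cosh t ^ 2)) := by
      refine intervalIntegral.integral_congr fun t _ => ?_
      have := hcc t
      show (h t - κ / Real.cosh t) ^ 2 = (h t ^ 2 - 2 * κ * (h t / Real.cosh t)) +
          κ ^ 2 * (1 / Real.cosh t ^ 2)
      field_simp
      ring
    have c12 : Continuous fun t => h t ^ 2 - 2 * κ * (h t / Real.cosh t) :=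
      c1.sub (continuous_const.mul c2)
    have c22 : Continuous fun t => 2 * κ * (h t / Real.cosh t) := continuous_const.mul c2
    have c33 : Continuous fun t => κ ^ 2 * (1 / Real.cosh t ^ 2) := continuous_const.mul c3
    rw [e1, intervalIntegral.integral_add (c12.intervalIntegrable _ _) (c33.intervalIntegrable _ _),
      intervalIntegral.integral_sub (c1.intervalIntegrable _ _) (c22.intervalIntegrable _ _),
      intervalIntegral.integral_const_mul, intervalIntegral.integral_const_mul, ← opt_int]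
  rw [e]
  have h2 : 2 * κ * (κ / √2) ≤ 2 * κ * ∫ t in (0 : ℝ)..c0, h t / Real.cosh t :=
    mul_le_mul_of_nonneg_left h1 (by positivity)
  have h3 : 2 * κ * (κ / √2) = κ ^ 2 / √2 + κ ^ 2 * (1 / √2) := by ring
  linarith

end KleinEmb
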