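import Pool.Agent.Helper719.Emb.Defs

open scoped ContDiff Topology ENNReal
open Set MeasureTheory Filter

noncomputable section

namespace KleinEmb



theorem opt_lt_tanh (y : ℝ) : HasDerivAt Real.tanh (1 / Real.cosh y ^ 2) y := by
  have h1 := (Real.hasDerivAt_sinh y).div (Real.hasDerivAt_cosh y) (Real.cosh_pos y).ne'
  have h2 : Real.tanh = Real.sinh / Real.cosh := by
    funext x
    exact Real.tanh_eq_sinh_div_cosh x
  rw [h2]
  refine h1.congr_deriv ?_
  have := Real.cosh_sq y
  rw [show Real.cosh y * Real.cosh y - Real.sinh y * Real.sinh y = 1 by nlinarith]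

theorem opt_lt_gd (y : ℝ) :
    HasDerivAt (fun y => Real.arctan (Real.sinh y)) (1 / Real.cosh y) y := by
  have h1 := (Real.hasDerivAt_sinh y).arctan
  convert h1 using 1
  have h2 := Real.cosh_sq y
  have h3 := Real.cosh_pos y
  rw [show 1 + Real.sinh y ^ 2 = Real.cosh y ^ 2 by linarith]
  field_simp

theorem opt_lt_sinh0 : Real.sinh (Real.log (1 + √2)) = 1 := by
  have : Real.log (1 + √2) = Real.arsinh 1 := by
    unfold Real.arsinh
    norm_num
  rw [this, Real.sinh_arsinh]

theorem opt_lt_cosh0 : Real.cosh (Real.log (1 + √2)) = √2 := by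
  have h := Real.cosh_sq (Real.log (1 + √2))
  rw [opt_lt_sinh0] at h
  rw [← Real.sqrt_sq (Real.cosh_pos (Real.log (1 + √2))).le, h]
  norm_num

theorem opt_lt_theta (c : ℝ) (hc : c < Real.log (1 + √2)) :
    1 / √2 < Real.tanh c + √2 * (Real.pi / 4 - Real.arctan (Real.sinh c)) := by
  have hder : ∀ y, HasDerivAt
      (fun y => Real.tanh y + √2 * (Real.pi / 4 - Real.arctan (Real.sinh y)))
      (1 / Real.cosh y ^ 2 + √2 * (0 - 1 / Real.cosh y)) y := fun y =>
    (opt_lt_tanh y).add (((hasDerivAt_const y (Real.pi / 4)).sub (opt_lt_gd y)).const_mul √2)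
  have hanti : StrictAnti
      (fun y => Real.tanh y + √2 * (Real.pi / 4 - Real.arctan (Real.sinh y))) := by
    apply strictAnti_of_hasDerivAt_neg hder
    intro y
    have h1 : 1 ≤ Real.cosh y := Real.one_le_cosh y
    have h2 : 1 < √2 := by
      rw [Real.lt_sqrt (by norm_num)]
      norm_num
    have h3 : 0 < Real.cosh y := Real.cosh_pos y
    have h4 : 1 / Real.cosh y ^ 2 + √2 * (0 - 1 / Real.cosh y)
        = (1 - √2 * Real.cosh y) / Real.cosh y ^ 2 := by
      field_simp
      ring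
    rw [h4]
    apply div_neg_of_neg_of_pos
    · nlinarith
    · positivity
  have h := hanti hc
  simp only at h
  rw [opt_lt_sinh0, Real.arctan_one, Real.tanh_eq_sinh_div_cosh (Real.log (1 + √2)), opt_lt_sinh0,
    opt_lt_cosh0, sub_self, mul_zero, add_zero] at h
  exact h

theorem opt_lt (h : ℝ → ℝ) (hh : Continuous h) (κ c : ℝ) (hκ : 0 < κ) (hc0 : 0 < c)
    (hc : c < Real.log (1 + √2))
    (h1 : ∀ y, 0 ≤ y → y ≤ c → κ * Real.tanh y ≤ ∫ t in (0 : ℝ)..y, h t / Real.cosh t)
    (h2 : κ * Real.pi / 4 ≤ ∫ t in (0 : ℝ)..c, h t) :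
    κ ^ 2 / √2 < ∫ t in (0 : ℝ)..c, h t ^ 2 := by
  have hcosh : ∀ y, 0 < Real.cosh y := Real.cosh_pos
  have hs2 : 0 < √2 := by positivity
  have hcc : ∀ y, 0 ≤ y → y ≤ c → Real.cosh y ≤ √2 := fun y h0 h1 => by
    rw [← opt_lt_cosh0, Real.cosh_le_cosh, abs_of_nonneg h0, abs_of_nonneg (by linarith)]
    linarith
  have hcont : Continuous (fun t => h t / Real.cosh t) :=
    hh.div Real.continuous_cosh (fun t => (hcosh t).ne')
  have hcs : Continuous (fun t => 1 / Real.cosh t) :=
    continuous_const.div Real.continuous_cosh (fun t => (hcosh t).ne')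
  have hcs2 : Continuous (fun t => 1 / Real.cosh t ^ 2) :=
    continuous_const.div (Real.continuous_cosh.pow 2) (fun t => (pow_pos (hcosh t) 2).ne')
  have hA : ∀ y, HasDerivAt (fun y => (∫ t in (0:ℝ)..y, h t / Real.cosh t) - κ * Real.tanh y)
      (h y / Real.cosh y - κ * (1 / Real.cosh y ^ 2)) y := fun y =>
    (hcont.integral_hasStrictDerivAt 0 y).hasDerivAt.sub ((opt_lt_tanh y).const_mul κ)
  have hw : ∀ y, HasDerivAt (fun y => 1 - Real.cosh y / √2) (-(Real.sinh y / √2)) y := by
    intro y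
    have := (hasDerivAt_const y (1:ℝ)).sub ((Real.hasDerivAt_cosh y).div_const √2)
    rwa [zero_sub] at this
  have hparts := intervalIntegral.integral_mul_deriv_eq_deriv_mul (a := 0) (b := c)
    (fun x _ => hA x) (fun x _ => hw x)
    ((hcont.sub (hcs2.const_mul κ)).intervalIntegrable 0 c)
    ((Real.continuous_sinh.div_const √2).neg.intervalIntegrable 0 c)
  have hAc : 0 ≤ (∫ t in (0:ℝ)..c, h t / Real.cosh t) - κ * Real.tanh c := by
    have := h1 c hc0.le le_rfl
    linarith
  have hwc : 0 ≤ 1 - Real.cosh c / √2 := by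
    rw [sub_nonneg, div_le_one hs2]
    exact hcc c hc0.le le_rfl
  have hneg : ∫ x in (0:ℝ)..c, ((∫ t in (0:ℝ)..x, h t / Real.cosh t) - κ * Real.tanh x) *
      (-(Real.sinh x / √2)) ≤ 0 := by
    rw [← neg_nonneg, ← intervalIntegral.integral_neg]
    apply intervalIntegral.integral_nonneg hc0.le
    intro u hu
    rw [mul_neg, neg_neg]
    apply mul_nonneg
    · have := h1 u hu.1 hu.2
      linarith
    · exact div_nonneg (Real.sinh_nonneg_iff.mpr hu.1) hs2.le
  have h00 : (∫ t in (0:ℝ)..0, h t / Real.cosh t) - κ * Real.tanh 0 = 0 := by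
    simp
  rw [h00, zero_mul, sub_zero] at hparts
  have hpos : 0 ≤ ∫ x in (0:ℝ)..c, (h x / Real.cosh x - κ * (1 / Real.cosh x ^ 2)) *
      (1 - Real.cosh x / √2) := by
    have := mul_nonneg hAc hwc
    linarith
  have hsplit : ∫ x in (0:ℝ)..c, (h x / Real.cosh x - κ * (1 / Real.cosh x ^ 2)) *
      (1 - Real.cosh x / √2) = (∫ x in (0:ℝ)..c, h x / Real.cosh x) -
        (∫ x in (0:ℝ)..c, h x) * (1 / √2) - κ * (∫ x in (0:ℝ)..c, 1 / Real.cosh x ^ 2) +
        κ / √2 * ∫ x in (0:ℝ)..c, 1 / Real.cosh x := by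
    rw [← intervalIntegral.integral_const_mul, ← intervalIntegral.integral_const_mul,
      ← intervalIntegral.integral_mul_const, ← intervalIntegral.integral_sub,
      ← intervalIntegral.integral_sub, ← intervalIntegral.integral_add]
    · apply intervalIntegral.integral_congr
      intro x _
      have h3 := (hcosh x).ne'
      simp only
      field_simp
      ring
    · exact ((hcont.sub (hh.mul_const _)).sub (hcs2.const_mul κ)).intervalIntegrable 0 c
    · exact (hcs.const_mul _).intervalIntegrable 0 c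
    · exact (hcont.sub (hh.mul_const _)).intervalIntegrable 0 c
    · exact (hcs2.const_mul κ).intervalIntegrable 0 c
    · exact hcont.intervalIntegrable 0 c
    · exact (hh.mul_const _).intervalIntegrable 0 c
  have htanh : ∫ x in (0:ℝ)..c, 1 / Real.cosh x ^ 2 = Real.tanh c := by
    rw [intervalIntegral.integral_eq_sub_of_hasDerivAt (fun x _ => opt_lt_tanh x)
      (hcs2.intervalIntegrable 0 c)]
    simp
  have hgd : ∫ x in (0:ℝ)..c, 1 / Real.cosh x = Real.arctan (Real.sinh c) := by
    rw [intervalIntegral.integral_eq_sub_of_hasDerivAt (fun x _ => opt_lt_gd x)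
      (hcs.intervalIntegrable 0 c)]
    simp
  have hsq : 0 ≤ ∫ x in (0:ℝ)..c, (h x - κ * (1 / Real.cosh x)) ^ 2 :=
    intervalIntegral.integral_nonneg hc0.le (fun u _ => sq_nonneg _)
  have hsq2 : ∫ x in (0:ℝ)..c, (h x - κ * (1 / Real.cosh x)) ^ 2 =
      (∫ x in (0:ℝ)..c, h x ^ 2) - (2 * κ) * (∫ x in (0:ℝ)..c, h x / Real.cosh x) +
        κ ^ 2 * ∫ x in (0:ℝ)..c, 1 / Real.cosh x ^ 2 := by
    rw [← intervalIntegral.integral_const_mul, ← intervalIntegral.integral_const_mul,
      ← intervalIntegral.integral_sub, ← intervalIntegral.integral_add]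
    · apply intervalIntegral.integral_congr
      intro x _
      have h3 := (hcosh x).ne'
      simp only
      field_simp
      ring
    · exact ((hh.pow 2).sub (hcont.const_mul _)).intervalIntegrable 0 c
    · exact (hcs2.const_mul _).intervalIntegrable 0 c
    · exact (hh.pow 2).intervalIntegrable 0 c
    · exact (hcont.const_mul _).intervalIntegrable 0 c
  rw [hsplit, htanh, hgd] at hpos
  rw [hsq2, htanh] at hsq
  have htheta := opt_lt_theta c hc
  have hsq22 : √2 * √2 = 2 := Real.mul_self_sqrt (by norm_num)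
  have hinv : √2 = 2 * (1 / √2) := by
    field_simp
    linarith
  have hk2 : 0 < κ ^ 2 := by positivity
  set J := ∫ x in (0:ℝ)..c, h x / Real.cosh x
  set H := ∫ x in (0:ℝ)..c, h x
  set Q := ∫ x in (0:ℝ)..c, h x ^ 2
  set s := 1 / √2 with hs
  have hs0 : 0 < s := by positivity
  have e1 : κ / √2 = κ * s := by rw [hs]; ring
  have e2 : κ ^ 2 / √2 = κ ^ 2 * s := by rw [hs]; ring
  rw [e1] at hpos
  rw [e2]
  rw [hinv] at htheta
  have h5 : κ * Real.pi / 4 * s ≤ H * s := mul_le_mul_of_nonneg_right h2 hs0.le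
  have h6 : κ * (Real.pi / 4 * s + Real.tanh c - s * Real.arctan (Real.sinh c)) ≤ J := by
    nlinarith
  have h7 := mul_le_mul_of_nonneg_left h6 (by positivity : 0 ≤ 2 * κ)
  have h8 := mul_lt_mul_of_pos_left htheta hk2
  nlinarith

end KleinEmb
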