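import Pool.Agent.Helper719.Emb.Defs
import Pool.Agent.Helper719.Emb.P_opt_ge
import Pool.Agent.Helper719.Emb.P_opt_lt

open scoped ContDiff Topology ENNReal
open Set MeasureTheory Filter

noncomputable section

namespace KleinEmb



theorem iadd (f g : ℝ → ℝ) (hf : Continuous f) (hg : Continuous g) (a b : ℝ) :
    ∫ t in a..b, (f t + g t) = (∫ t in a..b, f t) + ∫ t in a..b, g t :=
  intervalIntegral.integral_add (hf.intervalIntegrable _ _) (hg.intervalIntegrable _ _)

theorem fold_aux (g : ℝ → ℝ) (hg : Continuous g) (b : ℝ) :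
    ∫ t in (0 : ℝ)..b, g t = ∫ t in (0 : ℝ)..(b / 2), (g t + g (b - t)) := by
  have hi : ∀ u v : ℝ, IntervalIntegrable g volume u v := fun u v => hg.intervalIntegrable u v
  have h1 : ∫ t in (0 : ℝ)..(b / 2), g (b - t) = ∫ t in (b / 2)..b, g t := by
    rw [intervalIntegral.integral_comp_sub_left (fun x => g x) b]
    congr 1 <;> ring
  have h2 := iadd g (fun t => g (b - t)) hg (hg.comp (continuous_const.sub continuous_id)) 0 (b / 2)
  rw [h2, h1, intervalIntegral.integral_add_adjacent_intervals (hi _ _) (hi _ _)]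

theorem bv_c0_pos : 0 < Real.log (1 + √2) := by
  apply Real.log_pos
  have : 0 < √2 := by positivity
  linarith

theorem sinh_c0 : Real.sinh (Real.log (1 + √2)) = 1 := by
  have h2 : (√2) ^ 2 = 2 := Real.sq_sqrt (by norm_num)
  have hp : 0 < 1 + √2 := by positivity
  rw [Real.sinh_eq, Real.exp_neg, Real.exp_log hp]
  field_simp
  nlinarith

theorem bv_cosh_c0 : Real.cosh (Real.log (1 + √2)) = √2 := by
  have h2 : (√2) ^ 2 = 2 := Real.sq_sqrt (by norm_num)
  have hp : 0 < 1 + √2 := by positivity
  rw [Real.cosh_eq, Real.exp_neg, Real.exp_log hp]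
  field_simp
  nlinarith

theorem bavard1d (F : ℝ → ℝ) (hF : Differentiable ℝ F) (hpos : ∀ y, 0 < F y) (κ b : ℝ)
    (hκ : 0 < κ) (hb : 0 < b)
    (h1 : ∀ y, 0 ≤ y → κ * Real.tanh y ≤ ∫ t in (0 : ℝ)..y, F t / Real.cosh t)
    (h2 : ∀ y, 0 ≤ y → κ * Real.tanh y ≤ ∫ t in (0 : ℝ)..y, F (b - t) / Real.cosh t)
    (h3 : κ * Real.pi / 2 ≤ ∫ t in (0 : ℝ)..b, F t) :
    √2 * κ ^ 2 < ∫ t in (0 : ℝ)..b, F t ^ 2 := by
  have hFc : Continuous F := hF.continuous
  have hFb : Continuous (fun t => F (b - t)) := hFc.comp (continuous_const.sub continuous_id)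
  set c0 : ℝ := Real.log (1 + √2) with hc0
  have hc0p : 0 < c0 := bv_c0_pos
  set c : ℝ := b / 2 with hc
  have hcp : 0 < c := by rw [hc]; linarith
  set h : ℝ → ℝ := fun y => (F y + F (b - y)) / 2 with hh
  set d : ℝ → ℝ := fun y => (F y - F (b - y)) / 2 with hd
  have hhc : Continuous h := (hFc.add hFb).div_const 2
  have hdc : Continuous d := (hFc.sub hFb).div_const 2
  have s2 : (√2) ^ 2 = 2 := Real.sq_sqrt (by norm_num)
  have s2p : 0 < √2 := by positivity
  have hdiv : ∀ f : ℝ → ℝ, Continuous f → Continuous (fun t => f t / Real.cosh t) := by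
    intro f hf
    exact hf.div Real.continuous_cosh (fun t => (Real.cosh_pos t).ne')
  -- the averaged hypothesis
  have H1 : ∀ y, 0 ≤ y → κ * Real.tanh y ≤ ∫ t in (0 : ℝ)..y, h t / Real.cosh t := by
    intro y hy
    have e : ∫ t in (0 : ℝ)..y, h t / Real.cosh t =
        ((∫ t in (0 : ℝ)..y, F t / Real.cosh t) + ∫ t in (0 : ℝ)..y, F (b - t) / Real.cosh t) / 2 := by
      rw [← intervalIntegral.integral_add ((hdiv _ hFc).intervalIntegrable _ _)
        ((hdiv _ hFb).intervalIntegrable _ _), ← intervalIntegral.integral_div]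
      apply intervalIntegral.integral_congr
      intro t _
      simp only [hh]
      ring
    rw [e]
    have := h1 y hy
    have := h2 y hy
    linarith
  have H3 : κ * Real.pi / 4 ≤ ∫ t in (0 : ℝ)..c, h t := by
    have e := fold_aux F hFc b
    have e2 : ∫ t in (0 : ℝ)..c, h t = (∫ t in (0 : ℝ)..c, (F t + F (b - t))) / 2 := by
      rw [← intervalIntegral.integral_div]
    rw [e2, hc, ← e]
    linarith
  have key : ∫ t in (0 : ℝ)..b, F t ^ 2 = 2 * (∫ t in (0 : ℝ)..c, h t ^ 2) + 2 * ∫ t in (0 : ℝ)..c, d t ^ 2 := by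
    have k1 := iadd (fun t => 2 * h t ^ 2) (fun t => 2 * d t ^ 2) (continuous_const.mul (hhc.pow 2))
      (continuous_const.mul (hdc.pow 2)) 0 c
    rw [fold_aux (fun t => F t ^ 2) (hFc.pow 2) b, ← intervalIntegral.integral_const_mul,
      ← intervalIntegral.integral_const_mul, ← k1]
    apply intervalIntegral.integral_congr
    intro t _
    simp only [hh, hd]
    ring
  have dnn : 0 ≤ ∫ t in (0 : ℝ)..c, d t ^ 2 :=
    intervalIntegral.integral_nonneg hcp.le (fun t _ => sq_nonneg _)
  have half : √2 * κ ^ 2 = 2 * (κ ^ 2 / √2) := by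
    field_simp
    rw [s2]
  rw [key]
  rcases lt_or_ge c c0 with hlt | hge
  · have := opt_lt h hhc κ c hκ hcp hlt (fun y hy _ => H1 y hy) H3
    rw [half]
    linarith
  · have hop : κ / √2 ≤ ∫ t in (0 : ℝ)..c0, h t / Real.cosh t := by
      have := H1 c0 hc0p.le
      have e : Real.tanh c0 = 1 / √2 := by
        rw [Real.tanh_eq_sinh_div_cosh, hc0, sinh_c0, bv_cosh_c0]
      rw [e] at this
      calc κ / √2 = κ * (1 / √2) := by ring
        _ ≤ _ := this
    have hge1 := opt_ge h hhc κ hκ hop
    have hnn : 0 ≤ ∫ t in (0 : ℝ)..c0, (h t - κ / Real.cosh t) ^ 2 :=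
      intervalIntegral.integral_nonneg hc0p.le (fun t _ => sq_nonneg _)
    have split : ∫ t in (0 : ℝ)..c, h t ^ 2 = (∫ t in (0 : ℝ)..c0, h t ^ 2) + ∫ t in c0..c, h t ^ 2 :=
      (intervalIntegral.integral_add_adjacent_intervals ((hhc.pow 2).intervalIntegrable _ _)
        ((hhc.pow 2).intervalIntegrable _ _)).symm
    rcases hge.lt_or_eq with hgt | heq
    · have hhp : ∀ t, 0 < h t := fun t => by
        simp only [hh]; have := hpos t; have := hpos (b - t); linarith
      have pos2 : 0 < ∫ t in c0..c, h t ^ 2 :=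
        intervalIntegral.integral_pos hgt (hhc.pow 2).continuousOn (fun t _ => sq_nonneg _)
          ⟨c, ⟨hgt.le, le_refl _⟩, pow_pos (hhp c) 2⟩
      rw [half, split]
      linarith
    · by_contra hcon
      push Not at hcon
      rw [half, ← heq] at hcon
      have hdnn : 0 ≤ ∫ t in (0 : ℝ)..c0, d t ^ 2 :=
        intervalIntegral.integral_nonneg hc0p.le (fun t _ => sq_nonneg _)
      have hcK : Continuous (fun t => κ / Real.cosh t) := hdiv _ continuous_const
      have z1 : ∫ t in (0 : ℝ)..c0, ((h t - κ / Real.cosh t) ^ 2 + d t ^ 2) ≤ 0 := by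
        have k1 := iadd (fun t => (h t - κ / Real.cosh t) ^ 2) (fun t => d t ^ 2) ((hhc.sub hcK).pow 2)
          (hdc.pow 2) 0 c0
        rw [k1]
        change κ ^ 2 / √2 + (∫ t in (0 : ℝ)..c0, (h t - κ / Real.cosh t) ^ 2) ≤
          ∫ t in (0 : ℝ)..c0, h t ^ 2 at hge1
        linarith
      have z2 : ∀ y ∈ Icc (0 : ℝ) c0, (h y - κ / Real.cosh y) ^ 2 + d y ^ 2 ≤ 0 := by
        intro y hy
        by_contra hne
        push Not at hne
        have := intervalIntegral.integral_pos hc0p
          (f := fun t => (h t - κ / Real.cosh t) ^ 2 + d t ^ 2)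
          (((hhc.sub hcK).pow 2).add (hdc.pow 2)).continuousOn
          (fun t _ => by positivity) ⟨y, hy, hne⟩
        linarith
      have z3 : ∀ y ∈ Icc (0 : ℝ) c0, F y = κ / Real.cosh y ∧ F (b - y) = κ / Real.cosh y := by
        intro y hy
        have h5 := z2 y hy
        have a1 : (h y - κ / Real.cosh y) ^ 2 = 0 := by
          nlinarith [sq_nonneg (h y - κ / Real.cosh y), sq_nonneg (d y)]
        have a2 : d y ^ 2 = 0 := by
          nlinarith [sq_nonneg (h y - κ / Real.cosh y), sq_nonneg (d y)]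
        have b1 : h y - κ / Real.cosh y = 0 := by simpa using a1
        have b2 : d y = 0 := by simpa using a2
        simp only [hh] at b1
        simp only [hd] at b2
        constructor <;> linarith
      have hbc : b = 2 * c0 := by rw [heq, hc]; ring
      have hsc : Real.sinh c0 = 1 := sinh_c0
      have hD := (hF c0).hasDerivAt
      have hcosh : HasDerivAt Real.cosh (Real.sinh c0) c0 := Real.hasDerivAt_cosh c0
      have hcp0 : Real.cosh c0 ≠ 0 := (Real.cosh_pos c0).ne'
      have hL : HasDerivAt (fun y => κ / Real.cosh y) (-(κ * Real.sinh c0) / Real.cosh c0 ^ 2) c0 := by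
        have := (hasDerivAt_const c0 κ).div hcosh hcp0
        have e2 : (0 * Real.cosh c0 - κ * Real.sinh c0) / Real.cosh c0 ^ 2 =
          -(κ * Real.sinh c0) / Real.cosh c0 ^ 2 := by ring
        rw [e2] at this
        exact this
      have hR : HasDerivAt (fun y => κ / Real.cosh (b - y)) ((κ * Real.sinh c0) / Real.cosh c0 ^ 2) c0 := by
        have e1 : b - c0 = c0 := by rw [hbc]; ring
        have h6 : HasDerivAt (fun y => b - y) (-1) c0 := by
          simpa using (hasDerivAt_id c0).const_sub b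
        have h7 : HasDerivAt (fun y => κ / Real.cosh y) (-(κ * Real.sinh c0) / Real.cosh c0 ^ 2) (b - c0) := by
          rw [e1]; exact hL
        have := HasDerivAt.comp c0 h7 h6
        have e2 : -(κ * Real.sinh c0) / Real.cosh c0 ^ 2 * -1 = (κ * Real.sinh c0) / Real.cosh c0 ^ 2 := by
          ring
        rw [e2] at this
        exact this
      have D1 : deriv F c0 = -(κ * Real.sinh c0) / Real.cosh c0 ^ 2 := by
        have w1 : HasDerivWithinAt F (-(κ * Real.sinh c0) / Real.cosh c0 ^ 2) (Iic c0) c0 := by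
          refine hL.hasDerivWithinAt.congr_of_eventuallyEq ?_ (z3 c0 ⟨hc0p.le, le_refl _⟩).1
          filter_upwards [Icc_mem_nhdsLE hc0p] with y hy
          exact (z3 y hy).1
        exact (uniqueDiffWithinAt_Iic c0).eq_deriv _ hD.hasDerivWithinAt w1
      have D2 : deriv F c0 = (κ * Real.sinh c0) / Real.cosh c0 ^ 2 := by
        have w1 : HasDerivWithinAt F ((κ * Real.sinh c0) / Real.cosh c0 ^ 2) (Ici c0) c0 := by
          have hb2 : c0 < b := by rw [hbc]; linarith
          refine hR.hasDerivWithinAt.congr_of_eventuallyEq ?_ ?_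
          · filter_upwards [Icc_mem_nhdsGE hb2] with y hy
            have := (z3 (b - y) ⟨by linarith [hy.2], by rw [hbc]; linarith [hy.1]⟩).2
            rw [sub_sub_cancel] at this
            exact this
          · have := (z3 (b - c0) ⟨by linarith, by rw [hbc]; linarith⟩).2
            rw [sub_sub_cancel] at this
            exact this
        exact (uniqueDiffWithinAt_Ici c0).eq_deriv _ hD.hasDerivWithinAt w1
      rw [D1, hsc, mul_one, neg_div] at D2
      have : 0 < κ / Real.cosh c0 ^ 2 := by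
        have := Real.cosh_pos c0
        positivity
      linarith

end KleinEmb
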