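import Pool.Agent.Helper719.Emb.Defs

open scoped ContDiff Topology ENNReal
open Set MeasureTheory Filter

noncomputable section

namespace KleinEmb



theorem circle_int (s : ℝ) (hs0 : 0 ≤ s) (hs1 : s < 1) :
    ∫ v in (0 : ℝ)..Real.pi, √(1 - s ^ 2) / (1 - s ^ 2 * Real.cos v ^ 2) = Real.pi := by
  have h1 : 0 < 1 - s ^ 2 := by nlinarith
  set q := √(1 - s ^ 2) with hq
  have hq0 : 0 < q := Real.sqrt_pos.mpr h1
  have hq2 : q ^ 2 = 1 - s ^ 2 := Real.sq_sqrt h1.le
  have hcs : ∀ v : ℝ, Real.sin v ^ 2 = 1 - Real.cos v ^ 2 := fun v => by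
    have := Real.sin_sq_add_cos_sq v; linarith
  have hD : ∀ v : ℝ, 0 < q * Real.cos v ^ 2 + Real.sin v ^ 2 := by
    intro v
    rcases eq_or_ne (Real.cos v) 0 with h | h
    · have := hcs v
      rw [h] at this ⊢
      rw [this]; norm_num
    · have : 0 < Real.cos v ^ 2 := by positivity
      have h3 : 0 ≤ Real.sin v ^ 2 := sq_nonneg _
      nlinarith [mul_pos hq0 this]
  have hE : ∀ v : ℝ, 0 < 1 - s ^ 2 * Real.cos v ^ 2 := by
    intro v
    have h3 : Real.cos v ^ 2 ≤ 1 := by nlinarith [hcs v, sq_nonneg (Real.sin v)]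
    nlinarith [sq_nonneg s, sq_nonneg (Real.cos v), mul_nonneg (sq_nonneg s) (sub_nonneg.mpr h3)]
  have hderiv : ∀ v : ℝ, HasDerivAt (fun v => v + Real.arctan ((1 - q) * (Real.sin v * Real.cos v) /
      (q * Real.cos v ^ 2 + Real.sin v ^ 2))) (q / (1 - s ^ 2 * Real.cos v ^ 2)) v := by
    intro v
    have hs := Real.hasDerivAt_sin v
    have hc := Real.hasDerivAt_cos v
    have hN := (hs.mul hc).const_mul (1 - q)
    have hDd := ((hc.pow 2).const_mul q).add (hs.pow 2)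
    have hdiv := hN.div hDd (hD v).ne'
    have h := (hasDerivAt_id v).add hdiv.arctan
    refine h.congr_deriv ?_
    have hDv := hD v
    have hEv := hE v
    have key : (q * Real.cos v ^ 2 + Real.sin v ^ 2) ^ 2 +
        ((1 - q) * (Real.sin v * Real.cos v)) ^ 2 = 1 - s ^ 2 * Real.cos v ^ 2 := by
      have e1 : s ^ 2 = 1 - q ^ 2 := by linarith
      rw [e1]
      have e2 := hcs v
      calc _ = q ^ 2 * Real.cos v ^ 4 + (1 + q ^ 2) * (Real.cos v ^ 2 * Real.sin v ^ 2) +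
            (Real.sin v ^ 2) ^ 2 := by ring
        _ = _ := by rw [e2]; ring
    have hne : (q * Real.cos v ^ 2 + Real.sin v ^ 2) ≠ 0 := hDv.ne'
    simp only [Pi.add_apply, Pi.mul_apply, Pi.div_apply, Pi.pow_apply] at *
    have hfrac : 1 + ((1 - q) * (Real.sin v * Real.cos v) / (q * Real.cos v ^ 2 + Real.sin v ^ 2)) ^ 2
        = (1 - s ^ 2 * Real.cos v ^ 2) / (q * Real.cos v ^ 2 + Real.sin v ^ 2) ^ 2 := by
      rw [← key]; field_simp
    rw [hfrac]
    have hM : ∀ M : ℝ, 1 / ((1 - s ^ 2 * Real.cos v ^ 2) / (q * Real.cos v ^ 2 + Real.sin v ^ 2) ^ 2) *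
        (M / (q * Real.cos v ^ 2 + Real.sin v ^ 2) ^ 2) = M / (1 - s ^ 2 * Real.cos v ^ 2) := by
      intro M
      have h5 : (q * Real.cos v ^ 2 + Real.sin v ^ 2) ^ 2 ≠ 0 := pow_ne_zero _ hne
      rw [one_div_div, div_mul_div_comm, mul_comm ((1 - s ^ 2 * Real.cos v ^ 2)), mul_div_mul_left _ _ h5]
    rw [hM, eq_div_iff hEv.ne', add_mul, div_mul_cancel₀ _ hEv.ne']
    have e1 : s ^ 2 = 1 - q ^ 2 := by linarith
    have e2 := hcs v
    push_cast
    rw [e1]
    calc _ = (1 - (1 - q ^ 2) * Real.cos v ^ 2) + (1 - q) * (Real.cos v ^ 2 - Real.sin v ^ 2) *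
          (q * Real.cos v ^ 2 + Real.sin v ^ 2) - 2 * (1 - q) ^ 2 * (Real.sin v ^ 2 * Real.cos v ^ 2) := by ring
      _ = q := by rw [e2]; ring
  have hcont : Continuous (fun v : ℝ => q / (1 - s ^ 2 * Real.cos v ^ 2)) := by
    refine continuous_const.div (by fun_prop) (fun v => (hE v).ne')
  rw [intervalIntegral.integral_eq_sub_of_hasDerivAt (fun v _ => hderiv v)
    (hcont.intervalIntegrable _ _)]
  simp

end KleinEmb
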