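import Pool.Agent.Helper719.Emb.Defs
import Pool.Agent.Helper719.Emb.P_circle_int

open scoped ContDiff Topology ENNReal
open Set MeasureTheory Filter

noncomputable section

namespace KleinEmb



theorem hasDerivAt_artanh_aux (x : ℝ) (h1 : -1 < x) (h2 : x < 1) :
    HasDerivAt Real.artanh (1 / (1 - x ^ 2)) x := by
  have hx1 : (1 + x) ≠ 0 := by linarith
  have hx2 : (1 - x) ≠ 0 := by linarith
  have hx3 : (1 - x ^ 2) ≠ 0 := by
    have : 0 < (1 - x) * (1 + x) := mul_pos (by linarith) (by linarith)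
    nlinarith
  have hd : HasDerivAt (fun y : ℝ => 1 / 2 * (Real.log (1 + y) - Real.log (1 - y)))
      (1 / (1 - x ^ 2)) x := by
    have e1 : HasDerivAt (fun y : ℝ => Real.log (1 + y)) (1 / (1 + x)) x := by
      have := ((hasDerivAt_id x).const_add 1).log hx1
      simpa using this
    have e2 : HasDerivAt (fun y : ℝ => Real.log (1 - y)) (-1 / (1 - x)) x := by
      have := ((hasDerivAt_id x).const_sub 1).log hx2
      simpa using this
    have e3 := (e1.sub e2).const_mul (1 / 2 : ℝ)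
    refine e3.congr_deriv ?_
    have hx4 : (1 - x ^ 2) = (1 - x) * (1 + x) := by ring
    rw [hx4]
    field_simp
    ring
  refine hd.congr_of_eventuallyEq ?_
  filter_upwards [Ioo_mem_nhds h1 h2] with y hy
  rw [Real.artanh_eq_half_log ⟨hy.1.le, hy.2.le⟩, Real.log_div (by linarith [hy.1]) (by linarith [hy.2])]

theorem great_circle (F : ℝ → ℝ) (hF : Continuous F) (L : ℝ)
    (h : ∀ c : ℝ → ℝ × ℝ, ContDiff ℝ 1 c → c Real.pi = ((c 0).1 + Real.pi, -(c 0).2) →
      L ≤ ∫ t in (0 : ℝ)..Real.pi, F (c t).2 * √((deriv c t).1 ^ 2 + (deriv c t).2 ^ 2))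
    (s : ℝ) (hs0 : 0 ≤ s) (hs1 : s < 1) :
    L ≤ ∫ u in (0 : ℝ)..Real.pi, F (Real.artanh (s * Real.cos u)) / √(1 - (s * Real.cos u) ^ 2) := by
  have hs2 : s ^ 2 < 1 := by nlinarith
  have hcos2 : ∀ v : ℝ, Real.cos v ^ 2 ≤ 1 := fun v => Real.cos_sq_le_one v
  have hden : ∀ v : ℝ, 0 < 1 - s ^ 2 * Real.cos v ^ 2 := by
    intro v
    have h1 := hcos2 v
    have h2 : s ^ 2 * Real.cos v ^ 2 ≤ s ^ 2 * 1 := mul_le_mul_of_nonneg_left h1 (sq_nonneg s)
    linarith
  have hS : ∀ v : ℝ, -1 < s * Real.cos v ∧ s * Real.cos v < 1 := by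
    intro v
    have h1 := hden v
    have h2 : (s * Real.cos v) ^ 2 < 1 := by nlinarith
    exact abs_lt.mp ((sq_lt_one_iff_abs_lt_one _).mp h2)
  set k : ℝ → ℝ := fun v => √(1 - s ^ 2) / (1 - s ^ 2 * Real.cos v ^ 2) with hk
  have hkc : Continuous k := by
    refine Continuous.div continuous_const (by fun_prop) (fun v => (hden v).ne')
  set X : ℝ → ℝ := fun u => ∫ v in (0 : ℝ)..u, k v with hX
  have hXd : ∀ u, HasDerivAt X (k u) u := fun u =>
    intervalIntegral.integral_hasDerivAt_right (hkc.intervalIntegrable _ _)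
      (hkc.stronglyMeasurableAtFilter _ _) hkc.continuousAt
  set Y : ℝ → ℝ := fun u => Real.artanh (s * Real.cos u) with hY
  set m : ℝ → ℝ := fun u => 1 / (1 - (s * Real.cos u) ^ 2) * (s * -Real.sin u) with hm
  have hYd : ∀ u, HasDerivAt Y (m u) u := by
    intro u
    have e1 : HasDerivAt (fun v => s * Real.cos v) (s * -Real.sin u) u :=
      (Real.hasDerivAt_cos u).const_mul s
    exact HasDerivAt.comp (h₂ := Real.artanh) (h := fun v => s * Real.cos v) u
      (hasDerivAt_artanh_aux _ (hS u).1 (hS u).2) e1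
  have hmc : Continuous m := by
    refine Continuous.mul (Continuous.div continuous_const (by fun_prop) (fun v => ?_)) (by fun_prop)
    have := hden v
    have h2 : (s * Real.cos v) ^ 2 = s ^ 2 * Real.cos v ^ 2 := by ring
    rw [h2]; exact this.ne'
  have hcd : ∀ u, HasDerivAt (fun u => (X u, Y u)) (k u, m u) u := fun u =>
    (hXd u).prodMk (hYd u)
  have hderiv : deriv (fun u => (X u, Y u)) = fun u => (k u, m u) := funext fun u => (hcd u).deriv
  have hC1 : ContDiff ℝ 1 (fun u => (X u, Y u)) := by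
    rw [contDiff_one_iff_deriv]
    refine ⟨fun u => (hcd u).differentiableAt, ?_⟩
    rw [hderiv]
    exact hkc.prodMk hmc
  have hX0 : X 0 = 0 := by simp [hX]
  have hXpi : X Real.pi = Real.pi := circle_int s hs0 hs1
  have hodd : Real.artanh (-s) = -Real.artanh s := by
    rw [Real.artanh_eq_half_log ⟨by linarith, by linarith⟩,
      Real.artanh_eq_half_log ⟨by linarith, by linarith⟩,
      Real.log_div (by linarith) (by linarith), Real.log_div (by linarith) (by linarith)]
    ring_nf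
  have hend : (fun u => (X u, Y u)) Real.pi
      = (((fun u => (X u, Y u)) 0).1 + Real.pi, -((fun u => (X u, Y u)) 0).2) := by
    simp only [hX0, hXpi, hY, Real.cos_pi, Real.cos_zero, mul_neg, mul_one, zero_add, hodd]
  have hL := h _ hC1 hend
  refine hL.trans_eq ?_
  refine intervalIntegral.integral_congr (fun t _ => ?_)
  simp only [hderiv]
  have hpos := hden t
  have hpos' : 0 < 1 - (s * Real.cos t) ^ 2 := by
    have h2 : (s * Real.cos t) ^ 2 = s ^ 2 * Real.cos t ^ 2 := by ring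
    rw [h2]; exact hpos
  have hsp : k t ^ 2 + m t ^ 2 = (1 / √(1 - (s * Real.cos t) ^ 2)) ^ 2 := by
    have h3 : √(1 - s ^ 2) ^ 2 = 1 - s ^ 2 := Real.sq_sqrt (by linarith)
    have h4 : √(1 - (s * Real.cos t) ^ 2) ^ 2 = 1 - (s * Real.cos t) ^ 2 := Real.sq_sqrt hpos'.le
    have h5 : Real.sin t ^ 2 = 1 - Real.cos t ^ 2 := Real.sin_sq t
    simp only [hk, hm]
    rw [div_pow, div_pow, mul_pow, div_pow, h3, h4]
    have h6 : 1 - s ^ 2 * Real.cos t ^ 2 = 1 - (s * Real.cos t) ^ 2 := by ring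
    rw [h6]
    have h7 : (s * -Real.sin t) ^ 2 = s ^ 2 * (1 - Real.cos t ^ 2) := by rw [← h5]; ring
    rw [h7]
    have hne := hpos'.ne'
    field_simp
    ring
  rw [hsp, Real.sqrt_sq (by positivity)]
  simp only [hY]
  ring

end KleinEmb
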