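import Pool.Agent.Helper719.Emb.Defs

open scoped ContDiff Topology ENNReal
open Set MeasureTheory Filter

noncomputable section

namespace KleinEmb



theorem sys_avg (f : ℝ × ℝ → ℝ) (hf : Continuous f) (hper : ∀ x y, f (x + 2 * Real.pi, y) = f (x, y))
    (c : ℝ → ℝ × ℝ) (hc : ContDiff ℝ 1 c) (T : ℝ) (hT : 0 < T) (L : ℝ)
    (h : ∀ τ : ℝ, L ≤ ∫ t in (0 : ℝ)..T,
      f ((c t).1 + τ, (c t).2) * √((deriv c t).1 ^ 2 + (deriv c t).2 ^ 2)) :
    L ≤ ∫ t in (0 : ℝ)..T, ((∫ x in (0 : ℝ)..(2 * Real.pi), f (x, (c t).2)) / (2 * Real.pi)) *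
      √((deriv c t).1 ^ 2 + (deriv c t).2 ^ 2) := by
  have hpi : 0 < 2 * Real.pi := by positivity
  have hdc : Continuous (deriv c) := hc.continuous_deriv le_rfl
  have hcc : Continuous c := hc.continuous
  let S : ℝ → ℝ := fun t => √((deriv c t).1 ^ 2 + (deriv c t).2 ^ 2)
  have hS : Continuous S := by
    show Continuous fun t => √((deriv c t).1 ^ 2 + (deriv c t).2 ^ 2)
    fun_prop
  let Φ : ℝ → ℝ → ℝ := fun τ t => f ((c t).1 + τ, (c t).2) * S t
  have hΦ : Continuous (Function.uncurry Φ) := by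
    show Continuous fun p : ℝ × ℝ => f ((c p.2).1 + p.1, (c p.2).2) * S p.2
    exact (hf.comp (by fun_prop)).mul (hS.comp continuous_snd)
  have hΦc : Continuous fun τ => ∫ t in (0 : ℝ)..T, Φ τ t :=
    intervalIntegral.continuous_parametric_intervalIntegral_of_continuous' hΦ 0 T
  have h1 : ∫ τ in (0 : ℝ)..(2 * Real.pi), L ≤
      ∫ τ in (0 : ℝ)..(2 * Real.pi), ∫ t in (0 : ℝ)..T, Φ τ t := by
    apply intervalIntegral.integral_mono_on hpi.le
    · exact intervalIntegrable_const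
    · exact hΦc.intervalIntegrable _ _
    · intro τ _
      exact h τ
  rw [intervalIntegral.integral_const, sub_zero, smul_eq_mul] at h1
  have hswap : ∫ τ in (0 : ℝ)..(2 * Real.pi), ∫ t in (0 : ℝ)..T, Φ τ t =
      ∫ t in (0 : ℝ)..T, ∫ τ in (0 : ℝ)..(2 * Real.pi), Φ τ t := by
    have hint : IntegrableOn (Function.uncurry Φ)
        (Set.uIoc 0 (2 * Real.pi) ×ˢ Set.uIoc 0 T) volume := by
      have h2 : IntegrableOn (Function.uncurry Φ)
          (Set.uIcc 0 (2 * Real.pi) ×ˢ Set.uIcc 0 T) volume := by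
        apply ContinuousOn.integrableOn_compact
        · exact isCompact_uIcc.prod isCompact_uIcc
        · exact hΦ.continuousOn
      exact h2.mono_set (Set.prod_mono Set.uIoc_subset_uIcc Set.uIoc_subset_uIcc)
    exact intervalIntegral_intervalIntegral_swap hint
  have hin : ∀ t, ∫ τ in (0 : ℝ)..(2 * Real.pi), Φ τ t =
      (∫ x in (0 : ℝ)..(2 * Real.pi), f (x, (c t).2)) * S t := by
    intro t
    show ∫ τ in (0 : ℝ)..(2 * Real.pi), f ((c t).1 + τ, (c t).2) * S t = _
    rw [intervalIntegral.integral_mul_const]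
    congr 1
    rw [intervalIntegral.integral_comp_add_left (fun x => f (x, (c t).2)) (c t).1, add_zero]
    have hp : Function.Periodic (fun x => f (x, (c t).2)) (2 * Real.pi) := fun x =>
      hper x (c t).2
    have := hp.intervalIntegral_add_eq (c t).1 0
    rwa [zero_add] at this
  rw [hswap] at h1
  simp only [hin] at h1
  have h3 : ∫ t in (0 : ℝ)..T, ((∫ x in (0 : ℝ)..(2 * Real.pi), f (x, (c t).2)) / (2 * Real.pi)) *
      √((deriv c t).1 ^ 2 + (deriv c t).2 ^ 2) =
      (∫ t in (0 : ℝ)..T, (∫ x in (0 : ℝ)..(2 * Real.pi), f (x, (c t).2)) * S t) /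
        (2 * Real.pi) := by
    rw [← intervalIntegral.integral_div]
    congr 1
    funext t
    show _ * S t = _
    ring
  rw [h3, le_div_iff₀ hpi]
  linarith

end KleinEmb
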