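import Pool.Agent.Helper719.Emb.Defs
import Pool.Agent.Helper719.Emb.P_abel_cont

open scoped ContDiff Topology ENNReal
open Set MeasureTheory Filter

noncomputable section

namespace KleinEmb



theorem continuousOn_artanh_wi : ContinuousOn Real.artanh (Ioo (-1) 1) := by
  have h : ∀ x ∈ Ioo (-1:ℝ) 1, Real.artanh x = 1 / 2 * Real.log ((1 + x) / (1 - x)) :=
    fun x hx => Real.artanh_eq_half_log ⟨hx.1.le, hx.2.le⟩
  refine ContinuousOn.congr ?_ h
  refine continuousOn_const.mul (ContinuousOn.log ?_ ?_)
  · refine ContinuousOn.div (by fun_prop) (by fun_prop) ?_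
    intro x hx
    linarith [hx.2]
  · intro x hx
    have h1 : 0 < 1 + x := by linarith [hx.1]
    have h2 : 0 < 1 - x := by linarith [hx.2]
    exact (div_pos h1 h2).ne'

theorem artanh_neg_wi {x : ℝ} (hx : x ∈ Ioo (-1:ℝ) 1) : Real.artanh (-x) = - Real.artanh x := by
  apply Real.tanh_injective
  rw [Real.tanh_neg, Real.tanh_artanh hx, Real.tanh_artanh ⟨by linarith [hx.2], by linarith [hx.1]⟩]

theorem weight_ineq (F : ℝ → ℝ) (hF : Continuous F) (heven : ∀ y, F (-y) = F y) (L : ℝ)
    (h : ∀ s : ℝ, 0 ≤ s → s < 1 →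
      L ≤ ∫ u in (0 : ℝ)..Real.pi, F (Real.artanh (s * Real.cos u)) / √(1 - (s * Real.cos u) ^ 2))
    (y : ℝ) (hy : 0 ≤ y) :
    L / Real.pi * Real.tanh y ≤ ∫ t in (0 : ℝ)..y, F t / Real.cosh t := by
  set H : ℝ → ℝ := fun S => F (Real.artanh S) / √(1 - S ^ 2) with hH
  have hHc : ContinuousOn H (Ioo (-1) 1) := by
    refine ContinuousOn.div (hF.comp_continuousOn continuousOn_artanh_wi) (by fun_prop) ?_
    intro x hx
    have : 0 < 1 - x ^ 2 := by nlinarith [hx.1, hx.2]
    exact (Real.sqrt_pos.2 this).ne'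
  have hHe : ∀ x ∈ Ioo (-1:ℝ) 1, H (-x) = H x := by
    intro x hx
    simp only [hH]
    rw [artanh_neg_wi hx, heven, neg_sq]
  set S0 : ℝ := Real.tanh y with hS0
  have hS01 : S0 < 1 := Real.tanh_lt_one y
  have hS00 : 0 ≤ S0 := by
    rw [hS0, Real.tanh_eq_sinh_div_cosh]
    exact div_nonneg (Real.sinh_nonneg_iff.2 hy) (Real.cosh_pos y).le
  have hpi := Real.pi_pos
  -- the globally continuous extension
  set k : ℝ → ℝ := fun x => H (S0 * max (-1) (min x 1)) with hk
  have hrange : ∀ x : ℝ, S0 * max (-1) (min x 1) ∈ Ioo (-1:ℝ) 1 := by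
    intro x
    have h1 : -1 ≤ max (-1) (min x 1) := le_max_left _ _
    have h2 : max (-1) (min x 1) ≤ 1 := max_le (by norm_num) (min_le_right _ _)
    constructor <;> nlinarith
  have hkc : Continuous k := by
    have hi : Continuous fun x : ℝ => S0 * max (-1) (min x 1) := by fun_prop
    exact hHc.comp_continuous hi hrange
  have hkv : ∀ x ∈ Icc (-1:ℝ) 1, k x = H (S0 * x) := by
    intro x hx
    simp only [hk]
    rw [min_eq_left hx.2, max_eq_right hx.1]
  -- step A
  have hA : ∀ a ∈ Icc (0:ℝ) (Real.pi / 2),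
      L * Real.sin a ≤ 2 * ∫ t in (0:ℝ)..(Real.pi / 2), Real.sin a * k (Real.sin a * Real.cos t) := by
    intro a ha
    have hs0 : 0 ≤ Real.sin a := Real.sin_nonneg_of_nonneg_of_le_pi ha.1 (by linarith [ha.2])
    have hs1 : Real.sin a ≤ 1 := Real.sin_le_one a
    have hin : ∀ t : ℝ, Real.sin a * Real.cos t ∈ Icc (-1:ℝ) 1 := by
      intro t
      have h1 := Real.neg_one_le_cos t
      have h2 := Real.cos_le_one t
      constructor <;> nlinarith
    have h1 := h (S0 * Real.sin a) (mul_nonneg hS00 hs0) (by nlinarith)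
    have h2 : ∫ u in (0 : ℝ)..Real.pi, F (Real.artanh (S0 * Real.sin a * Real.cos u)) /
        √(1 - (S0 * Real.sin a * Real.cos u) ^ 2) =
        ∫ u in (0:ℝ)..Real.pi, k (Real.sin a * Real.cos u) := by
      congr 1
      ext u
      rw [hkv _ (hin u), ← mul_assoc]
    rw [h2] at h1
    have hc : Continuous fun u => k (Real.sin a * Real.cos u) := by fun_prop
    have h3 : ∫ u in (0:ℝ)..Real.pi, k (Real.sin a * Real.cos u) =
        2 * ∫ u in (0:ℝ)..(Real.pi / 2), k (Real.sin a * Real.cos u) := by
      rw [← intervalIntegral.integral_add_adjacent_intervals (hc.intervalIntegrable 0 (Real.pi / 2))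
        (hc.intervalIntegrable (Real.pi / 2) Real.pi)]
      have h4 := intervalIntegral.integral_comp_sub_left
        (fun u => k (Real.sin a * Real.cos u)) Real.pi (a := 0) (b := Real.pi / 2)
      have h5 : Real.pi - Real.pi / 2 = Real.pi / 2 := by ring
      rw [sub_zero, h5] at h4
      rw [← h4]
      have h6 : ∀ u : ℝ, k (Real.sin a * Real.cos (Real.pi - u)) =
          k (Real.sin a * Real.cos u) := by
        intro u
        rw [hkv _ (hin _), hkv _ (hin _), Real.cos_pi_sub]
        have h7 : S0 * (Real.sin a * -Real.cos u) = -(S0 * (Real.sin a * Real.cos u)) := by ring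
        rw [h7]
        apply hHe
        have h8 := hin u
        constructor <;> nlinarith [h8.1, h8.2]
      simp only [h6]
      ring
    rw [h3] at h1
    rw [intervalIntegral.integral_const_mul]
    have := mul_le_mul_of_nonneg_right h1 hs0
    linarith
  -- step B
  have hB : L ≤ Real.pi * ∫ x in (0:ℝ)..1, k x := by
    have h1 : ∫ a in (0:ℝ)..(Real.pi / 2), L * Real.sin a = L := by
      rw [intervalIntegral.integral_const_mul, integral_sin]
      simp
    have h2 : Continuous fun a : ℝ => 2 * ∫ t in (0:ℝ)..(Real.pi / 2),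
        Real.sin a * k (Real.sin a * Real.cos t) := by
      apply Continuous.mul continuous_const
      apply intervalIntegral.continuous_parametric_intervalIntegral_of_continuous'
      unfold Function.uncurry
      fun_prop
    have h3 := intervalIntegral.integral_mono_on (μ := volume) (a := 0) (b := Real.pi / 2)
      (by positivity)
      ((by fun_prop : Continuous fun a => L * Real.sin a).intervalIntegrable _ _)
      (h2.intervalIntegrable _ _) hA
    rw [h1, intervalIntegral.integral_const_mul, abel_cont k hkc.continuousOn] at h3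
    linarith
  -- step C
  have hC1 : S0 * ∫ x in (0:ℝ)..1, k x = ∫ x in (0:ℝ)..S0, H x := by
    have h1 : ∫ x in (0:ℝ)..1, k x = ∫ x in (0:ℝ)..1, H (S0 * x) := by
      apply intervalIntegral.integral_congr
      intro x hx
      rw [uIcc_of_le (by norm_num)] at hx
      exact hkv x ⟨by linarith [hx.1], hx.2⟩
    rw [h1, intervalIntegral.mul_integral_comp_mul_left]
    simp
  have hder : ∀ t : ℝ, HasDerivAt Real.tanh (1 / Real.cosh t ^ 2) t := by
    intro t
    have h1 := (Real.hasDerivAt_sinh t).div (Real.hasDerivAt_cosh t) (Real.cosh_pos t).ne'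
    have h2 : (Real.cosh t * Real.cosh t - Real.sinh t * Real.sinh t) / Real.cosh t ^ 2 =
        1 / Real.cosh t ^ 2 := by
      congr 1
      nlinarith [Real.cosh_sq_sub_sinh_sq t]
    rw [h2] at h1
    refine h1.congr_of_eventuallyEq (Eventually.of_forall fun x => ?_)
    exact Real.tanh_eq_sinh_div_cosh x
  have hC2 : ∫ t in (0:ℝ)..y, F t / Real.cosh t = ∫ x in (0:ℝ)..S0, H x := by
    have h1 := intervalIntegral.integral_comp_mul_deriv'' (a := 0) (b := y) (f := Real.tanh)
      (f' := fun t => 1 / Real.cosh t ^ 2) (g := H)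
      (continuous_iff_continuousAt.2 fun t => (hder t).continuousAt).continuousOn
      (fun x _ => (hder x).hasDerivWithinAt)
      (Continuous.continuousOn (continuous_const.div (Real.continuous_cosh.pow 2)
        fun t => (pow_pos (Real.cosh_pos t) 2).ne'))
      (hHc.mono (by
        intro x hx
        obtain ⟨t, _, rfl⟩ := hx
        exact ⟨Real.neg_one_lt_tanh t, Real.tanh_lt_one t⟩))
    rw [Real.tanh_zero] at h1
    rw [← h1]
    congr 1
    ext t
    simp only [Function.comp_apply, hH]
    rw [Real.artanh_tanh]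
    have hc := Real.cosh_pos t
    have h2 : 1 - Real.tanh t ^ 2 = (1 / Real.cosh t) ^ 2 := by
      rw [Real.tanh_eq_sinh_div_cosh, div_pow, div_pow]
      field_simp
      nlinarith [Real.cosh_sq_sub_sinh_sq t]
    rw [h2, Real.sqrt_sq (by positivity)]
    field_simp
  rw [hC2, ← hC1]
  have h1 : L / Real.pi ≤ ∫ x in (0:ℝ)..1, k x := by
    rw [div_le_iff₀ hpi]
    linarith
  have := mul_le_mul_of_nonneg_right h1 hS00
  linarith

end KleinEmb
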