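import Pool.Agent.Helper719.Emb.Defs
import Pool.Agent.Helper719.Emb.P_avg_cont
import Pool.Agent.Helper719.Emb.P_sys_avg
import Pool.Agent.Helper719.Emb.P_great_circle
import Pool.Agent.Helper719.Emb.P_weight_ineq
import Pool.Agent.Helper719.Emb.P_bavard1d
import Pool.Agent.Helper719.Emb.P_area_avg

open scoped ContDiff Topology ENNReal
open Set MeasureTheory Filter

noncomputable section

namespace KleinEmb



/-- Strict form of Bavard's inequality for conformal metrics `f² (dx² + dy²)` on
`ℝ² / ⟨(x, y) ↦ (x + π, -y), (x, y) ↦ (x, y + 2b)⟩`. -/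
theorem bavard (f : ℝ × ℝ → ℝ) (hf : ContDiff ℝ 1 f) (hpos : ∀ p, 0 < f p) (b r : ℝ) (hb : 0 < b)
    (hr : 0 < r)
    (hglide : ∀ x y, f (x + Real.pi, -y) = f (x, y)) (hshift : ∀ x y, f (x, y + 2 * b) = f (x, y))
    (hsys : ∀ (c : ℝ → ℝ × ℝ) (T : ℝ) (n k : ℤ), ContDiff ℝ 1 c → 0 < T → (n ≠ 0 ∨ k ≠ 0) →
      c T = ((c 0).1 + n * Real.pi, (-1) ^ n * (c 0).2 + 2 * b * k) →
      2 * r ≤ ∫ t in (0 : ℝ)..T, f (c t) * √((deriv c t).1 ^ 2 + (deriv c t).2 ^ 2)) :
    8 * √2 / Real.pi * r ^ 2 < ∫ x in (0 : ℝ)..Real.pi, ∫ y in (0 : ℝ)..(2 * b), f (x, y) ^ 2 := by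
  have hpi := Real.pi_pos
  have hfc : Continuous f := hf.continuous
  have hfx : ∀ y, Continuous (fun x => f (x, y)) := fun y =>
    hfc.comp (continuous_id.prodMk continuous_const)
  have hper : ∀ x y, f (x + 2 * Real.pi, y) = f (x, y) := by
    intro x y
    have h1 := hglide (x + Real.pi) (-y)
    have h2 := hglide x y
    rw [neg_neg] at h1
    rw [← h2, ← h1]
    congr 2
    ring
  obtain ⟨F, hF⟩ : ∃ F : ℝ → ℝ, F = fun y => (∫ x in (0 : ℝ)..(2 * Real.pi), f (x, y)) / (2 * Real.pi) :=
    ⟨_, rfl⟩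
  have hFd : Differentiable ℝ F := by rw [hF]; exact avg_cont f hf
  have hFc : Continuous F := hFd.continuous
  have hFpos : ∀ y, 0 < F y := by
    intro y
    rw [hF]
    apply div_pos _ (by positivity)
    apply intervalIntegral.intervalIntegral_pos_of_pos ((hfx y).intervalIntegrable _ _)
      (fun x => hpos _) (by positivity)
  have hFeven : ∀ y, F (-y) = F y := by
    intro y
    rw [hF]
    simp only
    congr 1
    have h1 : ∀ x, f (x, -y) = f (x - Real.pi, y) := by
      intro x
      have := hglide (x - Real.pi) y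
      rw [sub_add_cancel] at this
      exact this
    simp only [h1]
    rw [intervalIntegral.integral_comp_sub_right (fun x => f (x, y)) Real.pi]
    have hp : Function.Periodic (fun x => f (x, y)) (2 * Real.pi) := fun x => hper x y
    have := hp.intervalIntegral_add_eq (0 - Real.pi) 0
    rw [zero_add] at this
    rw [← this]
    congr 1
    ring
  have hFshift : ∀ y, F (y + 2 * b) = F y := by
    intro y
    rw [hF]
    simp only [hshift]
  -- general paths
  have hA : ∀ (c : ℝ → ℝ × ℝ) (T : ℝ) (n k : ℤ), ContDiff ℝ 1 c → 0 < T → (n ≠ 0 ∨ k ≠ 0) →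
      c T = ((c 0).1 + n * Real.pi, (-1) ^ n * (c 0).2 + 2 * b * k) →
      2 * r ≤ ∫ t in (0 : ℝ)..T, F (c t).2 * √((deriv c t).1 ^ 2 + (deriv c t).2 ^ 2) := by
    intro c T n k hc hT hnk hcT
    rw [hF]
    apply sys_avg f hfc hper c hc T hT (2 * r)
    intro τ
    have hd : ∀ t, deriv (fun t => ((c t).1 + τ, (c t).2)) t = deriv c t := by
      intro t
      have : (fun t => ((c t).1 + τ, (c t).2)) = fun t => c t + ((τ, 0) : ℝ × ℝ) := by
        funext t
        ext <;> simp
      rw [this, deriv_add_const]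
    have h := hsys (fun t => ((c t).1 + τ, (c t).2)) T n k
      ((hc.fst.add contDiff_const).prodMk hc.snd) hT hnk (by
        simp only [hcT]
        ext <;> simp
        ring)
    simpa only [hd] using h
  have hc1 : ∀ y, 0 ≤ y → (2 * r) / Real.pi * Real.tanh y ≤ ∫ t in (0 : ℝ)..y, F t / Real.cosh t := by
    intro y hy
    refine weight_ineq F hFc hFeven (2 * r) (great_circle F hFc (2 * r) ?_) y hy
    intro c hc hcT
    exact hA c Real.pi 1 0 hc hpi (Or.inl one_ne_zero) (by rw [hcT]; ext <;> simp)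
  have hc2 : ∀ y, 0 ≤ y → (2 * r) / Real.pi * Real.tanh y
      ≤ ∫ t in (0 : ℝ)..y, F (b - t) / Real.cosh t := by
    intro y hy
    have hGc : Continuous (fun y => F (b - y)) := hFc.comp (continuous_const.sub continuous_id)
    refine weight_ineq (fun y => F (b - y)) hGc ?_ (2 * r)
      (great_circle (fun y => F (b - y)) hGc (2 * r) ?_) y hy
    · intro y
      rw [← hFeven (b - -y), ← hFshift]
      congr 1
      ring
    · intro c hc hcT
      have hdc : ∀ t, HasDerivAt c (deriv c t) t := fun t =>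
        ((hc.differentiable (by norm_num)) t).hasDerivAt
      have hd : ∀ t, deriv (fun t => ((c t).1, b - (c t).2)) t
          = ((deriv c t).1, -(deriv c t).2) := by
        intro t
        apply HasDerivAt.deriv
        have h1 : HasDerivAt (fun t => (c t).1) (deriv c t).1 t :=
          (hasFDerivAt_fst (𝕜 := ℝ) (E := ℝ) (F := ℝ) (p := c t)).comp_hasDerivAt t (hdc t)
        have h2 : HasDerivAt (fun t => (c t).2) (deriv c t).2 t :=
          (hasFDerivAt_snd (𝕜 := ℝ) (E := ℝ) (F := ℝ) (p := c t)).comp_hasDerivAt t (hdc t)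
        exact h1.prodMk (h2.const_sub b)
      have h := hA (fun t => ((c t).1, b - (c t).2)) Real.pi 1 1
        (hc.fst.prodMk (contDiff_const.sub hc.snd)) hpi (Or.inl one_ne_zero) (by
          simp only [hcT]
          ext <;> simp
          ring)
      simp only [hd, neg_sq] at h
      exact h
  have hc3 : r ≤ ∫ t in (0 : ℝ)..b, F t := by
    have hd : ∀ t : ℝ, deriv (fun t : ℝ => ((0 : ℝ), t)) t = (0, 1) := by
      intro t
      apply HasDerivAt.deriv
      exact (hasDerivAt_const t 0).prodMk (hasDerivAt_id t)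
    have h := hA (fun t => ((0 : ℝ), t)) (2 * b) 0 1 (contDiff_const.prodMk contDiff_id)
      (by positivity) (Or.inr one_ne_zero) (by ext <;> simp)
    simp only [hd] at h
    norm_num at h
    have h2 : ∫ t in (0 : ℝ)..(2 * b), F t = (∫ t in (0 : ℝ)..b, F t) + ∫ t in b..(2 * b), F t :=
      (intervalIntegral.integral_add_adjacent_intervals (hFc.intervalIntegrable _ _)
        (hFc.intervalIntegrable _ _)).symm
    have h3 : ∫ t in b..(2 * b), F t = ∫ t in (0 : ℝ)..b, F t := by
      have h4 : ∫ t in (0 : ℝ)..b, F (2 * b - t) = ∫ t in b..(2 * b), F t := by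
        rw [intervalIntegral.integral_comp_sub_left (fun t => F t) (2 * b)]
        congr 1 <;> ring
      rw [← h4]
      apply intervalIntegral.integral_congr
      intro t _
      simp only
      rw [← hFeven t, ← hFshift (-t)]
      congr 1
      ring
    rw [h2, h3] at h
    linarith
  have h1 := bavard1d F hFd hFpos (2 * r / Real.pi) b (by positivity) hb hc1 hc2 (by
    have : 2 * r / Real.pi * Real.pi / 2 = r := by field_simp
    rw [this]; exact hc3)
  have h2 := area_avg f hf hpos b hb hglide hshift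
  have h3 : ∫ y in (0 : ℝ)..b,
      ((∫ x in (0 : ℝ)..(2 * Real.pi), f (x, y)) / (2 * Real.pi)) ^ 2 = ∫ t in (0 : ℝ)..b, F t ^ 2 := by
    rw [hF]
  rw [h3] at h2
  refine lt_of_lt_of_le ?_ h2
  have h4 : 8 * √2 / Real.pi * r ^ 2 = 2 * Real.pi * (√2 * (2 * r / Real.pi) ^ 2) := by
    field_simp
    ring
  rw [h4]
  exact mul_lt_mul_of_pos_left h1 (by positivity)

end KleinEmb
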