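import Pool.Agent.Helper719.Emb.Defs

open scoped ContDiff Topology ENNReal
open Set MeasureTheory Filter

noncomputable section

namespace KleinEmb

/-- Geodesic equations of `f(Y)² (dX² + dY²)` in first order form: `C = f² X'` (constant),
`U = f² Y'`, speed `V`. -/
structure IsCG (f X Y U : ℝ → ℝ) (C V : ℝ) : Prop where
  hX : ∀ t, HasDerivAt X (C / f (Y t) ^ 2) t
  hY : ∀ t, HasDerivAt Y (U t / f (Y t) ^ 2) t
  hU : ∀ t, HasDerivAt U (V ^ 2 * (deriv f (Y t) / f (Y t))) t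
  en : ∀ t, C ^ 2 + U t ^ 2 = V ^ 2 * f (Y t) ^ 2
  V0 : 0 ≤ V

end KleinEmb
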