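import Pool.Agent.Helper719.Emb.Defs

open scoped ContDiff Topology ENNReal
open Set MeasureTheory Filter

noncomputable section

namespace KleinEmb



theorem ode_unique {E : Type} [NormedAddCommGroup E] [NormedSpace ℝ E] [FiniteDimensional ℝ E]
    (V : E → E) (hV : ContDiff ℝ 1 V) (a : ℝ → ℝ) (ha : Continuous a) (z₁ z₂ : ℝ → E)
    (h₁ : ∀ t, HasDerivAt z₁ (a t • V (z₁ t)) t) (h₂ : ∀ t, HasDerivAt z₂ (a t • V (z₂ t)) t)
    (t₀ : ℝ) (h0 : z₁ t₀ = z₂ t₀) : z₁ = z₂ := by
  haveI : ProperSpace E := FiniteDimensional.proper_real E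
  funext t
  obtain ⟨T, hT⟩ : ∃ T : ℝ, T = |t| + |t₀| + 1 := ⟨_, rfl⟩
  have ht : t ∈ Ioo (-T) T := by
    have h1 := neg_abs_le t
    have h2 := le_abs_self t
    have h3 := abs_nonneg t₀
    constructor <;> linarith
  have ht₀ : t₀ ∈ Ioo (-T) T := by
    have h1 := neg_abs_le t₀
    have h2 := le_abs_self t₀
    have h3 := abs_nonneg t
    constructor <;> linarith
  have hc1 : Continuous z₁ := continuous_iff_continuousAt.2 fun s => (h₁ s).continuousAt
  have hc2 : Continuous z₂ := continuous_iff_continuousAt.2 fun s => (h₂ s).continuousAt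
  obtain ⟨R₁, hR₁⟩ := (isCompact_Icc (a := -T) (b := T)).exists_bound_of_continuousOn
    hc1.continuousOn
  obtain ⟨R₂, hR₂⟩ := (isCompact_Icc (a := -T) (b := T)).exists_bound_of_continuousOn
    hc2.continuousOn
  obtain ⟨C, hC⟩ := (isCompact_closedBall (0 : E) (max R₁ R₂)).exists_bound_of_continuousOn
    (hV.continuous_fderiv one_ne_zero).continuousOn
  obtain ⟨A, hA⟩ := (isCompact_Icc (a := -T) (b := T)).exists_bound_of_continuousOn
    ha.continuousOn
  have hA0 : 0 ≤ A := (norm_nonneg _).trans (hA t (Ioo_subset_Icc_self ht))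
  have hlip : LipschitzOnWith (Real.toNNReal C) V (Metric.closedBall 0 (max R₁ R₂)) := by
    refine Convex.lipschitzOnWith_of_nnnorm_fderiv_le (𝕜 := ℝ)
      (fun x _ => hV.differentiable one_ne_zero x) (fun x hx => ?_) (convex_closedBall 0 _)
    rw [← NNReal.coe_le_coe, coe_nnnorm]
    exact (hC x hx).trans (Real.le_coe_toNNReal C)
  have hv : ∀ s ∈ Ioo (-T) T, LipschitzOnWith (Real.toNNReal A * Real.toNNReal C)
      ((fun s z => a s • V z) s) (Metric.closedBall 0 (max R₁ R₂)) := by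
    intro s hs
    refine LipschitzOnWith.of_dist_le_mul fun x hx y hy => ?_
    show dist (a s • V x) (a s • V y) ≤ _
    rw [dist_smul₀, NNReal.coe_mul, mul_assoc]
    apply mul_le_mul _ (hlip.dist_le_mul x hx y hy) dist_nonneg NNReal.zero_le_coe
    exact (hA s (Ioo_subset_Icc_self hs)).trans (Real.le_coe_toNNReal A)
  have hm1 : ∀ s ∈ Ioo (-T) T, z₁ s ∈ (fun _ : ℝ => (Metric.closedBall (0 : E) (max R₁ R₂))) s := by
    intro s hs
    show z₁ s ∈ Metric.closedBall 0 _
    rw [mem_closedBall_zero_iff]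
    exact (hR₁ s (Ioo_subset_Icc_self hs)).trans (le_max_left _ _)
  have hm2 : ∀ s ∈ Ioo (-T) T, z₂ s ∈ (fun _ : ℝ => (Metric.closedBall (0 : E) (max R₁ R₂))) s := by
    intro s hs
    show z₂ s ∈ Metric.closedBall 0 _
    rw [mem_closedBall_zero_iff]
    exact (hR₂ s (Ioo_subset_Icc_self hs)).trans (le_max_right _ _)
  exact ODE_solution_unique_of_mem_Icc (v := fun s z => a s • V z)
    (s := fun _ => Metric.closedBall 0 (max R₁ R₂)) hv ht₀ hc1.continuousOn
    (fun s _ => h₁ s) hm1 hc2.continuousOn (fun s _ => h₂ s) hm2 h0 (Ioo_subset_Icc_self ht)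

end KleinEmb
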