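import Pool.Agent.Helper719.Emb.Defs

open scoped ContDiff Topology ENNReal
open Set MeasureTheory Filter

noncomputable section

namespace KleinEmb

/-- `c0 = log (1 + √2)`: `sinh c0 = 1`, `cosh c0 = √2`, `tanh c0 = 1/√2`. -/
def c0 : ℝ := Real.log (1 + √2)

theorem c0_pos : 0 < c0 := by
  unfold c0
  apply Real.log_pos
  have : 0 < √2 := by positivity
  linarith

/-- smooth profiles `f` for the approximating metrics `f(y)² (dx² + dy²)` -/
structure IsProf (f : ℝ → ℝ) : Prop where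
  smooth : ContDiff ℝ ∞ f
  lower : ∀ y, 1 / √2 ≤ f y
  upper : ∀ y, f y ≤ 1
  even : ∀ y, f (-y) = f y
  per : ∀ y, f (y + 2 * c0) = f y
  sech : ∀ (k : ℤ) (y : ℝ), 1 / Real.cosh (y - 2 * c0 * k) ≤ f y
  curv : ∀ y, -(f y) ^ 2 ≤ deriv (fun z => deriv f z / f z) y

theorem IsProf.pos {f : ℝ → ℝ} (hf : IsProf f) (y : ℝ) : 0 < f y :=
  lt_of_lt_of_le (by positivity) (hf.lower y)

end KleinEmb
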