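import Pool.Agent.Helper719.Emb.Defs
import Pool.Agent.Helper719.Emb.P_prof
import Pool.Agent.Helper719.Emb.P_cg
import Pool.Agent.Helper719.Emb.P_ode_unique

open scoped ContDiff Topology ENNReal
open Set MeasureTheory Filter

noncomputable section

namespace KleinEmb



theorem cg_graph (f X Y U : ℝ → ℝ) (C V : ℝ) (hf : IsProf f) (h : IsCG f X Y U C V) (hC : 0 < C)
    (φ : ℝ → ℝ × ℝ → ℝ × ℝ) (h0 : ∀ p, φ 0 p = p)
    (h1 : ∀ p τ, HasDerivAt (fun s => φ s p)
        ((φ τ p).2, (1 + (φ τ p).2 ^ 2) * (deriv f (φ τ p).1 / f (φ τ p).1)) τ) (t : ℝ) :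
    (Y t, U t / C) = φ (X t - X 0) (Y 0, U 0 / C) := by
  have hfd : ContDiff ℝ ∞ (deriv f) := (contDiff_infty_iff_deriv.1 hf.smooth).2
  have hfp : ∀ y, f y ≠ 0 := fun y => (hf.pos y).ne'
  set W : ℝ × ℝ → ℝ × ℝ := fun z => (z.2, (1 + z.2 ^ 2) * (deriv f z.1 / f z.1)) with hW
  have hWc : ContDiff ℝ 1 W := by
    have h2 : ContDiff ℝ ∞ W := by
      apply contDiff_snd.prodMk
      apply ContDiff.mul
      · exact contDiff_const.add (contDiff_snd.pow 2)
      · exact (hfd.comp contDiff_fst).div (hf.smooth.comp contDiff_fst) fun z => hfp _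
    exact h2.of_le (by exact_mod_cast le_top)
  set a : ℝ → ℝ := fun t => C / f (Y t) ^ 2 with ha
  have hYc : Continuous Y := continuous_iff_continuousAt.2 fun t => (h.hY t).continuousAt
  have hac : Continuous a := by
    apply continuous_const.div
    · exact (hf.smooth.continuous.comp hYc).pow 2
    · intro t
      exact pow_ne_zero _ (hfp _)
  have h2 : ∀ t, HasDerivAt (fun t => (Y t, U t / C)) (a t • W (Y t, U t / C)) t := by
    intro t
    have h3 := (h.hY t).prodMk ((h.hU t).div_const C)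
    have h4 : (U t / f (Y t) ^ 2, V ^ 2 * (deriv f (Y t) / f (Y t)) / C) =
        a t • W (Y t, U t / C) := by
      simp only [ha, hW, Prod.smul_mk, smul_eq_mul]
      have hC0 : C ≠ 0 := hC.ne'
      have hf0 := hfp (Y t)
      have hen := h.en t
      refine Prod.ext ?_ ?_
      · simp only
        field_simp
      · simp only
        have h5 : 1 + (U t / C) ^ 2 = V ^ 2 * f (Y t) ^ 2 / C ^ 2 := by
          rw [← hen]
          field_simp
        rw [h5]
        field_simp
    rw [← h4]
    exact h3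
  have h3 : ∀ t, HasDerivAt (fun t => φ (X t - X 0) (Y 0, U 0 / C))
      (a t • W (φ (X t - X 0) (Y 0, U 0 / C))) t := by
    intro t
    have h4 : HasDerivAt (fun t => X t - X 0) (a t) t := (h.hX t).sub_const _
    exact HasDerivAt.scomp t (h1 (Y 0, U 0 / C) (X t - X 0)) h4
  have h4 := ode_unique W hWc a hac _ _ h2 h3 0 (by simp only [sub_self, h0])
  exact congrFun h4 t

end KleinEmb
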