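import Pool.Agent.Helper719.Emb.Defs
import Pool.Agent.Helper10.Asy.JB

open scoped ContDiff Topology ENNReal
open Set MeasureTheory Filter

noncomputable section

namespace KleinEmb

/-- global smooth flow of a vector field with a priori bounds (proved: helper10) -/
theorem global_flow {E : Type} [NormedAddCommGroup E] [NormedSpace ℝ E] [FiniteDimensional ℝ E]
    {V : E → E} (hV : ContDiff ℝ ∞ V) (Bd : ℝ → ℝ → ℝ)
    (hmono : ∀ R R' T T', 0 ≤ R → R ≤ R' → 0 ≤ T → T ≤ T' → Bd R T ≤ Bd R' T')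
    (hBd : ∀ (χ : E → ℝ), (∀ p, 0 ≤ χ p ∧ χ p ≤ 1) → ∀ γ : ℝ → E,
      (∀ τ, HasDerivAt γ (χ (γ τ) • V (γ τ)) τ) → ∀ τ, ‖γ τ‖ ≤ Bd ‖γ 0‖ |τ|) :
    ∃ φ : ℝ → E → E, (∀ p, φ 0 p = p) ∧
      (∀ p τ, HasDerivAt (fun s => φ s p) (V (φ τ p)) τ) ∧
      ContDiff ℝ 2 (fun z : ℝ × E => φ z.1 z.2) := by
  exact Pool.Agent.Helper10.Asy.JB.global_flow hV Bd hmono hBd

end KleinEmb
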