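import Pool.Agent.Helper719.Emb.Defs
import Pool.Agent.Helper719.Emb.P_prof
import Pool.Agent.Helper719.Emb.P_global_flow

open scoped ContDiff Topology ENNReal
open Set MeasureTheory Filter

noncomputable section

namespace KleinEmb



/-- the vector field of the graph equation -/
def gfV (f : ℝ → ℝ) (p : ℝ × ℝ) : ℝ × ℝ := (p.2, (1 + p.2 ^ 2) * (deriv f p.1 / f p.1))

theorem gf_cons (f : ℝ → ℝ) (hf : IsProf f) (c : ℝ → ℝ) (γ : ℝ → ℝ × ℝ)
    (hγ : ∀ τ, HasDerivAt γ (c τ • gfV f (γ τ)) τ) (τ : ℝ) :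
    f (γ τ).1 ^ 2 / (1 + (γ τ).2 ^ 2) = f (γ 0).1 ^ 2 / (1 + (γ 0).2 ^ 2) := by
  have hd : ∀ τ, HasDerivAt (fun τ => f (γ τ).1 ^ 2 / (1 + (γ τ).2 ^ 2)) 0 τ := by
    intro τ
    have h1 : HasDerivAt (fun τ => (γ τ).1) (c τ * (γ τ).2) τ := by
      exact (ContinuousLinearMap.fst ℝ ℝ ℝ).hasFDerivAt.comp_hasDerivAt τ (hγ τ)
    have h2 : HasDerivAt (fun τ => (γ τ).2)
        (c τ * ((1 + (γ τ).2 ^ 2) * (deriv f (γ τ).1 / f (γ τ).1))) τ := by
      exact (ContinuousLinearMap.snd ℝ ℝ ℝ).hasFDerivAt.comp_hasDerivAt τ (hγ τ)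
    have hfd : HasDerivAt f (deriv f (γ τ).1) (γ τ).1 :=
      ((hf.smooth.differentiable (by norm_num)) _).hasDerivAt
    have h3 : HasDerivAt (fun τ => f (γ τ).1) (deriv f (γ τ).1 * (c τ * (γ τ).2)) τ :=
      HasDerivAt.comp (h₂ := f) τ hfd h1
    have h4 := h3.pow 2
    have h5 := (h2.pow 2).const_add 1
    have hne : 1 + (γ τ).2 ^ 2 ≠ 0 := by positivity
    have h6 := h4.div h5 hne
    have hfp := (hf.pos (γ τ).1).ne'
    have hz : ((2 : ℕ) : ℝ) * f (γ τ).1 ^ (2 - 1) * (deriv f (γ τ).1 * (c τ * (γ τ).2)) *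
        (1 + (γ τ).2 ^ 2) - f (γ τ).1 ^ 2 * (((2 : ℕ) : ℝ) * (γ τ).2 ^ (2 - 1) *
        (c τ * ((1 + (γ τ).2 ^ 2) * (deriv f (γ τ).1 / f (γ τ).1)))) = 0 := by
      have : f (γ τ).1 ^ 2 * (((2 : ℕ) : ℝ) * (γ τ).2 ^ (2 - 1) *
        (c τ * ((1 + (γ τ).2 ^ 2) * (deriv f (γ τ).1 / f (γ τ).1)))) =
        f (γ τ).1 * (f (γ τ).1 * (deriv f (γ τ).1 / f (γ τ).1)) * (2 * (γ τ).2 * (c τ * (1 + (γ τ).2 ^ 2))) := by
        push_cast
        ring
      rw [this, mul_div_cancel₀ _ hfp]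
      push_cast
      ring
    have h7 : (((2 : ℕ) : ℝ) * f (γ τ).1 ^ (2 - 1) * (deriv f (γ τ).1 * (c τ * (γ τ).2)) *
        (1 + (γ τ).2 ^ 2) - f (γ τ).1 ^ 2 * (((2 : ℕ) : ℝ) * (γ τ).2 ^ (2 - 1) *
        (c τ * ((1 + (γ τ).2 ^ 2) * (deriv f (γ τ).1 / f (γ τ).1))))) / (1 + (γ τ).2 ^ 2) ^ 2 = 0 := by
      rw [hz, zero_div]
    rw [← h7]
    exact h6
  have hdiff : Differentiable ℝ (fun τ => f (γ τ).1 ^ 2 / (1 + (γ τ).2 ^ 2)) :=
    fun τ => (hd τ).differentiableAt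
  exact is_const_of_deriv_eq_zero hdiff (fun τ => (hd τ).deriv) τ 0

/-- flow of the geodesics as graphs: `y' = k`, `k' = (1 + k²) (log f)'(y)` -/
theorem graph_flow (f : ℝ → ℝ) (hf : IsProf f) :
    ∃ φ : ℝ → ℝ × ℝ → ℝ × ℝ, (∀ p, φ 0 p = p) ∧
      (∀ p τ, HasDerivAt (fun s => φ s p)
        ((φ τ p).2, (1 + (φ τ p).2 ^ 2) * (deriv f (φ τ p).1 / f (φ τ p).1)) τ) ∧
      ContDiff ℝ 2 (fun z : ℝ × (ℝ × ℝ) => φ z.1 z.2) ∧
      ∀ p τ, f (φ τ p).1 / √(1 + (φ τ p).2 ^ 2) = f p.1 / √(1 + p.2 ^ 2) := by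
  have hV : ContDiff ℝ ∞ (gfV f) := by
    have hdf : ContDiff ℝ ∞ (deriv f) := (contDiff_infty_iff_deriv.1 hf.smooth).2
    have h1 : ContDiff ℝ ∞ (fun p : ℝ × ℝ => p.1) := contDiff_fst
    have h2 : ContDiff ℝ ∞ (fun p : ℝ × ℝ => p.2) := contDiff_snd
    unfold gfV
    exact h2.prodMk ((contDiff_const.add (h2.pow 2)).mul
      ((hdf.comp h1).div (hf.smooth.comp h1) (fun p => (hf.pos p.1).ne')))
  obtain ⟨φ, h0, hd, hc⟩ := global_flow hV (fun R T => R + 2 * (1 + R) * (1 + T))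
    (by
      intro R R' T T' hR hRR hT hTT
      have h1 : (1 + R) * (1 + T) ≤ (1 + R') * (1 + T') :=
        mul_le_mul (by linarith) (by linarith) (by linarith) (by linarith)
      show R + 2 * (1 + R) * (1 + T) ≤ R' + 2 * (1 + R') * (1 + T')
      nlinarith)
    (by
      intro χ hχ γ hγ τ
      set k0 := (γ 0).2 with hk0
      have hk : ∀ s, |(γ s).2| ≤ 2 * (1 + |k0|) := by
        intro s
        have h1 := gf_cons f hf (fun τ => χ (γ τ)) γ hγ s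
        have hlow := hf.lower (γ 0).1
        have hup := hf.upper (γ s).1
        have hp0 := hf.pos (γ 0).1
        have hps := hf.pos (γ s).1
        have hlow2 : 1 / 2 ≤ f (γ 0).1 ^ 2 := by
          have : (1 / √2) ^ 2 = 1 / 2 := by
            rw [div_pow, Real.sq_sqrt (by norm_num)]; norm_num
          rw [← this]
          exact pow_le_pow_left₀ (by positivity) hlow 2
        have hup2 : f (γ s).1 ^ 2 ≤ 1 := by nlinarith
        rw [div_eq_div_iff (by positivity) (by positivity)] at h1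
        have h2 : 1 + (γ s).2 ^ 2 ≤ 2 * (1 + k0 ^ 2) := by
          have e1 : 1 / 2 * (1 + (γ s).2 ^ 2) ≤ f (γ 0).1 ^ 2 * (1 + (γ s).2 ^ 2) :=
            mul_le_mul_of_nonneg_right hlow2 (by positivity)
          have e2 : f (γ s).1 ^ 2 * (1 + (γ 0).2 ^ 2) ≤ 1 * (1 + (γ 0).2 ^ 2) :=
            mul_le_mul_of_nonneg_right hup2 (by positivity)
          rw [hk0]
          linarith
        have h3 : (γ s).2 ^ 2 ≤ (2 * (1 + |k0|)) ^ 2 := by
          have : k0 ^ 2 = |k0| ^ 2 := (sq_abs k0).symm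
          have hab := abs_nonneg k0
          nlinarith
        exact abs_le_of_sq_le_sq h3 (by positivity)
      have hy : |(γ τ).1 - (γ 0).1| ≤ 2 * (1 + |k0|) * |τ| := by
        have h1 : ∀ s ∈ (Set.univ : Set ℝ), HasDerivWithinAt (fun s => (γ s).1)
            (χ (γ s) * (γ s).2) Set.univ s := by
          intro s _
          have h2 : HasDerivAt (fun s => (γ s).1) (χ (γ s) * (γ s).2) s :=
            (ContinuousLinearMap.fst ℝ ℝ ℝ).hasFDerivAt.comp_hasDerivAt s (hγ s)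
          exact h2.hasDerivWithinAt
        have h2 : ∀ s ∈ (Set.univ : Set ℝ), ‖χ (γ s) * (γ s).2‖ ≤ 2 * (1 + |k0|) := by
          intro s _
          rw [norm_mul, Real.norm_eq_abs, Real.norm_eq_abs, abs_of_nonneg (hχ _).1]
          calc χ (γ s) * |(γ s).2| ≤ 1 * |(γ s).2| :=
                mul_le_mul_of_nonneg_right (hχ _).2 (abs_nonneg _)
            _ ≤ _ := by rw [one_mul]; exact hk s
        have h3 := convex_univ.norm_image_sub_le_of_norm_hasDerivWithin_le h1 h2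
          (Set.mem_univ 0) (Set.mem_univ τ)
        simpa using h3
      have hn0 : |k0| ≤ ‖γ 0‖ := by
        rw [hk0, ← Real.norm_eq_abs]; exact norm_snd_le _
      have hn1 : |(γ 0).1| ≤ ‖γ 0‖ := by
        rw [← Real.norm_eq_abs]; exact norm_fst_le _
      have hy2 : |(γ τ).1| ≤ |(γ 0).1| + 2 * (1 + |k0|) * |τ| := by
        have := abs_sub_abs_le_abs_sub (γ τ).1 (γ 0).1
        linarith
      have hτ := abs_nonneg τ
      have hk0n := abs_nonneg k0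
      have hbig : 2 * (1 + |k0|) * |τ| ≤ 2 * (1 + ‖γ 0‖) * |τ| := by gcongr
      rw [Prod.norm_def, Real.norm_eq_abs, Real.norm_eq_abs]
      apply max_le
      · have : 2 * (1 + ‖γ 0‖) * |τ| ≤ 2 * (1 + ‖γ 0‖) * (1 + |τ|) := by
          have := norm_nonneg (γ 0)
          gcongr
          linarith
        show |(γ τ).1| ≤ ‖γ 0‖ + 2 * (1 + ‖γ 0‖) * (1 + |τ|)
        linarith
      · have h1 := hk τ
        have := norm_nonneg (γ 0)
        show |(γ τ).2| ≤ ‖γ 0‖ + 2 * (1 + ‖γ 0‖) * (1 + |τ|)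
        nlinarith)
  refine ⟨φ, h0, hd, hc, ?_⟩
  intro p τ
  have h1 := gf_cons f hf (fun _ => 1) (fun s => φ s p) (fun s => by
    rw [one_smul]; exact hd p s) τ
  simp only [h0] at h1
  have e : ∀ q : ℝ × ℝ, (f q.1 / √(1 + q.2 ^ 2)) ^ 2 = f q.1 ^ 2 / (1 + q.2 ^ 2) := by
    intro q
    rw [div_pow, Real.sq_sqrt (by positivity)]
  have hpos : ∀ q : ℝ × ℝ, 0 ≤ f q.1 / √(1 + q.2 ^ 2) := fun q =>
    div_nonneg (hf.pos _).le (Real.sqrt_nonneg _)
  rw [← e, ← e] at h1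
  exact (sq_eq_sq₀ (hpos _) (hpos _)).1 h1

end KleinEmb
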