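import Pool.Agent.Helper719.Emb.Defs

open scoped ContDiff Topology ENNReal
open Set MeasureTheory Filter

noncomputable section

namespace KleinEmb



theorem sturm (w P q s m : ℝ → ℝ) (T : ℝ) (hT : 0 < T)
    (hw : ∀ x, HasDerivAt w (m x * P x) x) (hP : ∀ x, HasDerivAt P (q x * w x) x)
    (hs : ∀ x, HasDerivAt s (m x) x) (hm : ∀ x, 0 < m x) (hq : ∀ x, -(m x) ≤ q x)
    (hqc : Continuous q) (hmc : Continuous m)
    (hw0 : w 0 = 0) (hP0 : 0 < P 0) (hs0 : s 0 = 0) (hsT : s T < Real.pi) :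
    ∀ x, 0 < x → x ≤ T → 0 < w x := by
  intro x0 hx0 hx0T
  by_contra hneg
  rw [not_lt] at hneg
  -- positivity near zero
  obtain ⟨δ, hδ, hδw⟩ : ∃ δ > 0, ∀ x, 0 < x → x < δ → 0 < w x := by
    have h1 := hasDerivAt_iff_tendsto_slope.mp (hw 0)
    have h2 : ∀ᶠ x in 𝓝[≠] (0:ℝ), 0 < slope w 0 x :=
      h1.eventually (lt_mem_nhds (mul_pos (hm 0) hP0))
    rw [eventually_nhdsWithin_iff, Metric.eventually_nhds_iff] at h2
    obtain ⟨δ, hδ, h3⟩ := h2
    refine ⟨δ, hδ, fun x hx hxδ => ?_⟩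
    have h4 := h3 (y := x) (by rw [Real.dist_eq, sub_zero, abs_of_pos hx]; exact hxδ) hx.ne'
    rw [slope_def_field, hw0, sub_zero, sub_zero] at h4
    exact (div_pos_iff_of_pos_right hx).mp h4
  have hwc : Continuous w := continuous_iff_continuousAt.mpr fun x => (hw x).continuousAt
  have hsc : Continuous s := continuous_iff_continuousAt.mpr fun x => (hs x).continuousAt
  have hPc : Continuous P := continuous_iff_continuousAt.mpr fun x => (hP x).continuousAt
  have hx0δ : δ ≤ x0 := by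
    by_contra h
    exact absurd (hδw x0 hx0 (not_le.mp h)) (not_lt.mpr hneg)
  -- first zero
  have hcomp : IsCompact ({x | x ∈ Icc (δ / 2) T ∧ w x ≤ 0}) := by
    have : {x | x ∈ Icc (δ / 2) T ∧ w x ≤ 0} = Icc (δ / 2) T ∩ {x | w x ≤ 0} := rfl
    rw [this]
    exact isCompact_Icc.inter_right (isClosed_le hwc continuous_const)
  obtain ⟨x1, hx1, hx1l⟩ := hcomp.exists_isLeast ⟨x0, ⟨by linarith, hx0T⟩, hneg⟩
  have hx1pos : 0 < x1 := lt_of_lt_of_le (half_pos hδ) hx1.1.1
  have hx1δ : δ ≤ x1 := by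
    by_contra h
    exact absurd (hδw x1 hx1pos (not_le.mp h)) (not_lt.mpr hx1.2)
  have hpos : ∀ x, 0 < x → x < x1 → 0 < w x := by
    intro x hx hxx1
    rcases lt_or_ge x δ with h | h
    · exact hδw x hx h
    · by_contra hc
      have := hx1l ⟨⟨by linarith, hxx1.le.trans hx1.1.2⟩, not_lt.mp hc⟩
      linarith
  -- the angle
  have hsm : StrictMono s := strictMono_of_deriv_pos fun x => by rw [(hs x).deriv]; exact hm x
  have hsin : ∀ x, 0 < x → x ≤ x1 → 0 < Real.sin (s x) := by
    intro x hx hxx1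
    apply Real.sin_pos_of_pos_of_lt_pi
    · rw [← hs0]; exact hsm hx
    · exact lt_of_le_of_lt (hsm.monotone (hxx1.trans hx1.1.2)) hsT
  -- the Wronskian
  have hQd : ∀ x, HasDerivAt (fun x => P x * Real.sin (s x) - w x * Real.cos (s x))
      (w x * Real.sin (s x) * (q x + m x)) x := by
    intro x
    have h1 := ((hP x).mul (hs x).sin).sub ((hw x).mul (hs x).cos)
    refine HasDerivAt.congr_deriv h1 ?_
    ring
  have hQm : MonotoneOn (fun x => P x * Real.sin (s x) - w x * Real.cos (s x)) (Icc 0 x1) := by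
    apply monotoneOn_of_deriv_nonneg (convex_Icc 0 x1)
    · exact fun x _ => (hQd x).continuousAt.continuousWithinAt
    · exact fun x _ => (hQd x).differentiableAt.differentiableWithinAt
    · intro x hx
      rw [interior_Icc] at hx
      rw [(hQd x).deriv]
      have h1 := hpos x hx.1 hx.2
      have h2 := hsin x hx.1 hx.2.le
      have h3 := hq x
      exact mul_nonneg (mul_nonneg h1.le h2.le) (by linarith)
  have hQ0 : ∀ x, 0 ≤ x → x ≤ x1 → 0 ≤ P x * Real.sin (s x) - w x * Real.cos (s x) := by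
    intro x hx hxx1
    have h1 := hQm (left_mem_Icc.mpr hx1pos.le) ⟨hx, hxx1⟩ hx
    simpa [hw0, hs0] using h1
  -- the quotient
  have hWd : ∀ x, 0 < x → x ≤ x1 → HasDerivAt (fun x => w x / Real.sin (s x))
      (m x * (P x * Real.sin (s x) - w x * Real.cos (s x)) / Real.sin (s x) ^ 2) x := by
    intro x hx hxx1
    have h1 := (hw x).div (hs x).sin (hsin x hx hxx1).ne'
    refine HasDerivAt.congr_deriv h1 ?_
    ring
  have hWm : MonotoneOn (fun x => w x / Real.sin (s x)) (Icc (δ / 2) x1) := by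
    apply monotoneOn_of_deriv_nonneg (convex_Icc _ _)
    · exact fun x hx => (hWd x (lt_of_lt_of_le (half_pos hδ) hx.1) hx.2).continuousAt.continuousWithinAt
    · intro x hx
      rw [interior_Icc] at hx
      exact (hWd x (lt_trans (half_pos hδ) hx.1) hx.2.le).differentiableAt.differentiableWithinAt
    · intro x hx
      rw [interior_Icc] at hx
      have hx' : 0 < x := lt_trans (half_pos hδ) hx.1
      rw [(hWd x hx' hx.2.le).deriv]
      exact div_nonneg (mul_nonneg (hm x).le (hQ0 x hx'.le hx.2.le)) (sq_nonneg _)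
  have h5 := hWm (left_mem_Icc.mpr (by linarith)) (right_mem_Icc.mpr (by linarith))
    (by linarith : δ / 2 ≤ x1)
  have h6 : 0 < w (δ / 2) / Real.sin (s (δ / 2)) :=
    div_pos (hδw _ (half_pos hδ) (half_lt_self hδ)) (hsin _ (half_pos hδ) (by linarith))
  have h7 : w x1 / Real.sin (s x1) ≤ 0 :=
    div_nonpos_of_nonpos_of_nonneg hx1.2 (hsin x1 hx1pos le_rfl).le
  simp only at h5
  linarith

end KleinEmb
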