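import Pool.Agent.Helper719.Emb.Defs

open scoped ContDiff Topology ENNReal
open Set MeasureTheory Filter

noncomputable section

namespace KleinEmb



/-- linearisation of a `C²` flow -/
theorem variation {E : Type} [NormedAddCommGroup E] [NormedSpace ℝ E] [FiniteDimensional ℝ E]
    (V : E → E) (hV : ContDiff ℝ ∞ V) (φ : ℝ → E → E)
    (h1 : ∀ p τ, HasDerivAt (fun s => φ s p) (V (φ τ p)) τ)
    (h2 : ContDiff ℝ 2 (fun z : ℝ × E => φ z.1 z.2)) (p v : E) (τ : ℝ) :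
    HasDerivAt (fun t => fderiv ℝ (φ t) p v) (fderiv ℝ V (φ τ p) (fderiv ℝ (φ τ) p v)) τ := by
  obtain ⟨G, hG⟩ : ∃ G : ℝ × E → E, G = fun z => φ z.1 z.2 := ⟨_, rfl⟩
  rw [← hG] at h2
  have hGd : ∀ z, HasFDerivAt G (fderiv ℝ G z) z := fun z =>
    (h2.differentiable (by norm_num) z).hasFDerivAt
  -- (a)
  have ha : ∀ t, fderiv ℝ (φ t) p v = fderiv ℝ G (t, p) (0, v) := by
    intro t
    have h3 : HasFDerivAt (G ∘ fun q : E => (t, q))
        ((fderiv ℝ G (t, p)).comp (ContinuousLinearMap.inr ℝ ℝ E)) p :=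
      (hGd (t, p)).comp p (hasFDerivAt_prodMk_right t p)
    have h4 : (G ∘ fun q : E => (t, q)) = φ t := by
      rw [hG]
      rfl
    rw [h4] at h3
    rw [h3.fderiv]
    rfl
  -- (b)
  have hpath : ∀ (q : E) t, HasDerivAt (fun s : ℝ => (s, q)) ((1 : ℝ), (0 : E)) t := fun q t =>
    (hasDerivAt_id t).prodMk (hasDerivAt_const t q)
  have hb : ∀ z, fderiv ℝ G z (1, 0) = V (G z) := by
    rintro ⟨t, q⟩
    have h3 : HasDerivAt (G ∘ fun s : ℝ => (s, q)) (fderiv ℝ G (t, q) (1, 0)) t :=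
      (hGd (t, q)).comp_hasDerivAt t (hpath q t)
    have h4 : (G ∘ fun s : ℝ => (s, q)) = fun s => φ s q := by
      rw [hG]
      rfl
    rw [h4] at h3
    rw [h3.unique (h1 q t), hG]
  -- (c)
  have hFc : ContDiff ℝ 1 (fderiv ℝ G) := h2.fderiv_right (by norm_num)
  have hFd : ∀ z, HasFDerivAt (fderiv ℝ G) (fderiv ℝ (fderiv ℝ G) z) z := fun z =>
    (hFc.differentiable (by norm_num) z).hasFDerivAt
  have hd : HasDerivAt (fun t => fderiv ℝ G (t, p) (0, v))
      (fderiv ℝ (fderiv ℝ G) (τ, p) (1, 0) (0, v)) τ := by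
    have h3 : HasDerivAt (fun t => fderiv ℝ G (t, p)) (fderiv ℝ (fderiv ℝ G) (τ, p) (1, 0)) τ :=
      (hFd (τ, p)).comp_hasDerivAt τ (hpath p τ)
    have h4 := h3.clm_apply (hasDerivAt_const τ ((0 : ℝ), v))
    simpa using h4
  have hsymm := (h2.contDiffAt (x := (τ, p))).isSymmSndFDerivAt (by simp)
  have hval : fderiv ℝ (fderiv ℝ G) (τ, p) (1, 0) (0, v) =
      fderiv ℝ V (φ τ p) (fderiv ℝ (φ τ) p v) := by
    rw [hsymm.eq]
    have h5 : HasFDerivAt (fun z => fderiv ℝ G z (1, 0))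
        ((fderiv ℝ (fderiv ℝ G) (τ, p)).flip (1, 0)) (τ, p) := by
      have h6 := (hFd (τ, p)).clm_apply (hasFDerivAt_const ((1 : ℝ), (0 : E)) (τ, p))
      simpa using h6
    have h7 : (fun z => fderiv ℝ G z (1, 0)) = V ∘ G := funext hb
    have hVd : HasFDerivAt V (fderiv ℝ V (G (τ, p))) (G (τ, p)) :=
      (hV.differentiable (by simp) _).hasFDerivAt
    have h8 : HasFDerivAt (V ∘ G) ((fderiv ℝ V (G (τ, p))).comp (fderiv ℝ G (τ, p))) (τ, p) :=
      hVd.comp (τ, p) (hGd (τ, p))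
    rw [h7] at h5
    have h9 := h5.unique h8
    have h10 := DFunLike.congr_fun h9 (0, v)
    rw [ContinuousLinearMap.flip_apply, ContinuousLinearMap.comp_apply] at h10
    rw [h10, ha τ]
    have h11 : G (τ, p) = φ τ p := by rw [hG]
    rw [h11]
  rw [← hval]
  have h12 : (fun t => fderiv ℝ (φ t) p v) = fun t => fderiv ℝ G (t, p) (0, v) := funext ha
  rw [h12]
  exact hd

end KleinEmb
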