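import Pool.Agent.Helper719.Emb.Defs
import Pool.Agent.Helper719.Emb.P_prof
import Pool.Agent.Helper719.Emb.P_sturm
import Pool.Agent.Helper719.Emb.P_variation

open scoped ContDiff Topology ENNReal
open Set MeasureTheory Filter

noncomputable section

namespace KleinEmb



theorem graph_pos (f : ℝ → ℝ) (hf : IsProf f) (φ : ℝ → ℝ × ℝ → ℝ × ℝ) (h0 : ∀ p, φ 0 p = p)
    (h1 : ∀ p τ, HasDerivAt (fun s => φ s p)
        ((φ τ p).2, (1 + (φ τ p).2 ^ 2) * (deriv f (φ τ p).1 / f (φ τ p).1)) τ)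
    (h2 : ContDiff ℝ 2 (fun z : ℝ × (ℝ × ℝ) => φ z.1 z.2))
    (h3 : ∀ p τ, f (φ τ p).1 / √(1 + (φ τ p).2 ^ 2) = f p.1 / √(1 + p.2 ^ 2))
    (y k x : ℝ) (hx : 0 < x) (hx2 : x * √(1 + k ^ 2) / f y < Real.pi) :
    0 < (fderiv ℝ (φ x) (y, k) (0, 1)).1 := by
  have hfp := hf.pos
  set L : ℝ → ℝ := fun z => deriv f z / f z with hLdef
  have hL : ContDiff ℝ ∞ L :=
    (contDiff_infty_iff_deriv.mp hf.smooth).2.div hf.smooth (fun z => (hfp z).ne')
  have hLd : ∀ z, HasDerivAt L (deriv L z) z := fun z =>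
    (hL.differentiable (by simp)).differentiableAt.hasDerivAt
  have hL'c : Continuous (deriv L) := (contDiff_infty_iff_deriv.mp hL).2.continuous
  have hfd : ∀ z, HasDerivAt f (deriv f z) z := fun z =>
    (hf.smooth.differentiable (by simp)).differentiableAt.hasDerivAt
  set V : ℝ × ℝ → ℝ × ℝ := fun p => (p.2, (1 + p.2 ^ 2) * L p.1) with hVdef
  have hV : ContDiff ℝ ∞ V :=
    contDiff_snd.prodMk ((contDiff_const.add (contDiff_snd.pow 2)).mul (hL.comp contDiff_fst))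
  have hVd : ∀ q W : ℝ × ℝ, fderiv ℝ V q W =
      (W.2, (1 + q.2 ^ 2) * (deriv L q.1 * W.1) + L q.1 * (2 * q.2 * W.2)) := by
    intro q W
    have a1 : HasFDerivAt (fun p : ℝ × ℝ => L p.1)
        ((deriv L q.1) • ContinuousLinearMap.fst ℝ ℝ ℝ) q :=
      (hLd q.1).comp_hasFDerivAt q hasFDerivAt_fst
    have a2 : HasFDerivAt (fun p : ℝ × ℝ => p.2 ^ 2)
        (((2 : ℕ) * q.2 ^ (2 - 1)) • ContinuousLinearMap.snd ℝ ℝ ℝ) q :=
      (hasDerivAt_pow 2 q.2).comp_hasFDerivAt q hasFDerivAt_snd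
    have a3 := (a2.const_add 1).mul a1
    have a4 : HasFDerivAt V _ q := hasFDerivAt_snd.prodMk a3
    rw [a4.fderiv]
    simp
  set p : ℝ × ℝ := (y, k) with hp
  set W : ℝ → ℝ × ℝ := fun t => fderiv ℝ (φ t) p (0, 1) with hW
  have hWd : ∀ τ, HasDerivAt W (fderiv ℝ V (φ τ p) (W τ)) τ := fun τ =>
    variation V hV φ (fun q τ => h1 q τ) h2 p (0, 1) τ
  have hw1 : ∀ τ, HasDerivAt (fun t => (W t).1) (W τ).2 τ := by
    intro τ
    have a := (hasFDerivAt_fst (𝕜 := ℝ) (p := W τ)).comp_hasDerivAt τ (hWd τ)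
    rw [hVd] at a
    exact a
  have hw2 : ∀ τ, HasDerivAt (fun t => (W t).2)
      ((1 + (φ τ p).2 ^ 2) * (deriv L (φ τ p).1 * (W τ).1) + L (φ τ p).1 * (2 * (φ τ p).2 * (W τ).2))
      τ := by
    intro τ
    have a := (hasFDerivAt_snd (𝕜 := ℝ) (p := W τ)).comp_hasDerivAt τ (hWd τ)
    rw [hVd] at a
    exact a
  have hy : ∀ τ, HasDerivAt (fun t => (φ t p).1) (φ τ p).2 τ := by
    intro τ
    exact (hasFDerivAt_fst (𝕜 := ℝ) (p := φ τ p)).comp_hasDerivAt τ (h1 p τ)
  have hyc : Continuous (fun t => (φ t p).1) :=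
    continuous_iff_continuousAt.mpr fun τ => (hy τ).continuousAt
  set c : ℝ := f y / √(1 + k ^ 2) with hc
  have hkp : 0 < √(1 + k ^ 2) := Real.sqrt_pos.mpr (by positivity)
  have hcp : 0 < c := div_pos (hfp y) hkp
  have hrel : ∀ τ, (1 + (φ τ p).2 ^ 2) * c ^ 2 = f (φ τ p).1 ^ 2 := by
    intro τ
    have a := h3 p τ
    have b : 0 < √(1 + (φ τ p).2 ^ 2) := Real.sqrt_pos.mpr (by positivity)
    have a' : f (φ τ p).1 = c * √(1 + (φ τ p).2 ^ 2) := by
      rw [div_eq_iff b.ne'] at a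
      exact a
    rw [a', mul_pow, Real.sq_sqrt (by positivity)]
    ring
  set m : ℝ → ℝ := fun τ => f (φ τ p).1 ^ 2 / c with hm
  have hmp : ∀ τ, 0 < m τ := fun τ => div_pos (pow_pos (hfp _) 2) hcp
  have hmc : Continuous m := ((hf.smooth.continuous.comp hyc).pow 2).div_const c
  have hmd : ∀ τ, HasDerivAt m (2 * L (φ τ p).1 * (φ τ p).2 * m τ) τ := by
    intro τ
    have a : HasDerivAt (fun t => f (φ t p).1) (deriv f (φ τ p).1 * (φ τ p).2) τ :=
      (hfd (φ τ p).1).comp τ (hy τ)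
    have b := (a.pow 2).div_const c
    have e : ((2 : ℕ) : ℝ) * f (φ τ p).1 ^ (2 - 1) * (deriv f (φ τ p).1 * (φ τ p).2) / c =
        2 * L (φ τ p).1 * (φ τ p).2 * m τ := by
      simp only [hLdef, hm]
      have := (hfp (φ τ p).1).ne'
      field_simp
      push_cast
      ring
    rw [← e]
    exact b
  have hfd0 : fderiv ℝ (φ 0) p = ContinuousLinearMap.id ℝ (ℝ × ℝ) := by
    have e : φ 0 = id := funext fun q => h0 q
    rw [e]
    exact fderiv_id
  have hW0 : W 0 = (0, 1) := by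
    simp only [hW]
    rw [hfd0]
    rfl
  have key := sturm (fun t => (W t).1) (fun t => (W t).2 / m t)
    (fun t => deriv L (φ t p).1 / c) (fun t => ∫ τ in (0 : ℝ)..t, m τ) m x hx
    ?_ ?_ ?_ hmp ?_ ?_ hmc ?_ ?_ ?_ ?_ x hx le_rfl
  · exact key
  · intro τ
    have e : m τ * ((W τ).2 / m τ) = (W τ).2 := mul_div_cancel₀ _ (hmp τ).ne'
    change HasDerivAt (fun t => (W t).1) (m τ * ((W τ).2 / m τ)) τ
    rw [e]
    exact hw1 τ
  · intro τ
    have a := (hw2 τ).div (hmd τ) (hmp τ).ne'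
    have e : (((1 + (φ τ p).2 ^ 2) * (deriv L (φ τ p).1 * (W τ).1) +
        L (φ τ p).1 * (2 * (φ τ p).2 * (W τ).2)) * m τ -
        (W τ).2 * (2 * L (φ τ p).1 * (φ τ p).2 * m τ)) / m τ ^ 2 =
        deriv L (φ τ p).1 / c * (W τ).1 := by
      have hm0 := (hmp τ).ne'
      have hr : 1 + (φ τ p).2 ^ 2 = m τ / c := by
        have := hrel τ
        simp only [hm]
        field_simp
        linarith
      rw [hr]
      field_simp
      ring
    rw [← e]
    exact a
  · intro τ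
    exact intervalIntegral.integral_hasDerivAt_right (hmc.intervalIntegrable _ _)
      (hmc.stronglyMeasurableAtFilter _ _) hmc.continuousAt
  · intro τ
    have a := hf.curv (φ τ p).1
    change -(f (φ τ p).1 ^ 2 / c) ≤ deriv L (φ τ p).1 / c
    rw [← neg_div]
    exact div_le_div_of_nonneg_right a hcp.le
  · exact (hL'c.comp hyc).div_const c
  · change (W 0).1 = 0
    rw [hW0]
  · change 0 < (W 0).2 / m 0
    rw [hW0]
    exact div_pos one_pos (hmp 0)
  · exact intervalIntegral.integral_same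
  · have a : ∫ τ in (0 : ℝ)..x, m τ ≤ ∫ _ in (0 : ℝ)..x, 1 / c := by
      apply intervalIntegral.integral_mono_on hx.le (hmc.intervalIntegrable _ _)
        intervalIntegrable_const
      intro τ _
      simp only [hm]
      apply div_le_div_of_nonneg_right _ hcp.le
      exact pow_le_one₀ (hfp _).le (hf.upper _)
    rw [intervalIntegral.integral_const, sub_zero, smul_eq_mul] at a
    refine lt_of_le_of_lt a ?_
    have e : x * (1 / c) = x * √(1 + k ^ 2) / f y := by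
      rw [hc]
      have := (hfp y).ne'
      field_simp
    rw [e]
    exact hx2

end KleinEmb
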