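import Pool.Agent.Helper719.Emb.Defs
import Pool.Agent.Helper719.Emb.P_prof
import Pool.Agent.Helper719.Emb.P_cg
import Pool.Agent.Helper719.Emb.P_graph_flow
import Pool.Agent.Helper719.Emb.P_graph_pos
import Pool.Agent.Helper719.Emb.P_cg_graph

open scoped ContDiff Topology ENNReal
open Set MeasureTheory Filter

noncomputable section

namespace KleinEmb



theorem cg_inj_pos_mono (f : ℝ → ℝ) (hf : IsProf f) (φ : ℝ → ℝ × ℝ → ℝ × ℝ)
    (h0 : ∀ p, φ 0 p = p)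
    (h1 : ∀ p τ, HasDerivAt (fun s => φ s p)
        ((φ τ p).2, (1 + (φ τ p).2 ^ 2) * (deriv f (φ τ p).1 / f (φ τ p).1)) τ)
    (h2 : ContDiff ℝ 2 (fun z : ℝ × (ℝ × ℝ) => φ z.1 z.2))
    (h3 : ∀ p τ, f (φ τ p).1 / √(1 + (φ τ p).2 ^ 2) = f p.1 / √(1 + p.2 ^ 2))
    (y x ka kb : ℝ) (hx : 0 < x) (hab : ka < kb) (ha : x * √(1 + ka ^ 2) / f y < Real.pi)
    (hb : x * √(1 + kb ^ 2) / f y < Real.pi) : (φ x (y, ka)).1 < (φ x (y, kb)).1 := by
  have hfy : 0 < f y := hf.pos y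
  have hd : ContDiff ℝ 2 (φ x) := by
    have : φ x = (fun z : ℝ × (ℝ × ℝ) => φ z.1 z.2) ∘ (fun p : ℝ × ℝ => (x, p)) := rfl
    rw [this]
    exact h2.comp (contDiff_const.prodMk contDiff_id)
  have hder : ∀ k, HasDerivAt (fun k => (φ x (y, k)).1) (fderiv ℝ (φ x) (y, k) (0, 1)).1 k := by
    intro k
    have e1 : HasFDerivAt (φ x) (fderiv ℝ (φ x) (y, k)) (y, k) :=
      (hd.differentiable two_ne_zero (y, k)).hasFDerivAt
    have e2 : HasDerivAt (fun k : ℝ => (y, k)) ((0 : ℝ), (1 : ℝ)) k :=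
      (hasDerivAt_const k y).prodMk (hasDerivAt_id k)
    have e3 := e1.comp_hasDerivAt k e2
    exact e3.fst
  have hpos : ∀ k ∈ Icc ka kb, 0 < (fderiv ℝ (φ x) (y, k) (0, 1)).1 := by
    intro k hk
    apply graph_pos f hf φ h0 h1 h2 h3 y k x hx
    have key : ∀ k' : ℝ, k ^ 2 ≤ k' ^ 2 → x * √(1 + k' ^ 2) / f y < Real.pi →
        x * √(1 + k ^ 2) / f y < Real.pi := by
      intro k' hk' hlt
      refine lt_of_le_of_lt ?_ hlt
      apply div_le_div_of_nonneg_right _ hfy.le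
      apply mul_le_mul_of_nonneg_left _ hx.le
      exact Real.sqrt_le_sqrt (by linarith)
    rcases le_total 0 k with h | h
    · exact key kb (pow_le_pow_left₀ h hk.2 2) hb
    · refine key ka ?_ ha
      nlinarith [hk.1]
  have hmono : StrictMonoOn (fun k => (φ x (y, k)).1) (Icc ka kb) := by
    apply strictMonoOn_of_deriv_pos (convex_Icc ka kb)
    · exact fun k _ => (hder k).continuousAt.continuousWithinAt
    · intro k hk
      rw [(hder k).deriv]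
      exact hpos k (interior_subset hk)
  exact hmono (left_mem_Icc.2 hab.le) (right_mem_Icc.2 hab.le) hab

theorem cg_inj_pos_bd (f X Y U : ℝ → ℝ) (C V : ℝ) (hf : IsProf f) (h : IsCG f X Y U C V)
    (hV : V < Real.pi / 2) (hC : 0 < C) :
    (X 1 - X 0) * √(1 + (U 0 / C) ^ 2) / f (Y 0) < Real.pi := by
  have hf0 : 0 < f (Y 0) := hf.pos _
  have hle : X 1 - X 0 ≤ 2 * C := by
    have hmono : Antitone (fun t => X t - 2 * C * t) := by
      have hd : ∀ t, HasDerivAt (fun t => X t - 2 * C * t) (C / f (Y t) ^ 2 - 2 * C) t := by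
        intro t
        have h7 := (h.hX t).sub ((hasDerivAt_id t).const_mul (2 * C))
        rw [mul_one] at h7
        exact h7
      apply antitone_of_deriv_nonpos
      · exact fun t => (hd t).differentiableAt
      · intro t
        rw [(hd t).deriv]
        have h1 : 1 / √2 ≤ f (Y t) := hf.lower _
        have h2 : (1 / 2 : ℝ) ≤ f (Y t) ^ 2 := by
          have h3 : (1 / √2) ^ 2 ≤ f (Y t) ^ 2 := pow_le_pow_left₀ (by positivity) h1 2
          have h4 : (1 / √2 : ℝ) ^ 2 = 1 / 2 := by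
            rw [div_pow, Real.sq_sqrt (by norm_num), one_pow]
          linarith
        have h5 : C / f (Y t) ^ 2 ≤ 2 * C := by
          rw [div_le_iff₀ (by linarith)]
          nlinarith
        linarith
    have := hmono (zero_le_one' ℝ)
    simp only at this
    linarith
  have hen := h.en 0
  have hs : C * √(1 + (U 0 / C) ^ 2) = V * f (Y 0) := by
    have h1 : (C * √(1 + (U 0 / C) ^ 2)) ^ 2 = (V * f (Y 0)) ^ 2 := by
      rw [mul_pow, Real.sq_sqrt (by positivity), mul_pow, ← hen]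
      field_simp
    have h2 : 0 ≤ C * √(1 + (U 0 / C) ^ 2) := by positivity
    have h3 : 0 ≤ V * f (Y 0) := mul_nonneg h.V0 hf0.le
    exact (pow_left_inj₀ h2 h3 two_ne_zero).1 h1
  have h1 : (X 1 - X 0) * √(1 + (U 0 / C) ^ 2) ≤ 2 * (C * √(1 + (U 0 / C) ^ 2)) := by
    have := mul_le_mul_of_nonneg_right hle (Real.sqrt_nonneg (1 + (U 0 / C) ^ 2))
    linarith
  rw [hs] at h1
  rw [div_lt_iff₀ hf0]
  nlinarith

theorem cg_inj_pos_int (f X Y U : ℝ → ℝ) (C V : ℝ) (hf : IsProf f) (h : IsCG f X Y U C V)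
    (hC : 0 < C) (φ : ℝ → ℝ × ℝ → ℝ × ℝ) (h0 : ∀ p, φ 0 p = p)
    (h1 : ∀ p τ, HasDerivAt (fun s => φ s p)
        ((φ τ p).2, (1 + (φ τ p).2 ^ 2) * (deriv f (φ τ p).1 / f (φ τ p).1)) τ) :
    ∫ s in (0 : ℝ)..(X 1 - X 0), f (φ s (Y 0, U 0 / C)).1 ^ 2 = C := by
  set p : ℝ × ℝ := (Y 0, U 0 / C) with hp
  have hc : Continuous fun s => f (φ s p).1 ^ 2 := by
    have hcφ : Continuous fun s => φ s p := continuous_iff_continuousAt.2 fun s => (h1 p s).continuousAt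
    exact (hf.smooth.continuous.comp (continuous_fst.comp hcφ)).pow 2
  have hΨ : ∀ x, HasDerivAt (fun x => ∫ s in (0 : ℝ)..x, f (φ s p).1 ^ 2) (f (φ x p).1 ^ 2) x :=
    fun x => intervalIntegral.integral_hasDerivAt_right (hc.intervalIntegrable _ _)
      (hc.stronglyMeasurableAtFilter _ _) hc.continuousAt
  have hd : ∀ t, HasDerivAt (fun t => (∫ s in (0 : ℝ)..(X t - X 0), f (φ s p).1 ^ 2) - C * t) 0 t := by
    intro t
    have e1 : HasDerivAt (fun t => X t - X 0) (C / f (Y t) ^ 2) t := (h.hX t).sub_const _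
    have e2 := (hΨ (X t - X 0)).comp t e1
    have e3 := e2.sub ((hasDerivAt_id t).const_mul C)
    have e4 : f (φ (X t - X 0) p).1 ^ 2 * (C / f (Y t) ^ 2) - C * 1 = 0 := by
      have e5 := cg_graph f X Y U C V hf h hC φ h0 h1 t
      rw [← hp] at e5
      rw [← e5]
      have := (hf.pos (Y t)).ne'
      field_simp
      ring
    rw [e4] at e3
    exact e3
  have hconst := is_const_of_deriv_eq_zero (fun t => (hd t).differentiableAt) (fun t => (hd t).deriv) 1 0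
  simp only [sub_self, intervalIntegral.integral_same, mul_zero, mul_one] at hconst
  linarith

theorem cg_inj_pos (f X₁ Y₁ U₁ X₂ Y₂ U₂ : ℝ → ℝ) (C₁ V₁ C₂ V₂ : ℝ) (hf : IsProf f)
    (h₁ : IsCG f X₁ Y₁ U₁ C₁ V₁) (h₂ : IsCG f X₂ Y₂ U₂ C₂ V₂)
    (hV₁ : V₁ < Real.pi / 2) (hV₂ : V₂ < Real.pi / 2) (hX0 : X₁ 0 = X₂ 0) (hY0 : Y₁ 0 = Y₂ 0)
    (hX1 : X₁ 1 = X₂ 1) (hY1 : Y₁ 1 = Y₂ 1) (hC : 0 < C₁) :
    C₁ = C₂ ∧ U₁ 0 = U₂ 0 := by
  obtain ⟨φ, h0, h1, h2, h3⟩ := graph_flow f hf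
  -- positivity of the displacement
  have hxpos : 0 < X₁ 1 - X₁ 0 := by
    have hmono : StrictMono X₁ := by
      apply strictMono_of_deriv_pos
      intro t
      rw [(h₁.hX t).deriv]
      have := hf.pos (Y₁ t)
      positivity
    have := hmono (zero_lt_one' ℝ)
    linarith
  have hC₂ : 0 < C₂ := by
    by_contra hneg
    push Not at hneg
    have hanti : Antitone X₂ := by
      apply antitone_of_deriv_nonpos (fun t => (h₂.hX t).differentiableAt)
      intro t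
      rw [(h₂.hX t).deriv]
      have := hf.pos (Y₂ t)
      exact div_nonpos_of_nonpos_of_nonneg hneg (by positivity)
    have := hanti (zero_le_one' ℝ)
    linarith
  have hx12 : X₂ 1 - X₂ 0 = X₁ 1 - X₁ 0 := by rw [← hX0, ← hX1]
  have hb1 := cg_inj_pos_bd f X₁ Y₁ U₁ C₁ V₁ hf h₁ hV₁ hC
  have hb2 := cg_inj_pos_bd f X₂ Y₂ U₂ C₂ V₂ hf h₂ hV₂ hC₂
  have hi1 := cg_inj_pos_int f X₁ Y₁ U₁ C₁ V₁ hf h₁ hC φ h0 h1
  have hi2 := cg_inj_pos_int f X₂ Y₂ U₂ C₂ V₂ hf h₂ hC₂ φ h0 h1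
  have hg1 := cg_graph f X₁ Y₁ U₁ C₁ V₁ hf h₁ hC φ h0 h1 1
  have hg2 := cg_graph f X₂ Y₂ U₂ C₂ V₂ hf h₂ hC₂ φ h0 h1 1
  rw [hx12, ← hY0] at hb2 hi2 hg2
  have hk : U₁ 0 / C₁ = U₂ 0 / C₂ := by
    rcases lt_trichotomy (U₁ 0 / C₁) (U₂ 0 / C₂) with hlt | heq | hgt
    · exfalso
      have := cg_inj_pos_mono f hf φ h0 h1 h2 h3 (Y₁ 0) (X₁ 1 - X₁ 0) _ _ hxpos hlt hb1 hb2
      rw [← hg1, ← hg2] at this
      simp only at this
      linarith
    · exact heq
    · exfalso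
      have := cg_inj_pos_mono f hf φ h0 h1 h2 h3 (Y₁ 0) (X₁ 1 - X₁ 0) _ _ hxpos hgt hb2 hb1
      rw [← hg1, ← hg2] at this
      simp only at this
      linarith
  rw [← hk, hi1] at hi2
  refine ⟨hi2, ?_⟩
  rw [← hi2] at hk
  have := hC.ne'
  field_simp at hk
  exact hk

end KleinEmb
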