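import Pool.Agent.Helper719.Emb.Defs
import Pool.Agent.Helper719.Emb.P_prof
import Pool.Agent.Helper719.Emb.P_cg
import Pool.Agent.Helper719.Emb.P_cg_inj_pos

open scoped ContDiff Topology ENNReal
open Set MeasureTheory Filter

noncomputable section

namespace KleinEmb



theorem IsCG.neg' {f X Y U : ℝ → ℝ} {C V : ℝ} (h : IsCG f X Y U C V) :
    IsCG f (fun t => -X t) Y U (-C) V := by
  refine ⟨fun t => ?_, h.hY, h.hU, fun t => ?_, h.V0⟩
  · have := (h.hX t).neg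
    rw [neg_div]
    exact this
  · rw [neg_sq]; exact h.en t

theorem cg_sign {f X Y U : ℝ → ℝ} {V : ℝ} (hf : IsProf f) (h : IsCG f X Y U 0 V) :
    ∃ w : ℝ, ∀ t, U t = w * f (Y t) := by
  have hc : Continuous U := continuous_iff_continuousAt.2 fun t => (h.hU t).continuousAt
  have hsq : ∀ t, U t = V * f (Y t) ∨ U t = -(V * f (Y t)) := by
    intro t
    apply sq_eq_sq_iff_eq_or_eq_neg.1
    have := h.en t
    rw [mul_pow]
    linarith
  rcases h.V0.eq_or_lt with hV | hV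
  · refine ⟨0, fun t => ?_⟩
    rcases hsq t with h1 | h1 <;> rw [h1, ← hV] <;> ring
  · have hpos : ∀ t, 0 < V * f (Y t) := fun t => mul_pos hV (hf.pos _)
    have hne : ∀ t, U t ≠ 0 := by
      intro t
      rcases hsq t with h1 | h1
      · rw [h1]; exact (hpos t).ne'
      · rw [h1]; exact neg_ne_zero.2 (hpos t).ne'
    rcases lt_or_gt_of_ne (hne 0) with h0 | h0
    · refine ⟨-V, fun t => ?_⟩
      have hneg : U t < 0 := by
        by_contra hcon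
        push Not at hcon
        obtain ⟨s, hs⟩ := mem_range_of_exists_le_of_exists_ge hc ⟨0, h0.le⟩ ⟨t, hcon⟩
        exact hne s hs
      rcases hsq t with h1 | h1
      · have := hpos t
        linarith
      · rw [h1]; ring
    · refine ⟨V, fun t => ?_⟩
      have hneg : 0 < U t := by
        by_contra hcon
        push Not at hcon
        obtain ⟨s, hs⟩ := mem_range_of_exists_le_of_exists_ge hc ⟨t, hcon⟩ ⟨0, h0.le⟩
        exact hne s hs
      rcases hsq t with h1 | h1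
      · exact h1
      · have := hpos t
        linarith

theorem cg_phi {f X Y U : ℝ → ℝ} {V w : ℝ} (hf : IsProf f) (h : IsCG f X Y U 0 V)
    (hw : ∀ t, U t = w * f (Y t)) :
    w = (∫ x in (0 : ℝ)..(Y 1), f x) - ∫ x in (0 : ℝ)..(Y 0), f x := by
  have hΦ : ∀ y, HasDerivAt (fun u => ∫ x in (0 : ℝ)..u, f x) (f y) y := fun y =>
    (hf.smooth.continuous.integral_hasStrictDerivAt 0 y).hasDerivAt
  have hd : ∀ t, HasDerivAt (fun t => (∫ x in (0 : ℝ)..(Y t), f x) - w * t) 0 t := by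
    intro t
    have h1 := (hΦ (Y t)).comp t (h.hY t)
    have h2 := h1.sub ((hasDerivAt_id t).const_mul w)
    have hfp := (hf.pos (Y t)).ne'
    have e : f (Y t) * (U t / f (Y t) ^ 2) - w * 1 = 0 := by
      rw [hw t]
      field_simp
      ring
    rw [e] at h2
    exact h2
  have hc := is_const_of_deriv_eq_zero (fun t => (hd t).differentiableAt)
    (fun t => (hd t).deriv) 1 0
  linarith

theorem cg_inj (f X₁ Y₁ U₁ X₂ Y₂ U₂ : ℝ → ℝ) (C₁ V₁ C₂ V₂ : ℝ) (hf : IsProf f)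
    (h₁ : IsCG f X₁ Y₁ U₁ C₁ V₁) (h₂ : IsCG f X₂ Y₂ U₂ C₂ V₂)
    (hV₁ : V₁ < Real.pi / 2) (hV₂ : V₂ < Real.pi / 2) (hX0 : X₁ 0 = X₂ 0) (hY0 : Y₁ 0 = Y₂ 0)
    (hX1 : X₁ 1 = X₂ 1) (hY1 : Y₁ 1 = Y₂ 1) :
    C₁ = C₂ ∧ U₁ 0 = U₂ 0 := by
  rcases lt_trichotomy C₁ 0 with hC | hC | hC
  · have h := cg_inj_pos f _ Y₁ U₁ _ Y₂ U₂ (-C₁) V₁ (-C₂) V₂ hf h₁.neg' h₂.neg' hV₁ hV₂
      (by simp only [hX0]) hY0 (by simp only [hX1]) hY1 (by linarith)
    exact ⟨neg_injective h.1, h.2⟩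
  · have hC2 : C₂ = 0 := by
      rcases lt_trichotomy C₂ 0 with h2 | h2 | h2
      · have h := cg_inj_pos f _ Y₂ U₂ _ Y₁ U₁ (-C₂) V₂ (-C₁) V₁ hf h₂.neg' h₁.neg' hV₂ hV₁
          (by simp only [hX0]) hY0.symm (by simp only [hX1]) hY1.symm (by linarith)
        linarith [h.1]
      · exact h2
      · have h := cg_inj_pos f X₂ Y₂ U₂ X₁ Y₁ U₁ C₂ V₂ C₁ V₁ hf h₂ h₁ hV₂ hV₁
          hX0.symm hY0.symm hX1.symm hY1.symm h2
        linarith [h.1]
    subst hC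
    subst hC2
    refine ⟨rfl, ?_⟩
    obtain ⟨w₁, hw₁⟩ := cg_sign hf h₁
    obtain ⟨w₂, hw₂⟩ := cg_sign hf h₂
    have e₁ := cg_phi hf h₁ hw₁
    have e₂ := cg_phi hf h₂ hw₂
    rw [hw₁, hw₂, hY0, e₁, e₂, hY0, hY1]
  · exact cg_inj_pos f X₁ Y₁ U₁ X₂ Y₂ U₂ C₁ V₁ C₂ V₂ hf h₁ h₂ hV₁ hV₂ hX0 hY0 hX1 hY1 hC

end KleinEmb
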