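import Pool.Agent.Helper719.Emb.Defs
import Pool.Agent.Helper719.Emb.P_prof

open scoped ContDiff Topology ENNReal
open Set MeasureTheory Filter

noncomputable section

namespace KleinEmb

/-- the metric with profile `f`, in the coordinates `X = 2π x`, `Y = 4 c0 y` it is
`f(Y)² (dX² + dY²)`. -/
def profMetric (f : ℝ → ℝ) (hf : IsProf f) : KleinMetric where
  E p := 4 * Real.pi ^ 2 * f (4 * c0 * p.2) ^ 2
  F _ := 0
  G p := 16 * c0 ^ 2 * f (4 * c0 * p.2) ^ 2
  smooth_E := contDiff_const.mul ((hf.smooth.comp (contDiff_const.mul contDiff_snd)).pow 2)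
  smooth_F := contDiff_const
  smooth_G := contDiff_const.mul ((hf.smooth.comp (contDiff_const.mul contDiff_snd)).pow 2)
  E_pos p := by have := hf.pos (4 * c0 * p.2); have := Real.pi_pos; positivity
  det_pos p := by
    have := hf.pos (4 * c0 * p.2); have := Real.pi_pos; have := c0_pos
    simp only [ne_eq, OfNat.ofNat_ne_zero, not_false_eq_true, zero_pow, sub_zero]
    positivity
  E_glide x y := by simp only [mul_neg, hf.even]
  F_glide x y := by simp
  G_glide x y := by simp only [mul_neg, hf.even]
  E_shift x y := by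
    have h : 4 * c0 * (y + 1) = (4 * c0 * y + 2 * c0) + 2 * c0 := by ring
    simp only [h, hf.per]
  F_shift x y := rfl
  G_shift x y := by
    have h : 4 * c0 * (y + 1) = (4 * c0 * y + 2 * c0) + 2 * c0 := by ring
    simp only [h, hf.per]

end KleinEmb
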