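import Pool.Agent.Helper719.Emb.Defs
import Pool.Agent.Helper719.Emb.P_prof
import Pool.Agent.Helper719.Emb.P_pm
import Pool.Agent.Helper719.Emb.P_cg

open scoped ContDiff Topology ENNReal
open Set MeasureTheory Filter

noncomputable section

namespace KleinEmb



theorem cgg_fderiv (h : ℝ → ℝ) (h' : ℝ) (p : ℝ × ℝ) (hh : HasDerivAt h h' p.2) :
    fderiv ℝ (fun q : ℝ × ℝ => h q.2) p (1, 0) = 0 ∧
      fderiv ℝ (fun q : ℝ × ℝ => h q.2) p (0, 1) = h' := by
  have h1 : HasFDerivAt (fun q : ℝ × ℝ => h q.2) (h' • ContinuousLinearMap.snd ℝ ℝ ℝ) p :=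
    hh.comp_hasFDerivAt p hasFDerivAt_snd
  rw [h1.fderiv]
  simp

theorem cgg_f (f : ℝ → ℝ) (hf : IsProf f) (c : ℝ) (y : ℝ) :
    HasDerivAt (fun y => c * f (4 * c0 * y) ^ 2)
      (c * (2 * f (4 * c0 * y) * (deriv f (4 * c0 * y) * (4 * c0)))) y := by
  have h1 : HasDerivAt (fun y => 4 * c0 * y) (4 * c0) y := by
    simpa using (hasDerivAt_id y).const_mul (4 * c0)
  have h2 : HasDerivAt f (deriv f (4 * c0 * y)) (4 * c0 * y) :=
    (hf.smooth.differentiable (by simp) _).hasDerivAt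
  have h3 : HasDerivAt (fun y => f (4 * c0 * y)) (deriv f (4 * c0 * y) * (4 * c0)) y :=
    h2.comp y h1
  have h4 := (h3.pow 2).const_mul c
  refine h4.congr_deriv ?_
  simp

theorem cg_of_geo (f : ℝ → ℝ) (hf : IsProf f) (γ : ℝ → ℝ × ℝ) (hγ : (profMetric f hf).IsGeodesic γ) :
    IsCG f (fun t => 2 * Real.pi * (γ t).1) (fun t => 4 * c0 * (γ t).2)
      (fun t => f (4 * c0 * (γ t).2) ^ 2 * (4 * c0 * (deriv γ t).2))
      (f (4 * c0 * (γ 0).2) ^ 2 * (2 * Real.pi * (deriv γ 0).1))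
      ((profMetric f hf).len (γ 0) (deriv γ 0)) := by
  obtain ⟨hC2, hgeo⟩ := hγ
  have hpi := Real.pi_pos
  have hc0 := c0_pos
  -- coordinates
  have hγd : ∀ t, HasDerivAt γ (deriv γ t) t := fun t =>
    (hC2.differentiable (by norm_num) t).hasDerivAt
  have hx : ∀ t, HasDerivAt (fun t => (γ t).1) (deriv γ t).1 t := fun t =>
    (ContinuousLinearMap.fst ℝ ℝ ℝ).hasFDerivAt.comp_hasDerivAt t (hγd t)
  have hy : ∀ t, HasDerivAt (fun t => (γ t).2) (deriv γ t).2 t := fun t =>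
    (ContinuousLinearMap.snd ℝ ℝ ℝ).hasFDerivAt.comp_hasDerivAt t (hγd t)
  have hγ1 : ContDiff ℝ 1 (deriv γ) := by
    have h : ContDiff ℝ (1 + 1) γ := by
      convert hC2 using 1
      norm_num
    exact (contDiff_succ_iff_deriv.mp h).2.2
  have hγdd : ∀ t, HasDerivAt (deriv γ) (deriv (deriv γ) t) t := fun t =>
    (hγ1.differentiable (by norm_num) t).hasDerivAt
  have hpx : Differentiable ℝ (fun t => (deriv γ t).1) := fun t =>
    (hasFDerivAt_fst.comp_hasDerivAt t (hγdd t)).differentiableAt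
  have hpy : Differentiable ℝ (fun t => (deriv γ t).2) := fun t =>
    (hasFDerivAt_snd.comp_hasDerivAt t (hγdd t)).differentiableAt
  have hφ : ∀ t, 0 < f (4 * c0 * (γ t).2) := fun t => hf.pos _
  have hφd : ∀ t, HasDerivAt (fun t => f (4 * c0 * (γ t).2))
      (deriv f (4 * c0 * (γ t).2) * (4 * c0 * (deriv γ t).2)) t := by
    intro t
    have h2 : HasDerivAt f (deriv f (4 * c0 * (γ t).2)) (4 * c0 * (γ t).2) :=
      (hf.smooth.differentiable (by simp) _).hasDerivAt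
    exact h2.comp t ((hy t).const_mul (4 * c0))
  have hEd : ∀ t, fderiv ℝ (profMetric f hf).E (γ t) (1, 0) = 0 ∧
      fderiv ℝ (profMetric f hf).E (γ t) (0, 1) = 4 * Real.pi ^ 2 *
        (2 * f (4 * c0 * (γ t).2) * (deriv f (4 * c0 * (γ t).2) * (4 * c0))) := fun t =>
    cgg_fderiv _ _ (γ t) (cgg_f f hf (4 * Real.pi ^ 2) (γ t).2)
  have hGd : ∀ t, fderiv ℝ (profMetric f hf).G (γ t) (1, 0) = 0 ∧
      fderiv ℝ (profMetric f hf).G (γ t) (0, 1) = 16 * c0 ^ 2 *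
        (2 * f (4 * c0 * (γ t).2) * (deriv f (4 * c0 * (γ t).2) * (4 * c0))) := fun t =>
    cgg_fderiv _ _ (γ t) (cgg_f f hf (16 * c0 ^ 2) (γ t).2)
  have hFd : ∀ t, fderiv ℝ (profMetric f hf).F (γ t) (1, 0) = 0 ∧
      fderiv ℝ (profMetric f hf).F (γ t) (0, 1) = 0 := fun t =>
    cgg_fderiv (fun _ => (0 : ℝ)) 0 (γ t) (hasDerivAt_const _ _)
  -- first conservation law
  have hA1 : ∀ t, deriv (fun s => f (4 * c0 * (γ s).2) ^ 2 * (2 * Real.pi * (deriv γ s).1)) t = 0 := by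
    intro t
    have h1 := (hgeo t).1
    rw [(hEd t).1, (hFd t).1, (hGd t).1] at h1
    have h2 : (fun s => (profMetric f hf).E (γ s) * (deriv γ s).1
        + (profMetric f hf).F (γ s) * (deriv γ s).2)
        = fun s => 2 * Real.pi * (f (4 * c0 * (γ s).2) ^ 2 * (2 * Real.pi * (deriv γ s).1)) := by
      funext s
      show 4 * Real.pi ^ 2 * f (4 * c0 * (γ s).2) ^ 2 * (deriv γ s).1 + 0 * (deriv γ s).2 = _
      ring
    rw [h2, deriv_const_mul_field] at h1
    have h3 : 2 * Real.pi * deriv (fun s => f (4 * c0 * (γ s).2) ^ 2 *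
        (2 * Real.pi * (deriv γ s).1)) t = 0 := by
      rw [h1]
      ring
    rcases mul_eq_zero.mp h3 with h | h
    · exfalso
      have h5 : 0 < 2 * Real.pi := by positivity
      linarith
    · exact h
  have hAd : Differentiable ℝ
      (fun s => f (4 * c0 * (γ s).2) ^ 2 * (2 * Real.pi * (deriv γ s).1)) := by
    intro t
    exact ((hφd t).differentiableAt.pow 2).mul ((hpx t).const_mul (2 * Real.pi))
  have hC : ∀ t, f (4 * c0 * (γ t).2) ^ 2 * (2 * Real.pi * (deriv γ t).1)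
      = f (4 * c0 * (γ 0).2) ^ 2 * (2 * Real.pi * (deriv γ 0).1) := fun t =>
    is_const_of_deriv_eq_zero hAd hA1 t 0
  set C : ℝ := f (4 * c0 * (γ 0).2) ^ 2 * (2 * Real.pi * (deriv γ 0).1) with hCdef
  -- the second equation
  have hUd : Differentiable ℝ
      (fun s => f (4 * c0 * (γ s).2) ^ 2 * (4 * c0 * (deriv γ s).2)) := by
    intro t
    exact ((hφd t).differentiableAt.pow 2).mul ((hpy t).const_mul (4 * c0))
  have hU1 : ∀ t, HasDerivAt (fun s => f (4 * c0 * (γ s).2) ^ 2 * (4 * c0 * (deriv γ s).2))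
      (f (4 * c0 * (γ t).2) * deriv f (4 * c0 * (γ t).2) *
        ((2 * Real.pi * (deriv γ t).1) ^ 2 + (4 * c0 * (deriv γ t).2) ^ 2)) t := by
    intro t
    refine (hUd t).hasDerivAt.congr_deriv ?_
    have h1 := (hgeo t).2
    rw [(hEd t).2, (hFd t).2, (hGd t).2] at h1
    have h2 : (fun s => (profMetric f hf).F (γ s) * (deriv γ s).1
        + (profMetric f hf).G (γ s) * (deriv γ s).2)
        = fun s => 4 * c0 * (f (4 * c0 * (γ s).2) ^ 2 * (4 * c0 * (deriv γ s).2)) := by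
      funext s
      show 0 * (deriv γ s).1 + 16 * c0 ^ 2 * f (4 * c0 * (γ s).2) ^ 2 * (deriv γ s).2 = _
      ring
    rw [h2, deriv_const_mul_field] at h1
    have h3 : (4 * c0) ≠ 0 := by positivity
    apply mul_left_cancel₀ h3
    rw [h1]
    ring
  -- energy
  have hUf : ∀ t, 4 * c0 * (deriv γ t).2 =
      (f (4 * c0 * (γ t).2) ^ 2 * (4 * c0 * (deriv γ t).2)) / f (4 * c0 * (γ t).2) ^ 2 := by
    intro t
    have := (hφ t).ne'
    field_simp
  have hXf : ∀ t, 2 * Real.pi * (deriv γ t).1 = C / f (4 * c0 * (γ t).2) ^ 2 := by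
    intro t
    have := (hφ t).ne'
    rw [← hC t]
    field_simp
  set U : ℝ → ℝ := fun s => f (4 * c0 * (γ s).2) ^ 2 * (4 * c0 * (deriv γ s).2) with hUdef
  have hUf' : ∀ t, 4 * c0 * (deriv γ t).2 = U t / f (4 * c0 * (γ t).2) ^ 2 := hUf
  have hU2 : ∀ t, HasDerivAt U (deriv f (4 * c0 * (γ t).2) * (C ^ 2 + U t ^ 2)
      / f (4 * c0 * (γ t).2) ^ 3) t := by
    intro t
    refine (hU1 t).congr_deriv ?_
    rw [hXf t, hUf' t]
    have := (hφ t).ne'
    field_simp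
  have hen1 : ∀ t, HasDerivAt (fun s => (C ^ 2 + U s ^ 2) / f (4 * c0 * (γ s).2) ^ 2) 0 t := by
    intro t
    have h1 := (((hU2 t).pow 2).const_add (C ^ 2)).div ((hφd t).pow 2)
      (pow_ne_zero 2 (hφ t).ne')
    refine h1.congr_deriv ?_
    rw [hUf' t]
    have := (hφ t).ne'
    simp only [Nat.cast_ofNat, Nat.reduceSub, pow_one, Pi.pow_apply]
    field_simp
    ring
  have hen2 : ∀ t, (C ^ 2 + U t ^ 2) / f (4 * c0 * (γ t).2) ^ 2
      = (C ^ 2 + U 0 ^ 2) / f (4 * c0 * (γ 0).2) ^ 2 := by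
    intro t
    exact is_const_of_deriv_eq_zero (fun t => (hen1 t).differentiableAt)
      (fun t => (hen1 t).deriv) t 0
  have hV : (profMetric f hf).len (γ 0) (deriv γ 0) ^ 2
      = (C ^ 2 + U 0 ^ 2) / f (4 * c0 * (γ 0).2) ^ 2 := by
    have h1 : (profMetric f hf).inn (γ 0) (deriv γ 0) (deriv γ 0)
        = (C ^ 2 + U 0 ^ 2) / f (4 * c0 * (γ 0).2) ^ 2 := by
      show 4 * Real.pi ^ 2 * f (4 * c0 * (γ 0).2) ^ 2 * ((deriv γ 0).1 * (deriv γ 0).1)
        + 0 * ((deriv γ 0).1 * (deriv γ 0).2 + (deriv γ 0).2 * (deriv γ 0).1)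
        + 16 * c0 ^ 2 * f (4 * c0 * (γ 0).2) ^ 2 * ((deriv γ 0).2 * (deriv γ 0).2) = _
      have := (hφ 0).ne'
      rw [hCdef, hUdef]
      field_simp
      ring
    unfold KleinMetric.len
    rw [Real.sq_sqrt, h1]
    rw [h1]
    positivity
  have hen : ∀ t, C ^ 2 + U t ^ 2
      = (profMetric f hf).len (γ 0) (deriv γ 0) ^ 2 * f (4 * c0 * (γ t).2) ^ 2 := by
    intro t
    have := (hφ t).ne'
    rw [hV, ← hen2 t]
    field_simp
  refine ⟨?_, ?_, ?_, ?_, ?_⟩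
  · intro t
    show HasDerivAt (fun t => 2 * Real.pi * (γ t).1) (C / f (4 * c0 * (γ t).2) ^ 2) t
    rw [← hXf t]
    exact (hx t).const_mul _
  · intro t
    show HasDerivAt (fun t => 4 * c0 * (γ t).2) (U t / f (4 * c0 * (γ t).2) ^ 2) t
    rw [← hUf' t]
    exact (hy t).const_mul _
  · intro t
    refine (hU2 t).congr_deriv ?_
    rw [hen t]
    have := (hφ t).ne'
    show _ = (profMetric f hf).len (γ 0) (deriv γ 0) ^ 2 *
      (deriv f (4 * c0 * (γ t).2) / f (4 * c0 * (γ t).2))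
    field_simp
  · intro t
    exact hen t
  · exact Real.sqrt_nonneg _

end KleinEmb
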