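import Pool.Agent.Helper719.Emb.Defs
import Pool.Agent.Helper719.Emb.P_prof
import Pool.Agent.Helper719.Emb.P_cg

open scoped ContDiff Topology ENNReal
open Set MeasureTheory Filter

noncomputable section

namespace KleinEmb



/-- algebraic core of the derivative bound -/
theorem cg_alg (s t s0 t0 c g x y F V : ℝ) (h1 : s ^ 2 + t ^ 2 = 1) (h0 : s0 ^ 2 + t0 ^ 2 = 1)
    (hcg : c ^ 2 + g ^ 2 = 1) (hF : 0 < F) (hs : 0 ≤ s) (hsF : s ≤ F)
    (hxy : (x ^ 2 + y ^ 2) * F ^ 2 = V ^ 2) :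
    (s * ((s0 * t * c - t0 * s) * y + s0 * g * x)) ^ 2 ≤ V ^ 2 * (1 - (s0 * s * c + t0 * t) ^ 2) := by
  have e1 : 1 - (s0 * s * c + t0 * t) ^ 2 = (s0 * t * c - t0 * s) ^ 2 + (s0 * g) ^ 2 := by
    have : (s0 * t * c - t0 * s) ^ 2 + (s0 * g) ^ 2 + (s0 * s * c + t0 * t) ^ 2 =
        (s0 ^ 2 * c ^ 2 + t0 ^ 2) * (s ^ 2 + t ^ 2) + s0 ^ 2 * g ^ 2 := by ring
    rw [h1, mul_one] at this
    have h3 : s0 ^ 2 * c ^ 2 + t0 ^ 2 + s0 ^ 2 * g ^ 2 = s0 ^ 2 * (c ^ 2 + g ^ 2) + t0 ^ 2 := by ring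
    rw [hcg, mul_one, h0] at h3
    linarith
  rw [e1, ← hxy]
  generalize s0 * t * c - t0 * s = A
  generalize s0 * g = B
  have cs : (A * y + B * x) ^ 2 ≤ (A ^ 2 + B ^ 2) * (x ^ 2 + y ^ 2) := by
    nlinarith [sq_nonneg (A * x - B * y)]
  have hs2 : s ^ 2 ≤ F ^ 2 := by nlinarith
  calc (s * (A * y + B * x)) ^ 2 = s ^ 2 * (A * y + B * x) ^ 2 := by ring
    _ ≤ F ^ 2 * ((A ^ 2 + B ^ 2) * (x ^ 2 + y ^ 2)) :=
        mul_le_mul hs2 cs (sq_nonneg _) (sq_nonneg _)
    _ = (x ^ 2 + y ^ 2) * F ^ 2 * (A ^ 2 + B ^ 2) := by ring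

set_option maxHeartbeats 1000000 in
theorem cg_sphere (f X Y U : ℝ → ℝ) (C V : ℝ) (hf : IsProf f) (h : IsCG f X Y U C V)
    (hV : V < Real.pi / 2) (k : ℤ) :
    0 < 1 / Real.cosh (Y 0 - 2 * c0 * k) * (1 / Real.cosh (Y 1 - 2 * c0 * k)) * Real.cos (X 1 - X 0) +
      Real.tanh (Y 0 - 2 * c0 * k) * Real.tanh (Y 1 - 2 * c0 * k) := by
  by_contra hneg
  rw [not_lt] at hneg
  set y0 : ℝ := Y 0 - 2 * c0 * k with hy0
  -- the function `φ`
  let φ : ℝ → ℝ := fun t => 1 / Real.cosh y0 * (1 / Real.cosh (Y t - 2 * c0 * k)) *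
    Real.cos (X t - X 0) + Real.tanh y0 * Real.tanh (Y t - 2 * c0 * k)
  let D : ℝ → ℝ := fun t => -((1 / Real.cosh (Y t - 2 * c0 * k)) *
    ((1 / Real.cosh y0 * Real.tanh (Y t - 2 * c0 * k) * Real.cos (X t - X 0) -
      Real.tanh y0 * (1 / Real.cosh (Y t - 2 * c0 * k))) * (U t / f (Y t) ^ 2) +
      1 / Real.cosh y0 * Real.sin (X t - X 0) * (C / f (Y t) ^ 2)))
  have hst : ∀ z : ℝ, (1 / Real.cosh z) ^ 2 + Real.tanh z ^ 2 = 1 := by
    intro z
    have hc := Real.cosh_pos z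
    rw [Real.tanh_eq_sinh_div_cosh]
    have := Real.cosh_sq z
    field_simp
    linarith
  have hder : ∀ t, HasDerivAt φ (D t) t := by
    intro t
    have hy : HasDerivAt (fun s => Y s - 2 * c0 * k) (U t / f (Y t) ^ 2) t :=
      (h.hY t).sub_const _
    have hch := hy.cosh
    have hsh := hy.sinh
    have hc := ((h.hX t).sub_const (X 0)).cos
    have hpos : Real.cosh (Y t - 2 * c0 * k) ≠ 0 := (Real.cosh_pos _).ne'
    have h1 := (((hch.fun_inv hpos).const_mul (1 / Real.cosh y0)).mul hc).add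
      ((hsh.fun_div hch hpos).const_mul (Real.tanh y0))
    have hfun : φ = (fun s => 1 / Real.cosh y0 * (Real.cosh (Y s - 2 * c0 * k))⁻¹ *
        Real.cos (X s - X 0) + Real.tanh y0 *
        (Real.sinh (Y s - 2 * c0 * k) / Real.cosh (Y s - 2 * c0 * k))) := by
      funext s
      simp only [φ, one_div, Real.tanh_eq_sinh_div_cosh]
    rw [hfun]
    refine HasDerivAt.congr_deriv h1 ?_
    have hsq := Real.cosh_sq (Y t - 2 * c0 * k)
    simp only [D]
    rw [Real.tanh_eq_sinh_div_cosh (Y t - 2 * c0 * k)]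
    have hC : Real.cosh y0 ≠ 0 := (Real.cosh_pos _).ne'
    generalize U t / f (Y t) ^ 2 = y'
    generalize C / f (Y t) ^ 2 = x'
    generalize Real.cosh (Y t - 2 * c0 * k) = ch at *
    generalize Real.sinh (Y t - 2 * c0 * k) = sh at *
    generalize Real.cosh y0 = ch0 at *
    generalize Real.tanh y0 = t0 at *
    have hcc : ch * y' * ch - sh * (sh * y') = y' := by
      have : ch * y' * ch - sh * (sh * y') = (ch ^ 2 - sh ^ 2) * y' := by ring
      rw [this, hsq]; ring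
    rw [hcc]
    field_simp
    ring
  have hbd : ∀ t, D t ^ 2 ≤ V ^ 2 * (1 - φ t ^ 2) := by
    intro t
    have hF := hf.pos (Y t)
    have hxy : ((C / f (Y t) ^ 2) ^ 2 + (U t / f (Y t) ^ 2) ^ 2) * f (Y t) ^ 2 = V ^ 2 := by
      have := h.en t
      field_simp
      linarith
    have := cg_alg (1 / Real.cosh (Y t - 2 * c0 * k)) (Real.tanh (Y t - 2 * c0 * k))
      (1 / Real.cosh y0) (Real.tanh y0) (Real.cos (X t - X 0)) (Real.sin (X t - X 0))
      (C / f (Y t) ^ 2) (U t / f (Y t) ^ 2) (f (Y t)) V (hst _) (hst _)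
      (by rw [add_comm]; exact Real.sin_sq_add_cos_sq _) hF
      (by have := Real.cosh_pos (Y t - 2 * c0 * k); positivity) (hf.sech k (Y t)) hxy
    simp only [D, φ]
    rw [neg_sq]
    exact this
  have hφ0 : φ 0 = 1 := by
    have h1 := hst y0
    simp only [φ, sub_self, Real.cos_zero, mul_one]
    rw [← hy0]
    linarith [h1, sq (1 / Real.cosh y0), sq (Real.tanh y0)]
  have hφ1 : φ 1 ≤ 0 := hneg
  -- the regularised angle
  have hV0 := h.V0
  have hpi := Real.pi_pos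
  set W : ℝ := (V + Real.pi / 2) / 2 with hW
  have hW1 : V < W := by rw [hW]; linarith
  have hW2 : W < Real.pi / 2 := by rw [hW]; linarith
  set lam : ℝ := Real.sin W with hlam
  have hlam0 : 0 ≤ lam := Real.sin_nonneg_of_nonneg_of_le_pi (by linarith) (by linarith)
  have hlam1 : lam < 1 := by
    rw [hlam, ← Real.sin_pi_div_two]
    exact Real.sin_lt_sin_of_lt_of_le_pi_div_two (by linarith) le_rfl hW2
  have harc : Real.arcsin lam = W := Real.arcsin_sin (by linarith) (by linarith)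
  have hφle : ∀ t, φ t ^ 2 ≤ 1 := by
    intro t
    by_contra hgt
    rw [not_le] at hgt
    have h1 := hbd t
    rcases hV0.eq_or_lt with h0 | h0
    · -- `V = 0`
      have hst1 := hst (Y t - 2 * c0 * k)
      have hst0 := hst y0
      have hcs := Real.sin_sq_add_cos_sq (X t - X 0)
      have hE := cg_alg (1 / Real.cosh (Y t - 2 * c0 * k)) (Real.tanh (Y t - 2 * c0 * k))
        (1 / Real.cosh y0) (Real.tanh y0) (Real.cos (X t - X 0)) (Real.sin (X t - X 0))
        1 0 1 1 hst1 hst0 (by linarith) one_pos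
        (by have := Real.cosh_pos (Y t - 2 * c0 * k); positivity)
        (by rw [div_le_one (Real.cosh_pos _)]; exact Real.one_le_cosh _) (by norm_num)
      have hE' : 0 ≤ 1 ^ 2 * (1 - φ t ^ 2) := le_trans (sq_nonneg _) hE
      linarith
    · nlinarith [sq_nonneg (D t), sq_pos_of_pos h0]
  have hlt : ∀ t, (lam * φ t) ^ 2 < 1 := by
    intro t
    have := hφle t
    have h2 : (lam * φ t) ^ 2 = lam ^ 2 * φ t ^ 2 := by ring
    rw [h2]
    have h3 : lam ^ 2 < 1 := by nlinarith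
    nlinarith [sq_nonneg (φ t), sq_nonneg lam]
  have harcd : ∀ t, HasDerivAt (fun s => Real.arcsin (lam * φ s))
      (1 / √(1 - (lam * φ t) ^ 2) * (lam * D t)) t := by
    intro t
    have h1 := hlt t
    have hne1 : lam * φ t ≠ -1 := by
      intro e
      rw [e] at h1
      norm_num at h1
    have hne2 : lam * φ t ≠ 1 := by
      intro e
      rw [e] at h1
      norm_num at h1
    exact (Real.hasDerivAt_arcsin hne1 hne2).comp t ((hder t).const_mul lam)
  have hbound : ‖Real.arcsin (lam * φ 1) - Real.arcsin (lam * φ 0)‖ ≤ V := by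
    refine norm_image_sub_le_of_norm_deriv_le_segment_01' (f := fun s => Real.arcsin (lam * φ s))
      (f' := fun t => 1 / √(1 - (lam * φ t) ^ 2) * (lam * D t))
      (fun t _ => (harcd t).hasDerivWithinAt) ?_
    intro t _
    have h1 := hlt t
    have hsq : 0 < 1 - (lam * φ t) ^ 2 := by linarith
    have hsqrt : 0 < √(1 - (lam * φ t) ^ 2) := Real.sqrt_pos.2 hsq
    rw [Real.norm_eq_abs, abs_mul, abs_of_pos (by positivity : (0:ℝ) < 1 / √(1 - (lam * φ t) ^ 2)),
      one_div, inv_mul_le_iff₀ hsqrt]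
    apply abs_le_of_sq_le_sq' _ (by positivity) |> fun h => abs_le.2 h
    rw [mul_pow (√(1 - (lam * φ t) ^ 2)) V, Real.sq_sqrt hsq.le]
    have h2 := hbd t
    have h3 := hφle t
    have h4 : lam ^ 2 ≤ 1 := by nlinarith
    have h5 : (lam * D t) ^ 2 = lam ^ 2 * D t ^ 2 := by ring
    rw [h5]
    calc lam ^ 2 * D t ^ 2 ≤ 1 * (V ^ 2 * (1 - φ t ^ 2)) :=
          mul_le_mul h4 h2 (sq_nonneg _) zero_le_one
      _ ≤ (1 - (lam * φ t) ^ 2) * V ^ 2 := by
          have h6 : (lam * φ t) ^ 2 ≤ φ t ^ 2 := by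
            rw [mul_pow]
            exact mul_le_of_le_one_left (sq_nonneg _) h4
          have h7 := mul_nonneg (sq_nonneg V) (sub_nonneg.2 h6)
          have h8 : V ^ 2 * (φ t ^ 2 - (lam * φ t) ^ 2) =
              (1 - (lam * φ t) ^ 2) * V ^ 2 - 1 * (V ^ 2 * (1 - φ t ^ 2)) := by ring
          rw [h8] at h7
          exact sub_nonneg.1 h7
  rw [hφ0, mul_one, harc] at hbound
  have h1 : Real.arcsin (lam * φ 1) ≤ 0 :=
    Real.arcsin_nonpos.2 (mul_nonpos_of_nonneg_of_nonpos hlam0 hφ1)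
  have h2 := (abs_le.1 hbound).1
  linarith

end KleinEmb
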