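import Pool.Agent.Helper719.Emb.Defs
import Pool.Agent.Helper719.Emb.P_prof

open scoped ContDiff Topology ENNReal
open Set MeasureTheory Filter

noncomputable section

namespace KleinEmb



theorem pint_sinh : Real.sinh c0 = 1 := by
  have h : c0 = Real.arsinh 1 := by
    unfold c0 Real.arsinh
    norm_num
  rw [h, Real.sinh_arsinh]

theorem pint_deriv (a y : ℝ) :
    HasDerivAt (fun y => Real.arctan (Real.sinh (y - a))) (1 / Real.cosh (y - a)) y := by
  have h1 : HasDerivAt (fun y : ℝ => y - a) 1 y := (hasDerivAt_id y).sub_const a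
  have h2 : HasDerivAt (fun y : ℝ => Real.sinh (y - a)) (Real.cosh (y - a) * 1) y :=
    h1.sinh
  have h3 := h2.arctan
  convert h3 using 1
  have h4 := Real.cosh_sq (y - a)
  have h5 := Real.cosh_pos (y - a)
  rw [mul_one, add_comm 1, ← h4]
  field_simp

theorem pint_cont (a : ℝ) : Continuous (fun y => 1 / Real.cosh (y - a)) := by
  have h1 : Continuous fun y : ℝ => Real.cosh (y - a) :=
    Real.continuous_cosh.comp (continuous_id.sub continuous_const)
  exact continuous_const.div h1 (fun y => (Real.cosh_pos _).ne')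

theorem pint_int (a u v : ℝ) : ∫ y in u..v, 1 / Real.cosh (y - a)
    = Real.arctan (Real.sinh (v - a)) - Real.arctan (Real.sinh (u - a)) :=
  intervalIntegral.integral_eq_sub_of_hasDerivAt (fun y _ => pint_deriv a y)
    ((pint_cont a).intervalIntegrable u v)

theorem prof_int (f : ℝ → ℝ) (hf : IsProf f) : Real.pi / 2 ≤ ∫ y in (0 : ℝ)..(2 * c0), f y := by
  have hfc : Continuous f := hf.smooth.continuous
  have hc := c0_pos
  rw [← intervalIntegral.integral_add_adjacent_intervals (hfc.intervalIntegrable 0 c0)
    (hfc.intervalIntegrable c0 (2 * c0))]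
  have h1 : Real.pi / 4 ≤ ∫ y in (0 : ℝ)..c0, f y := by
    have h2 : ∫ y in (0 : ℝ)..c0, 1 / Real.cosh (y - 0) = Real.pi / 4 := by
      rw [pint_int, sub_zero, sub_zero, pint_sinh, Real.sinh_zero, Real.arctan_one,
        Real.arctan_zero, sub_zero]
    rw [← h2]
    apply intervalIntegral.integral_mono_on hc.le ((pint_cont 0).intervalIntegrable _ _)
      (hfc.intervalIntegrable _ _)
    intro y _
    have h3 := hf.sech 0 y
    simpa using h3
  have h2 : Real.pi / 4 ≤ ∫ y in c0..(2 * c0), f y := by
    have h2 : ∫ y in c0..(2 * c0), 1 / Real.cosh (y - 2 * c0) = Real.pi / 4 := by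
      rw [pint_int, sub_self, Real.sinh_zero, Real.arctan_zero,
        show c0 - 2 * c0 = -c0 by ring, Real.sinh_neg, pint_sinh, Real.arctan_neg, Real.arctan_one]
      ring
    rw [← h2]
    apply intervalIntegral.integral_mono_on (by linarith) ((pint_cont _).intervalIntegrable _ _)
      (hfc.intervalIntegrable _ _)
    intro y _
    have h3 := hf.sech 1 y
    simpa using h3
  linarith

end KleinEmb
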