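import Pool.Agent.Helper719.Emb.Defs
import Pool.Agent.Helper719.Emb.P_prof
import Pool.Agent.Helper719.Emb.P_prof_int
import Pool.Agent.Helper719.Emb.P_cg
import Pool.Agent.Helper719.Emb.P_cg_sphere

open scoped ContDiff Topology ENNReal
open Set MeasureTheory Filter

noncomputable section

namespace KleinEmb



theorem cgs_mvt (g g' : ℝ → ℝ) (M : ℝ) (h : ∀ t, HasDerivAt g (g' t) t) (hb : ∀ t, |g' t| ≤ M) :
    |g 1 - g 0| ≤ M := by
  have h3 := Convex.norm_image_sub_le_of_norm_hasDerivWithin_le (s := Set.univ) (x := (0 : ℝ))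
    (y := 1) (C := M) (f := g) (f' := g')
    (fun s _ => (h s).hasDerivWithinAt) (fun s _ => hb s) convex_univ (Set.mem_univ _)
    (Set.mem_univ _)
  simpa using h3

theorem cgs_X (f X Y U : ℝ → ℝ) (C V : ℝ) (hf : IsProf f) (h : IsCG f X Y U C V) :
    |X 1 - X 0| ≤ √2 * V := by
  apply cgs_mvt X _ _ h.hX
  intro t
  have hp := hf.pos (Y t)
  have hV := h.V0
  have h1 : |C| ≤ V * f (Y t) := by
    apply abs_le_of_sq_le_sq _ (mul_nonneg hV hp.le)
    rw [mul_pow]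
    nlinarith [h.en t, sq_nonneg (U t)]
  have h2 : 1 ≤ √2 * f (Y t) := by
    have h3 := hf.lower (Y t)
    rw [div_le_iff₀ (by positivity)] at h3
    linarith
  rw [abs_div, abs_of_pos (by positivity : (0 : ℝ) < f (Y t) ^ 2), div_le_iff₀ (by positivity)]
  calc |C| ≤ V * f (Y t) := h1
    _ = V * f (Y t) * 1 := (mul_one _).symm
    _ ≤ V * f (Y t) * (√2 * f (Y t)) := mul_le_mul_of_nonneg_left h2 (mul_nonneg hV hp.le)
    _ = √2 * V * f (Y t) ^ 2 := by ring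

theorem cgs_Y (f X Y U : ℝ → ℝ) (C V : ℝ) (hf : IsProf f) (h : IsCG f X Y U C V) :
    |(∫ y in (0 : ℝ)..(Y 1), f y) - ∫ y in (0 : ℝ)..(Y 0), f y| ≤ V := by
  have hc : Continuous f := hf.smooth.continuous
  apply cgs_mvt (fun t => ∫ y in (0 : ℝ)..(Y t), f y) (fun t => f (Y t) * (U t / f (Y t) ^ 2)) V
  · intro t
    have h1 : HasDerivAt (fun z : ℝ => ∫ y in (0 : ℝ)..z, f y) (f (Y t)) (Y t) :=
      intervalIntegral.integral_hasDerivAt_right (hc.intervalIntegrable _ _)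
        (hc.stronglyMeasurableAtFilter _ _) hc.continuousAt
    exact h1.comp t (h.hY t)
  · intro t
    have hp := hf.pos (Y t)
    have hV := h.V0
    have h1 : |U t| ≤ V * f (Y t) := by
      apply abs_le_of_sq_le_sq _ (mul_nonneg hV hp.le)
      rw [mul_pow]
      nlinarith [h.en t, sq_nonneg C]
    have e : f (Y t) * (U t / f (Y t) ^ 2) = U t / f (Y t) := by
      have := hp.ne'
      field_simp
    rw [e, abs_div, abs_of_pos hp, div_le_iff₀ hp]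
    exact h1

theorem cg_sys (f X₁ Y₁ U₁ X₂ Y₂ U₂ : ℝ → ℝ) (C₁ V₁ C₂ V₂ : ℝ) (hf : IsProf f)
    (h₁ : IsCG f X₁ Y₁ U₁ C₁ V₁) (h₂ : IsCG f X₂ Y₂ U₂ C₂ V₂)
    (hV₁ : V₁ < Real.pi / 2) (hV₂ : V₂ < Real.pi / 2) (hX0 : X₁ 0 = X₂ 0) (hY0 : Y₁ 0 = Y₂ 0)
    (n k : ℤ) (hX1 : X₁ 1 = X₂ 1 + n * Real.pi) (hY1 : Y₁ 1 = (-1) ^ n * Y₂ 1 + 4 * c0 * k) :
    n = 0 ∧ k = 0 := by
  have hpi := Real.pi_pos
  rcases Int.even_or_odd n with hn | hn
  · rw [hn.neg_one_zpow, one_mul] at hY1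
    have hn0 : n = 0 := by
      by_contra hne
      have h3 := cgs_X f X₁ Y₁ U₁ C₁ V₁ hf h₁
      have h4 := cgs_X f X₂ Y₂ U₂ C₂ V₂ hf h₂
      have h5 : |(n : ℝ) * Real.pi| ≤ √2 * V₁ + √2 * V₂ := by
        have e : (n : ℝ) * Real.pi = (X₁ 1 - X₁ 0) - (X₂ 1 - X₂ 0) := by
          rw [hX1, hX0]; ring
        rw [e]
        exact (abs_sub _ _).trans (add_le_add h3 h4)
      have h6 : (2 : ℝ) ≤ |(n : ℝ)| := by
        obtain ⟨m, hm⟩ := hn
        have hm0 : m ≠ 0 := by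
          intro h; apply hne; rw [hm, h]; rfl
        have h7 : (1 : ℤ) ≤ |m| := Int.one_le_abs hm0
        have h8 : (2 : ℤ) ≤ |n| := by
          rw [hm, ← two_mul, abs_mul]
          have : |(2 : ℤ)| = 2 := rfl
          rw [this]
          linarith
        exact_mod_cast h8
      rw [abs_mul, abs_of_pos hpi] at h5
      have h9 : √2 < 2 := by
        rw [Real.sqrt_lt' (by norm_num)]
        norm_num
      have h10 : √2 * V₁ + √2 * V₂ < 2 * Real.pi := by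
        have hs : 0 < √2 := by positivity
        nlinarith
      nlinarith
    subst hn0
    refine ⟨rfl, ?_⟩
    by_contra hk
    have h3 := cgs_Y f X₁ Y₁ U₁ C₁ V₁ hf h₁
    have h4 := cgs_Y f X₂ Y₂ U₂ C₂ V₂ hf h₂
    have hc : Continuous f := hf.smooth.continuous
    have hper : Function.Periodic f (2 * c0) := hf.per
    have hint : ∀ t₁ t₂, IntervalIntegrable f volume t₁ t₂ := fun _ _ =>
      hc.intervalIntegrable _ _
    have h5 := hper.intervalIntegral_add_zsmul_eq (2 * k) (Y₂ 1) hint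
    have h6 : Y₂ 1 + (2 * k) • (2 * c0) = Y₁ 1 := by
      rw [hY1, zsmul_eq_mul]
      push_cast
      ring
    have h7 : ∫ x in (Y₂ 1)..(Y₂ 1 + 2 * c0), f x = ∫ x in (0 : ℝ)..(2 * c0), f x := by
      have := hper.intervalIntegral_add_eq (Y₂ 1) 0
      rw [zero_add] at this
      exact this
    rw [h6, h7] at h5
    have h8 : (∫ y in (0 : ℝ)..(Y₁ 1), f y) - ∫ y in (0 : ℝ)..(Y₂ 1), f y =
        ∫ x in (Y₂ 1)..(Y₁ 1), f x :=
      intervalIntegral.integral_interval_sub_left (hint _ _) (hint _ _)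
    have h9 : |∫ x in (Y₂ 1)..(Y₁ 1), f x| ≤ V₁ + V₂ := by
      rw [← h8]
      have e : (∫ y in (0 : ℝ)..(Y₁ 1), f y) - ∫ y in (0 : ℝ)..(Y₂ 1), f y =
          ((∫ y in (0 : ℝ)..(Y₁ 1), f y) - ∫ y in (0 : ℝ)..(Y₁ 0), f y) -
          ((∫ y in (0 : ℝ)..(Y₂ 1), f y) - ∫ y in (0 : ℝ)..(Y₂ 0), f y) := by
        rw [hY0]; ring
      rw [e]
      exact (abs_sub _ _).trans (add_le_add h3 h4)
    rw [h5, zsmul_eq_mul, abs_mul] at h9
    have h10 := prof_int f hf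
    have h11 : (1 : ℝ) ≤ |(k : ℝ)| := by
      have := Int.one_le_abs hk
      exact_mod_cast this
    have h12 : |((2 * k : ℤ) : ℝ)| = 2 * |(k : ℝ)| := by
      push_cast
      rw [abs_mul, abs_of_pos (by norm_num : (0 : ℝ) < 2)]
    rw [h12] at h9
    have h13 : Real.pi / 2 ≤ |∫ x in (0 : ℝ)..(2 * c0), f x| := h10.trans (le_abs_self _)
    have h14 : 2 * 1 * (Real.pi / 2) ≤ 2 * |(k : ℝ)| * |∫ x in (0 : ℝ)..(2 * c0), f x| := by
      apply mul_le_mul _ h13 (by positivity) (by positivity)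
      linarith
    linarith
  · exfalso
    rw [hn.neg_one_zpow] at hY1
    have h3 := cg_sphere f X₁ Y₁ U₁ C₁ V₁ hf h₁ hV₁ k
    have h4 := cg_sphere f X₂ Y₂ U₂ C₂ V₂ hf h₂ hV₂ k
    have e1 : Y₁ 1 - 2 * c0 * k = -(Y₂ 1 - 2 * c0 * k) := by rw [hY1]; ring
    have e2 : X₁ 1 - X₁ 0 = (X₂ 1 - X₂ 0) + n * Real.pi := by rw [hX1, hX0]; ring
    rw [e1, e2, hY0, Real.cosh_neg, Real.tanh_neg, Real.cos_add_int_mul_pi, hn.neg_one_zpow] at h3
    linarith

end KleinEmb
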