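import Pool.Agent.Helper719.Emb.Defs

open scoped ContDiff Topology ENNReal
open Set MeasureTheory Filter

noncomputable section

namespace KleinEmb



theorem coercive_unit {H : Type} [NormedAddCommGroup H] [InnerProductSpace ℂ H] [CompleteSpace H]
    (T : H →L[ℂ] H) (m : ℝ) (hm : 0 < m)
    (h : ∀ c : H, m * ‖c‖ ^ 2 ≤ (inner ℂ c (T c)).re) : IsUnit T := by
  refine ContinuousLinearMap.isUnit_of_forall_le_norm_inner_map T (c := ⟨m, hm.le⟩) (by exact_mod_cast hm) ?_
  intro x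
  have h1 := h x
  have h2 : (inner ℂ x (T x)).re ≤ ‖inner ℂ x (T x)‖ := Complex.re_le_norm _
  have h3 : ‖inner ℂ x (T x)‖ = ‖inner ℂ (T x) x‖ := norm_inner_symm _ _
  have : ‖x‖ ^ 2 * m ≤ ‖inner ℂ (T x) x‖ := by nlinarith
  exact this

end KleinEmb
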