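import Pool.Agent.Helper719.Emb.Defs

open scoped ContDiff Topology ENNReal
open Set MeasureTheory Filter

noncomputable section

namespace KleinEmb

/-- `ℤ²`-periodic functions on the plane -/
def Per {β : Type} (f : ℝ × ℝ → β) : Prop :=
  (∀ x y, f (x + 1, y) = f (x, y)) ∧ ∀ x y, f (x, y + 1) = f (x, y)

/-- partial derivative in `x` -/
def dX {V : Type} [NormedAddCommGroup V] [NormedSpace ℝ V] (f : ℝ × ℝ → V) (p : ℝ × ℝ) : V :=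
  fderiv ℝ f p (1, 0)

/-- partial derivative in `y` -/
def dY {V : Type} [NormedAddCommGroup V] [NormedSpace ℝ V] (f : ℝ × ℝ → V) (p : ℝ × ℝ) : V :=
  fderiv ℝ f p (0, 1)

/-- the character `exp (2πi (k₁ x + k₂ y))` -/
def ee (k : ℤ × ℤ) (p : ℝ × ℝ) : ℂ :=
  Complex.exp (2 * Real.pi * Complex.I * (k.1 * p.1 + k.2 * p.2))

/-- Fourier coefficients -/
def fc (f : ℝ × ℝ → ℂ) (k : ℤ × ℤ) : ℂ :=
  ∫ x in (0 : ℝ)..1, ∫ y in (0 : ℝ)..1, f (x, y) * ee (-k) (x, y)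

/-- rapidly decreasing coefficients -/
def Rap (c : ℤ × ℤ → ℂ) : Prop :=
  ∀ N : ℕ, ∃ C : ℝ, ∀ k : ℤ × ℤ, (1 + |(k.1 : ℝ)| + |(k.2 : ℝ)|) ^ N * ‖c k‖ ≤ C

/-- Fourier series -/
def synth (c : ℤ × ℤ → ℂ) (p : ℝ × ℝ) : ℂ := ∑' k, c k * ee k p

end KleinEmb
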