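import Pool.Agent.Helper719.Emb.Defs
import Pool.Agent.Helper719.Emb.P_fou
import Pool.Agent.Helper719.Emb.P_W

open scoped ContDiff Topology ENNReal
open Set MeasureTheory Filter

noncomputable section

namespace KleinEmb

/-- connection form, `dx`-component -/
def KleinMetric.om1 (g : KleinMetric) (p : ℝ × ℝ) : ℝ :=
  √(g.E p) * (dX (fun q => g.F q / √(g.E q)) p - dY (fun q => √(g.E q)) p) / g.W p

/-- connection form, `dy`-component -/
def KleinMetric.om2 (g : KleinMetric) (p : ℝ × ℝ) : ℝ :=
  (g.F p * (dX (fun q => g.F q / √(g.E q)) p - dY (fun q => √(g.E q)) p) +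
    g.W p * dX (fun q => g.W q / √(g.E q)) p) / (√(g.E p) * g.W p)

end KleinEmb
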