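import Pool.Agent.Helper719.Emb.Defs
import Pool.Agent.Helper719.Emb.P_fou
import Pool.Agent.Helper719.Emb.P_W
import Pool.Agent.Helper719.Emb.P_W_smooth
import Pool.Agent.Helper719.Emb.P_om

open scoped ContDiff Topology ENNReal
open Set MeasureTheory Filter

noncomputable section

namespace KleinEmb



theorem cf_deriv_cos (u ϑ P R : ℝ × ℝ → ℝ) (p v : ℝ × ℝ) (hu : DifferentiableAt ℝ u p)
    (hϑ : DifferentiableAt ℝ ϑ p) (hP : DifferentiableAt ℝ P p) (hR : DifferentiableAt ℝ R p) :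
    fderiv ℝ (fun q => Real.exp (u q) * (Real.cos (ϑ q) * P q - Real.sin (ϑ q) * R q)) p v =
      Real.exp (u p) * (fderiv ℝ u p v * (Real.cos (ϑ p) * P p - Real.sin (ϑ p) * R p)
        + Real.cos (ϑ p) * (fderiv ℝ P p v - fderiv ℝ ϑ p v * R p)
        - Real.sin (ϑ p) * (fderiv ℝ R p v + fderiv ℝ ϑ p v * P p)) := by
  have h := (hu.hasFDerivAt.exp.mul
    ((hϑ.hasFDerivAt.cos.mul hP.hasFDerivAt).sub (hϑ.hasFDerivAt.sin.mul hR.hasFDerivAt))).fderiv
  have h2 := congrArg (fun L : ℝ × ℝ →L[ℝ] ℝ => L v) h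
  have h3 : fderiv ℝ (fun q => Real.exp (u q) * (Real.cos (ϑ q) * P q - Real.sin (ϑ q) * R q)) p v =
    _ := h2
  rw [h3]
  simp only [ContinuousLinearMap.add_apply, ContinuousLinearMap.sub_apply,
    ContinuousLinearMap.smul_apply, smul_eq_mul, ContinuousLinearMap.neg_apply]
  simp
  ring

theorem cf_deriv_sin (u ϑ P R : ℝ × ℝ → ℝ) (p v : ℝ × ℝ) (hu : DifferentiableAt ℝ u p)
    (hϑ : DifferentiableAt ℝ ϑ p) (hP : DifferentiableAt ℝ P p) (hR : DifferentiableAt ℝ R p) :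
    fderiv ℝ (fun q => Real.exp (u q) * (Real.sin (ϑ q) * P q + Real.cos (ϑ q) * R q)) p v =
      Real.exp (u p) * (fderiv ℝ u p v * (Real.sin (ϑ p) * P p + Real.cos (ϑ p) * R p)
        + Real.sin (ϑ p) * (fderiv ℝ P p v - fderiv ℝ ϑ p v * R p)
        + Real.cos (ϑ p) * (fderiv ℝ R p v + fderiv ℝ ϑ p v * P p)) := by
  have h := (hu.hasFDerivAt.exp.mul
    ((hϑ.hasFDerivAt.sin.mul hP.hasFDerivAt).add (hϑ.hasFDerivAt.cos.mul hR.hasFDerivAt))).fderiv
  have h2 := congrArg (fun L : ℝ × ℝ →L[ℝ] ℝ => L v) h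
  have h3 : fderiv ℝ (fun q => Real.exp (u q) * (Real.sin (ϑ q) * P q + Real.cos (ϑ q) * R q)) p v =
    _ := h2
  rw [h3]
  simp only [ContinuousLinearMap.add_apply, ContinuousLinearMap.sub_apply,
    ContinuousLinearMap.smul_apply, smul_eq_mul, ContinuousLinearMap.neg_apply]
  simp
  ring

theorem coframe_closed (g : KleinMetric) (u ϑ : ℝ × ℝ → ℝ) (hu : ContDiff ℝ ∞ u)
    (hϑ : ContDiff ℝ ∞ ϑ)
    (h1 : ∀ p, dX ϑ p = (g.F p * dX u p - g.E p * dY u p) / g.W p + g.om1 p)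
    (h2 : ∀ p, dY ϑ p = (g.G p * dX u p - g.F p * dY u p) / g.W p + g.om2 p) (p : ℝ × ℝ) :
    dY (fun q => Real.exp (u q) * (Real.cos (ϑ q) * √(g.E q))) p =
      dX (fun q => Real.exp (u q) * ((Real.cos (ϑ q) * g.F q - Real.sin (ϑ q) * g.W q) / √(g.E q))) p ∧
    dY (fun q => Real.exp (u q) * (Real.sin (ϑ q) * √(g.E q))) p =
      dX (fun q => Real.exp (u q) * ((Real.sin (ϑ q) * g.F q + Real.cos (ϑ q) * g.W q) / √(g.E q))) p := by
  obtain ⟨hWs, hWp, hW2, _⟩ := W_smooth g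
  have hdu : DifferentiableAt ℝ u p := (hu.differentiable (by simp)) p
  have hdϑ : DifferentiableAt ℝ ϑ p := (hϑ.differentiable (by simp)) p
  have hdE : DifferentiableAt ℝ g.E p := (g.smooth_E.differentiable (by simp)) p
  have hdF : DifferentiableAt ℝ g.F p := (g.smooth_F.differentiable (by simp)) p
  have hdW : DifferentiableAt ℝ g.W p := (hWs.differentiable (by simp)) p
  have hSpos : 0 < √(g.E p) := Real.sqrt_pos.2 (g.E_pos p)
  have hdS : DifferentiableAt ℝ (fun q => √(g.E q)) p := hdE.sqrt (g.E_pos p).ne'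
  have hSne : (fun q => √(g.E q)) p ≠ 0 := hSpos.ne'
  have hdP : DifferentiableAt ℝ (fun q => g.F q / √(g.E q)) p := by
    simp only [div_eq_mul_inv]
    exact hdF.fun_mul (hdS.fun_inv hSne)
  have hdR : DifferentiableAt ℝ (fun q => g.W q / √(g.E q)) p := by
    simp only [div_eq_mul_inv]
    exact hdW.fun_mul (hdS.fun_inv hSne)
  have hd0 : DifferentiableAt ℝ (fun _ : ℝ × ℝ => (0 : ℝ)) p := differentiableAt_const _
  have hd0' : ∀ v, fderiv ℝ (fun _ : ℝ × ℝ => (0 : ℝ)) p v = 0 := by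
    intro v
    simp
  have hSS : √(g.E p) * √(g.E p) = g.E p := Real.mul_self_sqrt (g.E_pos p).le
  -- the two real equations
  have k1 := h1 p
  have k2 := h2 p
  unfold KleinMetric.om1 at k1
  unfold KleinMetric.om2 at k2
  have hW := hWp p
  have hWW := hW2 p
  set S := √(g.E p) with hS
  set ux := dX u p with hux
  set uy := dY u p with huy
  set tx := dX ϑ p with htx
  set ty := dY ϑ p with hty
  set Px := dX (fun q => g.F q / √(g.E q)) p with hPx
  set Rx := dX (fun q => g.W q / √(g.E q)) p with hRx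
  set Sy := dY (fun q => √(g.E q)) p with hSy
  have e1 : uy * S + Sy = ux * (g.F p / S) + (Px - tx * (g.W p / S)) := by
    rw [k1]
    field_simp
    rw [← hSS]
    ring
  have e2 : ty * S = ux * (g.W p / S) + (Rx + tx * (g.F p / S)) := by
    rw [k1, k2]
    field_simp
    have hG : g.G p * (S * S) = g.W p ^ 2 + g.F p ^ 2 := by
      rw [hWW, hSS]
      ring
    have hE : g.E p = S * S := hSS.symm
    rw [hE]
    linear_combination ux * hG
  constructor
  · have f1 : (fun q => Real.exp (u q) * (Real.cos (ϑ q) * √(g.E q))) =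
        (fun q => Real.exp (u q) * (Real.cos (ϑ q) * (fun q => √(g.E q)) q
          - Real.sin (ϑ q) * (fun _ => (0:ℝ)) q)) := by
      funext q
      simp
    have f2 : (fun q => Real.exp (u q) *
        ((Real.cos (ϑ q) * g.F q - Real.sin (ϑ q) * g.W q) / √(g.E q))) =
        (fun q => Real.exp (u q) * (Real.cos (ϑ q) * (fun q => g.F q / √(g.E q)) q
          - Real.sin (ϑ q) * (fun q => g.W q / √(g.E q)) q)) := by
      funext q
      simp only []
      ring
    rw [f1, f2]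
    unfold dX dY
    rw [cf_deriv_cos u ϑ _ _ p _ hdu hdϑ hdS hd0, cf_deriv_cos u ϑ _ _ p _ hdu hdϑ hdP hdR, hd0']
    have g1 : fderiv ℝ u p (0, 1) = uy := rfl
    have g2 : fderiv ℝ u p (1, 0) = ux := rfl
    have g3 : fderiv ℝ ϑ p (0, 1) = ty := rfl
    have g4 : fderiv ℝ ϑ p (1, 0) = tx := rfl
    have g5 : fderiv ℝ (fun q => √(g.E q)) p (0, 1) = Sy := rfl
    have g6 : fderiv ℝ (fun q => g.F q / √(g.E q)) p (1, 0) = Px := rfl
    have g7 : fderiv ℝ (fun q => g.W q / √(g.E q)) p (1, 0) = Rx := rfl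
    rw [g1, g2, g3, g4, g5, g6, g7]
    simp only [← hS]
    linear_combination Real.exp (u p) * (Real.cos (ϑ p) * e1 - Real.sin (ϑ p) * e2)
  · have f1 : (fun q => Real.exp (u q) * (Real.sin (ϑ q) * √(g.E q))) =
        (fun q => Real.exp (u q) * (Real.sin (ϑ q) * (fun q => √(g.E q)) q
          + Real.cos (ϑ q) * (fun _ => (0:ℝ)) q)) := by
      funext q
      simp
    have f2 : (fun q => Real.exp (u q) *
        ((Real.sin (ϑ q) * g.F q + Real.cos (ϑ q) * g.W q) / √(g.E q))) =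
        (fun q => Real.exp (u q) * (Real.sin (ϑ q) * (fun q => g.F q / √(g.E q)) q
          + Real.cos (ϑ q) * (fun q => g.W q / √(g.E q)) q)) := by
      funext q
      simp only []
      ring
    rw [f1, f2]
    unfold dX dY
    rw [cf_deriv_sin u ϑ _ _ p _ hdu hdϑ hdS hd0, cf_deriv_sin u ϑ _ _ p _ hdu hdϑ hdP hdR, hd0']
    have g1 : fderiv ℝ u p (0, 1) = uy := rfl
    have g2 : fderiv ℝ u p (1, 0) = ux := rfl
    have g3 : fderiv ℝ ϑ p (0, 1) = ty := rfl
    have g4 : fderiv ℝ ϑ p (1, 0) = tx := rfl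
    have g5 : fderiv ℝ (fun q => √(g.E q)) p (0, 1) = Sy := rfl
    have g6 : fderiv ℝ (fun q => g.F q / √(g.E q)) p (1, 0) = Px := rfl
    have g7 : fderiv ℝ (fun q => g.W q / √(g.E q)) p (1, 0) = Rx := rfl
    rw [g1, g2, g3, g4, g5, g6, g7]
    simp only [← hS]
    linear_combination Real.exp (u p) * (Real.sin (ϑ p) * e1 + Real.cos (ϑ p) * e2)

end KleinEmb
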