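import Pool.Agent.Helper719.Emb.Defs
import Pool.Agent.Helper719.Emb.P_fou
import Pool.Agent.Helper719.Emb.P_W
import Pool.Agent.Helper719.Emb.P_W_smooth
import Pool.Agent.Helper719.Emb.P_om

open scoped ContDiff Topology ENNReal
open Set MeasureTheory Filter

noncomputable section

namespace KleinEmb



theorem om_props_glide (f : ℝ × ℝ → ℝ) (hf : Differentiable ℝ f) (ε : ℝ)
    (h : ∀ x y, f (x + 1 / 2, -y) = ε * f (x, y)) (x y : ℝ) :
    dX f (x + 1 / 2, -y) = ε * dX f (x, y) ∧ dY f (x + 1 / 2, -y) = -(ε * dY f (x, y)) := by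
  have h1 : HasFDerivAt (fun p : ℝ × ℝ => ((p.1 + 1 / 2, -p.2) : ℝ × ℝ))
      ((ContinuousLinearMap.fst ℝ ℝ ℝ).prod (-(ContinuousLinearMap.snd ℝ ℝ ℝ))) (x, y) :=
    ((hasFDerivAt_fst (p := (x, y))).add_const (1 / 2)).prodMk (hasFDerivAt_snd (p := (x, y))).neg
  have h2 : HasFDerivAt f (fderiv ℝ f (x + 1 / 2, -y)) ((fun p : ℝ × ℝ => ((p.1 + 1 / 2, -p.2) : ℝ × ℝ)) (x, y)) :=
    (hf _).hasFDerivAt
  have h3 := h2.comp (x, y) h1
  have h4 : HasFDerivAt (fun p : ℝ × ℝ => ε * f p) (ε • fderiv ℝ f (x, y)) (x, y) :=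
    ((hf (x, y)).hasFDerivAt).const_mul ε
  have h5 : (f ∘ fun p : ℝ × ℝ => ((p.1 + 1 / 2, -p.2) : ℝ × ℝ)) = fun p : ℝ × ℝ => ε * f p := by
    funext p
    exact h p.1 p.2
  rw [h5] at h3
  have h6 := h3.unique h4
  constructor
  · have h7 := congrArg (fun l : (ℝ × ℝ) →L[ℝ] ℝ => l (1, 0)) h6
    simp at h7
    unfold dX
    simpa using h7
  · have h7 := congrArg (fun l : (ℝ × ℝ) →L[ℝ] ℝ => l (0, 1)) h6
    simp at h7
    unfold dY
    have h8 : fderiv ℝ f (x + 1 / 2, -y) (0, -1) = -(fderiv ℝ f (x + 1 / 2, -y) (0, 1)) := by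
      rw [← map_neg]; simp
    have h9 : fderiv ℝ f (x + 1 / 2, -y) (0, -1) = ε * fderiv ℝ f (x, y) (0, 1) := by
      simpa using h7
    linarith

theorem om_props_shift (f : ℝ × ℝ → ℝ) (hf : Differentiable ℝ f)
    (h : ∀ x y, f (x, y + 1) = f (x, y)) (x y : ℝ) :
    dX f (x, y + 1) = dX f (x, y) ∧ dY f (x, y + 1) = dY f (x, y) := by
  have h1 : HasFDerivAt (fun p : ℝ × ℝ => ((p.1, p.2 + 1) : ℝ × ℝ))
      ((ContinuousLinearMap.fst ℝ ℝ ℝ).prod (ContinuousLinearMap.snd ℝ ℝ ℝ)) (x, y) :=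
    (hasFDerivAt_fst (p := (x, y))).prodMk ((hasFDerivAt_snd (p := (x, y))).add_const 1)
  have h2 : HasFDerivAt f (fderiv ℝ f (x, y + 1)) ((fun p : ℝ × ℝ => ((p.1, p.2 + 1) : ℝ × ℝ)) (x, y)) :=
    (hf _).hasFDerivAt
  have h3 := h2.comp (x, y) h1
  have h5 : (f ∘ fun p : ℝ × ℝ => ((p.1, p.2 + 1) : ℝ × ℝ)) = f := by
    funext p
    exact h p.1 p.2
  rw [h5] at h3
  have h6 := h3.unique (hf (x, y)).hasFDerivAt
  constructor
  · have h7 := congrArg (fun l : (ℝ × ℝ) →L[ℝ] ℝ => l (1, 0)) h6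
    unfold dX
    simpa using h7
  · have h7 := congrArg (fun l : (ℝ × ℝ) →L[ℝ] ℝ => l (0, 1)) h6
    unfold dY
    simpa using h7

theorem om_props_dX (f : ℝ × ℝ → ℝ) (hf : ContDiff ℝ ∞ f) : ContDiff ℝ ∞ (dX f) := by
  unfold dX
  exact (hf.fderiv_right (m := ∞) (by simp)).clm_apply contDiff_const

theorem om_props_dY (f : ℝ × ℝ → ℝ) (hf : ContDiff ℝ ∞ f) : ContDiff ℝ ∞ (dY f) := by
  unfold dY
  exact (hf.fderiv_right (m := ∞) (by simp)).clm_apply contDiff_const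

theorem om_props (g : KleinMetric) : ContDiff ℝ ∞ g.om1 ∧ ContDiff ℝ ∞ g.om2 ∧
    (∀ x y, g.om1 (x + 1 / 2, -y) = -g.om1 (x, y)) ∧ (∀ x y, g.om2 (x + 1 / 2, -y) = g.om2 (x, y)) ∧
    (∀ x y, g.om1 (x, y + 1) = g.om1 (x, y)) ∧ (∀ x y, g.om2 (x, y + 1) = g.om2 (x, y)) := by
  obtain ⟨hW, hWp, -, hWg, hWs, -, -, -, -⟩ := W_smooth g
  have hsE : ContDiff ℝ ∞ (fun q => √(g.E q)) := g.smooth_E.sqrt fun x => (g.E_pos x).ne'
  have hsEp : ∀ q, √(g.E q) ≠ 0 := fun q => (Real.sqrt_pos.mpr (g.E_pos q)).ne'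
  have hFE : ContDiff ℝ ∞ (fun q => g.F q / √(g.E q)) := g.smooth_F.div hsE hsEp
  have hWE : ContDiff ℝ ∞ (fun q => g.W q / √(g.E q)) := hW.div hsE hsEp
  have d1 := om_props_dX _ hFE
  have d2 := om_props_dY _ hsE
  have d3 := om_props_dX _ hWE
  have n0 : (∞ : WithTop ℕ∞) ≠ 0 := by simp
  refine ⟨?_, ?_, ?_, ?_, ?_, ?_⟩
  · exact (hsE.mul (d1.sub d2)).div hW fun q => (hWp q).ne'
  · exact ((g.smooth_F.mul (d1.sub d2)).add (hW.mul d3)).div (hsE.mul hW)
      fun q => mul_ne_zero (hsEp q) (hWp q).ne'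
  · intro x y
    have e1 := (om_props_glide _ (hFE.differentiable n0) (-1) (fun x y => by
      simp only [g.F_glide, g.E_glide]; ring) x y).1
    have e2 := (om_props_glide _ (hsE.differentiable n0) 1 (fun x y => by
      simp only [g.E_glide]; ring) x y).2
    unfold KleinMetric.om1
    rw [e1, e2, g.E_glide, hWg]
    ring
  · intro x y
    have e1 := (om_props_glide _ (hFE.differentiable n0) (-1) (fun x y => by
      simp only [g.F_glide, g.E_glide]; ring) x y).1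
    have e2 := (om_props_glide _ (hsE.differentiable n0) 1 (fun x y => by
      simp only [g.E_glide]; ring) x y).2
    have e3 := (om_props_glide _ (hWE.differentiable n0) 1 (fun x y => by
      simp only [g.E_glide, hWg]; ring) x y).1
    unfold KleinMetric.om2
    rw [e1, e2, e3, g.E_glide, hWg, g.F_glide]
    ring
  · intro x y
    have e1 := (om_props_shift _ (hFE.differentiable n0) (fun x y => by
      simp only [g.F_shift, g.E_shift]) x y).1
    have e2 := (om_props_shift _ (hsE.differentiable n0) (fun x y => by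
      simp only [g.E_shift]) x y).2
    unfold KleinMetric.om1
    rw [e1, e2, g.E_shift, hWs]
  · intro x y
    have e1 := (om_props_shift _ (hFE.differentiable n0) (fun x y => by
      simp only [g.F_shift, g.E_shift]) x y).1
    have e2 := (om_props_shift _ (hsE.differentiable n0) (fun x y => by
      simp only [g.E_shift]) x y).2
    have e3 := (om_props_shift _ (hWE.differentiable n0) (fun x y => by
      simp only [g.E_shift, hWs]) x y).1
    unfold KleinMetric.om2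
    rw [e1, e2, e3, g.E_shift, hWs, g.F_shift]

end KleinEmb
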