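import Pool.Agent.Helper719.Emb.Defs
import Pool.Agent.Helper719.Emb.P_fou

open scoped ContDiff Topology ENNReal
open Set MeasureTheory Filter

noncomputable section

namespace KleinEmb



theorem h400_swap (F : ℝ → ℝ → ℂ) (hF : Continuous (Function.uncurry F)) :
    ∫ x in (0:ℝ)..1, ∫ y in (0:ℝ)..1, F x y = ∫ y in (0:ℝ)..1, ∫ x in (0:ℝ)..1, F x y := by
  apply MeasureTheory.intervalIntegral_intervalIntegral_swap
  have hK : IsCompact ((Icc (0:ℝ) 1) ×ˢ (Icc (0:ℝ) 1)) := isCompact_Icc.prod isCompact_Icc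
  apply (hF.continuousOn.integrableOn_compact hK).mono_set
  rw [uIoc_of_le zero_le_one]
  exact Set.prod_mono Ioc_subset_Icc_self Ioc_subset_Icc_self

theorem h400_1d (g g' E : ℝ → ℂ) (c : ℂ) (hg : ∀ x, HasDerivAt g (g' x) x) (hg' : Continuous g')
    (hE : ∀ x, HasDerivAt E (-c * E x) x) (hg1 : g 1 = g 0) (hE1 : E 1 = E 0) :
    ∫ x in (0:ℝ)..1, g' x * E x = c * ∫ x in (0:ℝ)..1, g x * E x := by
  have hEc : Continuous E := continuous_iff_continuousAt.mpr (fun x => (hE x).continuousAt)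
  have h := intervalIntegral.integral_mul_deriv_eq_deriv_mul (a := 0) (b := 1) (u := g) (v := E)
    (u' := g') (v' := fun x => -c * E x) (fun x _ => hg x) (fun x _ => hE x)
    (hg'.intervalIntegrable _ _) ((continuous_const.mul hEc).intervalIntegrable _ _)
  rw [hg1, hE1, sub_self, zero_sub] at h
  have h2 : ∫ x in (0:ℝ)..1, g x * (-c * E x) = -c * ∫ x in (0:ℝ)..1, g x * E x := by
    rw [← intervalIntegral.integral_const_mul]
    apply intervalIntegral.integral_congr
    intro x _
    show g x * (-c * E x) = -c * (g x * E x)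
    ring
  rw [h2] at h
  linear_combination h

theorem h400_eex (k : ℤ × ℤ) (x y : ℝ) :
    HasDerivAt (fun x : ℝ => ee (-k) (x, y))
      (-(2 * Real.pi * Complex.I * k.1) * ee (-k) (x, y)) x := by
  unfold ee
  have h1 : HasDerivAt (fun x : ℝ => (x : ℂ)) 1 x := by
    simpa using (hasDerivAt_id x).ofReal_comp
  have h2 : HasDerivAt (fun x : ℝ => 2 * Real.pi * Complex.I *
      ((((-k).1 : ℤ) : ℂ) * (x : ℂ) + (((-k).2 : ℤ) : ℂ) * (y : ℂ)))
      (2 * Real.pi * Complex.I * ((((-k).1 : ℤ) : ℂ) * 1 + 0)) x :=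
    ((h1.const_mul _).add (hasDerivAt_const x _)).const_mul _
  have h3 := h2.cexp
  refine h3.congr_deriv ?_
  rw [Prod.fst_neg]
  push_cast
  ring

theorem h400_eey (k : ℤ × ℤ) (x y : ℝ) :
    HasDerivAt (fun y : ℝ => ee (-k) (x, y))
      (-(2 * Real.pi * Complex.I * k.2) * ee (-k) (x, y)) y := by
  unfold ee
  have h1 : HasDerivAt (fun x : ℝ => (x : ℂ)) 1 y := by
    simpa using (hasDerivAt_id y).ofReal_comp
  have h2 : HasDerivAt (fun y : ℝ => 2 * Real.pi * Complex.I *
      ((((-k).1 : ℤ) : ℂ) * (x : ℂ) + (((-k).2 : ℤ) : ℂ) * (y : ℂ)))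
      (2 * Real.pi * Complex.I * (0 + (((-k).2 : ℤ) : ℂ) * 1)) y :=
    ((hasDerivAt_const y _).add (h1.const_mul _)).const_mul _
  have h3 := h2.cexp
  refine h3.congr_deriv ?_
  rw [Prod.snd_neg]
  push_cast
  ring

theorem h400_ee1x (k : ℤ × ℤ) (y : ℝ) : ee k (1, y) = ee k (0, y) := by
  unfold ee
  rw [Complex.exp_eq_exp_iff_exists_int]
  refine ⟨k.1, ?_⟩
  push_cast
  ring

theorem h400_ee1y (k : ℤ × ℤ) (x : ℝ) : ee k (x, 1) = ee k (x, 0) := by
  unfold ee
  rw [Complex.exp_eq_exp_iff_exists_int]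
  refine ⟨k.2, ?_⟩
  push_cast
  ring

theorem h400_eec (k : ℤ × ℤ) : Continuous (ee k) := by
  unfold ee
  fun_prop

theorem fc_deriv (f : ℝ × ℝ → ℂ) (hf : ContDiff ℝ 1 f) (hp : Per f) (k : ℤ × ℤ) :
    fc (dX f) k = 2 * Real.pi * Complex.I * k.1 * fc f k ∧
    fc (dY f) k = 2 * Real.pi * Complex.I * k.2 * fc f k := by
  have hd : Differentiable ℝ f := hf.differentiable (by norm_num)
  have hfd : Continuous (fun p => fderiv ℝ f p) := hf.continuous_fderiv (by norm_num)
  have hdX : Continuous (dX f) := by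
    unfold dX
    exact hfd.clm_apply continuous_const
  have hdY : Continuous (dY f) := by
    unfold dY
    exact hfd.clm_apply continuous_const
  have hfx : ∀ x y : ℝ, HasDerivAt (fun x : ℝ => f (x, y)) (dX f (x, y)) x := by
    intro x y
    have h1 : HasDerivAt (fun x' : ℝ => (x', y)) ((1 : ℝ), (0 : ℝ)) x :=
      (hasDerivAt_id x).prodMk (hasDerivAt_const x y)
    exact (hd (x, y)).hasFDerivAt.comp_hasDerivAt x h1
  have hfy : ∀ x y : ℝ, HasDerivAt (fun y : ℝ => f (x, y)) (dY f (x, y)) y := by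
    intro x y
    have h1 : HasDerivAt (fun y' : ℝ => (x, y')) ((0 : ℝ), (1 : ℝ)) y :=
      (hasDerivAt_const y x).prodMk (hasDerivAt_id y)
    exact (hd (x, y)).hasFDerivAt.comp_hasDerivAt y h1
  constructor
  · unfold fc
    rw [h400_swap (fun x y => dX f (x, y) * ee (-k) (x, y)) (hdX.mul (h400_eec (-k))),
      h400_swap (fun x y => f (x, y) * ee (-k) (x, y)) (hf.continuous.mul (h400_eec (-k))),
      ← intervalIntegral.integral_const_mul]
    apply intervalIntegral.integral_congr
    intro y _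
    exact h400_1d (fun x => f (x, y)) (fun x => dX f (x, y)) (fun x => ee (-k) (x, y))
      (2 * Real.pi * Complex.I * k.1) (fun x => hfx x y)
      (hdX.comp (continuous_id.prodMk continuous_const)) (fun x => h400_eex k x y)
      (by
        have h1 := hp.1 0 y
        rw [zero_add] at h1
        exact h1) (h400_ee1x (-k) y)
  · unfold fc
    rw [← intervalIntegral.integral_const_mul]
    apply intervalIntegral.integral_congr
    intro x _
    exact h400_1d (fun y => f (x, y)) (fun y => dY f (x, y)) (fun y => ee (-k) (x, y))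
      (2 * Real.pi * Complex.I * k.2) (fun y => hfy x y)
      (hdY.comp (continuous_const.prodMk continuous_id)) (fun y => h400_eey k x y)
      (by
        have h1 := hp.2 x 0
        rw [zero_add] at h1
        exact h1) (h400_ee1y (-k) x)

end KleinEmb
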