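import Pool.Agent.Helper719.Emb.Defs
import Pool.Agent.Helper719.Emb.P_fou

open scoped ContDiff Topology ENNReal
open Set MeasureTheory Filter

noncomputable section

namespace KleinEmb



theorem rap_summable_aux : Summable (fun a : ℤ => 1 / (1 + |(a : ℝ)|) ^ 2) := by
  have h : Summable (fun n : ℕ => 1 / ((n : ℝ) + 1) ^ 2) := by
    have h1 : Summable (fun n : ℕ => 1 / (n : ℝ) ^ 2) :=
      Real.summable_one_div_nat_pow.mpr (by norm_num)
    have h2 := (summable_nat_add_iff 1).mpr h1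
    simpa using h2
  apply Summable.of_nat_of_neg
  · refine h.congr (fun n => ?_)
    simp [add_comm]
  · refine h.congr (fun n => ?_)
    simp [add_comm]

theorem rap_summable (c : ℤ × ℤ → ℂ) (hc : Rap c) (N : ℕ) :
    Summable (fun k : ℤ × ℤ => (1 + |(k.1 : ℝ)| + |(k.2 : ℝ)|) ^ N * ‖c k‖) := by
  obtain ⟨C, hC⟩ := hc (N + 4)
  have hC0 : 0 ≤ C := le_trans (by positivity) (hC 0)
  have hprod : Summable (fun k : ℤ × ℤ => 1 / (1 + |(k.1 : ℝ)|) ^ 2 * (1 / (1 + |(k.2 : ℝ)|) ^ 2)) :=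
    rap_summable_aux.mul_of_nonneg rap_summable_aux (fun a => by positivity) (fun a => by positivity)
  refine Summable.of_nonneg_of_le (fun k => by positivity) ?_ (hprod.mul_left C)
  intro k
  have hk := hC k
  set A := 1 + |(k.1 : ℝ)| with hA
  set B := 1 + |(k.2 : ℝ)| with hB
  have hA1 : 1 ≤ A := by rw [hA]; linarith [abs_nonneg (k.1 : ℝ)]
  have hB1 : 1 ≤ B := by rw [hB]; linarith [abs_nonneg (k.2 : ℝ)]
  set T := 1 + |(k.1 : ℝ)| + |(k.2 : ℝ)| with hT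
  have hAT : A ≤ T := by rw [hA, hT]; linarith [abs_nonneg (k.2 : ℝ)]
  have hBT : B ≤ T := by rw [hB, hT]; linarith [abs_nonneg (k.1 : ℝ)]
  have hT0 : 0 < T := by linarith
  have h1 : A ^ 2 * B ^ 2 ≤ T ^ 4 := by
    have h2 : A ^ 2 ≤ T ^ 2 := pow_le_pow_left₀ (by linarith) hAT 2
    have h3 : B ^ 2 ≤ T ^ 2 := pow_le_pow_left₀ (by linarith) hBT 2
    calc A ^ 2 * B ^ 2 ≤ T ^ 2 * T ^ 2 := mul_le_mul h2 h3 (by positivity) (by positivity)
      _ = T ^ 4 := by ring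
  have h4 : T ^ N * ‖c k‖ * (A ^ 2 * B ^ 2) ≤ C := by
    calc T ^ N * ‖c k‖ * (A ^ 2 * B ^ 2) ≤ T ^ N * ‖c k‖ * T ^ 4 :=
          mul_le_mul_of_nonneg_left h1 (by positivity)
      _ = T ^ (N + 4) * ‖c k‖ := by rw [pow_add]; ring
      _ ≤ C := hk
  have hAB : 0 < A ^ 2 * B ^ 2 := by positivity
  calc T ^ N * ‖c k‖ ≤ C / (A ^ 2 * B ^ 2) := by rw [le_div_iff₀ hAB]; exact h4
    _ = C * (1 / A ^ 2 * (1 / B ^ 2)) := by
      rw [div_mul_div_comm, one_mul, mul_one_div]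

end KleinEmb
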