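import Pool.Agent.Helper719.Emb.Defs
import Pool.Agent.Helper719.Emb.P_fou
import Pool.Agent.Helper719.Emb.P_rap_summable

open scoped ContDiff Topology ENNReal
open Set MeasureTheory Filter

noncomputable section

namespace KleinEmb



theorem fms_cont (k : ℤ × ℤ) : Continuous (ee k) := by
  unfold ee
  fun_prop

theorem fms_norm (k : ℤ × ℤ) (p : ℝ × ℝ) : ‖ee k p‖ = 1 := by
  unfold ee
  rw [show (2 * Real.pi * Complex.I * (k.1 * p.1 + k.2 * p.2) : ℂ)
    = ((2 * Real.pi * (k.1 * p.1 + k.2 * p.2) : ℝ) : ℂ) * Complex.I by push_cast; ring]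
  exact Complex.norm_exp_ofReal_mul_I _

theorem fms_mul (k l : ℤ × ℤ) (p : ℝ × ℝ) : ee k p * ee l p = ee (k + l) p := by
  unfold ee
  rw [← Complex.exp_add]
  congr 1
  simp only [Prod.fst_add, Prod.snd_add]
  push_cast
  ring

theorem fc_mul_synth (a : ℝ × ℝ → ℂ) (ha : Continuous a) (c : ℤ × ℤ → ℂ) (hc : Rap c) (k : ℤ × ℤ) :
    fc (fun p => a p * synth c p) k = ∑' l, fc a (k - l) * c l := by
  have hs : Summable (fun l => ‖c l‖) := by simpa using rap_summable c hc 0
  obtain ⟨Ma, hMa⟩ : ∃ Ma : ℝ, ∀ x ∈ Icc (0 : ℝ) 1, ∀ y ∈ Icc (0 : ℝ) 1, ‖a (x, y)‖ ≤ Ma := by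
    obtain ⟨C, hC⟩ := ((isCompact_Icc (a := (0 : ℝ)) (b := 1)).prod
      (isCompact_Icc (a := (0 : ℝ)) (b := 1))).exists_bound_of_continuousOn ha.continuousOn
    exact ⟨C, fun x hx y hy => hC (x, y) ⟨hx, hy⟩⟩
  have hI : Set.uIoc (0 : ℝ) 1 ⊆ Icc 0 1 := by
    rw [uIoc_of_le zero_le_one]; exact Ioc_subset_Icc_self
  set F : ℤ × ℤ → ℝ → ℝ → ℂ := fun l x y => a (x, y) * (c l * ee l (x, y)) * ee (-k) (x, y) with hF
  have hFn : ∀ l, ∀ x ∈ Set.uIoc (0 : ℝ) 1, ∀ y ∈ Set.uIoc (0 : ℝ) 1, ‖F l x y‖ ≤ Ma * ‖c l‖ := by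
    intro l x hx y hy
    simp only [hF, norm_mul, fms_norm, mul_one]
    exact mul_le_mul_of_nonneg_right (hMa x (hI hx) y (hI hy)) (norm_nonneg _)
  have hFc : ∀ l, Continuous (fun p : ℝ × ℝ => F l p.1 p.2) := by
    intro l
    simp only [hF]
    have h1 := fms_cont l
    have h2 := fms_cont (-k)
    fun_prop
  have hsum : ∀ x y, HasSum (fun l => F l x y) (a (x, y) * synth c (x, y) * ee (-k) (x, y)) := by
    intro x y
    have h : Summable (fun l => c l * ee l (x, y)) := by
      apply Summable.of_norm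
      simpa [fms_norm] using hs
    exact (h.hasSum.mul_left (a (x, y))).mul_right _
  have hin : ∀ x ∈ Set.uIoc (0 : ℝ) 1, HasSum (fun l => ∫ y in (0 : ℝ)..1, F l x y)
      (∫ y in (0 : ℝ)..1, a (x, y) * synth c (x, y) * ee (-k) (x, y)) := by
    intro x hx
    apply intervalIntegral.hasSum_integral_of_dominated_convergence (fun l _ => Ma * ‖c l‖)
    · intro l
      have : Continuous (fun y : ℝ => F l x y) := (hFc l).comp (Continuous.prodMk_right x)
      exact this.aestronglyMeasurable
    · intro l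
      exact Filter.Eventually.of_forall (fun y hy => hFn l x hx y hy)
    · exact Filter.Eventually.of_forall (fun y _ => hs.mul_left Ma)
    · exact intervalIntegrable_const
    · exact Filter.Eventually.of_forall (fun y _ => hsum x y)
  have hout : HasSum (fun l => ∫ x in (0 : ℝ)..1, ∫ y in (0 : ℝ)..1, F l x y)
      (∫ x in (0 : ℝ)..1, ∫ y in (0 : ℝ)..1, a (x, y) * synth c (x, y) * ee (-k) (x, y)) := by
    apply intervalIntegral.hasSum_integral_of_dominated_convergence (fun l _ => Ma * ‖c l‖)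
    · intro l
      exact (intervalIntegral.continuous_parametric_intervalIntegral_of_continuous' (hFc l)
        0 1).aestronglyMeasurable
    · intro l
      refine Filter.Eventually.of_forall (fun x hx => ?_)
      have := intervalIntegral.norm_integral_le_of_norm_le_const (fun y hy => hFn l x hx y hy)
      simpa using this
    · exact Filter.Eventually.of_forall (fun y _ => hs.mul_left Ma)
    · exact intervalIntegrable_const
    · exact Filter.Eventually.of_forall (fun x hx => hin x hx)
  have hfin : ∀ l, ∫ x in (0 : ℝ)..1, ∫ y in (0 : ℝ)..1, F l x y = fc a (k - l) * c l := by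
    intro l
    unfold fc
    rw [← intervalIntegral.integral_mul_const]
    congr 1
    funext x
    rw [← intervalIntegral.integral_mul_const]
    congr 1
    funext y
    simp only [hF]
    have := fms_mul l (-k) (x, y)
    rw [show l + -k = -(k - l) by ring] at this
    rw [← this]
    ring
  have h9 := hout.tsum_eq
  rw [tsum_congr hfin] at h9
  rw [h9]
  rfl

end KleinEmb
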