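import Pool.Agent.Helper719.Emb.Defs
import Pool.Agent.Helper719.Emb.P_fou
import Pool.Agent.Helper719.Emb.P_fc_deriv

open scoped ContDiff Topology ENNReal
open Set MeasureTheory Filter

noncomputable section

namespace KleinEmb



theorem j20059_norm_ee (k : ℤ × ℤ) (p : ℝ × ℝ) : ‖ee k p‖ = 1 := by
  unfold ee
  have h : (2 * Real.pi * Complex.I * (k.1 * p.1 + k.2 * p.2) : ℂ) =
      ((2 * Real.pi * (k.1 * p.1 + k.2 * p.2) : ℝ) : ℂ) * Complex.I := by
    push_cast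
    ring
  rw [h, Complex.norm_exp_ofReal_mul_I]

theorem j20059_bound (g : ℝ × ℝ → ℂ) (hg : Continuous g) : ∃ C : ℝ, ∀ k, ‖fc g k‖ ≤ C := by
  obtain ⟨C, hC⟩ := (isCompact_Icc.prod isCompact_Icc :
    IsCompact (Icc (0 : ℝ) 1 ×ˢ Icc (0 : ℝ) 1)).exists_bound_of_continuousOn hg.continuousOn
  refine ⟨C, fun k => ?_⟩
  unfold fc
  have hu : ∀ x : ℝ, x ∈ Set.uIoc (0 : ℝ) 1 → x ∈ Icc (0 : ℝ) 1 := fun x hx => by
    rw [Set.uIoc_of_le zero_le_one] at hx
    exact ⟨hx.1.le, hx.2⟩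
  have h2 := intervalIntegral.norm_integral_le_of_norm_le_const (a := (0 : ℝ)) (b := 1) (C := C)
    (f := fun x => ∫ y in (0 : ℝ)..1, g (x, y) * ee (-k) (x, y)) (fun x hx => by
      have h1 := intervalIntegral.norm_integral_le_of_norm_le_const (a := (0 : ℝ)) (b := 1)
        (C := C) (f := fun y => g (x, y) * ee (-k) (x, y)) (fun y hy => by
          rw [norm_mul, j20059_norm_ee, mul_one]
          exact hC (x, y) ⟨hu x hx, hu y hy⟩)
      simpa using h1)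
  simpa using h2

theorem j20059_dX (f : ℝ × ℝ → ℂ) (hf : ContDiff ℝ ∞ f) (hp : Per f) :
    ContDiff ℝ ∞ (dX f) ∧ Per (dX f) ∧ ContDiff ℝ ∞ (dY f) ∧ Per (dY f) := by
  have h1 : ContDiff ℝ ∞ (fderiv ℝ f) := (contDiff_infty_iff_fderiv.1 hf).2
  have h2 : ∀ p, fderiv ℝ f (p + (1, 0)) = fderiv ℝ f p := by
    intro p
    rw [← fderiv_comp_add_right]
    congr 1
    funext q
    have := hp.1 q.1 q.2
    simpa [Prod.add_def] using this
  have h3 : ∀ p, fderiv ℝ f (p + (0, 1)) = fderiv ℝ f p := by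
    intro p
    rw [← fderiv_comp_add_right]
    congr 1
    funext q
    have := hp.2 q.1 q.2
    simpa [Prod.add_def] using this
  have h4 : ∀ x y, fderiv ℝ f (x + 1, y) = fderiv ℝ f (x, y) := by
    intro x y
    have := h2 (x, y)
    simpa using this
  have h5 : ∀ x y, fderiv ℝ f (x, y + 1) = fderiv ℝ f (x, y) := by
    intro x y
    have := h3 (x, y)
    simpa using this
  refine ⟨h1.clm_apply contDiff_const, ⟨?_, ?_⟩, h1.clm_apply contDiff_const, ⟨?_, ?_⟩⟩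
  · intro x y; unfold dX; rw [h4]
  · intro x y; unfold dX; rw [h5]
  · intro x y; unfold dY; rw [h4]
  · intro x y; unfold dY; rw [h5]

theorem j20059_two_pi (a b : ℝ) (ha : 0 ≤ a) (hb : 0 ≤ b) : a * b ≤ 2 * Real.pi * a * b := by
  have h1 : (1 : ℝ) ≤ 2 * Real.pi := by
    have := Real.pi_gt_three
    linarith
  have h2 : 0 ≤ a * b := mul_nonneg ha hb
  nlinarith

theorem j20059_pow1 (N : ℕ) : ∀ (f : ℝ × ℝ → ℂ), ContDiff ℝ ∞ f → Per f →
    ∃ C : ℝ, ∀ k : ℤ × ℤ, |(k.1 : ℝ)| ^ N * ‖fc f k‖ ≤ C := by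
  induction N with
  | zero =>
    intro f hf hp
    obtain ⟨C, hC⟩ := j20059_bound f hf.continuous
    exact ⟨C, fun k => by simpa using hC k⟩
  | succ N ih =>
    intro f hf hp
    obtain ⟨a1, a2, _, _⟩ := j20059_dX f hf hp
    obtain ⟨C, hC⟩ := ih (dX f) a1 a2
    refine ⟨C, fun k => le_trans ?_ (hC k)⟩
    have h1 := (fc_deriv f (hf.of_le (by exact_mod_cast le_top)) hp k).1
    have h2 : ‖fc (dX f) k‖ = 2 * Real.pi * |(k.1 : ℝ)| * ‖fc f k‖ := by
      rw [h1, norm_mul, norm_mul, norm_mul, norm_mul]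
      simp [abs_of_pos Real.pi_pos]
    rw [h2, pow_succ, mul_assoc]
    exact mul_le_mul_of_nonneg_left (j20059_two_pi _ _ (abs_nonneg _) (norm_nonneg _))
      (by positivity)

theorem j20059_pow2 (N : ℕ) : ∀ (f : ℝ × ℝ → ℂ), ContDiff ℝ ∞ f → Per f →
    ∃ C : ℝ, ∀ k : ℤ × ℤ, |(k.2 : ℝ)| ^ N * ‖fc f k‖ ≤ C := by
  induction N with
  | zero =>
    intro f hf hp
    obtain ⟨C, hC⟩ := j20059_bound f hf.continuous
    exact ⟨C, fun k => by simpa using hC k⟩
  | succ N ih =>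
    intro f hf hp
    obtain ⟨_, _, a1, a2⟩ := j20059_dX f hf hp
    obtain ⟨C, hC⟩ := ih (dY f) a1 a2
    refine ⟨C, fun k => le_trans ?_ (hC k)⟩
    have h1 := (fc_deriv f (hf.of_le (by exact_mod_cast le_top)) hp k).2
    have h2 : ‖fc (dY f) k‖ = 2 * Real.pi * |(k.2 : ℝ)| * ‖fc f k‖ := by
      rw [h1, norm_mul, norm_mul, norm_mul, norm_mul]
      simp [abs_of_pos Real.pi_pos]
    rw [h2, pow_succ, mul_assoc]
    exact mul_le_mul_of_nonneg_left (j20059_two_pi _ _ (abs_nonneg _) (norm_nonneg _))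
      (by positivity)

theorem j20059_ineq (a b : ℝ) (ha : 0 ≤ a) (hb : 0 ≤ b) (N : ℕ) :
    (1 + a + b) ^ N ≤ 3 ^ N * (1 + a ^ N + b ^ N) := by
  set m := max 1 (max a b) with hm
  have h1 : 1 ≤ m := le_max_left _ _
  have h2 : a ≤ m := (le_max_left _ _).trans (le_max_right _ _)
  have h3 : b ≤ m := (le_max_right _ _).trans (le_max_right _ _)
  have h4 : (1 + a + b) ^ N ≤ (3 * m) ^ N :=
    pow_le_pow_left₀ (by positivity) (by linarith) N
  have ha' : 0 ≤ a ^ N := by positivity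
  have hb' : 0 ≤ b ^ N := by positivity
  have h5 : m ^ N ≤ 1 + a ^ N + b ^ N := by
    rw [hm]
    rcases max_choice (1 : ℝ) (max a b) with h | h
    · rw [h, one_pow]; linarith
    · rw [h]
      rcases max_choice a b with h' | h'
      · rw [h']; linarith
      · rw [h']; linarith
  rw [mul_pow] at h4
  have h6 : (3 : ℝ) ^ N * m ^ N ≤ 3 ^ N * (1 + a ^ N + b ^ N) :=
    mul_le_mul_of_nonneg_left h5 (by positivity)
  linarith

theorem fc_rap (f : ℝ × ℝ → ℂ) (hf : ContDiff ℝ ∞ f) (hp : Per f) : Rap (fc f) := by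
  intro N
  obtain ⟨C0, h0⟩ := j20059_bound f hf.continuous
  obtain ⟨C1, h1⟩ := j20059_pow1 N f hf hp
  obtain ⟨C2, h2⟩ := j20059_pow2 N f hf hp
  refine ⟨3 ^ N * (C0 + C1 + C2), fun k => ?_⟩
  have h3 := j20059_ineq |(k.1 : ℝ)| |(k.2 : ℝ)| (abs_nonneg _) (abs_nonneg _) N
  have h4 := mul_le_mul_of_nonneg_right h3 (norm_nonneg (fc f k))
  refine h4.trans ?_
  rw [mul_assoc]
  refine mul_le_mul_of_nonneg_left ?_ (by positivity)
  have := h0 k
  have := h1 k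
  have := h2 k
  linarith

end KleinEmb
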