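import Pool.Agent.Helper719.Emb.Defs
import Pool.Agent.Helper719.Emb.P_fou

open scoped ContDiff Topology ENNReal
open Set MeasureTheory Filter

noncomputable section

namespace KleinEmb



theorem one_uniq_aux (g : ℝ → ℂ) (hg : Continuous g) (hper : ∀ x, g (x + 1) = g x)
    (h : ∀ n : ℤ, ∫ x in (0:ℝ)..1, g x * Complex.exp (2 * Real.pi * Complex.I * ((-n : ℤ) * x)) = 0)
    (x : ℝ) : g x = 0 := by
  have hP : Function.Periodic g 1 := hper
  haveI : Fact ((0:ℝ) < 1) := ⟨one_pos⟩
  have hG : Continuous (hP.lift : AddCircle (1:ℝ) → ℂ) := continuous_coinduced_dom.mpr hg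
  have hc : ∀ n : ℤ, fourierCoeff (hP.lift : AddCircle (1:ℝ) → ℂ) n = 0 := by
    intro n
    rw [fourierCoeff_eq_intervalIntegral _ n 0, zero_add]
    have e : ∫ x in (0:ℝ)..1, fourier (-n) (x : AddCircle (1:ℝ)) • hP.lift (x : AddCircle (1:ℝ)) =
        ∫ x in (0:ℝ)..1, g x * Complex.exp (2 * Real.pi * Complex.I * ((-n : ℤ) * x)) := by
      apply intervalIntegral.integral_congr
      intro y _
      show fourier (-n) (y : AddCircle (1:ℝ)) • hP.lift (y : AddCircle (1:ℝ)) =
        g y * Complex.exp (2 * Real.pi * Complex.I * ((-n : ℤ) * y))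
      rw [Function.Periodic.lift_coe, fourier_coe_apply, smul_eq_mul, mul_comm]
      congr 2
      push_cast
      ring
    rw [e, h n, smul_zero]
  have hs : Summable (fourierCoeff (⟨hP.lift, hG⟩ : C(AddCircle (1:ℝ), ℂ))) := by
    have e : fourierCoeff (⟨hP.lift, hG⟩ : C(AddCircle (1:ℝ), ℂ)) = fun _ => 0 := by
      funext n
      exact hc n
    rw [e]
    exact summable_zero
  have h2 := has_pointwise_sum_fourier_series_of_summable hs (x : AddCircle (1:ℝ))
  have e2 : (fun i : ℤ => fourierCoeff (⟨hP.lift, hG⟩ : C(AddCircle (1:ℝ), ℂ)) i •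
      fourier i (x : AddCircle (1:ℝ))) = fun _ => 0 := by
    funext n
    have : fourierCoeff (⟨hP.lift, hG⟩ : C(AddCircle (1:ℝ), ℂ)) n = 0 := hc n
    rw [this, zero_smul]
  rw [e2] at h2
  have h3 := h2.unique hasSum_zero
  exact h3

theorem fc_uniq (f : ℝ × ℝ → ℂ) (hf : Continuous f) (hp : Per f) (h : ∀ k, fc f k = 0) (p : ℝ × ℝ) :
    f p = 0 := by
  have hF : ∀ n : ℤ, ∀ x : ℝ,
      ∫ y in (0:ℝ)..1, f (x, y) * Complex.exp (2 * Real.pi * Complex.I * ((-n : ℤ) * y)) = 0 := by
    intro n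
    apply one_uniq_aux
    · apply intervalIntegral.continuous_parametric_intervalIntegral_of_continuous'
      fun_prop
    · intro x
      simp only [hp.1]
    · intro m
      rw [← h (m, n)]
      unfold fc
      apply intervalIntegral.integral_congr
      intro x _
      show (∫ y in (0:ℝ)..1, f (x, y) * Complex.exp (2 * Real.pi * Complex.I * ((-n : ℤ) * y))) *
        Complex.exp (2 * Real.pi * Complex.I * ((-m : ℤ) * x)) =
        ∫ y in (0 : ℝ)..1, f (x, y) * ee (-(m, n)) (x, y)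
      rw [← intervalIntegral.integral_mul_const]
      apply intervalIntegral.integral_congr
      intro y _
      show f (x, y) * Complex.exp (2 * Real.pi * Complex.I * ((-n : ℤ) * y)) *
        Complex.exp (2 * Real.pi * Complex.I * ((-m : ℤ) * x)) = f (x, y) * ee (-(m, n)) (x, y)
      unfold ee
      rw [mul_assoc, ← Complex.exp_add]
      congr 2
      show 2 * Real.pi * Complex.I * ((-n : ℤ) * (y:ℂ)) + 2 * Real.pi * Complex.I * ((-m : ℤ) * (x:ℂ)) =
        2 * Real.pi * Complex.I * (((-m : ℤ) : ℂ) * (x:ℂ) + ((-n : ℤ) : ℂ) * (y:ℂ))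
      ring
  obtain ⟨x, y⟩ := p
  exact one_uniq_aux (fun y => f (x, y)) (by fun_prop) (fun y => hp.2 x y) (fun n => hF n x) y

end KleinEmb
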