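import Pool.Agent.Helper719.Emb.Defs

open scoped ContDiff Topology ENNReal
open Set MeasureTheory Filter

noncomputable section

namespace KleinEmb

/-- the Hilbert space `ℓ²(ℤ²)` -/
abbrev L2 : Type := lp (fun _ : ℤ × ℤ => ℂ) 2

/-- rapid off-diagonal decay of an infinite matrix -/
def OffDiag (A : ℤ × ℤ → ℤ × ℤ → ℂ) : Prop :=
  ∀ N : ℕ, ∃ C : ℝ, ∀ k l : ℤ × ℤ,
    (1 + |((k - l).1 : ℝ)| + |((k - l).2 : ℝ)|) ^ N * ‖A k l‖ ≤ C

end KleinEmb
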