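import Pool.Agent.Helper719.Emb.Defs
import Pool.Agent.Helper719.Emb.P_fou
import Pool.Agent.Helper719.Emb.P_l2

open scoped ContDiff Topology ENNReal
open Set MeasureTheory Filter

noncomputable section

namespace KleinEmb



lemma l2_rap_aux (a : ℤ × ℤ → ℂ) (N : ℕ) : ∀ (c : ℤ × ℤ → ℂ) (R : ℝ → L2),
    ContDiff ℝ ∞ R → (∀ h k, (R h : ℤ × ℤ → ℂ) k = Complex.exp (a k * h) * c k) →
    ∃ C : ℝ, ∀ k, ‖a k‖ ^ N * ‖c k‖ ≤ C := by
  induction N with
  | zero =>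
    intro c R _ h
    refine ⟨‖R 0‖, fun k => ?_⟩
    have h0 := h 0 k
    simp at h0
    have := lp.norm_apply_le_norm (by norm_num : (2 : ℝ≥0∞) ≠ 0) (R 0) k
    rw [h0] at this
    simpa using this
  | succ N ih =>
    intro c R hR h
    have hd : Differentiable ℝ R := hR.differentiable (by simp)
    have hR' : ContDiff ℝ ∞ (deriv R) := by
      have := (contDiff_infty_iff_deriv (f := R)).1 hR
      exact this.2
    have key : ∀ (t : ℝ) k, ((deriv R t : L2) : ℤ × ℤ → ℂ) k = Complex.exp (a k * t) * (a k * c k) := by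
      intro t k
      have e1 : HasDerivAt (fun s : ℝ => (R s : ℤ × ℤ → ℂ) k) (((deriv R t : L2) : ℤ × ℤ → ℂ) k) t := by
        have := (lp.evalCLM ℝ (fun _ : ℤ × ℤ => ℂ) (2 : ℝ≥0∞) k).hasFDerivAt.comp_hasDerivAt t (hd t).hasDerivAt
        exact this
      have e2 : HasDerivAt (fun s : ℝ => (R s : ℤ × ℤ → ℂ) k) (Complex.exp (a k * t) * (a k * c k)) t := by
        have : (fun s : ℝ => (R s : ℤ × ℤ → ℂ) k) = fun s : ℝ => Complex.exp (a k * s) * c k := by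
          ext s; exact h s k
        rw [this]
        have h3 : HasDerivAt (fun s : ℝ => a k * (s : ℂ)) (a k) t := by
          simpa using (Complex.ofRealCLM.hasDerivAt (x := t)).const_mul (a k)
        have h4 := (h3.cexp).mul_const (c k)
        rw [mul_assoc] at h4
        exact h4
      exact e1.unique e2
    obtain ⟨C, hC⟩ := ih (fun k => a k * c k) (deriv R) hR' key
    refine ⟨C, fun k => ?_⟩
    have := hC k
    rw [norm_mul] at this
    calc ‖a k‖ ^ (N + 1) * ‖c k‖ = ‖a k‖ ^ N * (‖a k‖ * ‖c k‖) := by ring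
      _ ≤ C := this

lemma l2_pow3 (N : ℕ) (a b : ℝ) (ha : 0 ≤ a) (hb : 0 ≤ b) :
    (1 + a + b) ^ N ≤ 3 ^ N * (1 + a ^ N + b ^ N) := by
  have hm : (1 + a + b) ≤ 3 * max 1 (max a b) := by
    have h1 := le_max_left 1 (max a b)
    have h2 := le_trans (le_max_left a b) (le_max_right 1 (max a b))
    have h3 := le_trans (le_max_right a b) (le_max_right 1 (max a b))
    linarith
  have h4 : (1 + a + b) ^ N ≤ 3 ^ N * (max 1 (max a b)) ^ N := by
    rw [← mul_pow]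
    exact pow_le_pow_left₀ (by positivity) hm N
  refine h4.trans (mul_le_mul_of_nonneg_left ?_ (by positivity))
  have ha' := pow_nonneg ha N
  have hb' := pow_nonneg hb N
  rcases max_choice 1 (max a b) with h | h
  · rw [h]; simp; linarith
  · rw [h]
    rcases max_choice a b with h' | h'
    · rw [h']; linarith
    · rw [h']; linarith

theorem l2_rap (c : ℤ × ℤ → ℂ)
    (h1 : ∃ R : ℝ → L2, ContDiff ℝ ∞ R ∧ ∀ h k, (R h : ℤ × ℤ → ℂ) k = ee k (h • ((1 : ℝ), (0 : ℝ))) * c k)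
    (h2 : ∃ R : ℝ → L2, ContDiff ℝ ∞ R ∧ ∀ h k, (R h : ℤ × ℤ → ℂ) k = ee k (h • ((0 : ℝ), (1 : ℝ))) * c k) :
    Rap c := by
  obtain ⟨R1, hR1, e1⟩ := h1
  obtain ⟨R2, hR2, e2⟩ := h2
  intro N
  have f1 := fun M => l2_rap_aux (fun k => 2 * Real.pi * Complex.I * k.1) M c R1 hR1 (by
    intro h k
    rw [e1 h k]; congr 1
    simp only [ee]
    congr 1
    simp
    ring)
  have f2 := fun M => l2_rap_aux (fun k => 2 * Real.pi * Complex.I * k.2) M c R2 hR2 (by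
    intro h k
    rw [e2 h k]; congr 1
    simp only [ee]
    congr 1
    simp
    ring)
  obtain ⟨C0, hC0⟩ := f1 0
  obtain ⟨C1, hC1⟩ := f1 N
  obtain ⟨C2, hC2⟩ := f2 N
  refine ⟨3 ^ N * (C0 + C1 + C2), fun k => ?_⟩
  have g0 := hC0 k
  have g1 := hC1 k
  have g2 := hC2 k
  have hn1 : |(k.1 : ℝ)| ≤ ‖(2 * Real.pi * Complex.I * (k.1 : ℂ))‖ := by
    have : ‖(2 * Real.pi * Complex.I * (k.1 : ℂ))‖ = 2 * Real.pi * |(k.1 : ℝ)| := by
      simp [abs_of_pos Real.pi_pos]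
    rw [this]
    nlinarith [abs_nonneg (k.1 : ℝ), Real.pi_gt_three]
  have hn2 : |(k.2 : ℝ)| ≤ ‖(2 * Real.pi * Complex.I * (k.2 : ℂ))‖ := by
    have : ‖(2 * Real.pi * Complex.I * (k.2 : ℂ))‖ = 2 * Real.pi * |(k.2 : ℝ)| := by
      simp [abs_of_pos Real.pi_pos]
    rw [this]
    nlinarith [abs_nonneg (k.2 : ℝ), Real.pi_gt_three]
  have q0 : ‖c k‖ ≤ C0 := by simpa using g0
  have q1 : |(k.1 : ℝ)| ^ N * ‖c k‖ ≤ C1 :=
    le_trans (mul_le_mul_of_nonneg_right (pow_le_pow_left₀ (abs_nonneg _) hn1 N) (norm_nonneg _)) g1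
  have q2 : |(k.2 : ℝ)| ^ N * ‖c k‖ ≤ C2 :=
    le_trans (mul_le_mul_of_nonneg_right (pow_le_pow_left₀ (abs_nonneg _) hn2 N) (norm_nonneg _)) g2
  calc (1 + |(k.1 : ℝ)| + |(k.2 : ℝ)|) ^ N * ‖c k‖
      ≤ (3 ^ N * (1 + |(k.1 : ℝ)| ^ N + |(k.2 : ℝ)| ^ N)) * ‖c k‖ :=
        mul_le_mul_of_nonneg_right (l2_pow3 N _ _ (abs_nonneg _) (abs_nonneg _)) (norm_nonneg _)
    _ = 3 ^ N * (‖c k‖ + |(k.1 : ℝ)| ^ N * ‖c k‖ + |(k.2 : ℝ)| ^ N * ‖c k‖) := by ring
    _ ≤ 3 ^ N * (C0 + C1 + C2) := by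
        apply mul_le_mul_of_nonneg_left _ (by positivity)
        linarith

end KleinEmb
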