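import Pool.Agent.Helper719.Emb.Defs
import Pool.Agent.Helper719.Emb.P_fou
import Pool.Agent.Helper719.Emb.P_l2

open scoped ContDiff Topology ENNReal
open Set MeasureTheory Filter

noncomputable section

namespace KleinEmb



theorem shift_op (w : ℤ × ℤ → ℂ) (B : ℝ) (hB : ∀ k, ‖w k‖ ≤ B) (m : ℤ × ℤ) :
    ∃ T : L2 →L[ℂ] L2, ‖T‖ ≤ B ∧ ∀ (c : L2) (k : ℤ × ℤ), (T c : ℤ × ℤ → ℂ) k = w k * (c : ℤ × ℤ → ℂ) (k - m) := by
  have hB0 : 0 ≤ B := (norm_nonneg _).trans (hB 0)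
  have h2 : (0 : ℝ) < (2 : ENNReal).toReal := by norm_num
  have h2' : (2 : ENNReal).toReal = 2 := by norm_num
  have hs0 : ∀ c : L2, Summable fun k => ‖(c : ℤ × ℤ → ℂ) k‖ ^ (2 : ENNReal).toReal := fun c =>
    (lp.memℓp c).summable h2
  have hs1 : ∀ c : L2, Summable fun k => ‖(c : ℤ × ℤ → ℂ) (k - m)‖ ^ (2 : ENNReal).toReal := fun c =>
    (Equiv.subRight m).summable_iff.2 (hs0 c)
  have hle : ∀ (c : L2) (k : ℤ × ℤ), ‖w k * (c : ℤ × ℤ → ℂ) (k - m)‖ ^ (2 : ENNReal).toReal ≤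
      B ^ (2 : ENNReal).toReal * ‖(c : ℤ × ℤ → ℂ) (k - m)‖ ^ (2 : ENNReal).toReal := by
    intro c k
    rw [norm_mul, Real.mul_rpow (norm_nonneg _) (norm_nonneg _)]
    exact mul_le_mul_of_nonneg_right (Real.rpow_le_rpow (norm_nonneg _) (hB k) h2.le)
      (Real.rpow_nonneg (norm_nonneg _) _)
  have hmem : ∀ c : L2, Memℓp (fun k => w k * (c : ℤ × ℤ → ℂ) (k - m)) 2 := by
    intro c
    refine memℓp_gen ?_
    exact Summable.of_nonneg_of_le (fun k => Real.rpow_nonneg (norm_nonneg _) _) (hle c)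
      ((hs1 c).mul_left _)
  let T0 : L2 →ₗ[ℂ] L2 :=
    { toFun := fun c => ⟨fun k => w k * (c : ℤ × ℤ → ℂ) (k - m), hmem c⟩
      map_add' := by
        intro c d
        apply lp.ext
        funext k
        show w k * ((c + d : L2) : ℤ × ℤ → ℂ) (k - m) = _
        rw [lp.coeFn_add, Pi.add_apply, mul_add]
        rfl
      map_smul' := by
        intro a c
        apply lp.ext
        funext k
        show w k * ((a • c : L2) : ℤ × ℤ → ℂ) (k - m) = a * (w k * (c : ℤ × ℤ → ℂ) (k - m))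
        rw [lp.coeFn_smul, Pi.smul_apply, smul_eq_mul]
        ring }
  have hT0 : ∀ c : L2, ‖T0 c‖ ≤ B * ‖c‖ := by
    intro c
    have hb : 0 ≤ B * ‖c‖ := mul_nonneg hB0 (norm_nonneg _)
    refine lp.norm_le_of_tsum_le h2 hb ?_
    have e1 : ∑' k, ‖(T0 c : ℤ × ℤ → ℂ) k‖ ^ (2 : ENNReal).toReal ≤
        ∑' k, B ^ (2 : ENNReal).toReal * ‖(c : ℤ × ℤ → ℂ) (k - m)‖ ^ (2 : ENNReal).toReal :=
      Summable.tsum_le_tsum (hle c)
        (Summable.of_nonneg_of_le (fun k => Real.rpow_nonneg (norm_nonneg _) _) (hle c)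
      ((hs1 c).mul_left _)) ((hs1 c).mul_left _)
    refine e1.trans ?_
    rw [tsum_mul_left, Real.mul_rpow hB0 (norm_nonneg _), lp.norm_rpow_eq_tsum h2 c]
    refine le_of_eq ?_
    congr 1
    exact (Equiv.subRight m).tsum_eq fun k => ‖(c : ℤ × ℤ → ℂ) k‖ ^ (2 : ENNReal).toReal
  exact ⟨T0.mkContinuous B hT0, LinearMap.mkContinuous_norm_le _ hB0 _, fun c k => rfl⟩

end KleinEmb
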