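import Pool.Agent.Helper719.Emb.Defs
import Pool.Agent.Helper719.Emb.P_fou
import Pool.Agent.Helper719.Emb.P_rap_summable
import Pool.Agent.Helper719.Emb.P_l2
import Pool.Agent.Helper719.Emb.P_shift_op

open scoped ContDiff Topology ENNReal
open Set MeasureTheory Filter

noncomputable section

namespace KleinEmb



theorem h154_sup (A : ℤ × ℤ → ℤ × ℤ → ℂ) (hA : OffDiag A) :
    ∃ B : ℤ × ℤ → ℝ, (∀ m, 0 ≤ B m) ∧ (∀ m k, ‖A k (k - m)‖ ≤ B m) ∧
      ∀ N : ℕ, Summable (fun m : ℤ × ℤ => (1 + |(m.1 : ℝ)| + |(m.2 : ℝ)|) ^ N * B m) := by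
  have hbd : ∀ N : ℕ, ∃ C : ℝ, ∀ m k : ℤ × ℤ,
      ‖A k (k - m)‖ ≤ C / (1 + |(m.1 : ℝ)| + |(m.2 : ℝ)|) ^ N := by
    intro N
    obtain ⟨C, hC⟩ := hA N
    refine ⟨C, fun m k => ?_⟩
    have h1 := hC k (k - m)
    rw [sub_sub_cancel] at h1
    rw [le_div_iff₀ (by positivity), mul_comm]
    exact h1
  obtain ⟨C0, hC0⟩ := hbd 0
  have hBA : ∀ m : ℤ × ℤ, BddAbove (Set.range (fun k : ℤ × ℤ => ‖A k (k - m)‖)) := by
    intro m
    refine ⟨C0, ?_⟩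
    rintro _ ⟨k, rfl⟩
    have := hC0 m k
    simpa using this
  have hB0 : ∀ m : ℤ × ℤ, 0 ≤ ⨆ k : ℤ × ℤ, ‖A k (k - m)‖ := by
    intro m
    exact le_trans (norm_nonneg (A 0 (0 - m))) (le_ciSup (hBA m) 0)
  refine ⟨fun m => ⨆ k : ℤ × ℤ, ‖A k (k - m)‖, hB0, fun m k => le_ciSup (hBA m) k, ?_⟩
  intro N
  have hRap : Rap (fun m : ℤ × ℤ => ((⨆ k : ℤ × ℤ, ‖A k (k - m)‖ : ℝ) : ℂ)) := by
    intro M
    obtain ⟨C, hC⟩ := hbd M
    refine ⟨C, fun m => ?_⟩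
    rw [Complex.norm_real, Real.norm_of_nonneg (hB0 m)]
    have h2 : (⨆ k : ℤ × ℤ, ‖A k (k - m)‖) ≤ C / (1 + |(m.1 : ℝ)| + |(m.2 : ℝ)|) ^ M :=
      ciSup_le (fun k => hC m k)
    rw [le_div_iff₀ (by positivity)] at h2
    rw [mul_comm]
    exact h2
  have h3 := rap_summable _ hRap N
  refine h3.congr ?_
  intro m
  rw [Complex.norm_real, Real.norm_of_nonneg (hB0 m)]

theorem h154_iter {V : Type} [NormedAddCommGroup V] [NormedSpace ℂ V] [NormedSpace ℝ V]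
    [IsScalarTower ℝ ℂ V] (a : ℂ) (S : V) (n : ℕ) :
    iteratedDeriv n (fun h : ℝ => Complex.exp (h * a) • S) =
      fun h : ℝ => (a ^ n * Complex.exp (h * a)) • S := by
  induction n with
  | zero => simp
  | succ n ih =>
    rw [iteratedDeriv_succ, ih]
    funext h
    have h1 : HasDerivAt (fun h : ℝ => (h : ℂ) * a) (1 * a) h :=
      (Complex.ofRealCLM.hasDerivAt (x := h)).mul_const a
    have h2 := (h1.cexp.const_mul (a ^ n)).smul_const S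
    rw [h2.deriv]
    congr 1
    ring

theorem op_family (A : ℤ × ℤ → ℤ × ℤ → ℂ) (hA : OffDiag A) (e : ℝ × ℝ) :
    ∃ T : ℝ → (L2 →L[ℂ] L2), ContDiff ℝ ∞ T ∧ ∀ (h : ℝ) (c : L2) (k : ℤ × ℤ),
      Summable (fun l => A k l * ee (k - l) (h • e) * (c : ℤ × ℤ → ℂ) l) ∧
      (T h c : ℤ × ℤ → ℂ) k = ∑' l, A k l * ee (k - l) (h • e) * (c : ℤ × ℤ → ℂ) l := by
  obtain ⟨B, hB0, hB1, hB2⟩ := h154_sup A hA
  have hT : ∀ m : ℤ × ℤ, ∃ T : L2 →L[ℂ] L2, ‖T‖ ≤ B m ∧ ∀ (c : L2) (k : ℤ × ℤ),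
      (T c : ℤ × ℤ → ℂ) k = A k (k - m) * (c : ℤ × ℤ → ℂ) (k - m) :=
    fun m => shift_op (fun k => A k (k - m)) (B m) (hB1 m) m
  choose S hS1 hS2 using hT
  set a : ℤ × ℤ → ℂ := fun m => 2 * Real.pi * Complex.I * (m.1 * e.1 + m.2 * e.2) with ha
  have hee : ∀ (m : ℤ × ℤ) (h : ℝ), ee m (h • e) = Complex.exp (h * a m) := by
    intro m h
    unfold ee
    congr 1
    simp only [ha, Prod.smul_fst, Prod.smul_snd, smul_eq_mul]
    push_cast
    ring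
  have ha_im : ∀ (m : ℤ × ℤ) (h : ℝ), ‖Complex.exp (h * a m)‖ = 1 := by
    intro m h
    have : (h : ℂ) * a m = ((h * (2 * Real.pi * (m.1 * e.1 + m.2 * e.2)) : ℝ) : ℂ) * Complex.I := by
      simp only [ha]
      push_cast
      ring
    rw [this, Complex.norm_exp_ofReal_mul_I]
  set R : ℝ := 2 * Real.pi * (|e.1| + |e.2|) with hR
  have hR0 : 0 ≤ R := by positivity
  have ha_norm : ∀ m : ℤ × ℤ, ‖a m‖ ≤ R * (1 + |(m.1 : ℝ)| + |(m.2 : ℝ)|) := by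
    intro m
    have h1 : a m = ((2 * Real.pi * (m.1 * e.1 + m.2 * e.2) : ℝ) : ℂ) * Complex.I := by
      simp only [ha]
      push_cast
      ring
    rw [h1, norm_mul, Complex.norm_I, mul_one, Complex.norm_real, Real.norm_eq_abs, abs_mul,
      abs_of_nonneg (by positivity : (0 : ℝ) ≤ 2 * Real.pi), hR, mul_assoc (2 * Real.pi)]
    refine mul_le_mul_of_nonneg_left ?_ (by positivity)
    have h2 := abs_add_le ((m.1 : ℝ) * e.1) (m.2 * e.2)
    rw [abs_mul, abs_mul] at h2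
    have p1 := abs_nonneg (m.1 : ℝ)
    have p2 := abs_nonneg (m.2 : ℝ)
    have p3 := abs_nonneg e.1
    have p4 := abs_nonneg e.2
    nlinarith [mul_nonneg p1 p4, mul_nonneg p2 p3]
  have hsumS : ∀ h : ℝ, Summable (fun m => Complex.exp (h * a m) • S m) := by
    intro h
    have h0 := hB2 0
    refine Summable.of_norm_bounded (g := fun m => (1 + |(m.1 : ℝ)| + |(m.2 : ℝ)|) ^ 0 * B m) h0 ?_
    intro m
    rw [norm_smul, ha_im, one_mul, pow_zero, one_mul]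
    exact hS1 m
  refine ⟨fun h => ∑' m, Complex.exp (h * a m) • S m, ?_, ?_⟩
  · refine contDiff_tsum (𝕜 := ℝ) (N := ⊤) (v := fun (n : ℕ) (m : ℤ × ℤ) =>
      R ^ n * ((1 + |(m.1 : ℝ)| + |(m.2 : ℝ)|) ^ n * B m)) ?_ ?_ ?_
    · intro m
      have h1 : ContDiff ℝ ((⊤ : ℕ∞) : WithTop ℕ∞) (fun h : ℝ => Complex.exp (h * a m)) := by
        have : ContDiff ℝ ((⊤ : ℕ∞) : WithTop ℕ∞) (fun h : ℝ => (h : ℂ) * a m) :=
          (Complex.ofRealCLM.contDiff).mul contDiff_const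
        exact this.cexp
      exact h1.smul contDiff_const
    · intro n _
      exact (hB2 n).mul_left _
    · intro n m h _
      rw [norm_iteratedFDeriv_eq_norm_iteratedDeriv, h154_iter, norm_smul, norm_mul, ha_im, mul_one,
        norm_pow]
      have h1 : ‖a m‖ ^ n ≤ (R * (1 + |(m.1 : ℝ)| + |(m.2 : ℝ)|)) ^ n :=
        pow_le_pow_left₀ (norm_nonneg _) (ha_norm m) n
      calc ‖a m‖ ^ n * ‖S m‖ ≤ (R * (1 + |(m.1 : ℝ)| + |(m.2 : ℝ)|)) ^ n * B m :=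
            mul_le_mul h1 (hS1 m) (norm_nonneg _) (by positivity)
        _ = _ := by rw [mul_pow]; ring
  · intro h c k
    have hs := (hsumS h).hasSum
    let ev : (L2 →L[ℂ] L2) →L[ℂ] ℂ :=
      (lp.evalCLM ℂ (fun _ : ℤ × ℤ => ℂ) 2 k).comp (ContinuousLinearMap.apply ℂ L2 c)
    have hev : ∀ U : L2 →L[ℂ] L2, ev U = (U c : ℤ × ℤ → ℂ) k := fun U => rfl
    have h1 : HasSum (fun m => ev (Complex.exp (h * a m) • S m))
        (ev (∑' m, Complex.exp (h * a m) • S m)) := ev.hasSum hs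
    have h2 : HasSum (fun m => ev (Complex.exp (h * a m) • S m))
        (((∑' m, Complex.exp (h * a m) • S m : L2 →L[ℂ] L2) c : ℤ × ℤ → ℂ) k) := h1
    have h3 : (fun m => ev (Complex.exp (h * a m) • S m)) =
        (fun l => A k l * ee (k - l) (h • e) * (c : ℤ × ℤ → ℂ) l) ∘ (Equiv.subLeft k) := by
      funext m
      simp only [Function.comp_apply, Equiv.subLeft_apply, sub_sub_cancel]
      rw [map_smul, hev, hS2, hee, smul_eq_mul]
      ring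
    rw [h3, (Equiv.subLeft k).hasSum_iff] at h2
    exact ⟨h2.summable, h2.tsum_eq.symm⟩

end KleinEmb
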