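import Pool.Agent.Helper719.Emb.Defs
import Pool.Agent.Helper719.Emb.P_fou
import Pool.Agent.Helper719.Emb.P_rap_summable
import Pool.Agent.Helper719.Emb.P_l2

open scoped ContDiff Topology ENNReal
open Set MeasureTheory Filter

noncomputable section

namespace KleinEmb



theorem rl_hasDeriv (a b : ℂ) (v : L2) (h : ℝ) :
    HasDerivAt (fun h : ℝ => (b * Complex.exp (a * h)) • v)
      ((b * (Complex.exp (a * h) * a)) • v) h := by
  have h1 : HasDerivAt (fun h : ℝ => b * Complex.exp (a * h)) (b * (Complex.exp (a * h) * a)) h := by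
    have h2 : HasDerivAt (fun z : ℂ => b * Complex.exp (a * z)) (b * (Complex.exp (a * h) * a)) (h : ℂ) := by
      have h3 : HasDerivAt (fun z : ℂ => a * z) a (h : ℂ) := by
        simpa using (hasDerivAt_id (h : ℂ)).const_mul a
      exact (h3.cexp).const_mul b
    exact h2.comp_ofReal
  exact h1.smul_const v

theorem rl_iter (a : ℂ) (v : L2) (n : ℕ) :
    iteratedDeriv n (fun h : ℝ => (1 * Complex.exp (a * h)) • v) =
      fun h : ℝ => (a ^ n * Complex.exp (a * h)) • v := by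
  induction n with
  | zero => simp
  | succ n ih =>
    rw [iteratedDeriv_succ, ih]
    funext h
    rw [(rl_hasDeriv a (a ^ n) v h).deriv]
    congr 1
    ring

theorem rl_smooth (a : ℂ) (v : L2) :
    ContDiff ℝ ∞ (fun h : ℝ => (1 * Complex.exp (a * h)) • v) := by
  have h1 : ContDiff ℝ ∞ (fun h : ℝ => (1 * Complex.exp (a * h))) := by
    have h2 : ContDiff ℝ ∞ (fun h : ℝ => (h : ℂ)) := Complex.ofRealCLM.contDiff
    exact contDiff_const.mul ((contDiff_const.mul h2).cexp)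
  exact h1.smul contDiff_const

theorem rap_l2 (c : ℤ × ℤ → ℂ) (hc : Rap c) (e : ℝ × ℝ) :
    ∃ R : ℝ → L2, ContDiff ℝ ∞ R ∧ ∀ h k, (R h : ℤ × ℤ → ℂ) k = ee k (h • e) * c k := by
  classical
  set a : ℤ × ℤ → ℂ := fun k => 2 * Real.pi * Complex.I * (k.1 * e.1 + k.2 * e.2) with ha
  set f : ℤ × ℤ → ℝ → L2 := fun k h => (1 * Complex.exp (a k * h)) •
    (lp.single 2 k (c k) : L2) with hf
  set B : ℝ := 2 * Real.pi * (|e.1| + |e.2|) with hB
  have hB0 : 0 ≤ B := by positivity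
  have hexp : ∀ k (h : ℝ), ‖Complex.exp (a k * h)‖ = 1 := by
    intro k h
    have : a k * h = ((2 * Real.pi * (k.1 * e.1 + k.2 * e.2) * h : ℝ) : ℂ) * Complex.I := by
      rw [ha]; push_cast; ring
    rw [this, Complex.norm_exp_ofReal_mul_I]
  have han : ∀ k, ‖a k‖ ≤ B * (1 + |(k.1 : ℝ)| + |(k.2 : ℝ)|) := by
    intro k
    have h1 : a k = ((2 * Real.pi * (k.1 * e.1 + k.2 * e.2) : ℝ) : ℂ) * Complex.I := by
      rw [ha]; push_cast; ring
    rw [h1, norm_mul, Complex.norm_I, mul_one, Complex.norm_real, Real.norm_eq_abs, abs_mul,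
      abs_of_pos (by positivity : (0:ℝ) < 2 * Real.pi), hB,
      mul_assoc (2 * Real.pi) (|e.1| + |e.2|)]
    apply mul_le_mul_of_nonneg_left _ (by positivity)
    calc |(k.1 : ℝ) * e.1 + k.2 * e.2| ≤ |(k.1 : ℝ) * e.1| + |(k.2 : ℝ) * e.2| := abs_add_le _ _
      _ = |(k.1 : ℝ)| * |e.1| + |(k.2 : ℝ)| * |e.2| := by rw [abs_mul, abs_mul]
      _ ≤ (|e.1| + |e.2|) * (1 + |(k.1 : ℝ)| + |(k.2 : ℝ)|) := by
        nlinarith [abs_nonneg (k.1 : ℝ), abs_nonneg (k.2 : ℝ), abs_nonneg e.1, abs_nonneg e.2,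
          mul_nonneg (abs_nonneg (k.1 : ℝ)) (abs_nonneg e.2),
          mul_nonneg (abs_nonneg (k.2 : ℝ)) (abs_nonneg e.1)]
  have hsum : ∀ n : ℕ, Summable (fun k : ℤ × ℤ =>
      B ^ n * ((1 + |(k.1 : ℝ)| + |(k.2 : ℝ)|) ^ n * ‖c k‖)) :=
    fun n => (rap_summable c hc n).mul_left _
  have hbound : ∀ (n : ℕ) (k : ℤ × ℤ) (h : ℝ), ‖iteratedFDeriv ℝ n (f k) h‖ ≤
      B ^ n * ((1 + |(k.1 : ℝ)| + |(k.2 : ℝ)|) ^ n * ‖c k‖) := by
    intro n k h
    rw [norm_iteratedFDeriv_eq_norm_iteratedDeriv, hf]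
    simp only
    rw [rl_iter]
    simp only
    rw [norm_smul, norm_mul, hexp, mul_one, norm_pow, lp.norm_single (by norm_num), ← mul_assoc,
      ← mul_pow]
    apply mul_le_mul_of_nonneg_right _ (norm_nonneg _)
    exact pow_le_pow_left₀ (norm_nonneg _) (han k) n
  refine ⟨fun h => ∑' k, f k h, ?_, ?_⟩
  · exact contDiff_tsum (v := fun n k => B ^ n * ((1 + |(k.1 : ℝ)| + |(k.2 : ℝ)|) ^ n * ‖c k‖))
      (fun k => rl_smooth (a k) _) (fun n _ => hsum n) (fun n k h _ => hbound n k h)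
  · intro h k0
    have hs : Summable (fun k => f k h) := by
      apply Summable.of_norm_bounded (hsum 0)
      intro k
      have := hbound 0 k h
      rwa [norm_iteratedFDeriv_zero] at this
    have h1 : ((∑' k, f k h : L2) : ℤ × ℤ → ℂ) k0 = ∑' k, ((f k h : L2) : ℤ × ℤ → ℂ) k0 :=
      (lp.evalCLM (𝕜 := ℂ) (fun _ : ℤ × ℤ => ℂ) 2 k0).map_tsum hs
    show ((∑' k, f k h : L2) : ℤ × ℤ → ℂ) k0 = _
    rw [h1, tsum_eq_single k0]
    · show (1 * Complex.exp (a k0 * h)) * (lp.single 2 k0 (c k0) : L2) k0 = _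
      rw [lp.single_apply_self, one_mul]
      congr 1
      unfold ee
      congr 1
      rw [ha]
      simp only [Prod.smul_fst, Prod.smul_snd, smul_eq_mul]
      push_cast
      ring
    · intro k hk
      show (1 * Complex.exp (a k * h)) * (lp.single 2 k (c k) : L2) k0 = 0
      rw [lp.single_apply_ne _ _ _ hk.symm, mul_zero]

end KleinEmb
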