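import Pool.Agent.Helper719.Emb.Defs
import Pool.Agent.Helper719.Emb.P_fou
import Pool.Agent.Helper719.Emb.P_coercive_unit
import Pool.Agent.Helper719.Emb.P_l2
import Pool.Agent.Helper719.Emb.P_op_family
import Pool.Agent.Helper719.Emb.P_rap_l2
import Pool.Agent.Helper719.Emb.P_l2_rap

open scoped ContDiff Topology ENNReal
open Set MeasureTheory Filter

noncomputable section

namespace KleinEmb



theorem jf_ee_eq (k : ℤ × ℤ) (p : ℝ × ℝ) :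
    ee k p = Complex.exp (((2 * Real.pi * (k.1 * p.1 + k.2 * p.2) : ℝ) : ℂ) * Complex.I) := by
  unfold ee
  congr 1
  push_cast
  ring

theorem jf_ee_norm (k : ℤ × ℤ) (p : ℝ × ℝ) : ‖ee k p‖ = 1 := by
  rw [jf_ee_eq, Complex.norm_exp_ofReal_mul_I]

theorem jf_ee_mul (k l : ℤ × ℤ) (p : ℝ × ℝ) : ee k p * ee l p = ee (k + l) p := by
  unfold ee
  rw [← Complex.exp_add]
  congr 1
  simp only [Prod.fst_add, Prod.snd_add]
  push_cast
  ring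

theorem jf_ee_zero (k : ℤ × ℤ) : ee k 0 = 1 := by
  unfold ee
  simp

theorem jf_ee_conj (k : ℤ × ℤ) (p : ℝ × ℝ) : (starRingEnd ℂ) (ee (-k) p) = ee k p := by
  rw [jf_ee_eq, jf_ee_eq, ← Complex.exp_conj]
  congr 1
  rw [map_mul, Complex.conj_ofReal, Complex.conj_I]
  simp only [Prod.fst_neg, Prod.snd_neg]
  push_cast
  ring

theorem jf_coer (A : ℤ × ℤ → ℤ × ℤ → ℂ) (m : ℝ)
    (hco : ∀ (s : Finset (ℤ × ℤ)) (c : ℤ × ℤ → ℂ), m * ∑ k ∈ s, ‖c k‖ ^ 2 ≤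
      (∑ k ∈ s, ∑ l ∈ s, A k l * c l * (starRingEnd ℂ) (c k)).re)
    (q : ℝ × ℝ) (T : L2 →L[ℂ] L2)
    (hT : ∀ (c : L2) (k : ℤ × ℤ),
      (T c : ℤ × ℤ → ℂ) k = ∑' l, A k l * ee (k - l) q * (c : ℤ × ℤ → ℂ) l) (c : L2) :
    m * ‖c‖ ^ 2 ≤ (inner ℂ c (T c)).re := by
  classical
  have hs := lp.hasSum_single (E := fun _ : ℤ × ℤ => ℂ) (p := 2) (by norm_num) c
  have hfin : ∀ s : Finset (ℤ × ℤ),
      m * ‖∑ i ∈ s, lp.single (E := fun _ : ℤ × ℤ => ℂ) 2 i ((c : ℤ × ℤ → ℂ) i)‖ ^ 2 ≤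
      (inner ℂ (∑ i ∈ s, lp.single (E := fun _ : ℤ × ℤ => ℂ) 2 i ((c : ℤ × ℤ → ℂ) i))
        (T (∑ i ∈ s, lp.single (E := fun _ : ℤ × ℤ => ℂ) 2 i ((c : ℤ × ℤ → ℂ) i)))).re := by
    intro s
    obtain ⟨b, hb⟩ : ∃ b : L2,
      b = ∑ i ∈ s, lp.single (E := fun _ : ℤ × ℤ => ℂ) 2 i ((c : ℤ × ℤ → ℂ) i) := ⟨_, rfl⟩
    have hbk : ∀ k, (b : ℤ × ℤ → ℂ) k = if k ∈ s then (c : ℤ × ℤ → ℂ) k else 0 := by
      intro k
      rw [hb, lp.coeFn_sum, Finset.sum_apply]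
      simp only [lp.single_apply]
      by_cases hk : k ∈ s
      · rw [Finset.sum_eq_single k]
        · simp [hk]
        · intro j _ hj
          simp [Pi.single_apply, Ne.symm hj]
        · intro h; exact absurd hk h
      · rw [if_neg hk]
        apply Finset.sum_eq_zero
        intro j hj
        have : k ≠ j := fun h => hk (h ▸ hj)
        simp [Pi.single_apply, this]
    have hnorm : ‖b‖ ^ 2 = ∑ k ∈ s, ‖(c : ℤ × ℤ → ℂ) k‖ ^ 2 := by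
      have h := lp.norm_sum_single (E := fun _ : ℤ × ℤ => ℂ) (p := 2) (by norm_num)
        (fun k => (c : ℤ × ℤ → ℂ) k) s
      rw [← hb] at h
      simpa using h
    rw [← hb, hnorm, lp.inner_eq_tsum]
    have hTb : ∀ k, (T b : ℤ × ℤ → ℂ) k =
        ∑ l ∈ s, A k l * ee (k - l) q * (c : ℤ × ℤ → ℂ) l := by
      intro k
      rw [hT, tsum_eq_sum (s := s)]
      · refine Finset.sum_congr rfl (fun l hl => ?_)
        rw [hbk, if_pos hl]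
      · intro l hl
        rw [hbk, if_neg hl, mul_zero]
    rw [tsum_eq_sum (s := s)]
    · have h := hco s (fun l => ee (-l) q * (c : ℤ × ℤ → ℂ) l)
      have e1 : ∀ k, ‖ee (-k) q * (c : ℤ × ℤ → ℂ) k‖ = ‖(c : ℤ × ℤ → ℂ) k‖ := by
        intro k; rw [norm_mul, jf_ee_norm, one_mul]
      simp only [e1] at h
      refine h.trans (le_of_eq ?_)
      congr 1
      refine Finset.sum_congr rfl (fun k hk => ?_)
      rw [hTb, hbk, if_pos hk, RCLike.inner_apply, Finset.sum_mul]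
      refine Finset.sum_congr rfl (fun l _ => ?_)
      rw [map_mul, jf_ee_conj]
      have e2 : ee (k - l) q = ee k q * ee (-l) q := by rw [jf_ee_mul, sub_eq_add_neg]
      rw [e2]
      ring
    · intro k hk
      rw [hbk, if_neg hk, inner_zero_left]
  have hl1 : Tendsto (fun s : Finset (ℤ × ℤ) =>
      m * ‖∑ i ∈ s, lp.single (E := fun _ : ℤ × ℤ => ℂ) 2 i ((c : ℤ × ℤ → ℂ) i)‖ ^ 2) atTop
      (𝓝 (m * ‖c‖ ^ 2)) := (hs.norm.pow 2).const_mul m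
  have hl2 : Tendsto (fun s : Finset (ℤ × ℤ) =>
      (inner ℂ (∑ i ∈ s, lp.single (E := fun _ : ℤ × ℤ => ℂ) 2 i ((c : ℤ × ℤ → ℂ) i))
        (T (∑ i ∈ s, lp.single (E := fun _ : ℤ × ℤ => ℂ) 2 i ((c : ℤ × ℤ → ℂ) i)))).re) atTop
      (𝓝 (inner ℂ c (T c)).re) := by
    have h1 : Tendsto (fun s : Finset (ℤ × ℤ) =>
      T (∑ i ∈ s, lp.single (E := fun _ : ℤ × ℤ => ℂ) 2 i ((c : ℤ × ℤ → ℂ) i))) atTop
      (𝓝 (T c)) := (T.continuous.tendsto c).comp hs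
    have h2 := Filter.Tendsto.inner (𝕜 := ℂ) hs h1
    exact (Complex.continuous_re.tendsto _).comp h2
  exact le_of_tendsto_of_tendsto' hl1 hl2 hfin

theorem jf_bilin : IsBoundedBilinearMap ℝ (fun p : (L2 →L[ℂ] L2) × L2 => p.1 p.2) where
  add_left := fun x₁ x₂ y => by simp
  smul_left := fun c x y => rfl
  add_right := fun x y₁ y₂ => by simp
  smul_right := fun c x y => by
    show x (c • y) = c • x y
    have h1 : (c • y : L2) = (c : ℂ) • y := rfl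
    have h2 : (c • x y : L2) = (c : ℂ) • x y := rfl
    rw [h1, h2, map_smul]
  bound := ⟨1, one_pos, fun x y => by rw [one_mul]; exact x.le_opNorm y⟩

theorem jf_smooth (T : ℝ → (L2 →L[ℂ] L2)) (hT : ContDiff ℝ ∞ T) (hu : ∀ h, IsUnit (T h))
    (R : ℝ → L2) (hR : ContDiff ℝ ∞ R) :
    ContDiff ℝ ∞ (fun h => Ring.inverse (T h) (R h)) := by
  have h1 : ContDiff ℝ ∞ (fun h => Ring.inverse (T h)) := by
    rw [contDiff_iff_contDiffAt]
    intro h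
    obtain ⟨u, hu'⟩ := hu h
    have h2 : ContDiffAt ℝ ∞ Ring.inverse (T h) := by
      rw [← hu']
      exact contDiffAt_ringInverse ℝ u
    exact h2.comp h hT.contDiffAt
  exact jf_bilin.contDiff.comp (h1.prodMk hR)

theorem jf_S (A : ℤ × ℤ → ℤ × ℤ → ℂ) (hA : OffDiag A) (m : ℝ) (hm : 0 < m)
    (hco : ∀ (s : Finset (ℤ × ℤ)) (c : ℤ × ℤ → ℂ), m * ∑ k ∈ s, ‖c k‖ ^ 2 ≤
      (∑ k ∈ s, ∑ l ∈ s, A k l * c l * (starRingEnd ℂ) (c k)).re)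
    (ρ : ℤ × ℤ → ℂ) (hρ : Rap ρ) (e : ℝ × ℝ) (c : L2)
    (hc : ∀ k, ∑' l, A k l * (c : ℤ × ℤ → ℂ) l = ρ k) :
    ∃ R : ℝ → L2, ContDiff ℝ ∞ R ∧ ∀ h k, (R h : ℤ × ℤ → ℂ) k = ee k (h • e) * (c : ℤ × ℤ → ℂ) k := by
  obtain ⟨T, hTs, hT⟩ := op_family A hA e
  obtain ⟨R, hRs, hR⟩ := rap_l2 ρ hρ e
  have hu : ∀ h, IsUnit (T h) := fun h =>
    coercive_unit (T h) m hm (jf_coer A m hco (h • e) (T h) (fun c k => (hT h c k).2))
  refine ⟨fun h => Ring.inverse (T h) (R h), jf_smooth T hTs hu R hRs, ?_⟩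
  intro h k
  obtain ⟨b, hb⟩ : ∃ b : L2, ∀ k, (b : ℤ × ℤ → ℂ) k = ee k (h • e) * (c : ℤ × ℤ → ℂ) k := by
    have hmem : Memℓp (fun k : ℤ × ℤ => ee k (h • e) * (c : ℤ × ℤ → ℂ) k) 2 := by
      refine memℓp_gen ?_
      have h1 := (lp.memℓp c).summable (by norm_num)
      refine h1.congr (fun i => ?_)
      rw [norm_mul, jf_ee_norm, one_mul]
    exact ⟨⟨_, hmem⟩, fun k => rfl⟩
  have hTb : T h b = R h := by
    apply lp.ext
    funext k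
    rw [(hT h b k).2, hR, ← hc k, ← tsum_mul_left]
    refine tsum_congr (fun l => ?_)
    rw [hb]
    have e1 : ee (k - l) (h • e) * ee l (h • e) = ee k (h • e) := by
      rw [jf_ee_mul, sub_add_cancel]
    linear_combination (A k l * (c : ℤ × ℤ → ℂ) l) * e1
  have hinv : Ring.inverse (T h) * T h = 1 := Ring.inverse_mul_cancel _ (hu h)
  have h2 : Ring.inverse (T h) (R h) = b := by
    rw [← hTb]
    have := congrArg (fun X : L2 →L[ℂ] L2 => X b) hinv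
    simpa using this
  show (Ring.inverse (T h) (R h) : ℤ × ℤ → ℂ) k = _
  rw [h2, hb]

theorem jaffard (A : ℤ × ℤ → ℤ × ℤ → ℂ) (hA : OffDiag A) (m : ℝ) (hm : 0 < m)
    (hco : ∀ (s : Finset (ℤ × ℤ)) (c : ℤ × ℤ → ℂ), m * ∑ k ∈ s, ‖c k‖ ^ 2 ≤
      (∑ k ∈ s, ∑ l ∈ s, A k l * c l * (starRingEnd ℂ) (c k)).re)
    (ρ : ℤ × ℤ → ℂ) (hρ : Rap ρ) :
    ∃ c : ℤ × ℤ → ℂ, Rap c ∧ ∀ k, ∑' l, A k l * c l = ρ k := by
  obtain ⟨T, hTs, hT⟩ := op_family A hA (1, 0)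
  obtain ⟨R, hRs, hR⟩ := rap_l2 ρ hρ (1, 0)
  have hu : IsUnit (T 0) :=
    coercive_unit (T 0) m hm (jf_coer A m hco ((0:ℝ) • ((1 : ℝ), (0 : ℝ))) (T 0)
      (fun c k => (hT 0 c k).2))
  have hinv : T 0 * Ring.inverse (T 0) = 1 := Ring.mul_inverse_cancel _ hu
  obtain ⟨c, hc⟩ : ∃ c : L2, T 0 c = R 0 := by
    refine ⟨Ring.inverse (T 0) (R 0), ?_⟩
    have := congrArg (fun X : L2 →L[ℂ] L2 => X (R 0)) hinv
    simpa using this
  have hck : ∀ k, ∑' l, A k l * (c : ℤ × ℤ → ℂ) l = ρ k := by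
    intro k
    have h1 := (hT 0 c k).2
    rw [hc, hR, zero_smul, jf_ee_zero, one_mul] at h1
    rw [h1]
    refine tsum_congr (fun l => ?_)
    rw [jf_ee_zero, mul_one]
  exact ⟨c, l2_rap _ (jf_S A hA m hm hco ρ hρ _ c hck) (jf_S A hA m hm hco ρ hρ _ c hck), hck⟩

end KleinEmb
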