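import Pool.Agent.Helper719.Emb.Defs
import Pool.Agent.Helper719.Emb.P_fou

open scoped ContDiff Topology ENNReal
open Set MeasureTheory Filter

noncomputable section

namespace KleinEmb

/-- the unit vector `k/|k|` (zero for `k = 0`) -/
def uv (k : ℤ × ℤ) : ℝ × ℝ :=
  ((k.1 : ℝ) / √((k.1 : ℝ) ^ 2 + (k.2 : ℝ) ^ 2), (k.2 : ℝ) / √((k.1 : ℝ) ^ 2 + (k.2 : ℝ) ^ 2))

/-- the matrix of the operator `div (A ∇ ·)` in the normalised Fourier basis -/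
def pdeM (a b d : ℝ × ℝ → ℝ) (k l : ℤ × ℤ) : ℂ :=
  (uv k).1 * (fc (fun p => (a p : ℂ)) (k - l) * (uv l).1 + fc (fun p => (b p : ℂ)) (k - l) * (uv l).2) +
  (uv k).2 * (fc (fun p => (b p : ℂ)) (k - l) * (uv l).1 + fc (fun p => (d p : ℂ)) (k - l) * (uv l).2) +
  (if k = 0 ∧ l = 0 then 1 else 0)

end KleinEmb
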