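import Pool.Agent.Helper719.Emb.Defs
import Pool.Agent.Helper719.Emb.P_fou
import Pool.Agent.Helper719.Emb.P_fc_rap
import Pool.Agent.Helper719.Emb.P_l2
import Pool.Agent.Helper719.Emb.P_pdeM

open scoped ContDiff Topology ENNReal
open Set MeasureTheory Filter

noncomputable section

namespace KleinEmb



theorem pod_small (x : ℝ) (hx : |x| ≤ 1) (z : ℂ) : ‖(x : ℂ) * z‖ ≤ ‖z‖ := by
  rw [norm_mul, Complex.norm_real]
  exact mul_le_of_le_one_left (norm_nonneg z) hx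

theorem pod_small' (x : ℝ) (hx : |x| ≤ 1) (z : ℂ) : ‖z * (x : ℂ)‖ ≤ ‖z‖ := by
  rw [mul_comm]
  exact pod_small x hx z

theorem pod_norm (x y x' y' : ℝ) (hx : |x| ≤ 1) (hy : |y| ≤ 1) (hx' : |x'| ≤ 1) (hy' : |y'| ≤ 1)
    (A B D e : ℂ) :
    ‖(x : ℂ) * (A * (x' : ℂ) + B * (y' : ℂ)) + (y : ℂ) * (B * (x' : ℂ) + D * (y' : ℂ)) + e‖
      ≤ ‖A‖ + 2 * ‖B‖ + ‖D‖ + ‖e‖ := by
  have h1 := norm_add_le ((x : ℂ) * (A * (x' : ℂ) + B * (y' : ℂ))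
    + (y : ℂ) * (B * (x' : ℂ) + D * (y' : ℂ))) e
  have h2 := norm_add_le ((x : ℂ) * (A * (x' : ℂ) + B * (y' : ℂ)))
    ((y : ℂ) * (B * (x' : ℂ) + D * (y' : ℂ)))
  have h3 := pod_small x hx (A * (x' : ℂ) + B * (y' : ℂ))
  have h4 := pod_small y hy (B * (x' : ℂ) + D * (y' : ℂ))
  have h5 := norm_add_le (A * (x' : ℂ)) (B * (y' : ℂ))
  have h6 := norm_add_le (B * (x' : ℂ)) (D * (y' : ℂ))
  have h7 := pod_small' x' hx' A
  have h8 := pod_small' y' hy' B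
  have h9 := pod_small' x' hx' B
  have h10 := pod_small' y' hy' D
  linarith

theorem pod_uv (k : ℤ × ℤ) : |(uv k).1| ≤ 1 ∧ |(uv k).2| ≤ 1 := by
  have h0 : 0 ≤ √((k.1 : ℝ) ^ 2 + (k.2 : ℝ) ^ 2) := Real.sqrt_nonneg _
  unfold uv
  constructor
  · show |(k.1 : ℝ) / √((k.1 : ℝ) ^ 2 + (k.2 : ℝ) ^ 2)| ≤ 1
    rw [abs_div, abs_of_nonneg h0]
    apply div_le_one_of_le₀ _ h0
    apply Real.abs_le_sqrt
    nlinarith [sq_nonneg (k.2 : ℝ)]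
  · show |(k.2 : ℝ) / √((k.1 : ℝ) ^ 2 + (k.2 : ℝ) ^ 2)| ≤ 1
    rw [abs_div, abs_of_nonneg h0]
    apply div_le_one_of_le₀ _ h0
    apply Real.abs_le_sqrt
    nlinarith [sq_nonneg (k.1 : ℝ)]

theorem pod_rap (a : ℝ × ℝ → ℝ) (ha : ContDiff ℝ ∞ a) (hpa : Per a) :
    Rap (fc (fun p => (a p : ℂ))) := by
  apply fc_rap
  · exact Complex.ofRealCLM.contDiff.comp ha
  · refine ⟨fun x y => ?_, fun x y => ?_⟩
    · show ((a (x + 1, y) : ℝ) : ℂ) = (a (x, y) : ℝ)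
      rw [hpa.1]
    · show ((a (x, y + 1) : ℝ) : ℂ) = (a (x, y) : ℝ)
      rw [hpa.2]

theorem pde_offdiag (a b d : ℝ × ℝ → ℝ) (ha : ContDiff ℝ ∞ a) (hb : ContDiff ℝ ∞ b) (hd : ContDiff ℝ ∞ d)
    (hpa : Per a) (hpb : Per b) (hpd : Per d) : OffDiag (pdeM a b d) := by
  intro N
  obtain ⟨Ca, hCa⟩ := pod_rap a ha hpa N
  obtain ⟨Cb, hCb⟩ := pod_rap b hb hpb N
  obtain ⟨Cd, hCd⟩ := pod_rap d hd hpd N
  refine ⟨Ca + 2 * Cb + Cd + 1, ?_⟩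
  intro k l
  have h1 := pod_norm (uv k).1 (uv k).2 (uv l).1 (uv l).2 (pod_uv k).1 (pod_uv k).2 (pod_uv l).1
    (pod_uv l).2 (fc (fun p => (a p : ℂ)) (k - l)) (fc (fun p => (b p : ℂ)) (k - l))
    (fc (fun p => (d p : ℂ)) (k - l)) (if k = 0 ∧ l = 0 then 1 else 0)
  have h2 : ‖pdeM a b d k l‖ ≤ ‖fc (fun p => (a p : ℂ)) (k - l)‖
      + 2 * ‖fc (fun p => (b p : ℂ)) (k - l)‖ + ‖fc (fun p => (d p : ℂ)) (k - l)‖
      + ‖(if k = 0 ∧ l = 0 then 1 else 0 : ℂ)‖ := h1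
  have ha1 := hCa (k - l)
  have hb1 := hCb (k - l)
  have hd1 := hCd (k - l)
  have h3 : (1 + |((k - l).1 : ℝ)| + |((k - l).2 : ℝ)|) ^ N
      * ‖(if k = 0 ∧ l = 0 then 1 else 0 : ℂ)‖ ≤ 1 := by
    split_ifs with h
    · rw [h.1, h.2]
      simp
    · simp
  have hw : 0 ≤ (1 + |((k - l).1 : ℝ)| + |((k - l).2 : ℝ)|) ^ N := by positivity
  have h4 := mul_le_mul_of_nonneg_left h2 hw
  refine h4.trans ?_
  have h5 : ∀ W x y z e : ℝ, W * (x + 2 * y + z + e) = W * x + 2 * (W * y) + W * z + W * e := by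
    intro W x y z e
    ring
  rw [h5]
  linarith

end KleinEmb
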