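import Pool.Agent.Helper719.Emb.Defs
import Pool.Agent.Helper719.Emb.P_fou
import Pool.Agent.Helper719.Emb.P_rap_summable

open scoped ContDiff Topology ENNReal
open Set MeasureTheory Filter

noncomputable section

namespace KleinEmb



/-- first coordinate as a complex valued linear map -/
def c1L : ℝ × ℝ →L[ℝ] ℂ := Complex.ofRealCLM.comp (ContinuousLinearMap.fst ℝ ℝ ℝ)
/-- second coordinate as a complex valued linear map -/
def c2L : ℝ × ℝ →L[ℝ] ℂ := Complex.ofRealCLM.comp (ContinuousLinearMap.snd ℝ ℝ ℝ)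

theorem c1L_apply (v : ℝ × ℝ) : c1L v = (v.1 : ℂ) := rfl
theorem c2L_apply (v : ℝ × ℝ) : c2L v = (v.2 : ℂ) := rfl

/-- the exponent of `ee k` -/
def eL (k : ℤ × ℤ) : ℝ × ℝ →L[ℝ] ℂ :=
  (2 * Real.pi * Complex.I * k.1 : ℂ) • c1L + (2 * Real.pi * Complex.I * k.2 : ℂ) • c2L

theorem eL_apply (k : ℤ × ℤ) (v : ℝ × ℝ) :
    eL k v = 2 * Real.pi * Complex.I * (k.1 * v.1 + k.2 * v.2) := by
  show (2 * Real.pi * Complex.I * k.1 : ℂ) * (v.1 : ℂ) + (2 * Real.pi * Complex.I * k.2 : ℂ) * (v.2 : ℂ) = _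
  ring

theorem ee_eq (k : ℤ × ℤ) : ee k = fun p => Complex.exp (eL k p) := by
  funext p; rw [eL_apply]; rfl

theorem norm_ee (k : ℤ × ℤ) (p : ℝ × ℝ) : ‖ee k p‖ = 1 := by
  have : 2 * Real.pi * Complex.I * (k.1 * p.1 + k.2 * p.2)
      = ((2 * Real.pi * (k.1 * p.1 + k.2 * p.2) : ℝ) : ℂ) * Complex.I := by push_cast; ring
  unfold ee
  rw [this, Complex.norm_exp_ofReal_mul_I]

theorem hasFDerivAt_ee (k : ℤ × ℤ) (p : ℝ × ℝ) : HasFDerivAt (ee k) (ee k p • eL k) p := by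
  rw [ee_eq]
  exact (eL k).hasFDerivAt.cexp

theorem norm_eL (k : ℤ × ℤ) : ‖eL k‖ ≤ 2 * Real.pi * (|(k.1:ℝ)| + |(k.2:ℝ)|) := by
  apply ContinuousLinearMap.opNorm_le_bound _ (by positivity)
  intro v
  rw [eL_apply]
  have : 2 * Real.pi * Complex.I * (k.1 * v.1 + k.2 * v.2)
      = ((2 * Real.pi * (k.1 * v.1 + k.2 * v.2) : ℝ) : ℂ) * Complex.I := by push_cast; ring
  rw [this, norm_mul, Complex.norm_I, mul_one, Complex.norm_real, Real.norm_eq_abs, abs_mul,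
    abs_of_pos (by positivity : (0:ℝ) < 2 * Real.pi), mul_assoc (2 * Real.pi)]
  apply mul_le_mul_of_nonneg_left _ (by positivity)
  have h1 : |v.1| ≤ ‖v‖ := by rw [← Real.norm_eq_abs]; exact norm_fst_le v
  have h2 : |v.2| ≤ ‖v‖ := by rw [← Real.norm_eq_abs]; exact norm_snd_le v
  calc |(k.1:ℝ) * v.1 + k.2 * v.2| ≤ |(k.1:ℝ) * v.1| + |(k.2:ℝ) * v.2| := abs_add_le _ _
    _ = |(k.1:ℝ)| * |v.1| + |(k.2:ℝ)| * |v.2| := by rw [abs_mul, abs_mul]
    _ ≤ |(k.1:ℝ)| * ‖v‖ + |(k.2:ℝ)| * ‖v‖ := by gcongr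
    _ = _ := by ring

theorem rap_mul1 (c : ℤ × ℤ → ℂ) (hc : Rap c) :
    Rap (fun k => 2 * Real.pi * Complex.I * k.1 * c k) := by
  intro N
  obtain ⟨C, hC⟩ := hc (N+1)
  refine ⟨2 * Real.pi * C, fun k => ?_⟩
  have e : ‖2 * Real.pi * Complex.I * k.1 * c k‖ = 2 * Real.pi * |(k.1:ℝ)| * ‖c k‖ := by
    rw [norm_mul, norm_mul, norm_mul, norm_mul, Complex.norm_I, Complex.norm_real,
      Real.norm_eq_abs, abs_of_pos Real.pi_pos, Complex.norm_intCast]
    simp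
  rw [e]
  have h1 := hC k
  rw [pow_succ] at h1
  have h2 : |(k.1:ℝ)| ≤ 1 + |(k.1 : ℝ)| + |(k.2 : ℝ)| := by linarith [abs_nonneg (k.2:ℝ)]
  calc (1 + |(k.1 : ℝ)| + |(k.2 : ℝ)|) ^ N * (2 * Real.pi * |(k.1:ℝ)| * ‖c k‖)
      ≤ (1 + |(k.1 : ℝ)| + |(k.2 : ℝ)|) ^ N * (2 * Real.pi * (1 + |(k.1 : ℝ)| + |(k.2 : ℝ)|) * ‖c k‖) := by gcongr
    _ = 2 * Real.pi * ((1 + |(k.1 : ℝ)| + |(k.2 : ℝ)|) ^ N * (1 + |(k.1 : ℝ)| + |(k.2 : ℝ)|) * ‖c k‖) := by ring
    _ ≤ _ := by gcongr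

theorem rap_mul2 (c : ℤ × ℤ → ℂ) (hc : Rap c) :
    Rap (fun k => 2 * Real.pi * Complex.I * k.2 * c k) := by
  intro N
  obtain ⟨C, hC⟩ := hc (N+1)
  refine ⟨2 * Real.pi * C, fun k => ?_⟩
  have e : ‖2 * Real.pi * Complex.I * k.2 * c k‖ = 2 * Real.pi * |(k.2:ℝ)| * ‖c k‖ := by
    rw [norm_mul, norm_mul, norm_mul, norm_mul, Complex.norm_I, Complex.norm_real,
      Real.norm_eq_abs, abs_of_pos Real.pi_pos, Complex.norm_intCast]
    simp
  rw [e]
  have h1 := hC k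
  rw [pow_succ] at h1
  have h2 : |(k.2:ℝ)| ≤ 1 + |(k.1 : ℝ)| + |(k.2 : ℝ)| := by linarith [abs_nonneg (k.1:ℝ)]
  calc (1 + |(k.1 : ℝ)| + |(k.2 : ℝ)|) ^ N * (2 * Real.pi * |(k.2:ℝ)| * ‖c k‖)
      ≤ (1 + |(k.1 : ℝ)| + |(k.2 : ℝ)|) ^ N * (2 * Real.pi * (1 + |(k.1 : ℝ)| + |(k.2 : ℝ)|) * ‖c k‖) := by gcongr
    _ = 2 * Real.pi * ((1 + |(k.1 : ℝ)| + |(k.2 : ℝ)|) ^ N * (1 + |(k.1 : ℝ)| + |(k.2 : ℝ)|) * ‖c k‖) := by ring
    _ ≤ _ := by gcongr

theorem sum_norm (c : ℤ × ℤ → ℂ) (hc : Rap c) : Summable (fun k => ‖c k‖) := by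
  have := rap_summable c hc 0
  simpa using this

theorem sum_ee (c : ℤ × ℤ → ℂ) (hc : Rap c) (p : ℝ × ℝ) : Summable (fun k => c k * ee k p) := by
  apply Summable.of_norm
  have := sum_norm c hc
  simpa [norm_mul, norm_ee] using this

theorem synth_deriv (c : ℤ × ℤ → ℂ) (hc : Rap c) (p : ℝ × ℝ) :
    HasFDerivAt (synth c) (synth (fun k => 2 * Real.pi * Complex.I * k.1 * c k) p • c1L
      + synth (fun k => 2 * Real.pi * Complex.I * k.2 * c k) p • c2L) p := by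
  have hu := (rap_summable c hc 1).mul_left (2 * Real.pi)
  have h := hasFDerivAt_tsum (f := fun k y => c k * ee k y) (f' := fun k x => c k • (ee k x • eL k))
    hu (fun k x => (hasFDerivAt_ee k x).const_mul (c k)) ?_ (sum_ee c hc p) p
  · have e : (∑' k, c k • (ee k p • eL k)) = synth (fun k => 2 * Real.pi * Complex.I * k.1 * c k) p • c1L
      + synth (fun k => 2 * Real.pi * Complex.I * k.2 * c k) p • c2L := by
      have s1 := sum_ee _ (rap_mul1 c hc) p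
      have s2 := sum_ee _ (rap_mul2 c hc) p
      have h1 : (∑' k, ((2 * Real.pi * Complex.I * k.1 * c k * ee k p : ℂ)) • c1L)
          = (∑' k, (2 * Real.pi * Complex.I * k.1 * c k * ee k p : ℂ)) • c1L := s1.tsum_smul_const c1L
      have h2 : (∑' k, ((2 * Real.pi * Complex.I * k.2 * c k * ee k p : ℂ)) • c2L)
          = (∑' k, (2 * Real.pi * Complex.I * k.2 * c k * ee k p : ℂ)) • c2L := s2.tsum_smul_const c2L
      have s3 : Summable (fun k => ((2 * Real.pi * Complex.I * k.1 * c k * ee k p : ℂ)) • c1L) := s1.smul_const c1L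
      have s4 : Summable (fun k => ((2 * Real.pi * Complex.I * k.2 * c k * ee k p : ℂ)) • c2L) := s2.smul_const c2L
      show _ = (∑' k, (2 * Real.pi * Complex.I * k.1 * c k * ee k p : ℂ)) • c1L
        + (∑' k, (2 * Real.pi * Complex.I * k.2 * c k * ee k p : ℂ)) • c2L
      rw [← h1, ← h2, ← s3.tsum_add s4]
      apply tsum_congr
      intro k
      have e3 : ∀ v, (c k • (ee k p • eL k)) v = ((2 * Real.pi * Complex.I * k.1 * c k * ee k p : ℂ) • c1L
          + (2 * Real.pi * Complex.I * k.2 * c k * ee k p : ℂ) • c2L) v := by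
        intro v
        show c k * (ee k p * eL k v) = (2 * Real.pi * Complex.I * k.1 * c k * ee k p : ℂ) * c1L v
          + (2 * Real.pi * Complex.I * k.2 * c k * ee k p : ℂ) * c2L v
        rw [eL_apply, c1L_apply, c2L_apply]; ring
      exact ContinuousLinearMap.ext e3
    rw [← e]
    exact h
  · intro k x
    rw [norm_smul, norm_smul, norm_ee, one_mul, pow_one]
    calc ‖c k‖ * ‖eL k‖ ≤ ‖c k‖ * (2 * Real.pi * (|(k.1:ℝ)| + |(k.2:ℝ)|)) := by
          gcongr; exact norm_eL k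
      _ ≤ ‖c k‖ * (2 * Real.pi * (1 + |(k.1:ℝ)| + |(k.2:ℝ)|)) := by
          gcongr; linarith
      _ = _ := by ring

theorem synth_cd (n : ℕ) : ∀ c : ℤ × ℤ → ℂ, Rap c → ContDiff ℝ n (synth c) := by
  induction n with
  | zero =>
    intro c hc
    rw [Nat.cast_zero, contDiff_zero]
    exact continuous_iff_continuousAt.mpr fun p => (synth_deriv c hc p).continuousAt
  | succ n ih =>
    intro c hc
    rw [Nat.cast_succ, contDiff_succ_iff_fderiv]
    refine ⟨fun p => (synth_deriv c hc p).differentiableAt, fun h => by simp at h, ?_⟩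
    have e : fderiv ℝ (synth c) = fun p => synth (fun k => 2 * Real.pi * Complex.I * k.1 * c k) p • c1L
      + synth (fun k => 2 * Real.pi * Complex.I * k.2 * c k) p • c2L := by
      funext p; exact (synth_deriv c hc p).fderiv
    rw [e]
    exact ((ih _ (rap_mul1 c hc)).smul contDiff_const).add ((ih _ (rap_mul2 c hc)).smul contDiff_const)

theorem synth_smooth (c : ℤ × ℤ → ℂ) (hc : Rap c) :
    ContDiff ℝ ∞ (synth c) ∧ Per (synth c) ∧
    (∀ p, dX (synth c) p = synth (fun k => 2 * Real.pi * Complex.I * k.1 * c k) p) ∧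
    (∀ p, dY (synth c) p = synth (fun k => 2 * Real.pi * Complex.I * k.2 * c k) p) := by
  refine ⟨contDiff_infty.mpr fun n => synth_cd n c hc, ⟨?_, ?_⟩, ?_, ?_⟩
  · intro x y
    unfold synth
    apply tsum_congr
    intro k
    congr 1
    unfold ee
    rw [Complex.exp_eq_exp_iff_exists_int]
    exact ⟨k.1, by push_cast; ring⟩
  · intro x y
    unfold synth
    apply tsum_congr
    intro k
    congr 1
    unfold ee
    rw [Complex.exp_eq_exp_iff_exists_int]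
    exact ⟨k.2, by push_cast; ring⟩
  · intro p
    unfold dX
    rw [(synth_deriv c hc p).fderiv]
    simp [c1L_apply, c2L_apply]
  · intro p
    unfold dY
    rw [(synth_deriv c hc p).fderiv]
    simp [c1L_apply, c2L_apply]

end KleinEmb
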