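import Pool.Agent.Helper719.Emb.Defs
import Pool.Agent.Helper719.Emb.P_fou
import Pool.Agent.Helper719.Emb.P_fc_deriv
import Pool.Agent.Helper719.Emb.P_fc_rap
import Pool.Agent.Helper719.Emb.P_rap_summable
import Pool.Agent.Helper719.Emb.P_synth_smooth
import Pool.Agent.Helper719.Emb.P_fc_uniq
import Pool.Agent.Helper719.Emb.P_fc_mul_synth
import Pool.Agent.Helper719.Emb.P_l2
import Pool.Agent.Helper719.Emb.P_jaffard
import Pool.Agent.Helper719.Emb.P_pdeM
import Pool.Agent.Helper719.Emb.P_pde_coercive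
import Pool.Agent.Helper719.Emb.P_pde_offdiag

open scoped ContDiff Topology ENNReal
open Set MeasureTheory Filter

noncomputable section

namespace KleinEmb



theorem pde_ee_cont (k : ℤ × ℤ) : Continuous (ee k) := by
  unfold ee
  fun_prop

theorem pde_inner_cont (f : ℝ × ℝ → ℂ) (hf : Continuous f) (k : ℤ × ℤ) :
    Continuous (fun x : ℝ => ∫ y in (0 : ℝ)..1, f (x, y) * ee k (x, y)) := by
  have h := pde_ee_cont k
  apply intervalIntegral.continuous_parametric_intervalIntegral_of_continuous' (f := fun x y => f (x, y) * ee k (x, y))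
  have : Continuous (fun p : ℝ × ℝ => f p * ee k p) := hf.mul h
  exact this

theorem pde_fc_add (f g : ℝ × ℝ → ℂ) (hf : Continuous f) (hg : Continuous g) (k : ℤ × ℤ) :
    fc (fun p => f p + g p) k = fc f k + fc g k := by
  have h := pde_ee_cont (-k)
  unfold fc
  rw [← intervalIntegral.integral_add ((pde_inner_cont f hf (-k)).intervalIntegrable _ _)
    ((pde_inner_cont g hg (-k)).intervalIntegrable _ _)]
  apply intervalIntegral.integral_congr
  intro x _
  simp only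
  rw [← intervalIntegral.integral_add]
  · apply intervalIntegral.integral_congr
    intro y _
    simp only
    ring
  · exact Continuous.intervalIntegrable (by fun_prop) _ _
  · exact Continuous.intervalIntegrable (by fun_prop) _ _

theorem pde_fc_sub (f g : ℝ × ℝ → ℂ) (hf : Continuous f) (hg : Continuous g) (k : ℤ × ℤ) :
    fc (fun p => f p - g p) k = fc f k - fc g k := by
  have h1 := pde_fc_add (fun p => f p - g p) g (hf.sub hg) hg k
  simp only [sub_add_cancel] at h1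
  have : fc f k = fc (fun p => f p) k := rfl
  rw [this, h1]
  ring

theorem pde_rap_le (c c' : ℤ × ℤ → ℂ) (hc : Rap c) (h : ∀ k, ‖c' k‖ ≤ ‖c k‖) : Rap c' := by
  intro N
  obtain ⟨C, hC⟩ := hc N
  refine ⟨C, fun k => le_trans ?_ (hC k)⟩
  exact mul_le_mul_of_nonneg_left (h k) (by positivity)

theorem pde_rap_add (c c' : ℤ × ℤ → ℂ) (hc : Rap c) (hc' : Rap c') : Rap (fun k => c k + c' k) := by
  intro N
  obtain ⟨C, hC⟩ := hc N
  obtain ⟨C', hC'⟩ := hc' N
  refine ⟨C + C', fun k => le_trans ?_ (add_le_add (hC k) (hC' k))⟩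
  rw [← mul_add]
  exact mul_le_mul_of_nonneg_left (norm_add_le _ _) (by positivity)

theorem pde_uv_le (k : ℤ × ℤ) : |(uv k).1| ≤ 1 ∧ |(uv k).2| ≤ 1 := by
  unfold uv
  simp only
  have h0 : 0 ≤ √((k.1 : ℝ) ^ 2 + (k.2 : ℝ) ^ 2) := Real.sqrt_nonneg _
  have h1 : |(k.1 : ℝ)| ≤ √((k.1 : ℝ) ^ 2 + (k.2 : ℝ) ^ 2) :=
    Real.abs_le_sqrt (by nlinarith [sq_nonneg (k.2 : ℝ)])
  have h2 : |(k.2 : ℝ)| ≤ √((k.1 : ℝ) ^ 2 + (k.2 : ℝ) ^ 2) :=
    Real.abs_le_sqrt (by nlinarith [sq_nonneg (k.1 : ℝ)])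
  constructor
  · rw [abs_div, abs_of_nonneg h0]
    exact div_le_one_of_le₀ h1 h0
  · rw [abs_div, abs_of_nonneg h0]
    exact div_le_one_of_le₀ h2 h0

theorem pde_sqrt_ge (k : ℤ × ℤ) (hk : k ≠ 0) : 1 ≤ √((k.1 : ℝ) ^ 2 + (k.2 : ℝ) ^ 2) := by
  rw [Real.one_le_sqrt]
  have h : (1 : ℤ) ≤ k.1 ^ 2 + k.2 ^ 2 := by
    by_contra hcon
    push Not at hcon
    have h1 : k.1 ^ 2 + k.2 ^ 2 ≤ 0 := by omega
    have h2 : k.1 = 0 := by nlinarith [sq_nonneg k.1, sq_nonneg k.2]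
    have h3 : k.2 = 0 := by nlinarith [sq_nonneg k.1, sq_nonneg k.2]
    exact hk (Prod.ext h2 h3)
  exact_mod_cast h

theorem pde_per_dX {V : Type} [NormedAddCommGroup V] [NormedSpace ℝ V] (f : ℝ × ℝ → V) (hp : Per f) :
    Per (dX f) := by
  have h1 : (fun p : ℝ × ℝ => f (p + (1, 0))) = f := by
    funext p
    have := hp.1 p.1 p.2
    simpa [Prod.add_def] using this
  have h2 : (fun p : ℝ × ℝ => f (p + (0, 1))) = f := by
    funext p
    have := hp.2 p.1 p.2
    simpa [Prod.add_def] using this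
  constructor
  · intro x y
    unfold dX
    have := fderiv_comp_add_right (𝕜 := ℝ) (f := f) (x := (x, y)) ((1, 0) : ℝ × ℝ)
    rw [h1] at this
    rw [this]
    simp
  · intro x y
    unfold dX
    have := fderiv_comp_add_right (𝕜 := ℝ) (f := f) (x := (x, y)) ((0, 1) : ℝ × ℝ)
    rw [h2] at this
    rw [this]
    simp

theorem pde_per_dY {V : Type} [NormedAddCommGroup V] [NormedSpace ℝ V] (f : ℝ × ℝ → V) (hp : Per f) :
    Per (dY f) := by
  have h1 : (fun p : ℝ × ℝ => f (p + (1, 0))) = f := by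
    funext p
    have := hp.1 p.1 p.2
    simpa [Prod.add_def] using this
  have h2 : (fun p : ℝ × ℝ => f (p + (0, 1))) = f := by
    funext p
    have := hp.2 p.1 p.2
    simpa [Prod.add_def] using this
  constructor
  · intro x y
    unfold dY
    have := fderiv_comp_add_right (𝕜 := ℝ) (f := f) (x := (x, y)) ((1, 0) : ℝ × ℝ)
    rw [h1] at this
    rw [this]
    simp
  · intro x y
    unfold dY
    have := fderiv_comp_add_right (𝕜 := ℝ) (f := f) (x := (x, y)) ((0, 1) : ℝ × ℝ)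
    rw [h2] at this
    rw [this]
    simp

theorem pde_smooth_dX {V : Type} [NormedAddCommGroup V] [NormedSpace ℝ V] (f : ℝ × ℝ → V)
    (hf : ContDiff ℝ ∞ f) : ContDiff ℝ ∞ (dX f) := by
  have h : ContDiff ℝ ∞ (fderiv ℝ f) := hf.fderiv_right (by simp)
  exact h.clm_apply contDiff_const

theorem pde_smooth_dY {V : Type} [NormedAddCommGroup V] [NormedSpace ℝ V] (f : ℝ × ℝ → V)
    (hf : ContDiff ℝ ∞ f) : ContDiff ℝ ∞ (dY f) := by
  have h : ContDiff ℝ ∞ (fderiv ℝ f) := hf.fderiv_right (by simp)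
  exact h.clm_apply contDiff_const

theorem pde_re_dX (F : ℝ × ℝ → ℂ) (p : ℝ × ℝ) (hF : DifferentiableAt ℝ F p) :
    dX (fun q => (F q).re) p = (dX F p).re := by
  unfold dX
  have h := (Complex.reCLM.hasFDerivAt (x := F p)).comp p hF.hasFDerivAt
  have h2 : HasFDerivAt (fun q => (F q).re) (Complex.reCLM.comp (fderiv ℝ F p)) p := h
  rw [h2.fderiv]
  rfl

theorem pde_re_dY (F : ℝ × ℝ → ℂ) (p : ℝ × ℝ) (hF : DifferentiableAt ℝ F p) :
    dY (fun q => (F q).re) p = (dY F p).re := by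
  unfold dY
  have h := (Complex.reCLM.hasFDerivAt (x := F p)).comp p hF.hasFDerivAt
  have h2 : HasFDerivAt (fun q => (F q).re) (Complex.reCLM.comp (fderiv ℝ F p)) p := h
  rw [h2.fderiv]
  rfl

theorem pde_dX_sub (F G : ℝ × ℝ → ℂ) (p : ℝ × ℝ) (hF : DifferentiableAt ℝ F p)
    (hG : DifferentiableAt ℝ G p) : dX (fun q => F q - G q) p = dX F p - dX G p := by
  unfold dX
  rw [show (fun q => F q - G q) = F - G from rfl, fderiv_sub hF hG]
  rfl

theorem pde_dY_sub (F G : ℝ × ℝ → ℂ) (p : ℝ × ℝ) (hF : DifferentiableAt ℝ F p)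
    (hG : DifferentiableAt ℝ G p) : dY (fun q => F q - G q) p = dY F p - dY G p := by
  unfold dY
  rw [show (fun q => F q - G q) = F - G from rfl, fderiv_sub hF hG]
  rfl

theorem pde_ofReal_smooth (a : ℝ × ℝ → ℝ) (ha : ContDiff ℝ ∞ a) :
    ContDiff ℝ ∞ (fun p => (a p : ℂ)) := Complex.ofRealCLM.contDiff.comp ha

theorem pde_ofReal_per (a : ℝ × ℝ → ℝ) (ha : Per a) : Per (fun p => (a p : ℂ)) :=
  ⟨fun x y => by simp only [ha.1], fun x y => by simp only [ha.2]⟩

/-- boundedness of Fourier coefficients -/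
theorem pde_fc_bdd (a : ℝ × ℝ → ℝ) (ha : ContDiff ℝ ∞ a) (hpa : Per a) :
    ∃ C : ℝ, ∀ k, ‖fc (fun p => (a p : ℂ)) k‖ ≤ C := by
  obtain ⟨C, hC⟩ := fc_rap _ (pde_ofReal_smooth a ha) (pde_ofReal_per a hpa) 0
  exact ⟨C, fun k => by simpa using hC k⟩

theorem pde_summ (a : ℝ × ℝ → ℝ) (ha : ContDiff ℝ ∞ a) (hpa : Per a) (c : ℤ × ℤ → ℂ) (hc : Rap c)
    (k : ℤ × ℤ) : Summable (fun l => fc (fun p => (a p : ℂ)) (k - l) * c l) := by
  obtain ⟨C, hC⟩ := pde_fc_bdd a ha hpa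
  have h1 : Summable (fun l => ‖c l‖) := by simpa using rap_summable c hc 0
  refine Summable.of_norm_bounded (h1.mul_left C) fun l => ?_
  rw [norm_mul]
  exact mul_le_mul_of_nonneg_right (hC _) (norm_nonneg _)

/-- solvability of `div (A ∇u) = div H` on the torus -/
theorem pde (a b d H₁ H₂ : ℝ × ℝ → ℝ) (ha : ContDiff ℝ ∞ a) (hb : ContDiff ℝ ∞ b)
    (hd : ContDiff ℝ ∞ d) (hH₁ : ContDiff ℝ ∞ H₁) (hH₂ : ContDiff ℝ ∞ H₂)
    (hpa : Per a) (hpb : Per b) (hpd : Per d) (hpH₁ : Per H₁) (hpH₂ : Per H₂)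
    (hpos : ∀ p, 0 < a p) (hdet : ∀ p, 0 < a p * d p - b p ^ 2) :
    ∃ u : ℝ × ℝ → ℝ, ContDiff ℝ ∞ u ∧ Per u ∧ ∀ p,
      dX (fun q => a q * dX u q + b q * dY u q) p + dY (fun q => b q * dX u q + d q * dY u q) p =
        dX H₁ p + dY H₂ p := by
  obtain ⟨m, hm, hco⟩ := pde_coercive a b d ha.continuous hb.continuous hd.continuous hpa hpb hpd hpos hdet
  have hoff := pde_offdiag a b d ha hb hd hpa hpb hpd
  have hρ : Rap (fun k => ((uv k).1 : ℂ) * fc (fun p => (H₁ p : ℂ)) k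
      + ((uv k).2 : ℂ) * fc (fun p => (H₂ p : ℂ)) k) := by
    apply pde_rap_add
    · refine pde_rap_le _ _ (fc_rap _ (pde_ofReal_smooth H₁ hH₁) (pde_ofReal_per H₁ hpH₁)) fun k => ?_
      rw [norm_mul, Complex.norm_real, Real.norm_eq_abs]
      exact mul_le_of_le_one_left (norm_nonneg _) (pde_uv_le k).1
    · refine pde_rap_le _ _ (fc_rap _ (pde_ofReal_smooth H₂ hH₂) (pde_ofReal_per H₂ hpH₂)) fun k => ?_
      rw [norm_mul, Complex.norm_real, Real.norm_eq_abs]
      exact mul_le_of_le_one_left (norm_nonneg _) (pde_uv_le k).2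
  obtain ⟨c, hc, hceq⟩ := jaffard (pdeM a b d) hoff m hm hco _ hρ
  -- the two coefficient sequences of the gradient
  have hc1 : Rap (fun k => ((uv k).1 : ℂ) * c k) := pde_rap_le _ _ hc fun k => by
    rw [norm_mul, Complex.norm_real, Real.norm_eq_abs]
    exact mul_le_of_le_one_left (norm_nonneg _) (pde_uv_le k).1
  have hc2 : Rap (fun k => ((uv k).2 : ℂ) * c k) := pde_rap_le _ _ hc fun k => by
    rw [norm_mul, Complex.norm_real, Real.norm_eq_abs]
    exact mul_le_of_le_one_left (norm_nonneg _) (pde_uv_le k).2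
  obtain ⟨w, hw⟩ : ∃ w : ℤ × ℤ → ℂ, w = fun k =>
    c k / (2 * Real.pi * Complex.I * ((√((k.1 : ℝ) ^ 2 + (k.2 : ℝ) ^ 2) : ℝ) : ℂ)) := ⟨_, rfl⟩
  have h2pi : (2 * Real.pi * Complex.I : ℂ) ≠ 0 := by
    simp [Real.pi_ne_zero]
  have hnorm2pi : (1 : ℝ) ≤ ‖(2 * Real.pi * Complex.I : ℂ)‖ := by
    simp only [norm_mul, Complex.norm_I, mul_one, Complex.norm_ofNat, Complex.norm_real,
      Real.norm_eq_abs, abs_of_pos Real.pi_pos]
    nlinarith [Real.pi_gt_three]
  have hwR : Rap w := by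
    refine pde_rap_le _ _ hc fun k => ?_
    rw [hw]
    simp only
    by_cases hk : k = 0
    · subst hk
      simp
    · have h1 := pde_sqrt_ge k hk
      rw [norm_div, norm_mul]
      refine div_le_self (norm_nonneg _) ?_
      rw [Complex.norm_real, Real.norm_eq_abs, abs_of_nonneg (Real.sqrt_nonneg _)]
      nlinarith
  obtain ⟨hUs, hUp, hUX, hUY⟩ := synth_smooth w hwR
  have hk0 : ∀ k : ℤ × ℤ, k ≠ 0 → ((√((k.1 : ℝ) ^ 2 + (k.2 : ℝ) ^ 2) : ℝ) : ℂ) ≠ 0 := by
    intro k hk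
    have h1 := pde_sqrt_ge k hk
    have : √((k.1 : ℝ) ^ 2 + (k.2 : ℝ) ^ 2) ≠ 0 := by linarith
    exact_mod_cast this
  have hX : dX (synth w) = synth (fun k => ((uv k).1 : ℂ) * c k) := by
    funext p
    rw [hUX p]
    congr 1
    funext k
    rw [hw]
    simp only
    by_cases hk : k = 0
    · subst hk
      simp [uv]
    · have := hk0 k hk
      unfold uv
      simp only
      rw [Complex.ofReal_div]
      field_simp
      simp [mul_comm]
  have hY : dY (synth w) = synth (fun k => ((uv k).2 : ℂ) * c k) := by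
    funext p
    rw [hUY p]
    congr 1
    funext k
    rw [hw]
    simp only
    by_cases hk : k = 0
    · subst hk
      simp [uv]
    · have := hk0 k hk
      unfold uv
      simp only
      rw [Complex.ofReal_div]
      field_simp
      simp [mul_comm]
  have hXs := pde_smooth_dX _ hUs
  have hYs := pde_smooth_dY _ hUs
  have hXp := pde_per_dX _ hUp
  have hYp := pde_per_dY _ hUp
  have sa := pde_ofReal_smooth a ha
  have sb := pde_ofReal_smooth b hb
  have sd := pde_ofReal_smooth d hd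
  have sH1 := pde_ofReal_smooth H₁ hH₁
  have sH2 := pde_ofReal_smooth H₂ hH₂
  obtain ⟨V1, hV1⟩ : ∃ V : ℝ × ℝ → ℂ, V = fun p => (a p : ℂ) * dX (synth w) p + (b p : ℂ) * dY (synth w) p :=
    ⟨_, rfl⟩
  obtain ⟨V2, hV2⟩ : ∃ V : ℝ × ℝ → ℂ, V = fun p => (b p : ℂ) * dX (synth w) p + (d p : ℂ) * dY (synth w) p :=
    ⟨_, rfl⟩
  have sV1 : ContDiff ℝ ∞ V1 := by rw [hV1]; exact (sa.mul hXs).add (sb.mul hYs)
  have sV2 : ContDiff ℝ ∞ V2 := by rw [hV2]; exact (sb.mul hXs).add (sd.mul hYs)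
  have pV1 : Per V1 := by
    rw [hV1]
    exact ⟨fun x y => by simp only [hpa.1, hpb.1, hXp.1, hYp.1], fun x y => by simp only [hpa.2, hpb.2, hXp.2, hYp.2]⟩
  have pV2 : Per V2 := by
    rw [hV2]
    exact ⟨fun x y => by simp only [hpd.1, hpb.1, hXp.1, hYp.1], fun x y => by simp only [hpd.2, hpb.2, hXp.2, hYp.2]⟩
  have fV1 : ∀ k, fc V1 k = (∑' l, fc (fun p => (a p : ℂ)) (k - l) * (((uv l).1 : ℂ) * c l)) +
      ∑' l, fc (fun p => (b p : ℂ)) (k - l) * (((uv l).2 : ℂ) * c l) := by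
    intro k
    rw [hV1, pde_fc_add _ _ (sa.mul hXs).continuous (sb.mul hYs).continuous, hX, hY,
      fc_mul_synth _ sa.continuous _ hc1, fc_mul_synth _ sb.continuous _ hc2]
  have fV2 : ∀ k, fc V2 k = (∑' l, fc (fun p => (b p : ℂ)) (k - l) * (((uv l).1 : ℂ) * c l)) +
      ∑' l, fc (fun p => (d p : ℂ)) (k - l) * (((uv l).2 : ℂ) * c l) := by
    intro k
    rw [hV2, pde_fc_add _ _ (sb.mul hXs).continuous (sd.mul hYs).continuous, hX, hY,
      fc_mul_synth _ sb.continuous _ hc1, fc_mul_synth _ sd.continuous _ hc2]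
  have key : ∀ k : ℤ × ℤ, k ≠ 0 → ((uv k).1 : ℂ) * fc V1 k + ((uv k).2 : ℂ) * fc V2 k =
      ((uv k).1 : ℂ) * fc (fun p => (H₁ p : ℂ)) k + ((uv k).2 : ℂ) * fc (fun p => (H₂ p : ℂ)) k := by
    intro k hk
    have h := hceq k
    rw [← h, fV1, fV2]
    have s1 := pde_summ a ha hpa _ hc1 k
    have s2 := pde_summ b hb hpb _ hc2 k
    have s3 := pde_summ b hb hpb _ hc1 k
    have s4 := pde_summ d hd hpd _ hc2 k
    rw [← s1.tsum_add s2, ← s3.tsum_add s4, ← tsum_mul_left, ← tsum_mul_left,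
      ← ((s1.add s2).mul_left _).tsum_add ((s3.add s4).mul_left _)]
    apply tsum_congr
    intro l
    unfold pdeM
    rw [if_neg (fun hh => hk hh.1)]
    ring
  have hfcZ : ∀ k, fc (fun p => dX (fun q => V1 q - (H₁ q : ℂ)) p + dY (fun q => V2 q - (H₂ q : ℂ)) p) k = 0 := by
    intro k
    have sW1 : ContDiff ℝ ∞ (fun q => V1 q - (H₁ q : ℂ)) := sV1.sub sH1
    have sW2 : ContDiff ℝ ∞ (fun q => V2 q - (H₂ q : ℂ)) := sV2.sub sH2
    have pW1 : Per (fun q => V1 q - (H₁ q : ℂ)) :=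
      ⟨fun x y => by simp only [pV1.1, hpH₁.1], fun x y => by simp only [pV1.2, hpH₁.2]⟩
    have pW2 : Per (fun q => V2 q - (H₂ q : ℂ)) :=
      ⟨fun x y => by simp only [pV2.1, hpH₂.1], fun x y => by simp only [pV2.2, hpH₂.2]⟩
    rw [pde_fc_add _ _ (pde_smooth_dX _ sW1).continuous (pde_smooth_dY _ sW2).continuous]
    rw [(fc_deriv _ (sW1.of_le (by exact_mod_cast le_top)) pW1 k).1, (fc_deriv _ (sW2.of_le (by exact_mod_cast le_top)) pW2 k).2,
      pde_fc_sub _ _ sV1.continuous sH1.continuous, pde_fc_sub _ _ sV2.continuous sH2.continuous]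
    by_cases hk : k = 0
    · subst hk
      simp
    · have h1 := key k hk
      have h2 := hk0 k hk
      unfold uv at h1
      simp only [Complex.ofReal_div] at h1
      have h3 : ((k.1 : ℝ) : ℂ) * fc V1 k + ((k.2 : ℝ) : ℂ) * fc V2 k =
          ((k.1 : ℝ) : ℂ) * fc (fun p => (H₁ p : ℂ)) k + ((k.2 : ℝ) : ℂ) * fc (fun p => (H₂ p : ℂ)) k := by
        field_simp at h1
        exact h1
      simp only [Complex.ofReal_intCast] at h3
      linear_combination (2 * Real.pi * Complex.I) * h3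
  have hZc : Continuous (fun p => dX (fun q => V1 q - (H₁ q : ℂ)) p + dY (fun q => V2 q - (H₂ q : ℂ)) p) :=
    (pde_smooth_dX _ (sV1.sub sH1)).continuous.add (pde_smooth_dY _ (sV2.sub sH2)).continuous
  have pW1 : Per (fun q => V1 q - (H₁ q : ℂ)) :=
    ⟨fun x y => by simp only [pV1.1, hpH₁.1], fun x y => by simp only [pV1.2, hpH₁.2]⟩
  have pW2 : Per (fun q => V2 q - (H₂ q : ℂ)) :=
    ⟨fun x y => by simp only [pV2.1, hpH₂.1], fun x y => by simp only [pV2.2, hpH₂.2]⟩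
  have pZ : Per (fun p => dX (fun q => V1 q - (H₁ q : ℂ)) p + dY (fun q => V2 q - (H₂ q : ℂ)) p) := by
    have h1 := pde_per_dX _ pW1
    have h2 := pde_per_dY _ pW2
    exact ⟨fun x y => by simp only [h1.1, h2.1], fun x y => by simp only [h1.2, h2.2]⟩
  have hZ := fc_uniq _ hZc pZ hfcZ
  have hUd : ∀ p, DifferentiableAt ℝ (synth w) p := fun p => hUs.differentiable (by simp) p
  have hd1 : ∀ p, DifferentiableAt ℝ V1 p := fun p => sV1.differentiable (by simp) p
  have hd2 : ∀ p, DifferentiableAt ℝ V2 p := fun p => sV2.differentiable (by simp) p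
  have hdH1 : ∀ p, DifferentiableAt ℝ (fun q => (H₁ q : ℂ)) p := fun p => sH1.differentiable (by simp) p
  have hdH2 : ∀ p, DifferentiableAt ℝ (fun q => (H₂ q : ℂ)) p := fun p => sH2.differentiable (by simp) p
  refine ⟨fun p => (synth w p).re, Complex.reCLM.contDiff.comp hUs,
    ⟨fun x y => by simp only [hUp.1], fun x y => by simp only [hUp.2]⟩, fun p => ?_⟩
  have e1 : (fun q => a q * dX (fun p => (synth w p).re) q + b q * dY (fun p => (synth w p).re) q) =
      fun q => (V1 q).re := by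
    funext q
    rw [pde_re_dX _ _ (hUd q), pde_re_dY _ _ (hUd q), hV1]
    simp
  have e2 : (fun q => b q * dX (fun p => (synth w p).re) q + d q * dY (fun p => (synth w p).re) q) =
      fun q => (V2 q).re := by
    funext q
    rw [pde_re_dX _ _ (hUd q), pde_re_dY _ _ (hUd q), hV2]
    simp
  rw [e1, e2, pde_re_dX _ _ (hd1 p), pde_re_dY _ _ (hd2 p)]
  have e3 : dX H₁ p = (dX (fun q => (H₁ q : ℂ)) p).re := by
    rw [← pde_re_dX _ _ (hdH1 p)]
    simp
  have e4 : dY H₂ p = (dY (fun q => (H₂ q : ℂ)) p).re := by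
    rw [← pde_re_dY _ _ (hdH2 p)]
    simp
  rw [e3, e4]
  have h := hZ p
  rw [pde_dX_sub _ _ _ (hd1 p) (hdH1 p), pde_dY_sub _ _ _ (hd2 p) (hdH2 p)] at h
  have h' := congrArg Complex.re h
  simp only [Complex.add_re, Complex.sub_re, Complex.zero_re] at h'
  linarith

end KleinEmb
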