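import Pool.Agent.Helper719.Emb.Defs
import Pool.Agent.Helper719.Emb.P_fou
import Pool.Agent.Helper719.Emb.P_pde
import Pool.Agent.Helper719.Emb.P_W
import Pool.Agent.Helper719.Emb.P_W_smooth
import Pool.Agent.Helper719.Emb.P_om
import Pool.Agent.Helper719.Emb.P_om_props

open scoped ContDiff Topology ENNReal
open Set MeasureTheory Filter

noncomputable section

namespace KleinEmb



theorem exists_u_sm (f : ℝ × ℝ → ℝ) (hf : ContDiff ℝ ∞ f) :
    ContDiff ℝ ∞ (dX f) ∧ ContDiff ℝ ∞ (dY f) :=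
  ⟨(contDiff_infty_iff_fderiv.mp hf).2.clm_apply contDiff_const,
    (contDiff_infty_iff_fderiv.mp hf).2.clm_apply contDiff_const⟩

theorem exists_u_fd (f : ℝ × ℝ → ℝ) (hf : Differentiable ℝ f) (p v : ℝ × ℝ) :
    fderiv ℝ (fun q : ℝ × ℝ => f (q.1 + 1 / 2, -q.2)) p v =
      fderiv ℝ f (p.1 + 1 / 2, -p.2) (v.1, -v.2) := by
  have hσ : HasFDerivAt (fun q : ℝ × ℝ => ((q.1 + 1 / 2, -q.2) : ℝ × ℝ))
      ((ContinuousLinearMap.fst ℝ ℝ ℝ).prod (-(ContinuousLinearMap.snd ℝ ℝ ℝ))) p :=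
    (hasFDerivAt_fst.add_const _).prodMk (hasFDerivAt_snd.neg)
  have h1 := (hf (p.1 + 1 / 2, -p.2)).hasFDerivAt.comp p hσ
  have h2 : (fun q : ℝ × ℝ => f (q.1 + 1 / 2, -q.2)) =
      f ∘ (fun q : ℝ × ℝ => ((q.1 + 1 / 2, -q.2) : ℝ × ℝ)) := rfl
  rw [h2, h1.fderiv]
  rfl

theorem exists_u_dX (f : ℝ × ℝ → ℝ) (hf : Differentiable ℝ f) (p : ℝ × ℝ) :
    dX (fun q : ℝ × ℝ => f (q.1 + 1 / 2, -q.2)) p = dX f (p.1 + 1 / 2, -p.2) := by
  unfold dX
  rw [exists_u_fd f hf]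
  simp only [neg_zero]

theorem exists_u_dY (f : ℝ × ℝ → ℝ) (hf : Differentiable ℝ f) (p : ℝ × ℝ) :
    dY (fun q : ℝ × ℝ => f (q.1 + 1 / 2, -q.2)) p = -dY f (p.1 + 1 / 2, -p.2) := by
  unfold dY
  rw [exists_u_fd f hf]
  have h : (((0 : ℝ), -(1 : ℝ)) : ℝ × ℝ) = -((0 : ℝ), (1 : ℝ)) := by
    ext <;> simp
  simp only
  rw [h, map_neg]

theorem exists_u_half (f g : ℝ × ℝ → ℝ) (hf : Differentiable ℝ f) (hg : Differentiable ℝ g)
    (p : ℝ × ℝ) :
    dX (fun q => (f q + g q) / 2) p = (dX f p + dX g p) / 2 ∧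
    dY (fun q => (f q + g q) / 2) p = (dY f p + dY g p) / 2 := by
  have h1 : HasFDerivAt (fun q => (f q + g q) / 2) ((2 : ℝ)⁻¹ • (fderiv ℝ f p + fderiv ℝ g p)) p := by
    have h2 := ((hf p).hasFDerivAt.add (hg p).hasFDerivAt).const_smul ((2 : ℝ)⁻¹)
    refine h2.congr_of_eventuallyEq (Filter.Eventually.of_forall fun q => ?_)
    change (f q + g q) / 2 = (2 : ℝ)⁻¹ • (f q + g q)
    rw [smul_eq_mul]
    ring
  unfold dX dY
  rw [h1.fderiv]
  constructor
  · change (2 : ℝ)⁻¹ * (fderiv ℝ f p (1, 0) + fderiv ℝ g p (1, 0)) = _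
    ring
  · change (2 : ℝ)⁻¹ * (fderiv ℝ f p (0, 1) + fderiv ℝ g p (0, 1)) = _
    ring

theorem exists_u_neg (f : ℝ × ℝ → ℝ) (p : ℝ × ℝ) :
    dX (fun q => -f q) p = -dX f p ∧ dY (fun q => -f q) p = -dY f p := by
  have h : fderiv ℝ (fun q => -f q) p = -fderiv ℝ f p := fderiv_fun_neg
  unfold dX dY
  rw [h]
  exact ⟨rfl, rfl⟩

/-- the conformal factor -/
theorem exists_u (g : KleinMetric) : ∃ u : ℝ × ℝ → ℝ, ContDiff ℝ ∞ u ∧
    (∀ x y, u (x + 1 / 2, -y) = u (x, y)) ∧ (∀ x y, u (x, y + 1) = u (x, y)) ∧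
    ∀ p, dX (fun q => (g.G q * dX u q - g.F q * dY u q) / g.W q) p +
      dY (fun q => (g.E q * dY u q - g.F q * dX u q) / g.W q) p = dY g.om1 p - dX g.om2 p := by
  obtain ⟨hWs, hWp, hW2, hWg, hWy, hEx, hFx, hGx, hWx⟩ := W_smooth g
  obtain ⟨ho1, ho2, ho1g, ho2g, ho1y, ho2y⟩ := om_props g
  have hW0 : ∀ p, g.W p ≠ 0 := fun p => (hWp p).ne'
  have hGp : ∀ p, 0 < g.G p := by
    intro p
    have h1 := g.det_pos p
    have h2 := g.E_pos p
    by_contra h
    push Not at h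
    nlinarith [mul_nonneg h2.le (neg_nonneg.mpr h), sq_nonneg (g.F p)]
  set a : ℝ × ℝ → ℝ := fun q => g.G q / g.W q with ha
  set b : ℝ × ℝ → ℝ := fun q => -g.F q / g.W q with hb
  set d : ℝ × ℝ → ℝ := fun q => g.E q / g.W q with hd
  have has : ContDiff ℝ ∞ a := g.smooth_G.div hWs hW0
  have hbs : ContDiff ℝ ∞ b := g.smooth_F.neg.div hWs hW0
  have hds : ContDiff ℝ ∞ d := g.smooth_E.div hWs hW0
  have hpa : Per a := ⟨fun x y => by simp only [ha]; rw [hGx, hWx],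
    fun x y => by simp only [ha]; rw [g.G_shift, hWy]⟩
  have hpb : Per b := ⟨fun x y => by simp only [hb]; rw [hFx, hWx],
    fun x y => by simp only [hb]; rw [g.F_shift, hWy]⟩
  have hpd : Per d := ⟨fun x y => by simp only [hd]; rw [hEx, hWx],
    fun x y => by simp only [hd]; rw [g.E_shift, hWy]⟩
  have hag : ∀ q : ℝ × ℝ, a (q.1 + 1 / 2, -q.2) = a q := by
    intro q
    simp only [ha]
    rw [g.G_glide, hWg]
  have hbg : ∀ q : ℝ × ℝ, b (q.1 + 1 / 2, -q.2) = -b q := by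
    intro q
    simp only [hb]
    rw [g.F_glide, hWg]
    ring
  have hdg : ∀ q : ℝ × ℝ, d (q.1 + 1 / 2, -q.2) = d q := by
    intro q
    simp only [hd]
    rw [g.E_glide, hWg]
  have ho1x : ∀ x y, g.om1 (x + 1, y) = g.om1 (x, y) := by
    intro x y
    have h1 := ho1g (x + 1 / 2) (-y)
    have h2 := ho1g x y
    rw [neg_neg, add_assoc, show (1 : ℝ) / 2 + 1 / 2 = 1 by norm_num] at h1
    rw [h1, h2, neg_neg]
  have ho2x : ∀ x y, g.om2 (x + 1, y) = g.om2 (x, y) := by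
    intro x y
    have h1 := ho2g (x + 1 / 2) (-y)
    have h2 := ho2g x y
    rw [neg_neg, add_assoc, show (1 : ℝ) / 2 + 1 / 2 = 1 by norm_num] at h1
    rw [h1, h2]
  obtain ⟨u0, hu0, hu0p, hpde⟩ := pde a b d (fun q => -g.om2 q) g.om1 has hbs hds ho2.neg ho1
    hpa hpb hpd ⟨fun x y => congrArg Neg.neg (ho2x x y), fun x y => congrArg Neg.neg (ho2y x y)⟩ ⟨ho1x, ho1y⟩
    (fun p => div_pos (hGp p) (hWp p)) (by
      intro p
      have h1 : a p * d p - b p ^ 2 = (g.E p * g.G p - g.F p ^ 2) / g.W p ^ 2 := by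
        simp only [ha, hb, hd]
        have := hW0 p
        field_simp
      rw [h1]
      exact div_pos (g.det_pos p) (by have := hWp p; positivity))
  obtain ⟨hX0, hY0⟩ := exists_u_sm u0 hu0
  have hu0d : Differentiable ℝ u0 := hu0.differentiable (by simp)
  set u1 : ℝ × ℝ → ℝ := fun q => u0 (q.1 + 1 / 2, -q.2) with hu1
  have hu1s : ContDiff ℝ ∞ u1 :=
    hu0.comp ((contDiff_fst.add contDiff_const).prodMk contDiff_snd.neg)
  obtain ⟨hX1, hY1⟩ := exists_u_sm u1 hu1s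
  have hu1d : Differentiable ℝ u1 := hu1s.differentiable (by simp)
  -- fluxes
  have hf1s : ∀ (v : ℝ × ℝ → ℝ), ContDiff ℝ ∞ v →
      Differentiable ℝ (fun q => a q * dX v q + b q * dY v q) := by
    intro v hv
    obtain ⟨h1, h2⟩ := exists_u_sm v hv
    exact ((has.mul h1).add (hbs.mul h2)).differentiable (by simp)
  have hf2s : ∀ (v : ℝ × ℝ → ℝ), ContDiff ℝ ∞ v →
      Differentiable ℝ (fun q => b q * dX v q + d q * dY v q) := by
    intro v hv
    obtain ⟨h1, h2⟩ := exists_u_sm v hv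
    exact ((hbs.mul h1).add (hds.mul h2)).differentiable (by simp)
  have hfl1 : (fun q => a q * dX u1 q + b q * dY u1 q) =
      fun q : ℝ × ℝ => (fun q' => a q' * dX u0 q' + b q' * dY u0 q') (q.1 + 1 / 2, -q.2) := by
    funext q
    simp only
    rw [hag, hbg, hu1, exists_u_dX u0 hu0d, exists_u_dY u0 hu0d]
    ring
  have hfl2 : (fun q => b q * dX u1 q + d q * dY u1 q) =
      fun q : ℝ × ℝ => -((fun q' : ℝ × ℝ => (fun q'' => b q'' * dX u0 q'' + d q'' * dY u0 q'')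
        (q'.1 + 1 / 2, -q'.2)) q) := by
    funext q
    simp only
    rw [hdg, hbg, hu1, exists_u_dX u0 hu0d, exists_u_dY u0 hu0d]
    ring
  have hP1 : ∀ p, dX (fun q => a q * dX u1 q + b q * dY u1 q) p +
      dY (fun q => b q * dX u1 q + d q * dY u1 q) p = dY g.om1 p - dX g.om2 p := by
    intro p
    rw [hfl1, hfl2, (exists_u_neg _ p).2, exists_u_dX _ (hf1s u0 hu0), exists_u_dY _ (hf2s u0 hu0)]
    rw [neg_neg, hpde, (exists_u_neg _ _).1]
    have e1 : dX g.om2 (p.1 + 1 / 2, -p.2) = dX g.om2 p := by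
      rw [← exists_u_dX g.om2 (ho2.differentiable (by simp))]
      congr 1
      funext q
      exact ho2g q.1 q.2
    have e2 : dY g.om1 (p.1 + 1 / 2, -p.2) = dY g.om1 p := by
      have h1 := exists_u_dY g.om1 (ho1.differentiable (by simp)) p
      have h2 : (fun q : ℝ × ℝ => g.om1 (q.1 + 1 / 2, -q.2)) = fun q => -g.om1 q := by
        funext q
        exact ho1g q.1 q.2
      rw [h2, (exists_u_neg _ p).2] at h1
      linarith
    rw [e1, e2]
    ring
  have hP0 : ∀ p, dX (fun q => a q * dX u0 q + b q * dY u0 q) p +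
      dY (fun q => b q * dX u0 q + d q * dY u0 q) p = dY g.om1 p - dX g.om2 p := by
    intro p
    rw [hpde, (exists_u_neg _ _).1]
    ring
  refine ⟨fun q => (u0 q + u1 q) / 2, ?_, ?_, ?_, ?_⟩
  · exact (hu0.add hu1s).div_const 2
  · intro x y
    simp only [hu1]
    have h1 : u0 (x + 1 / 2 + 1 / 2, - -y) = u0 (x, y) := by
      rw [neg_neg, add_assoc, show (1 : ℝ) / 2 + 1 / 2 = 1 by norm_num]
      exact hu0p.1 x y
    rw [h1, add_comm]
  · intro x y
    simp only [hu1]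
    have h1 : u0 (x + 1 / 2, -(y + 1)) = u0 (x + 1 / 2, -y) := by
      have h2 := hu0p.2 (x + 1 / 2) (-(y + 1))
      rw [← h2]
      congr 2
      ring
    rw [h1, hu0p.2]
  · intro p
    have k1 : (fun q => (g.G q * dX (fun q => (u0 q + u1 q) / 2) q -
        g.F q * dY (fun q => (u0 q + u1 q) / 2) q) / g.W q) =
        fun q => ((fun q => a q * dX u0 q + b q * dY u0 q) q +
          (fun q => a q * dX u1 q + b q * dY u1 q) q) / 2 := by
      funext q
      rw [(exists_u_half u0 u1 hu0d hu1d q).1, (exists_u_half u0 u1 hu0d hu1d q).2]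
      simp only [ha, hb]
      ring
    have k2 : (fun q => (g.E q * dY (fun q => (u0 q + u1 q) / 2) q -
        g.F q * dX (fun q => (u0 q + u1 q) / 2) q) / g.W q) =
        fun q => ((fun q => b q * dX u0 q + d q * dY u0 q) q +
          (fun q => b q * dX u1 q + d q * dY u1 q) q) / 2 := by
      funext q
      rw [(exists_u_half u0 u1 hu0d hu1d q).1, (exists_u_half u0 u1 hu0d hu1d q).2]
      simp only [hd, hb]
      ring
    rw [k1, k2, (exists_u_half _ _ (hf1s u0 hu0) (hf1s u1 hu1s) p).1,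
      (exists_u_half _ _ (hf2s u0 hu0) (hf2s u1 hu1s) p).2]
    have h0 := hP0 p
    have h1 := hP1 p
    linarith

end KleinEmb
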