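import Pool.Agent.Helper719.Emb.Defs
import Pool.Agent.Helper719.Emb.P_fou

open scoped ContDiff Topology ENNReal
open Set MeasureTheory Filter

noncomputable section

namespace KleinEmb



theorem poincare (P Q : ℝ × ℝ → ℝ) (hP : ContDiff ℝ ∞ P) (hQ : ContDiff ℝ ∞ Q)
    (h : ∀ p, dY P p = dX Q p) :
    ∃ Θ : ℝ × ℝ → ℝ, ContDiff ℝ ∞ Θ ∧ (∀ p, dX Θ p = P p) ∧ ∀ p, dY Θ p = Q p := by
  set om : ℝ × ℝ → (ℝ × ℝ →L[ℝ] ℝ) := fun p =>
    P p • ContinuousLinearMap.fst ℝ ℝ ℝ + Q p • ContinuousLinearMap.snd ℝ ℝ ℝ with hom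
  have homs : ContDiff ℝ ∞ om := (hP.smul contDiff_const).add (hQ.smul contDiff_const)
  have homd : Differentiable ℝ om := homs.differentiable (by simp)
  have hPd : Differentiable ℝ P := hP.differentiable (by simp)
  have hQd : Differentiable ℝ Q := hQ.differentiable (by simp)
  have hder : ∀ a x y, fderiv ℝ om a x y = fderiv ℝ P a x * y.1 + fderiv ℝ Q a x * y.2 := by
    intro a x y
    have h1 : HasFDerivAt om
        ((fderiv ℝ P a).smulRight (ContinuousLinearMap.fst ℝ ℝ ℝ) +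
          (fderiv ℝ Q a).smulRight (ContinuousLinearMap.snd ℝ ℝ ℝ)) a := by
      have e1 : HasFDerivAt (fun p => P p • ContinuousLinearMap.fst ℝ ℝ ℝ)
          ((fderiv ℝ P a).smulRight (ContinuousLinearMap.fst ℝ ℝ ℝ)) a := by
        have := (hPd a).hasFDerivAt.smul_const (ContinuousLinearMap.fst ℝ ℝ ℝ)
        exact this
      have e2 : HasFDerivAt (fun p => Q p • ContinuousLinearMap.snd ℝ ℝ ℝ)
          ((fderiv ℝ Q a).smulRight (ContinuousLinearMap.snd ℝ ℝ ℝ)) a := by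
        have := (hQd a).hasFDerivAt.smul_const (ContinuousLinearMap.snd ℝ ℝ ℝ)
        exact this
      exact e1.add e2
    rw [h1.fderiv]
    simp
  have hlin : ∀ (f : ℝ × ℝ → ℝ) (a x : ℝ × ℝ), fderiv ℝ f a x = x.1 * dX f a + x.2 * dY f a := by
    intro f a x
    have hx : x = x.1 • ((1 : ℝ), (0 : ℝ)) + x.2 • ((0 : ℝ), (1 : ℝ)) := by
      ext <;> simp
    conv_lhs => rw [hx]
    rw [map_add, map_smul, map_smul]
    simp [dX, dY]
  obtain ⟨Θ, hΘ⟩ := Convex.exists_forall_hasFDerivAt_of_fderiv_symmetric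
    (s := (Set.univ : Set (ℝ × ℝ))) convex_univ isOpen_univ homd.differentiableOn
    (by
      intro a _ x y
      rw [hder, hder, hlin P a x, hlin P a y, hlin Q a x, hlin Q a y]
      have := h a
      rw [this]
      ring)
  have hΘ' : ∀ a, HasFDerivAt Θ (om a) a := fun a => hΘ a (Set.mem_univ a)
  have hf : fderiv ℝ Θ = om := funext fun a => (hΘ' a).fderiv
  refine ⟨Θ, ?_, ?_, ?_⟩
  · rw [contDiff_infty_iff_fderiv]
    refine ⟨fun a => (hΘ' a).differentiableAt, ?_⟩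
    rw [hf]
    exact homs
  · intro p
    simp [dX, hf, hom]
  · intro p
    simp [dY, hf, hom]

end KleinEmb
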