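import Pool.Agent.Helper719.Emb.Defs
import Pool.Agent.Helper719.Emb.P_fou
import Pool.Agent.Helper719.Emb.P_poincare
import Pool.Agent.Helper719.Emb.P_W
import Pool.Agent.Helper719.Emb.P_W_smooth
import Pool.Agent.Helper719.Emb.P_om
import Pool.Agent.Helper719.Emb.P_om_props
import Pool.Agent.Helper719.Emb.P_exists_u

open scoped ContDiff Topology ENNReal
open Set MeasureTheory Filter

noncomputable section

namespace KleinEmb



theorem et_smooth_dX {u : ℝ × ℝ → ℝ} (hu : ContDiff ℝ ∞ u) : ContDiff ℝ ∞ (fun q => dX u q) :=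
  (hu.fderiv_right (m := ∞) (by simp)).clm_apply contDiff_const

theorem et_smooth_dY {u : ℝ × ℝ → ℝ} (hu : ContDiff ℝ ∞ u) : ContDiff ℝ ∞ (fun q => dY u q) :=
  (hu.fderiv_right (m := ∞) (by simp)).clm_apply contDiff_const

theorem et_glide {f : ℝ × ℝ → ℝ} (hf : Differentiable ℝ f) (x y : ℝ) :
    dX (fun q : ℝ × ℝ => f (q.1 + 1 / 2, -q.2)) (x, y) = dX f (x + 1 / 2, -y) ∧
    dY (fun q : ℝ × ℝ => f (q.1 + 1 / 2, -q.2)) (x, y) = -dY f (x + 1 / 2, -y) := by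
  have h1 : HasFDerivAt (fun q : ℝ × ℝ => (q.1 + 1 / 2, -q.2))
      ((ContinuousLinearMap.fst ℝ ℝ ℝ).prod (-(ContinuousLinearMap.snd ℝ ℝ ℝ))) (x, y) :=
    (hasFDerivAt_fst.add_const _).prodMk hasFDerivAt_snd.neg
  have h2 : HasFDerivAt f (fderiv ℝ f (x + 1 / 2, -y)) ((fun q : ℝ × ℝ => (q.1 + 1 / 2, -q.2)) (x, y)) :=
    (hf _).hasFDerivAt
  have h3 := (h2.comp (x, y) h1).fderiv
  have h3' : fderiv ℝ (fun q : ℝ × ℝ => f (q.1 + 1 / 2, -q.2)) (x, y) = _ := h3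
  constructor
  · simp only [dX]
    rw [h3']
    simp
  · simp only [dY]
    rw [h3']
    simp only [ContinuousLinearMap.coe_comp, Function.comp_apply, ContinuousLinearMap.prod_apply,
      ContinuousLinearMap.coe_fst', ContinuousLinearMap.neg_apply, ContinuousLinearMap.coe_snd']
    have : ((0 : ℝ), -(1 : ℝ)) = -((0 : ℝ), (1 : ℝ)) := by simp
    rw [this, map_neg]

theorem et_shift {f : ℝ × ℝ → ℝ} (hf : Differentiable ℝ f) (x y : ℝ) :
    dX (fun q : ℝ × ℝ => f (q.1, q.2 + 1)) (x, y) = dX f (x, y + 1) ∧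
    dY (fun q : ℝ × ℝ => f (q.1, q.2 + 1)) (x, y) = dY f (x, y + 1) := by
  have h1 : HasFDerivAt (fun q : ℝ × ℝ => (q.1, q.2 + 1))
      ((ContinuousLinearMap.fst ℝ ℝ ℝ).prod (ContinuousLinearMap.snd ℝ ℝ ℝ)) (x, y) :=
    hasFDerivAt_fst.prodMk (hasFDerivAt_snd.add_const _)
  have h2 : HasFDerivAt f (fderiv ℝ f (x, y + 1)) ((fun q : ℝ × ℝ => (q.1, q.2 + 1)) (x, y)) :=
    (hf _).hasFDerivAt
  have h3 := (h2.comp (x, y) h1).fderiv
  have h3' : fderiv ℝ (fun q : ℝ × ℝ => f (q.1, q.2 + 1)) (x, y) = _ := h3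
  constructor
  · simp only [dX]
    rw [h3']
    simp
  · simp only [dY]
    rw [h3']
    simp

theorem et_const {f : ℝ × ℝ → ℝ} (hf : Differentiable ℝ f) (h1 : ∀ p, dX f p = 0)
    (h2 : ∀ p, dY f p = 0) (p q : ℝ × ℝ) : f p = f q := by
  refine is_const_of_fderiv_eq_zero hf (fun p => ?_) p q
  ext
  · simpa [dX] using h1 p
  · simpa [dY] using h2 p

theorem et_dX_add {f g : ℝ × ℝ → ℝ} (hf : Differentiable ℝ f) (hg : Differentiable ℝ g) (p : ℝ × ℝ) :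
    dX (fun q => f q + g q) p = dX f p + dX g p := by
  simp only [dX]
  rw [fderiv_fun_add (hf p) (hg p)]; rfl

theorem et_dY_add {f g : ℝ × ℝ → ℝ} (hf : Differentiable ℝ f) (hg : Differentiable ℝ g) (p : ℝ × ℝ) :
    dY (fun q => f q + g q) p = dY f p + dY g p := by
  simp only [dY]
  rw [fderiv_fun_add (hf p) (hg p)]; rfl

theorem et_dX_sub {f g : ℝ × ℝ → ℝ} (hf : Differentiable ℝ f) (hg : Differentiable ℝ g) (p : ℝ × ℝ) :
    dX (fun q => f q - g q) p = dX f p - dX g p := by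
  simp only [dX]
  rw [fderiv_fun_sub (hf p) (hg p)]; rfl

theorem et_dY_sub {f g : ℝ × ℝ → ℝ} (hf : Differentiable ℝ f) (hg : Differentiable ℝ g) (p : ℝ × ℝ) :
    dY (fun q => f q - g q) p = dY f p - dY g p := by
  simp only [dY]
  rw [fderiv_fun_sub (hf p) (hg p)]; rfl

/-- the rotation angle -/
theorem exists_theta (g : KleinMetric) : ∃ u ϑ : ℝ × ℝ → ℝ, ContDiff ℝ ∞ u ∧ ContDiff ℝ ∞ ϑ ∧
    (∀ x y, u (x + 1 / 2, -y) = u (x, y)) ∧ (∀ x y, u (x, y + 1) = u (x, y)) ∧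
    (∀ p, dX ϑ p = (g.F p * dX u p - g.E p * dY u p) / g.W p + g.om1 p) ∧
    (∀ p, dY ϑ p = (g.G p * dX u p - g.F p * dY u p) / g.W p + g.om2 p) ∧
    (∃ ca : ℝ, ∀ x y, ϑ (x + 1 / 2, -y) = -ϑ (x, y) + ca) ∧
    (∃ cb : ℝ, ∀ x y, ϑ (x, y + 1) = ϑ (x, y) + cb) := by
  obtain ⟨u, hu, hug, hus, hpde⟩ := exists_u g
  obtain ⟨hW, hW0, -, hWg, hWs, -, -, -, -⟩ := W_smooth g
  obtain ⟨ho1, ho2, ho1g, ho2g, ho1s, ho2s⟩ := om_props g
  have hux := et_smooth_dX hu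
  have huy := et_smooth_dY hu
  have hud : Differentiable ℝ u := hu.differentiable (by simp)
  have hW0' : ∀ p, g.W p ≠ 0 := fun p => (hW0 p).ne'
  have hA : ContDiff ℝ ∞ (fun q => (g.G q * dX u q - g.F q * dY u q) / g.W q) :=
    ((g.smooth_G.mul hux).sub (g.smooth_F.mul huy)).div hW hW0'
  have hB : ContDiff ℝ ∞ (fun q => (g.E q * dY u q - g.F q * dX u q) / g.W q) :=
    ((g.smooth_E.mul huy).sub (g.smooth_F.mul hux)).div hW hW0'
  have hP : ContDiff ℝ ∞ (fun q => g.om1 q - (g.E q * dY u q - g.F q * dX u q) / g.W q) :=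
    ho1.sub hB
  have hQ : ContDiff ℝ ∞ (fun q => (g.G q * dX u q - g.F q * dY u q) / g.W q + g.om2 q) :=
    hA.add ho2
  obtain ⟨ϑ, hϑ, hϑx, hϑy⟩ := poincare _ _ hP hQ (by
    intro p
    rw [et_dY_sub (ho1.differentiable (by simp)) (hB.differentiable (by simp)),
      et_dX_add (hA.differentiable (by simp)) (ho2.differentiable (by simp))]
    have := hpde p
    linarith)
  have hϑd : Differentiable ℝ ϑ := hϑ.differentiable (by simp)
  have hx : ∀ p, dX ϑ p = (g.F p * dX u p - g.E p * dY u p) / g.W p + g.om1 p := by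
    intro p
    rw [hϑx p]
    have := hW0' p
    field_simp
    ring
  have hy : ∀ p, dY ϑ p = (g.G p * dX u p - g.F p * dY u p) / g.W p + g.om2 p := hϑy
  -- symmetries of the derivatives of `u`
  have hu1 : ∀ x y, dX u (x + 1 / 2, -y) = dX u (x, y) ∧ dY u (x + 1 / 2, -y) = -dY u (x, y) := by
    intro x y
    have h := et_glide hud x y
    have e : (fun q : ℝ × ℝ => u (q.1 + 1 / 2, -q.2)) = u := by
      funext q; exact hug q.1 q.2
    rw [e] at h
    exact ⟨h.1.symm, by linarith [h.2]⟩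
  have hu2 : ∀ x y, dX u (x, y + 1) = dX u (x, y) ∧ dY u (x, y + 1) = dY u (x, y) := by
    intro x y
    have h := et_shift hud x y
    have e : (fun q : ℝ × ℝ => u (q.1, q.2 + 1)) = u := by
      funext q; exact hus q.1 q.2
    rw [e] at h
    exact ⟨h.1.symm, h.2.symm⟩
  have hd1 : Differentiable ℝ (fun q : ℝ × ℝ => ϑ (q.1 + 1 / 2, -q.2)) :=
    hϑd.comp ((differentiable_fst.add_const _).prodMk differentiable_snd.neg)
  have hd2 : Differentiable ℝ (fun q : ℝ × ℝ => ϑ (q.1, q.2 + 1)) :=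
    hϑd.comp (differentiable_fst.prodMk (differentiable_snd.add_const _))
  refine ⟨u, ϑ, hu, hϑ, hug, hus, hx, hy, ?_, ?_⟩
  · have hc : ∀ p q : ℝ × ℝ, (fun q : ℝ × ℝ => ϑ (q.1 + 1 / 2, -q.2) + ϑ q) p =
        (fun q : ℝ × ℝ => ϑ (q.1 + 1 / 2, -q.2) + ϑ q) q := by
      refine et_const (hd1.add hϑd) ?_ ?_
      · rintro ⟨x, y⟩
        rw [et_dX_add hd1 hϑd, (et_glide hϑd x y).1, hx, hx, g.F_glide, g.E_glide, hWg,
          (hu1 x y).1, (hu1 x y).2, ho1g]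
        have := hW0' (x, y)
        field_simp
        ring
      · rintro ⟨x, y⟩
        rw [et_dY_add hd1 hϑd, (et_glide hϑd x y).2, hy, hy, g.F_glide, g.G_glide, hWg,
          (hu1 x y).1, (hu1 x y).2, ho2g]
        have := hW0' (x, y)
        field_simp
        ring
    refine ⟨ϑ (0 + 1 / 2, -0) + ϑ (0, 0), fun x y => ?_⟩
    have := hc (x, y) (0, 0)
    simp only at this
    linarith
  · have hc : ∀ p q : ℝ × ℝ, (fun q : ℝ × ℝ => ϑ (q.1, q.2 + 1) - ϑ q) p =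
        (fun q : ℝ × ℝ => ϑ (q.1, q.2 + 1) - ϑ q) q := by
      refine et_const (hd2.sub hϑd) ?_ ?_
      · rintro ⟨x, y⟩
        rw [et_dX_sub hd2 hϑd, (et_shift hϑd x y).1, hx, hx, g.F_shift, g.E_shift, hWs,
          (hu2 x y).1, (hu2 x y).2, ho1s]
        ring
      · rintro ⟨x, y⟩
        rw [et_dY_sub hd2 hϑd, (et_shift hϑd x y).2, hy, hy, g.F_shift, g.G_shift, hWs,
          (hu2 x y).1, (hu2 x y).2, ho2s]
        ring
    refine ⟨ϑ (0, 0 + 1) - ϑ (0, 0), fun x y => ?_⟩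
    have := hc (x, y) (0, 0)
    simp only at this
    linarith

end KleinEmb
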