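import Pool.Agent.Helper719.Emb.Defs

open scoped ContDiff Topology ENNReal
open Set MeasureTheory Filter

noncomputable section

namespace KleinEmb

/-- rotation of the plane -/
def rot (c : ℝ) (z : ℝ × ℝ) : ℝ × ℝ :=
  (Real.cos c * z.1 - Real.sin c * z.2, Real.sin c * z.1 + Real.cos c * z.2)

end KleinEmb
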