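import Pool.Agent.Helper719.Emb.Defs
import Pool.Agent.Helper719.Emb.P_fou
import Pool.Agent.Helper719.Emb.P_poincare
import Pool.Agent.Helper719.Emb.P_W
import Pool.Agent.Helper719.Emb.P_W_smooth
import Pool.Agent.Helper719.Emb.P_om
import Pool.Agent.Helper719.Emb.P_exists_theta
import Pool.Agent.Helper719.Emb.P_coframe_closed
import Pool.Agent.Helper719.Emb.P_rot

open scoped ContDiff Topology ENNReal
open Set MeasureTheory Filter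

noncomputable section

namespace KleinEmb



theorem dv_fd (Θ : ℝ × ℝ → ℝ) (P Q : ℝ × ℝ → ℝ) (h1 : ∀ p, dX Θ p = P p) (h2 : ∀ p, dY Θ p = Q p)
    (p v : ℝ × ℝ) : fderiv ℝ Θ p v = P p * v.1 + Q p * v.2 := by
  have e : v = v.1 • ((1, 0) : ℝ × ℝ) + v.2 • ((0, 1) : ℝ × ℝ) := by
    ext <;> simp
  have h1' : fderiv ℝ Θ p (1, 0) = P p := h1 p
  have h2' : fderiv ℝ Θ p (0, 1) = Q p := h2 p
  conv_lhs => rw [e]
  rw [map_add, map_smul, map_smul, h1', h2', smul_eq_mul, smul_eq_mul]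
  ring

/-- a function with zero derivative, in the form used below -/
theorem dv_const (Θ Φ₁ Φ₂ : ℝ × ℝ → ℝ) (hΘ : ContDiff ℝ ∞ Θ) (h1 : ContDiff ℝ ∞ Φ₁)
    (h2 : ContDiff ℝ ∞ Φ₂) (A : ℝ × ℝ →L[ℝ] ℝ × ℝ) (c : ℝ × ℝ) (α β : ℝ)
    (h : ∀ p v, fderiv ℝ Θ (A p + c) (A v) = α * fderiv ℝ Φ₁ p v + β * fderiv ℝ Φ₂ p v) :
    ∃ b : ℝ, ∀ p, Θ (A p + c) = (α * Φ₁ p + β * Φ₂ p) + b := by
  have hd : ∀ p, HasFDerivAt (fun p => Θ (A p + c) - (α * Φ₁ p + β * Φ₂ p))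
      ((fderiv ℝ Θ (A p + c)).comp A - (α • fderiv ℝ Φ₁ p + β • fderiv ℝ Φ₂ p)) p := by
    intro p
    have hT : HasFDerivAt (fun p => A p + c) A p := A.hasFDerivAt.add_const c
    have e1 : HasFDerivAt (fun p => Θ (A p + c)) ((fderiv ℝ Θ (A p + c)).comp A) p :=
      ((hΘ.differentiable (by norm_num)) (A p + c)).hasFDerivAt.comp p hT
    have e2 := ((h1.differentiable (by norm_num)) p).hasFDerivAt.const_mul α
    have e3 := ((h2.differentiable (by norm_num)) p).hasFDerivAt.const_mul β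
    exact e1.sub (e2.add e3)
  have h0 : ∀ p, (fderiv ℝ Θ (A p + c)).comp A - (α • fderiv ℝ Φ₁ p + β • fderiv ℝ Φ₂ p) = 0 := by
    intro p
    refine ContinuousLinearMap.ext fun v => ?_
    show fderiv ℝ Θ (A p + c) (A v) - (α * fderiv ℝ Φ₁ p v + β * fderiv ℝ Φ₂ p v) = 0
    rw [h p]
    ring
  have hc := is_const_of_fderiv_eq_zero
    (f := fun p => Θ (A p + c) - (α * Φ₁ p + β * Φ₂ p)) (𝕜 := ℝ)
    (fun p => (hd p).differentiableAt) (fun p => by rw [(hd p).fderiv, h0 p])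
  refine ⟨Θ (A 0 + c) - (α * Φ₁ 0 + β * Φ₂ 0), fun p => ?_⟩
  have := hc p 0
  linarith

theorem develop (g : KleinMetric) : ∃ (u : ℝ × ℝ → ℝ) (Φ : ℝ × ℝ → ℝ × ℝ) (ca cb : ℝ) (βa βb : ℝ × ℝ),
    ContDiff ℝ ∞ u ∧ ContDiff ℝ ∞ Φ ∧
    (∀ x y, u (x + 1 / 2, -y) = u (x, y)) ∧ (∀ x y, u (x, y + 1) = u (x, y)) ∧
    (∀ p v, (fderiv ℝ Φ p v).1 ^ 2 + (fderiv ℝ Φ p v).2 ^ 2 = Real.exp (2 * u p) * g.inn p v v) ∧
    (∀ x y, Φ (x + 1 / 2, -y) = rot ca ((Φ (x, y)).1, -(Φ (x, y)).2) + βa) ∧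
    (∀ x y, Φ (x, y + 1) = rot cb (Φ (x, y)) + βb) := by
  obtain ⟨u, ϑ, hu, hϑ, hu1, hu2, hd1, hd2, ⟨ca, hca⟩, ⟨cb, hcb⟩⟩ := exists_theta g
  obtain ⟨hW, hW0, hWsq, hWg, hWs, -, -, -, -⟩ := W_smooth g
  have hS : ContDiff ℝ ∞ (fun q => √(g.E q)) := g.smooth_E.sqrt (fun p => (g.E_pos p).ne')
  have hS0 : ∀ p, √(g.E p) ≠ 0 := fun p => (Real.sqrt_pos.2 (g.E_pos p)).ne'
  have hSS : ∀ p, √(g.E p) ^ 2 = g.E p := fun p => Real.sq_sqrt (g.E_pos p).le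
  have hcl := coframe_closed g u ϑ hu hϑ hd1 hd2
  set M1 : ℝ × ℝ → ℝ := fun q => Real.exp (u q) * (Real.cos (ϑ q) * √(g.E q)) with hM1
  set M2 : ℝ × ℝ → ℝ := fun q => Real.exp (u q) * (Real.sin (ϑ q) * √(g.E q)) with hM2
  set N1 : ℝ × ℝ → ℝ := fun q => Real.exp (u q) *
    ((Real.cos (ϑ q) * g.F q - Real.sin (ϑ q) * g.W q) / √(g.E q)) with hN1
  set N2 : ℝ × ℝ → ℝ := fun q => Real.exp (u q) *
    ((Real.sin (ϑ q) * g.F q + Real.cos (ϑ q) * g.W q) / √(g.E q)) with hN2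
  have hM1c : ContDiff ℝ ∞ M1 := hu.exp.mul (hϑ.cos.mul hS)
  have hM2c : ContDiff ℝ ∞ M2 := hu.exp.mul (hϑ.sin.mul hS)
  have hN1c : ContDiff ℝ ∞ N1 :=
    hu.exp.mul (((hϑ.cos.mul g.smooth_F).sub (hϑ.sin.mul hW)).div hS hS0)
  have hN2c : ContDiff ℝ ∞ N2 :=
    hu.exp.mul (((hϑ.sin.mul g.smooth_F).add (hϑ.cos.mul hW)).div hS hS0)
  obtain ⟨Φ₁, hΦ1, hx1, hy1⟩ := poincare M1 N1 hM1c hN1c (fun p => (hcl p).1)
  obtain ⟨Φ₂, hΦ2, hx2, hy2⟩ := poincare M2 N2 hM2c hN2c (fun p => (hcl p).2)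
  have f1 := dv_fd Φ₁ M1 N1 hx1 hy1
  have f2 := dv_fd Φ₂ M2 N2 hx2 hy2
  -- translation
  have hsh : ∀ p : ℝ × ℝ, u (p + (0, 1)) = u p ∧ ϑ (p + (0, 1)) = ϑ p + cb ∧
      g.E (p + (0, 1)) = g.E p ∧ g.F (p + (0, 1)) = g.F p ∧ g.W (p + (0, 1)) = g.W p := by
    rintro ⟨x, y⟩
    have e : ((x, y) : ℝ × ℝ) + (0, 1) = (x, y + 1) := by simp
    rw [e]
    exact ⟨hu2 x y, hcb x y, g.E_shift x y, g.F_shift x y, hWs x y⟩
  have hM1s : ∀ p : ℝ × ℝ, M1 (p + (0, 1)) = Real.cos cb * M1 p - Real.sin cb * M2 p := by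
    intro p
    obtain ⟨e1, e2, e3, e4, e5⟩ := hsh p
    simp only [hM1, hM2, e1, e2, e3, Real.cos_add]
    ring
  have hM2s : ∀ p : ℝ × ℝ, M2 (p + (0, 1)) = Real.sin cb * M1 p + Real.cos cb * M2 p := by
    intro p
    obtain ⟨e1, e2, e3, e4, e5⟩ := hsh p
    simp only [hM1, hM2, e1, e2, e3, Real.sin_add]
    ring
  have hN1s : ∀ p : ℝ × ℝ, N1 (p + (0, 1)) = Real.cos cb * N1 p - Real.sin cb * N2 p := by
    intro p
    obtain ⟨e1, e2, e3, e4, e5⟩ := hsh p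
    simp only [hN1, hN2, e1, e2, e3, e4, e5, Real.cos_add, Real.sin_add]
    ring
  have hN2s : ∀ p : ℝ × ℝ, N2 (p + (0, 1)) = Real.sin cb * N1 p + Real.cos cb * N2 p := by
    intro p
    obtain ⟨e1, e2, e3, e4, e5⟩ := hsh p
    simp only [hN1, hN2, e1, e2, e3, e4, e5, Real.cos_add, Real.sin_add]
    ring
  obtain ⟨b1, hb1⟩ := dv_const Φ₁ Φ₁ Φ₂ hΦ1 hΦ1 hΦ2 (ContinuousLinearMap.id ℝ (ℝ × ℝ)) (0, 1)
    (Real.cos cb) (-Real.sin cb) (by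
      intro p v
      simp only [ContinuousLinearMap.id_apply]
      rw [f1, f1, f2, hM1s, hN1s]
      ring)
  obtain ⟨b2, hb2⟩ := dv_const Φ₂ Φ₁ Φ₂ hΦ2 hΦ1 hΦ2 (ContinuousLinearMap.id ℝ (ℝ × ℝ)) (0, 1)
    (Real.sin cb) (Real.cos cb) (by
      intro p v
      simp only [ContinuousLinearMap.id_apply]
      rw [f2, f1, f2, hM2s, hN2s]
      ring)
  -- glide reflection
  set A : ℝ × ℝ →L[ℝ] ℝ × ℝ := (ContinuousLinearMap.fst ℝ ℝ ℝ).prod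
    (-ContinuousLinearMap.snd ℝ ℝ ℝ) with hA
  have hAp : ∀ p : ℝ × ℝ, A p = (p.1, -p.2) := fun p => rfl
  have hgl : ∀ p : ℝ × ℝ, u (A p + (1 / 2, 0)) = u p ∧ ϑ (A p + (1 / 2, 0)) = -ϑ p + ca ∧
      g.E (A p + (1 / 2, 0)) = g.E p ∧ g.F (A p + (1 / 2, 0)) = -g.F p ∧
      g.W (A p + (1 / 2, 0)) = g.W p := by
    rintro ⟨x, y⟩
    have e : A (x, y) + (1 / 2, 0) = (x + 1 / 2, -y) := by
      rw [hAp]; simp
    rw [e]
    exact ⟨hu1 x y, hca x y, g.E_glide x y, g.F_glide x y, hWg x y⟩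
  have hM1g : ∀ p : ℝ × ℝ, M1 (A p + (1 / 2, 0)) = Real.cos ca * M1 p + Real.sin ca * M2 p := by
    intro p
    obtain ⟨e1, e2, e3, e4, e5⟩ := hgl p
    simp only [hM1, hM2, e1, e2, e3, Real.cos_add, Real.cos_neg, Real.sin_neg]
    ring
  have hM2g : ∀ p : ℝ × ℝ, M2 (A p + (1 / 2, 0)) = Real.sin ca * M1 p - Real.cos ca * M2 p := by
    intro p
    obtain ⟨e1, e2, e3, e4, e5⟩ := hgl p
    simp only [hM1, hM2, e1, e2, e3, Real.sin_add, Real.cos_neg, Real.sin_neg]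
    ring
  have hN1g : ∀ p : ℝ × ℝ, N1 (A p + (1 / 2, 0)) =
      -(Real.cos ca * N1 p + Real.sin ca * N2 p) := by
    intro p
    obtain ⟨e1, e2, e3, e4, e5⟩ := hgl p
    simp only [hN1, hN2, e1, e2, e3, e4, e5, Real.cos_add, Real.sin_add, Real.cos_neg,
      Real.sin_neg]
    ring
  have hN2g : ∀ p : ℝ × ℝ, N2 (A p + (1 / 2, 0)) =
      -(Real.sin ca * N1 p - Real.cos ca * N2 p) := by
    intro p
    obtain ⟨e1, e2, e3, e4, e5⟩ := hgl p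
    simp only [hN1, hN2, e1, e2, e3, e4, e5, Real.cos_add, Real.sin_add, Real.cos_neg,
      Real.sin_neg]
    ring
  obtain ⟨a1, ha1⟩ := dv_const Φ₁ Φ₁ Φ₂ hΦ1 hΦ1 hΦ2 A (1 / 2, 0)
    (Real.cos ca) (Real.sin ca) (by
      intro p v
      rw [f1, f1, f2, hM1g, hN1g, hAp v]
      ring)
  obtain ⟨a2, ha2⟩ := dv_const Φ₂ Φ₁ Φ₂ hΦ2 hΦ1 hΦ2 A (1 / 2, 0)
    (Real.sin ca) (-Real.cos ca) (by
      intro p v
      rw [f2, f1, f2, hM2g, hN2g, hAp v]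
      ring)
  refine ⟨u, fun p => (Φ₁ p, Φ₂ p), ca, cb, (a1, a2), (b1, b2), hu, hΦ1.prodMk hΦ2, hu1, hu2,
    ?_, ?_, ?_⟩
  · intro p v
    have hfd : fderiv ℝ (fun p => (Φ₁ p, Φ₂ p)) p v = (fderiv ℝ Φ₁ p v, fderiv ℝ Φ₂ p v) := by
      have h1 := ((hΦ1.differentiable (by norm_num)) p).hasFDerivAt
      have h2 := ((hΦ2.differentiable (by norm_num)) p).hasFDerivAt
      rw [(h1.prodMk h2).fderiv]
      rfl
    rw [hfd]
    simp only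
    rw [f1, f2]
    have hs := Real.sin_sq_add_cos_sq (ϑ p)
    have hexp : Real.exp (2 * u p) = Real.exp (u p) ^ 2 := by
      rw [sq, ← Real.exp_add]
      congr 1
      ring
    have hE := hSS p
    have hW2 := hWsq p
    have hSp := hS0 p
    have e1 : M1 p * v.1 + N1 p * v.2 = Real.exp (u p) * (Real.cos (ϑ p) *
        (√(g.E p) * v.1 + g.F p * v.2 / √(g.E p)) - Real.sin (ϑ p) * (g.W p * v.2 / √(g.E p))) := by
      simp only [hM1, hN1]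
      field_simp
      ring
    have e2 : M2 p * v.1 + N2 p * v.2 = Real.exp (u p) * (Real.sin (ϑ p) *
        (√(g.E p) * v.1 + g.F p * v.2 / √(g.E p)) + Real.cos (ϑ p) * (g.W p * v.2 / √(g.E p))) := by
      simp only [hM2, hN2]
      field_simp
      ring
    have e3 : (√(g.E p) * v.1 + g.F p * v.2 / √(g.E p)) ^ 2 + (g.W p * v.2 / √(g.E p)) ^ 2 =
        g.inn p v v := by
      have hE0 : g.E p ≠ 0 := (g.E_pos p).ne'
      have e4 : (√(g.E p) * v.1 + g.F p * v.2 / √(g.E p)) ^ 2 + (g.W p * v.2 / √(g.E p)) ^ 2 =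
          √(g.E p) ^ 2 * v.1 ^ 2 + 2 * g.F p * v.1 * v.2 +
            (g.F p ^ 2 + g.W p ^ 2) * v.2 ^ 2 / √(g.E p) ^ 2 := by
        field_simp
        ring
      rw [e4, hE, hW2]
      unfold KleinMetric.inn
      field_simp
      ring
    rw [e1, e2, hexp, ← e3]
    linear_combination (Real.exp (u p) ^ 2 * ((√(g.E p) * v.1 + g.F p * v.2 / √(g.E p)) ^ 2 +
      (g.W p * v.2 / √(g.E p)) ^ 2)) * hs
  · intro x y
    have h1 := ha1 (x, y)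
    have h2 := ha2 (x, y)
    have e : A (x, y) + (1 / 2, 0) = (x + 1 / 2, -y) := by
      rw [hAp]; simp
    rw [e] at h1 h2
    simp only [rot, h1, h2]
    ext
    · simp
    · simp
  · intro x y
    have h1 := hb1 (x, y)
    have h2 := hb2 (x, y)
    have e : (ContinuousLinearMap.id ℝ (ℝ × ℝ)) (x, y) + (0, 1) = (x, y + 1) := by
      simp
    rw [e] at h1 h2
    simp only [rot, h1, h2]
    ext
    · simp
      ring
    · simp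

end KleinEmb
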