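import Pool.Agent.Helper719.Emb.Defs

open scoped ContDiff Topology ENNReal
open Set MeasureTheory Filter

noncomputable section

namespace KleinEmb



theorem per_fract (f : ℝ × ℝ → ℝ) (h1 : ∀ x y, f (x + 1, y) = f (x, y))
    (h2 : ∀ x y, f (x, y + 1) = f (x, y)) (x y : ℝ) :
    f (x, y) = f (Int.fract x, Int.fract y) := by
  have k1 : ∀ y : ℝ, Function.Periodic (fun x => f (x, y)) 1 := fun y x => h1 x y
  have k2 : ∀ x : ℝ, Function.Periodic (fun y => f (x, y)) 1 := fun x y => h2 x y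
  have e1 := (k1 y).int_mul ⌊x⌋ (Int.fract x)
  have e2 := (k2 (Int.fract x)).int_mul ⌊y⌋ (Int.fract y)
  simp only [mul_one, Int.fract_add_floor] at e1 e2
  rw [e1, e2]

theorem per_bdd (f : ℝ × ℝ → ℝ) (hc : Continuous f) (h1 : ∀ x y, f (x + 1, y) = f (x, y))
    (h2 : ∀ x y, f (x, y + 1) = f (x, y)) :
    (∃ p0, ∀ p, f p ≤ f p0) ∧ (∃ p0, ∀ p, f p0 ≤ f p) := by
  have hK : IsCompact (Icc (0 : ℝ) 1 ×ˢ Icc (0 : ℝ) 1) := isCompact_Icc.prod isCompact_Icc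
  have hne : (Icc (0 : ℝ) 1 ×ˢ Icc (0 : ℝ) 1).Nonempty := ⟨(0, 0), by simp⟩
  have hmem : ∀ x y : ℝ, (Int.fract x, Int.fract y) ∈ (Icc (0 : ℝ) 1 ×ˢ Icc (0 : ℝ) 1) := by
    intro x y
    exact ⟨⟨Int.fract_nonneg x, (Int.fract_lt_one x).le⟩,
      ⟨Int.fract_nonneg y, (Int.fract_lt_one y).le⟩⟩
  constructor
  · obtain ⟨p0, -, hp0⟩ := hK.exists_isMaxOn hne hc.continuousOn
    refine ⟨p0, fun p => ?_⟩
    obtain ⟨x, y⟩ := p
    rw [per_fract f h1 h2 x y]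
    exact hp0 (hmem x y)
  · obtain ⟨p0, -, hp0⟩ := hK.exists_isMinOn hne hc.continuousOn
    refine ⟨p0, fun p => ?_⟩
    obtain ⟨x, y⟩ := p
    rw [per_fract f h1 h2 x y]
    exact hp0 (hmem x y)

theorem ellip (g : KleinMetric) : ∃ m M : ℝ, 0 < m ∧ 0 < M ∧ ∀ p v : ℝ × ℝ,
    m * (v.1 ^ 2 + v.2 ^ 2) ≤ g.inn p v v ∧ g.inn p v v ≤ M * (v.1 ^ 2 + v.2 ^ 2) := by
  have hE1 : ∀ x y, g.E (x + 1, y) = g.E (x, y) := by
    intro x y
    have h1 := g.E_glide (x + 1 / 2) (-y)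
    rw [neg_neg, g.E_glide x y] at h1
    rw [← h1]; congr 2; ring
  have hG1 : ∀ x y, g.G (x + 1, y) = g.G (x, y) := by
    intro x y
    have h1 := g.G_glide (x + 1 / 2) (-y)
    rw [neg_neg, g.G_glide x y] at h1
    rw [← h1]; congr 2; ring
  have hF1 : ∀ x y, g.F (x + 1, y) = g.F (x, y) := by
    intro x y
    have h1 := g.F_glide (x + 1 / 2) (-y)
    rw [neg_neg, g.F_glide x y, neg_neg] at h1
    rw [← h1]; congr 2; ring
  have hcE : Continuous g.E := g.smooth_E.continuous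
  have hcF : Continuous g.F := g.smooth_F.continuous
  have hcG : Continuous g.G := g.smooth_G.continuous
  have hGpos : ∀ p, 0 < g.G p := by
    intro p
    have h1 := g.E_pos p
    have h2 := g.det_pos p
    have h3 : 0 < g.E p * g.G p := by nlinarith [sq_nonneg (g.F p)]
    exact (mul_pos_iff_of_pos_left h1).mp h3
  obtain ⟨⟨pM, hpM⟩, -⟩ := per_bdd (fun p => g.E p + g.G p) (by fun_prop)
    (fun x y => by simp only [hE1, hG1]) (fun x y => by simp only [g.E_shift, g.G_shift])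
  obtain ⟨-, ⟨pm, hpm⟩⟩ := per_bdd (fun p => g.E p * g.G p - g.F p ^ 2) (by fun_prop)
    (fun x y => by simp only [hE1, hG1, hF1])
    (fun x y => by simp only [g.E_shift, g.G_shift, g.F_shift])
  replace hpM : ∀ p, g.E p + g.G p ≤ g.E pM + g.G pM := hpM
  replace hpm : ∀ p, g.E pm * g.G pm - g.F pm ^ 2 ≤ g.E p * g.G p - g.F p ^ 2 := hpm
  set M := g.E pM + g.G pM with hM
  set d := g.E pm * g.G pm - g.F pm ^ 2 with hd
  have hMpos : 0 < M := add_pos (g.E_pos pM) (hGpos pM)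
  have hdpos : 0 < d := g.det_pos pm
  refine ⟨d / M, M, div_pos hdpos hMpos, hMpos, fun p v => ?_⟩
  obtain ⟨v1, v2⟩ := v
  have hE := g.E_pos p
  have hG := hGpos p
  have hD := g.det_pos p
  have hT := hpM p
  have hD2 := hpm p
  have hinn : g.inn p (v1, v2) (v1, v2) = g.E p * v1 ^ 2 + 2 * g.F p * (v1 * v2)
      + g.G p * v2 ^ 2 := by
    unfold KleinMetric.inn; ring
  show d / M * (v1 ^ 2 + v2 ^ 2) ≤ g.inn p (v1, v2) (v1, v2) ∧
    g.inn p (v1, v2) (v1, v2) ≤ M * (v1 ^ 2 + v2 ^ 2)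
  rw [hinn]
  clear_value M d
  clear hM hd hpM hpm hinn
  generalize g.E p = E at *
  generalize g.F p = F at *
  generalize g.G p = G at *
  have hs : 0 ≤ v1 ^ 2 + v2 ^ 2 := by positivity
  have e1 : (E + G) * (E * v1 ^ 2 + 2 * F * (v1 * v2) + G * v2 ^ 2)
      = (E * G - F ^ 2) * (v1 ^ 2 + v2 ^ 2) + (E * v1 + F * v2) ^ 2 + (F * v1 + G * v2) ^ 2 := by
    ring
  have e2 : d * (v1 ^ 2 + v2 ^ 2) ≤ (E * G - F ^ 2) * (v1 ^ 2 + v2 ^ 2) :=
    mul_le_mul_of_nonneg_right hD2 hs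
  have hds : 0 ≤ d * (v1 ^ 2 + v2 ^ 2) := mul_nonneg hdpos.le hs
  have e3 : 0 ≤ E * v1 ^ 2 + 2 * F * (v1 * v2) + G * v2 ^ 2 := by
    have h0 : 0 < E + G := add_pos hE hG
    have h1 : 0 ≤ (E + G) * (E * v1 ^ 2 + 2 * F * (v1 * v2) + G * v2 ^ 2) := by
      rw [e1]; nlinarith [sq_nonneg (E * v1 + F * v2), sq_nonneg (F * v1 + G * v2)]
    exact nonneg_of_mul_nonneg_right h1 h0
  constructor
  · rw [div_mul_eq_mul_div, div_le_iff₀ hMpos]
    have h1 : (E + G) * (E * v1 ^ 2 + 2 * F * (v1 * v2) + G * v2 ^ 2) ≤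
      M * (E * v1 ^ 2 + 2 * F * (v1 * v2) + G * v2 ^ 2) := mul_le_mul_of_nonneg_right hT e3
    nlinarith [sq_nonneg (E * v1 + F * v2), sq_nonneg (F * v1 + G * v2)]
  · have h1 : 0 ≤ E * (E * v2 ^ 2 - 2 * F * (v1 * v2) + G * v1 ^ 2) := by
      have : E * (E * v2 ^ 2 - 2 * F * (v1 * v2) + G * v1 ^ 2)
        = (E * v2 - F * v1) ^ 2 + (E * G - F ^ 2) * v1 ^ 2 := by ring
      rw [this]; positivity
    have h2 : 0 ≤ E * v2 ^ 2 - 2 * F * (v1 * v2) + G * v1 ^ 2 :=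
      nonneg_of_mul_nonneg_right h1 hE
    have h3 : (E + G) * (v1 ^ 2 + v2 ^ 2) ≤ M * (v1 ^ 2 + v2 ^ 2) :=
      mul_le_mul_of_nonneg_right hT hs
    nlinarith

end KleinEmb
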