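import Pool.Agent.Helper719.Emb.Defs
import Pool.Agent.Helper719.Emb.P_ham

open scoped ContDiff Topology ENNReal
open Set MeasureTheory Filter

noncomputable section

namespace KleinEmb



theorem field_smooth_vel (g : KleinMetric) : ContDiff ℝ ∞ g.vel := by
  have hE : ContDiff ℝ ∞ (fun z : (ℝ × ℝ) × (ℝ × ℝ) => g.E z.1) := g.smooth_E.comp contDiff_fst
  have hF : ContDiff ℝ ∞ (fun z : (ℝ × ℝ) × (ℝ × ℝ) => g.F z.1) := g.smooth_F.comp contDiff_fst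
  have hG : ContDiff ℝ ∞ (fun z : (ℝ × ℝ) × (ℝ × ℝ) => g.G z.1) := g.smooth_G.comp contDiff_fst
  have h1 : ContDiff ℝ ∞ (fun z : (ℝ × ℝ) × (ℝ × ℝ) => z.2.1) := contDiff_fst.comp contDiff_snd
  have h2 : ContDiff ℝ ∞ (fun z : (ℝ × ℝ) × (ℝ × ℝ) => z.2.2) := contDiff_snd.comp contDiff_snd
  have hD : ContDiff ℝ ∞ (fun z : (ℝ × ℝ) × (ℝ × ℝ) => g.E z.1 * g.G z.1 - g.F z.1 ^ 2) :=
    (hE.mul hG).sub (hF.pow 2)
  have hne : ∀ z : (ℝ × ℝ) × (ℝ × ℝ), g.E z.1 * g.G z.1 - g.F z.1 ^ 2 ≠ 0 := fun z =>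
    (g.det_pos z.1).ne'
  exact (((hG.mul h1).sub (hF.mul h2)).div hD hne).prodMk (((hE.mul h2).sub (hF.mul h1)).div hD hne)

theorem field_smooth_fd (f : ℝ × ℝ → ℝ) (hf : ContDiff ℝ ∞ f) (d : ℝ × ℝ) :
    ContDiff ℝ ∞ (fun z : (ℝ × ℝ) × (ℝ × ℝ) => fderiv ℝ f z.1 d) := by
  have h1 : ContDiff ℝ ∞ (fderiv ℝ f) := (contDiff_infty_iff_fderiv.1 hf).2
  exact (h1.comp contDiff_fst).clm_apply contDiff_const

theorem field_smooth_force (g : KleinMetric) (d : ℝ × ℝ) :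
    ContDiff ℝ ∞ (fun z : (ℝ × ℝ) × (ℝ × ℝ) => g.force z.1 (g.vel z) d) := by
  have hE := field_smooth_fd g.E g.smooth_E d
  have hF := field_smooth_fd g.F g.smooth_F d
  have hG := field_smooth_fd g.G g.smooth_G d
  have h1 : ContDiff ℝ ∞ (fun z : (ℝ × ℝ) × (ℝ × ℝ) => (g.vel z).1) :=
    contDiff_fst.comp (field_smooth_vel g)
  have h2 : ContDiff ℝ ∞ (fun z : (ℝ × ℝ) × (ℝ × ℝ) => (g.vel z).2) :=
    contDiff_snd.comp (field_smooth_vel g)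
  unfold KleinMetric.force
  exact (((hE.mul (h1.pow 2)).add ((contDiff_const.mul hF).mul (h1.mul h2))).add
    (hG.mul (h2.pow 2))).div_const 2

theorem field_smooth (g : KleinMetric) : ContDiff ℝ ∞ g.field ∧ ContDiff ℝ ∞ g.ener := by
  have h21 : ContDiff ℝ ∞ (fun z : (ℝ × ℝ) × (ℝ × ℝ) => z.2.1) := contDiff_fst.comp contDiff_snd
  have h22 : ContDiff ℝ ∞ (fun z : (ℝ × ℝ) × (ℝ × ℝ) => z.2.2) := contDiff_snd.comp contDiff_snd
  have h1 : ContDiff ℝ ∞ (fun z : (ℝ × ℝ) × (ℝ × ℝ) => (g.vel z).1) :=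
    contDiff_fst.comp (field_smooth_vel g)
  have h2 : ContDiff ℝ ∞ (fun z : (ℝ × ℝ) × (ℝ × ℝ) => (g.vel z).2) :=
    contDiff_snd.comp (field_smooth_vel g)
  refine ⟨(field_smooth_vel g).prodMk
    ((field_smooth_force g (1, 0)).prodMk (field_smooth_force g (0, 1))), ?_⟩
  exact ((h21.mul h1).add (h22.mul h2)).div_const 2
end KleinEmb
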