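import Pool.Agent.Helper719.Emb.Defs
import Pool.Agent.Helper719.Emb.P_ham
import Pool.Agent.Helper719.Emb.P_field_smooth

open scoped ContDiff Topology ENNReal
open Set MeasureTheory Filter

noncomputable section

namespace KleinEmb



theorem ener_fderiv_alg (E F G D p q E' F' G' P Q : ℝ) (hD : D ≠ 0) (hDe : D = E * G - F ^ 2) :
    (P * ((G * p - F * q) / D) + p * (((G' * p + G * P - (F' * q + F * Q)) * D -
      (G * p - F * q) * (E' * G + E * G' - 2 * F * F')) / D ^ 2) +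
     (Q * ((E * q - F * p) / D) + q * (((E' * q + E * Q - (F' * p + F * P)) * D -
      (E * q - F * p) * (E' * G + E * G' - 2 * F * F')) / D ^ 2))) / 2 =
    -((E' * ((G * p - F * q) / D) ^ 2 + 2 * F' * (((G * p - F * q) / D) * ((E * q - F * p) / D)) +
      G' * ((E * q - F * p) / D) ^ 2) / 2) + P * ((G * p - F * q) / D) + Q * ((E * q - F * p) / D) := by
  field_simp
  rw [hDe]
  ring

theorem ener_fderiv_line (f : ℝ × ℝ → ℝ) (hf : Differentiable ℝ f) (z w : ℝ × ℝ) :
    HasDerivAt (fun s : ℝ => f (z + s • w)) (fderiv ℝ f z w) 0 := by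
  have h1 : HasDerivAt (fun s : ℝ => z + s • w) w 0 := by
    have := ((hasDerivAt_id (0:ℝ)).smul_const w).const_add z
    simpa using this
  have h2 : HasFDerivAt f (fderiv ℝ f z) (z + (0:ℝ) • w) := by
    rw [zero_smul, add_zero]; exact (hf z).hasFDerivAt
  exact h2.comp_hasDerivAt (0:ℝ) h1

theorem ener_fderiv_split (L : ℝ × ℝ →L[ℝ] ℝ) (w : ℝ × ℝ) :
    L w = w.1 * L (1, 0) + w.2 * L (0, 1) := by
  have h : w = w.1 • ((1:ℝ), (0:ℝ)) + w.2 • ((0:ℝ), (1:ℝ)) := by
    ext <;> simp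
  conv_lhs => rw [h]
  rw [map_add, map_smul, map_smul, smul_eq_mul, smul_eq_mul]

theorem ener_fderiv (g : KleinMetric) (z w : (ℝ × ℝ) × (ℝ × ℝ)) :
    fderiv ℝ g.ener z w = -(w.1.1 * g.force z.1 (g.vel z) (1, 0)) - w.1.2 * g.force z.1 (g.vel z) (0, 1)
      + w.2.1 * (g.vel z).1 + w.2.2 * (g.vel z).2 := by
  have hE := ener_fderiv_line g.E (g.smooth_E.differentiable (by simp)) z.1 w.1
  have hF := ener_fderiv_line g.F (g.smooth_F.differentiable (by simp)) z.1 w.1
  have hG := ener_fderiv_line g.G (g.smooth_G.differentiable (by simp)) z.1 w.1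
  have hp : HasDerivAt (fun s : ℝ => z.2.1 + s * w.2.1) w.2.1 0 := by
    have := ((hasDerivAt_id (0:ℝ)).mul_const w.2.1).const_add z.2.1
    simpa using this
  have hq : HasDerivAt (fun s : ℝ => z.2.2 + s * w.2.2) w.2.2 0 := by
    have := ((hasDerivAt_id (0:ℝ)).mul_const w.2.2).const_add z.2.2
    simpa using this
  have hD0 : g.E z.1 * g.G z.1 - g.F z.1 ^ 2 ≠ 0 := (g.det_pos z.1).ne'
  have hD := (hE.mul hG).sub (hF.pow 2)
  have hu := (((hG.mul hp).sub (hF.mul hq)).div hD (by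
    simp only [Pi.mul_apply, Pi.sub_apply, Pi.pow_apply, zero_smul, add_zero]; exact hD0))
  have hv := (((hE.mul hq).sub (hF.mul hp)).div hD (by
    simp only [Pi.mul_apply, Pi.sub_apply, Pi.pow_apply, zero_smul, add_zero]; exact hD0))
  have hen := ((hp.mul hu).add (hq.mul hv)).div_const 2
  have hline : HasDerivAt (fun s : ℝ => g.ener (z + s • w)) (fderiv ℝ g.ener z w) 0 := by
    have h1 : HasDerivAt (fun s : ℝ => z + s • w) w 0 := by
      have := ((hasDerivAt_id (0:ℝ)).smul_const w).const_add z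
      simpa using this
    have h2 : HasFDerivAt g.ener (fderiv ℝ g.ener z) (z + (0:ℝ) • w) := by
      rw [zero_smul, add_zero]
      exact ((field_smooth g).2.differentiable (by simp) z).hasFDerivAt
    exact h2.comp_hasDerivAt (0:ℝ) h1
  have heq := hline.unique (hen.congr_of_eventuallyEq (Filter.Eventually.of_forall fun s => by
    simp only [KleinMetric.ener, KleinMetric.vel, Prod.fst_add, Prod.snd_add, Prod.smul_fst,
      Prod.smul_snd, smul_eq_mul, Pi.mul_apply, Pi.sub_apply, Pi.pow_apply, Pi.add_apply,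
      Pi.div_apply]))
  rw [heq]
  have key := ener_fderiv_alg (g.E z.1) (g.F z.1) (g.G z.1) (g.E z.1 * g.G z.1 - g.F z.1 ^ 2)
    z.2.1 z.2.2 (fderiv ℝ g.E z.1 w.1) (fderiv ℝ g.F z.1 w.1) (fderiv ℝ g.G z.1 w.1) w.2.1 w.2.2
    hD0 rfl
  have e1 := ener_fderiv_split (fderiv ℝ g.E z.1) w.1
  have e2 := ener_fderiv_split (fderiv ℝ g.F z.1) w.1
  have e3 := ener_fderiv_split (fderiv ℝ g.G z.1) w.1
  simp only [KleinMetric.force, KleinMetric.vel, Pi.mul_apply, Pi.sub_apply, Pi.pow_apply,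
    Pi.add_apply, Pi.div_apply, zero_smul, add_zero, zero_mul]
  rw [e1, e2, e3] at key
  rw [e1, e2, e3]
  refine Eq.trans ?_ (key.trans ?_)
  · push_cast
    ring
  · ring

end KleinEmb
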