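import Pool.Agent.Helper719.Emb.Defs
import Pool.Agent.Helper719.Emb.P_ode_unique
import Pool.Agent.Helper719.Emb.P_ham
import Pool.Agent.Helper719.Emb.P_alg
import Pool.Agent.Helper719.Emb.P_field_smooth

open scoped ContDiff Topology ENNReal
open Set MeasureTheory Filter

noncomputable section

namespace KleinEmb



theorem flow_of_geo (g : KleinMetric) (φ) (hφ : g.IsFlow φ) (γ : ℝ → ℝ × ℝ) (hγ : g.IsGeodesic γ) :
    ∀ t, (γ t, g.mom (γ t) (deriv γ t)) = φ t (γ 0, g.mom (γ 0) (deriv γ 0)) := by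
  obtain ⟨hγ2, hγe⟩ := hγ
  obtain ⟨hφ0, hφd, -⟩ := hφ
  have hγd : ∀ t, HasDerivAt γ (deriv γ t) t := by
    intro t
    exact ((hγ2.differentiable (by norm_num)) t).hasDerivAt
  have hdγ : ContDiff ℝ 1 (deriv γ) := by
    have h2 : ContDiff ℝ (1 + 1) γ := by
      have : ((1 : WithTop ℕ∞) + 1) = 2 := one_add_one_eq_two
      rw [this]; exact hγ2
    exact (contDiff_succ_iff_deriv.1 h2).2.2
  have hdγd : Differentiable ℝ (deriv γ) := hdγ.differentiable (by norm_num)
  have hγdiff : Differentiable ℝ γ := fun t => (hγd t).differentiableAt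
  have hEd : Differentiable ℝ g.E := g.smooth_E.differentiable (by simp)
  have hFd : Differentiable ℝ g.F := g.smooth_F.differentiable (by simp)
  have hGd : Differentiable ℝ g.G := g.smooth_G.differentiable (by simp)
  have hEγ : Differentiable ℝ (fun s => g.E (γ s)) := hEd.comp hγdiff
  have hFγ : Differentiable ℝ (fun s => g.F (γ s)) := hFd.comp hγdiff
  have hGγ : Differentiable ℝ (fun s => g.G (γ s)) := hGd.comp hγdiff
  have h1γ : Differentiable ℝ (fun s => (deriv γ s).1) := differentiable_fst.comp hdγd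
  have h2γ : Differentiable ℝ (fun s => (deriv γ s).2) := differentiable_snd.comp hdγd
  have hm1 : Differentiable ℝ
      (fun s => g.E (γ s) * (deriv γ s).1 + g.F (γ s) * (deriv γ s).2) :=
    (hEγ.mul h1γ).add (hFγ.mul h2γ)
  have hm2 : Differentiable ℝ
      (fun s => g.F (γ s) * (deriv γ s).1 + g.G (γ s) * (deriv γ s).2) :=
    (hFγ.mul h1γ).add (hGγ.mul h2γ)
  have hvel : ∀ t, g.vel (γ t, g.mom (γ t) (deriv γ t)) = deriv γ t := fun t =>
    (alg g (γ t) (deriv γ t) (deriv γ t)).1
  have hZ : ∀ t, HasDerivAt (fun t => (γ t, g.mom (γ t) (deriv γ t)))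
      ((fun _ => (1 : ℝ)) t • g.field (γ t, g.mom (γ t) (deriv γ t))) t := by
    intro t
    have h1 := (hm1 t).hasDerivAt
    have h2 := (hm2 t).hasDerivAt
    rw [(hγe t).1] at h1
    rw [(hγe t).2] at h2
    have h3 := (hγd t).prodMk (h1.prodMk h2)
    simp only [one_smul]
    have h4 : g.field (γ t, g.mom (γ t) (deriv γ t)) =
        (deriv γ t, (g.force (γ t) (deriv γ t) (1, 0), g.force (γ t) (deriv γ t) (0, 1))) := by
      rw [KleinMetric.field, hvel]
    rw [h4]
    exact h3
  have hV : ContDiff ℝ 1 g.field := (field_smooth g).1.of_le (by exact_mod_cast le_top)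
  have hW : ∀ t, HasDerivAt (fun t => φ t (γ 0, g.mom (γ 0) (deriv γ 0)))
      ((fun _ => (1 : ℝ)) t • g.field (φ t (γ 0, g.mom (γ 0) (deriv γ 0)))) t := by
    intro t
    simp only [one_smul]
    exact hφd _ t
  have hfin := ode_unique g.field hV (fun _ => (1:ℝ)) continuous_const
    (fun t => (γ t, g.mom (γ t) (deriv γ t))) (fun t => φ t (γ 0, g.mom (γ 0) (deriv γ 0)))
    hZ hW 0 (by rw [hφ0])
  intro t
  exact congrFun hfin t
end KleinEmb
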