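import Pool.Agent.Helper719.Emb.Defs
import Pool.Agent.Helper719.Emb.P_ham
import Pool.Agent.Helper719.Emb.P_alg

open scoped ContDiff Topology ENNReal
open Set MeasureTheory Filter

noncomputable section

namespace KleinEmb



theorem geo_of_flow (g : KleinMetric) (φ) (hφ : g.IsFlow φ) (p v : ℝ × ℝ) :
    g.IsGeodesic (fun t => (φ t (p, g.mom p v)).1) ∧
      ∀ t, deriv (fun t => (φ t (p, g.mom p v)).1) t = g.vel (φ t (p, g.mom p v)) := by
  obtain ⟨h0, h1, h2⟩ := hφ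
  set z0 : (ℝ × ℝ) × (ℝ × ℝ) := (p, g.mom p v) with hz0
  have hz : ∀ t, HasDerivAt (fun s => φ s z0) (g.field (φ t z0)) t := fun t => h1 z0 t
  have hf : ∀ t, HasDerivAt (fun s => (φ s z0).1) (g.vel (φ t z0)) t := by
    intro t
    have h3 : HasFDerivAt (fun q : (ℝ × ℝ) × (ℝ × ℝ) => q.1)
      (ContinuousLinearMap.fst ℝ (ℝ × ℝ) (ℝ × ℝ)) (φ t z0) := hasFDerivAt_fst
    exact h3.comp_hasDerivAt t (hz t)
  have hs : ∀ t, HasDerivAt (fun s => (φ s z0).2)
      (g.force (φ t z0).1 (g.vel (φ t z0)) (1, 0), g.force (φ t z0).1 (g.vel (φ t z0)) (0, 1)) t := by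
    intro t
    have h3 : HasFDerivAt (fun q : (ℝ × ℝ) × (ℝ × ℝ) => q.2)
      (ContinuousLinearMap.snd ℝ (ℝ × ℝ) (ℝ × ℝ)) (φ t z0) := hasFDerivAt_snd
    exact h3.comp_hasDerivAt t (hz t)
  have hd : ∀ t, deriv (fun s => (φ s z0).1) t = g.vel (φ t z0) := fun t => (hf t).deriv
  have hmom : ∀ t, g.mom (φ t z0).1 (g.vel (φ t z0)) = (φ t z0).2 := by
    intro t
    have h4 := (alg g (φ t z0).1 v v).2.2.2.2.2.2.2.2 (φ t z0).2
    exact h4
  have hs1 : ∀ t, HasDerivAt (fun s => (φ s z0).2.1)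
      (g.force (φ t z0).1 (g.vel (φ t z0)) (1, 0)) t := by
    intro t
    have h3 : HasFDerivAt (fun q : ℝ × ℝ => q.1) (ContinuousLinearMap.fst ℝ ℝ ℝ) ((φ t z0).2) :=
      hasFDerivAt_fst
    exact h3.comp_hasDerivAt t (hs t)
  have hs2 : ∀ t, HasDerivAt (fun s => (φ s z0).2.2)
      (g.force (φ t z0).1 (g.vel (φ t z0)) (0, 1)) t := by
    intro t
    have h3 : HasFDerivAt (fun q : ℝ × ℝ => q.2) (ContinuousLinearMap.snd ℝ ℝ ℝ) ((φ t z0).2) :=
      hasFDerivAt_snd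
    exact h3.comp_hasDerivAt t (hs t)
  refine ⟨⟨?_, ?_⟩, hd⟩
  · have h3 : ContDiff ℝ 2 (fun t : ℝ => ((t, z0) : ℝ × ((ℝ × ℝ) × (ℝ × ℝ)))) :=
      contDiff_id.prodMk contDiff_const
    exact contDiff_fst.comp (h2.comp h3)
  · intro t
    constructor
    · have e1 : (fun s => g.E ((φ s z0).1) * (deriv (fun t => (φ t z0).1) s).1 +
          g.F ((φ s z0).1) * (deriv (fun t => (φ t z0).1) s).2) = fun s => (φ s z0).2.1 := by
        funext s
        rw [hd s]
        exact congrArg Prod.fst (hmom s)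
      rw [e1, (hs1 t).deriv, hd t]
      rfl
    · have e1 : (fun s => g.F ((φ s z0).1) * (deriv (fun t => (φ t z0).1) s).1 +
          g.G ((φ s z0).1) * (deriv (fun t => (φ t z0).1) s).2) = fun s => (φ s z0).2.2 := by
        funext s
        rw [hd s]
        exact congrArg Prod.snd (hmom s)
      rw [e1, (hs2 t).deriv, hd t]
      rfl

end KleinEmb
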