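import Pool.Agent.Helper719.Emb.Defs
import Pool.Agent.Helper719.Emb.P_ham
import Pool.Agent.Helper719.Emb.P_alg
import Pool.Agent.Helper719.Emb.P_geo_of_flow
import Pool.Agent.Helper719.Emb.P_flow_of_geo

open scoped ContDiff Topology ENNReal
open Set MeasureTheory Filter

noncomputable section

namespace KleinEmb



theorem exp_eq (g : KleinMetric) (φ) (hφ : g.IsFlow φ) (p v : ℝ × ℝ) :
    g.expMap p v = (φ 1 (p, g.mom p v)).1 := by
  have hex : ∃ γ : ℝ → ℝ × ℝ, g.IsGeodesic γ ∧ γ 0 = p ∧ deriv γ 0 = v := by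
    refine ⟨fun t => (φ t (p, g.mom p v)).1, (geo_of_flow g φ hφ p v).1, ?_, ?_⟩
    · beta_reduce
      rw [hφ.1]
    · rw [(geo_of_flow g φ hφ p v).2 0, hφ.1]
      exact (alg g p v v).1
  unfold KleinMetric.expMap
  rw [dif_pos hex]
  obtain ⟨h1, h2, h3⟩ := Classical.choose_spec hex
  have h4 := flow_of_geo g φ hφ (Classical.choose hex) h1 1
  rw [h2, h3] at h4
  exact congrArg Prod.fst h4

end KleinEmb
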