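import Pool.Agent.Helper719.Emb.Defs
import Pool.Agent.Helper719.Emb.P_global_flow
import Pool.Agent.Helper719.Emb.P_ham
import Pool.Agent.Helper719.Emb.P_alg
import Pool.Agent.Helper719.Emb.P_field_smooth
import Pool.Agent.Helper719.Emb.P_ener_fderiv
import Pool.Agent.Helper719.Emb.P_ellip

open scoped ContDiff Topology ENNReal
open Set MeasureTheory Filter

noncomputable section

namespace KleinEmb



theorem gfl_A (g : KleinMetric) (m M : ℝ) (hm : 0 < m)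
    (hell : ∀ p v : ℝ × ℝ,
      m * (v.1 ^ 2 + v.2 ^ 2) ≤ g.inn p v v ∧ g.inn p v v ≤ M * (v.1 ^ 2 + v.2 ^ 2))
    (p v : ℝ × ℝ) :
    m * g.inn p v v ≤ (g.mom p v).1 ^ 2 + (g.mom p v).2 ^ 2 := by
  obtain ⟨-, -, h3, -, h5, -, -, -, -⟩ := alg g p v v
  set P := g.mom p v with hP
  set I := g.inn p v v with hI
  have h1 := (hell p v).1
  rw [← hI] at h1
  by_cases h0 : I = 0
  · rw [h0, mul_zero]; positivity
  · have hpos : 0 < I := lt_of_le_of_ne h5 (Ne.symm h0)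
    have hcs : I ^ 2 ≤ (P.1 ^ 2 + P.2 ^ 2) * (v.1 ^ 2 + v.2 ^ 2) := by
      rw [← h3]
      nlinarith [sq_nonneg (P.1 * v.2 - P.2 * v.1)]
    have h2 : m * I * I ≤ (P.1 ^ 2 + P.2 ^ 2) * I := by
      calc m * I * I = m * I ^ 2 := by ring
        _ ≤ m * ((P.1 ^ 2 + P.2 ^ 2) * (v.1 ^ 2 + v.2 ^ 2)) :=
          mul_le_mul_of_nonneg_left hcs hm.le
        _ = (P.1 ^ 2 + P.2 ^ 2) * (m * (v.1 ^ 2 + v.2 ^ 2)) := by ring
        _ ≤ (P.1 ^ 2 + P.2 ^ 2) * I := mul_le_mul_of_nonneg_left h1 (by positivity)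
    exact le_of_mul_le_mul_right h2 hpos

theorem gfl_B (g : KleinMetric) (m M : ℝ)
    (hell : ∀ p v : ℝ × ℝ,
      m * (v.1 ^ 2 + v.2 ^ 2) ≤ g.inn p v v ∧ g.inn p v v ≤ M * (v.1 ^ 2 + v.2 ^ 2))
    (p v : ℝ × ℝ) :
    (g.mom p v).1 ^ 2 + (g.mom p v).2 ^ 2 ≤ M * g.inn p v v := by
  set P := g.mom p v with hP
  obtain ⟨-, -, h3, -, h5, -, h7, h8, -⟩ := alg g p v P
  obtain ⟨-, -, -, -, -, -, -, h8', -⟩ := alg g p P P
  rw [← hP] at h3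
  set I := g.inn p v v with hI
  have h1 := (hell p P).2
  have hS : P.1 ^ 2 + P.2 ^ 2 = g.inn p v P := by rw [← h3]; ring
  by_cases h0 : P.1 ^ 2 + P.2 ^ 2 = 0
  · have h9 := (hell p v).2
    rw [← hI] at h9
    rw [h0]
    by_cases hM : 0 ≤ M
    · exact mul_nonneg hM h5
    · have h10 : M * (v.1 ^ 2 + v.2 ^ 2) ≤ 0 :=
        mul_nonpos_of_nonpos_of_nonneg (le_of_lt (not_le.1 hM)) (by positivity)
      have h11 : I = 0 := le_antisymm (h9.trans h10) h5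
      rw [h11, mul_zero]
  · have hpos : 0 < P.1 ^ 2 + P.2 ^ 2 := lt_of_le_of_ne (by positivity) (Ne.symm h0)
    have hq : (P.1 ^ 2 + P.2 ^ 2) ^ 2 ≤ I * g.inn p P P := by
      have h12 : (P.1 ^ 2 + P.2 ^ 2) ^ 2 ≤ (g.len p v * g.len p P) ^ 2 := by
        apply pow_le_pow_left₀ hpos.le
        rw [hS]; exact h7
      rw [mul_pow, h8, h8'] at h12
      exact h12
    have h2 : (P.1 ^ 2 + P.2 ^ 2) * (P.1 ^ 2 + P.2 ^ 2) ≤ M * I * (P.1 ^ 2 + P.2 ^ 2) := by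
      calc (P.1 ^ 2 + P.2 ^ 2) * (P.1 ^ 2 + P.2 ^ 2) = (P.1 ^ 2 + P.2 ^ 2) ^ 2 := by ring
        _ ≤ I * g.inn p P P := hq
        _ ≤ I * (M * (P.1 ^ 2 + P.2 ^ 2)) := mul_le_mul_of_nonneg_left h1 h5
        _ = M * I * (P.1 ^ 2 + P.2 ^ 2) := by ring
    exact le_of_mul_le_mul_right h2 hpos

theorem gfl_ener (g : KleinMetric) (χ : (ℝ × ℝ) × (ℝ × ℝ) → ℝ)
    (γ : ℝ → (ℝ × ℝ) × (ℝ × ℝ)) (hγ : ∀ τ, HasDerivAt γ (χ (γ τ) • g.field (γ τ)) τ) (τ : ℝ) :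
    g.ener (γ τ) = g.ener (γ 0) := by
  have hd : ∀ s, HasDerivAt (fun s => g.ener (γ s)) 0 s := by
    intro s
    have h1 : DifferentiableAt ℝ g.ener (γ s) :=
      ((field_smooth g).2.differentiable (by simp)).differentiableAt
    have h2 := h1.hasFDerivAt.comp_hasDerivAt s (hγ s)
    have h3 : fderiv ℝ g.ener (γ s) (χ (γ s) • g.field (γ s)) = 0 := by
      rw [map_smul, ener_fderiv]
      show χ (γ s) • (-((g.vel (γ s)).1 * g.force (γ s).1 (g.vel (γ s)) (1, 0)) -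
        (g.vel (γ s)).2 * g.force (γ s).1 (g.vel (γ s)) (0, 1) +
        g.force (γ s).1 (g.vel (γ s)) (1, 0) * (g.vel (γ s)).1 +
        g.force (γ s).1 (g.vel (γ s)) (0, 1) * (g.vel (γ s)).2) = 0
      rw [smul_eq_mul]
      ring
    rw [h3] at h2
    exact h2
  exact is_const_of_deriv_eq_zero (fun s => (hd s).differentiableAt) (fun s => (hd s).deriv) τ 0

theorem gfl_bounds (g : KleinMetric) (m M A : ℝ) (hm : 0 < m) (hM : 0 < M)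
    (hell : ∀ p v : ℝ × ℝ,
      m * (v.1 ^ 2 + v.2 ^ 2) ≤ g.inn p v v ∧ g.inn p v v ≤ M * (v.1 ^ 2 + v.2 ^ 2))
    (hA1 : 1 ≤ A) (hA2 : 2 * M / m ≤ A) (hA3 : 2 / m ^ 2 ≤ A)
    (z z0 : (ℝ × ℝ) × (ℝ × ℝ)) (he : g.ener z = g.ener z0) :
    ‖z.2‖ ≤ A * ‖z0‖ ∧ ‖g.vel z‖ ≤ A * ‖z0‖ := by
  obtain ⟨-, -, -, -, -, -, -, -, h9⟩ := alg g z.1 (g.vel z) 0
  obtain ⟨-, -, -, -, -, -, -, -, h9'⟩ := alg g z0.1 (g.vel z0) 0
  have hz : g.mom z.1 (g.vel z) = z.2 := h9 z.2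
  have hz0 : g.mom z0.1 (g.vel z0) = z0.2 := h9' z0.2
  have e1 : g.ener z = g.inn z.1 (g.vel z) (g.vel z) / 2 := by
    obtain ⟨-, h2, -⟩ := alg g z.1 (g.vel z) 0
    rw [hz] at h2
    exact h2
  have e2 : g.ener z0 = g.inn z0.1 (g.vel z0) (g.vel z0) / 2 := by
    obtain ⟨-, h2, -⟩ := alg g z0.1 (g.vel z0) 0
    rw [hz0] at h2
    exact h2
  have hA := gfl_A g m M hm hell z0.1 (g.vel z0)
  have hB := gfl_B g m M hell z.1 (g.vel z)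
  rw [hz0] at hA
  rw [hz] at hB
  have hv := (hell z.1 (g.vel z)).1
  have hI : g.inn z.1 (g.vel z) (g.vel z) = g.inn z0.1 (g.vel z0) (g.vel z0) := by
    rw [e1, e2] at he; linarith
  rw [hI] at hB hv
  set I := g.inn z0.1 (g.vel z0) (g.vel z0) with hIdef
  have hR : 0 ≤ ‖z0‖ := norm_nonneg _
  have hn1 : |z0.2.1| ≤ ‖z0‖ := (norm_fst_le z0.2).trans (norm_snd_le z0)
  have hn2 : |z0.2.2| ≤ ‖z0‖ := (norm_snd_le z0.2).trans (norm_snd_le z0)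
  have hq1 : z0.2.1 ^ 2 ≤ ‖z0‖ ^ 2 := by
    rw [← sq_abs]; exact pow_le_pow_left₀ (abs_nonneg _) hn1 2
  have hq2 : z0.2.2 ^ 2 ≤ ‖z0‖ ^ 2 := by
    rw [← sq_abs]; exact pow_le_pow_left₀ (abs_nonneg _) hn2 2
  have hI2 : I ≤ 2 / m * ‖z0‖ ^ 2 := by
    have : m * I ≤ 2 * ‖z0‖ ^ 2 := by linarith
    rw [div_mul_eq_mul_div, le_div_iff₀ hm]; linarith
  have hR2 : 0 ≤ ‖z0‖ ^ 2 := by positivity
  have hAsq : A ≤ A ^ 2 := by nlinarith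
  have hP : z.2.1 ^ 2 + z.2.2 ^ 2 ≤ (A * ‖z0‖) ^ 2 := by
    calc z.2.1 ^ 2 + z.2.2 ^ 2 ≤ M * I := hB
      _ ≤ M * (2 / m * ‖z0‖ ^ 2) := mul_le_mul_of_nonneg_left hI2 hM.le
      _ = 2 * M / m * ‖z0‖ ^ 2 := by ring
      _ ≤ A ^ 2 * ‖z0‖ ^ 2 := mul_le_mul_of_nonneg_right (hA2.trans hAsq) hR2
      _ = _ := by ring
  have hV : (g.vel z).1 ^ 2 + (g.vel z).2 ^ 2 ≤ (A * ‖z0‖) ^ 2 := by
    have h1 : m * ((g.vel z).1 ^ 2 + (g.vel z).2 ^ 2) ≤ 2 / m * ‖z0‖ ^ 2 := hv.trans hI2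
    have h2 : (g.vel z).1 ^ 2 + (g.vel z).2 ^ 2 ≤ 2 / m ^ 2 * ‖z0‖ ^ 2 := by
      have h3 : m * (2 / m ^ 2 * ‖z0‖ ^ 2) = 2 / m * ‖z0‖ ^ 2 := by
        field_simp
      rw [← h3] at h1
      exact le_of_mul_le_mul_left h1 hm
    calc (g.vel z).1 ^ 2 + (g.vel z).2 ^ 2 ≤ 2 / m ^ 2 * ‖z0‖ ^ 2 := h2
      _ ≤ A ^ 2 * ‖z0‖ ^ 2 := mul_le_mul_of_nonneg_right (hA3.trans hAsq) hR2
      _ = _ := by ring
  have hAR : 0 ≤ A * ‖z0‖ := mul_nonneg (by linarith) hR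
  have key : ∀ w : ℝ × ℝ, w.1 ^ 2 + w.2 ^ 2 ≤ (A * ‖z0‖) ^ 2 → ‖w‖ ≤ A * ‖z0‖ := by
    intro w hw
    rw [Prod.norm_def]
    apply max_le
    · rw [Real.norm_eq_abs]
      exact abs_le_of_sq_le_sq (by nlinarith [sq_nonneg w.2]) hAR
    · rw [Real.norm_eq_abs]
      exact abs_le_of_sq_le_sq (by nlinarith [sq_nonneg w.1]) hAR
  exact ⟨key _ hP, key _ hV⟩

theorem geo_flow (g : KleinMetric) : ∃ φ, g.IsFlow φ := by
  obtain ⟨m, M, hm, hM, hell⟩ := ellip g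
  set A : ℝ := 1 + 2 * M / m + 2 / m ^ 2 with hA
  have hx : 0 < 2 * M / m := by positivity
  have hy : 0 < 2 / m ^ 2 := by positivity
  have hA1 : 1 ≤ A := by linarith
  have hA0 : 0 ≤ A := by linarith
  have hA2 : 2 * M / m ≤ A := by linarith
  have hA3 : 2 / m ^ 2 ≤ A := by linarith
  obtain ⟨φ, h1, h2, h3⟩ := global_flow (V := g.field) (field_smooth g).1
    (fun R T => A * (1 + T) * R)
    (by
      intro R R' T T' hR hRR hT hTT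
      show A * (1 + T) * R ≤ A * (1 + T') * R'
      have h1 : A * (1 + T) ≤ A * (1 + T') := mul_le_mul_of_nonneg_left (by linarith) hA0
      exact mul_le_mul h1 hRR hR (mul_nonneg hA0 (by linarith)))
    (by
      intro χ hχ γ hγ τ
      show ‖γ τ‖ ≤ A * (1 + |τ|) * ‖γ 0‖
      have hb : ∀ s, ‖(γ s).2‖ ≤ A * ‖γ 0‖ ∧ ‖g.vel (γ s)‖ ≤ A * ‖γ 0‖ := fun s =>
        gfl_bounds g m M A hm hM hell hA1 hA2 hA3 _ _ (gfl_ener g χ γ hγ s)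
      have hfst : ∀ s, HasDerivAt (fun s => (γ s).1) (χ (γ s) • g.vel (γ s)) s := by
        intro s
        have h := (hasFDerivAt_fst (𝕜 := ℝ) (p := γ s)).comp_hasDerivAt s (hγ s)
        exact h
      have hmv := Convex.norm_image_sub_le_of_norm_hasDerivWithin_le
        (f := fun s => (γ s).1) (f' := fun s => χ (γ s) • g.vel (γ s)) (C := A * ‖γ 0‖)
        (s := Set.univ) (x := 0) (y := τ)
        (fun s _ => (hfst s).hasDerivWithinAt)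
        (fun s _ => by
          rw [norm_smul, Real.norm_eq_abs, abs_of_nonneg (hχ (γ s)).1]
          calc χ (γ s) * ‖g.vel (γ s)‖ ≤ 1 * ‖g.vel (γ s)‖ :=
                mul_le_mul_of_nonneg_right (hχ (γ s)).2 (norm_nonneg _)
            _ = ‖g.vel (γ s)‖ := one_mul _
            _ ≤ A * ‖γ 0‖ := (hb s).2)
        convex_univ (Set.mem_univ _) (Set.mem_univ _)
      have hR : 0 ≤ ‖γ 0‖ := norm_nonneg _
      have ht : 0 ≤ |τ| := abs_nonneg _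
      rw [Prod.norm_def]
      apply max_le
      · have h4 : ‖(γ τ).1‖ ≤ ‖(γ 0).1‖ + A * ‖γ 0‖ * |τ| := by
          have h5 : ‖(γ τ).1 - (γ 0).1‖ ≤ A * ‖γ 0‖ * ‖τ - 0‖ := hmv
          rw [sub_zero, Real.norm_eq_abs] at h5
          have h6 : (γ τ).1 = (γ 0).1 + ((γ τ).1 - (γ 0).1) := by abel
          calc ‖(γ τ).1‖ = ‖(γ 0).1 + ((γ τ).1 - (γ 0).1)‖ := by rw [← h6]
            _ ≤ ‖(γ 0).1‖ + ‖(γ τ).1 - (γ 0).1‖ := norm_add_le _ _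
            _ ≤ _ := by linarith
        have h7 : ‖(γ 0).1‖ ≤ ‖γ 0‖ := norm_fst_le _
        calc ‖(γ τ).1‖ ≤ 1 * ‖γ 0‖ + A * ‖γ 0‖ * |τ| := by linarith
          _ ≤ A * ‖γ 0‖ + A * ‖γ 0‖ * |τ| := by
            have := mul_le_mul_of_nonneg_right hA1 hR
            linarith
          _ = _ := by ring
      · have h8 := (hb τ).1
        have h9 : 0 ≤ A * ‖γ 0‖ * |τ| := by positivity
        calc ‖(γ τ).2‖ ≤ A * ‖γ 0‖ := h8
          _ ≤ A * ‖γ 0‖ + A * ‖γ 0‖ * |τ| := by linarith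
          _ = _ := by ring)
  exact ⟨φ, h1, h2, h3⟩

end KleinEmb
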