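import Pool.Agent.Helper719.Emb.Defs
import Pool.Agent.Helper719.Emb.P_ham
import Pool.Agent.Helper719.Emb.P_geo_flow
import Pool.Agent.Helper719.Emb.P_exp_eq

open scoped ContDiff Topology ENNReal
open Set MeasureTheory Filter

noncomputable section

namespace KleinEmb



theorem exp_smooth (g : KleinMetric) (p : ℝ × ℝ) : ContDiff ℝ 2 (g.expMap p) := by
  obtain ⟨φ, hφ⟩ := geo_flow g
  have h1 : g.expMap p = fun v => (φ 1 (p, g.mom p v)).1 := by
    funext v
    exact exp_eq g φ hφ p v
  rw [h1]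
  have h2 : ContDiff ℝ 2 (fun v : ℝ × ℝ => ((1 : ℝ), (p, g.mom p v))) := by
    unfold KleinMetric.mom
    fun_prop
  have h3 := hφ.2.2.comp h2
  exact contDiff_fst.comp h3

end KleinEmb
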