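import Pool.Agent.Helper719.Emb.Defs
import Pool.Agent.Helper719.Emb.P_ham
import Pool.Agent.Helper719.Emb.P_alg
import Pool.Agent.Helper719.Emb.P_geo_flow
import Pool.Agent.Helper719.Emb.P_geo_of_flow

open scoped ContDiff Topology ENNReal
open Set MeasureTheory Filter

noncomputable section

namespace KleinEmb



theorem exp_spec (g : KleinMetric) (p v : ℝ × ℝ) :
    ∃ γ : ℝ → ℝ × ℝ, g.IsGeodesic γ ∧ γ 0 = p ∧ deriv γ 0 = v ∧ g.expMap p v = γ 1 := by
  have h : ∃ γ : ℝ → ℝ × ℝ, g.IsGeodesic γ ∧ γ 0 = p ∧ deriv γ 0 = v := by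
    obtain ⟨φ, hφ⟩ := geo_flow g
    obtain ⟨h1, h2⟩ := geo_of_flow g φ hφ p v
    refine ⟨fun t => (φ t (p, g.mom p v)).1, h1, ?_, ?_⟩
    · show (φ 0 (p, g.mom p v)).1 = p
      rw [hφ.1]
    · rw [h2 0, hφ.1]
      exact (alg g p v v).1
  refine ⟨Classical.choose h, (Classical.choose_spec h).1, (Classical.choose_spec h).2.1,
    (Classical.choose_spec h).2.2, ?_⟩
  unfold KleinMetric.expMap
  rw [dif_pos h]

end KleinEmb
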