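import Pool.Agent.Helper719.Emb.Defs
import Pool.Agent.Helper719.Emb.P_ham
import Pool.Agent.Helper719.Emb.P_alg
import Pool.Agent.Helper719.Emb.P_geo_flow
import Pool.Agent.Helper719.Emb.P_flow_of_geo
import Pool.Agent.Helper719.Emb.P_exp_eq
import Pool.Agent.Helper719.Emb.P_exp_spec
import Pool.Agent.Helper719.Emb.P_exp_smooth

open scoped ContDiff Topology ENNReal
open Set MeasureTheory Filter

noncomputable section

namespace KleinEmb



theorem geo_scale (g : KleinMetric) (γ : ℝ → ℝ × ℝ) (hγ : g.IsGeodesic γ) (s : ℝ) :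
    g.IsGeodesic (fun t => γ (s * t)) := by
  have hd : ∀ r, deriv (fun t => γ (s * t)) r = s • deriv γ (s * r) := fun r =>
    deriv_comp_mul_left s γ r
  refine ⟨hγ.1.comp (contDiff_const.mul contDiff_id), fun t => ?_⟩
  obtain ⟨h1, h2⟩ := hγ.2 (s * t)
  constructor
  · have e1 : (fun r => g.E (γ (s * r)) * (deriv (fun t => γ (s * t)) r).1 +
        g.F (γ (s * r)) * (deriv (fun t => γ (s * t)) r).2) =
        fun r => s * (fun u => g.E (γ u) * (deriv γ u).1 + g.F (γ u) * (deriv γ u).2) (s * r) := by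
      funext r
      rw [hd]
      simp only [Prod.smul_fst, Prod.smul_snd, smul_eq_mul]
      ring
    rw [e1, deriv_const_mul_field,
      deriv_comp_mul_left s (fun u => g.E (γ u) * (deriv γ u).1 + g.F (γ u) * (deriv γ u).2) t,
      h1, hd]
    simp only [Prod.smul_fst, Prod.smul_snd, smul_eq_mul]
    ring
  · have e1 : (fun r => g.F (γ (s * r)) * (deriv (fun t => γ (s * t)) r).1 +
        g.G (γ (s * r)) * (deriv (fun t => γ (s * t)) r).2) =
        fun r => s * (fun u => g.F (γ u) * (deriv γ u).1 + g.G (γ u) * (deriv γ u).2) (s * r) := by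
      funext r
      rw [hd]
      simp only [Prod.smul_fst, Prod.smul_snd, smul_eq_mul]
      ring
    rw [e1, deriv_const_mul_field,
      deriv_comp_mul_left s (fun u => g.F (γ u) * (deriv γ u).1 + g.G (γ u) * (deriv γ u).2) t,
      h2, hd]
    simp only [Prod.smul_fst, Prod.smul_snd, smul_eq_mul]
    ring

theorem exp_zero (g : KleinMetric) (p w : ℝ × ℝ) :
    g.expMap p 0 = p ∧ fderiv ℝ (g.expMap p) 0 w = w := by
  obtain ⟨φ, hφ⟩ := geo_flow g
  obtain ⟨γ, hγ, h0, h1, -⟩ := exp_spec g p w
  have key : ∀ s : ℝ, g.expMap p (s • w) = γ s := by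
    intro s
    have h2 := flow_of_geo g φ hφ _ (geo_scale g γ hγ s) 1
    have h3 : deriv (fun t => γ (s * t)) 0 = s • w := by
      rw [deriv_comp_mul_left s γ 0, mul_zero, h1]
    rw [h3] at h2
    simp only [mul_zero, mul_one, h0] at h2
    rw [exp_eq g φ hφ, ← h2]
  constructor
  · have := key 0
    rw [zero_smul, h0] at this
    exact this
  · have hdiff : DifferentiableAt ℝ (g.expMap p) ((0 : ℝ) • w) :=
      ((exp_smooth g p).differentiable (by norm_num)).differentiableAt
    have hs : HasDerivAt (fun s : ℝ => s • w) w 0 := by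
      simpa using (hasDerivAt_id (0 : ℝ)).smul_const w
    have h2 := hdiff.hasFDerivAt.comp_hasDerivAt (0 : ℝ) hs
    have h3 : (g.expMap p) ∘ (fun s : ℝ => s • w) = γ := funext key
    rw [h3] at h2
    rw [zero_smul] at h2
    rw [← h2.deriv, h1]

end KleinEmb
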