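import Pool.Agent.Helper719.Emb.Defs
import Pool.Agent.Helper719.Emb.P_ham
import Pool.Agent.Helper719.Emb.P_field_smooth
import Pool.Agent.Helper719.Emb.P_ener_fderiv

open scoped ContDiff Topology ENNReal
open Set MeasureTheory Filter

noncomputable section

namespace KleinEmb



theorem flow_ener (g : KleinMetric) (φ) (hφ : g.IsFlow φ) (z) (t : ℝ) :
    g.ener (φ t z) = g.ener z := by
  have hd : Differentiable ℝ g.ener := (field_smooth g).2.differentiable (by simp)
  have h1 : ∀ s, HasDerivAt (fun s => g.ener (φ s z)) 0 s := by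
    intro s
    have h2 := (hd (φ s z)).hasFDerivAt.comp_hasDerivAt s (hφ.2.1 z s)
    have h3 : fderiv ℝ g.ener (φ s z) (g.field (φ s z)) = 0 := by
      rw [ener_fderiv]
      show -((g.vel (φ s z)).1 * g.force (φ s z).1 (g.vel (φ s z)) (1, 0)) -
        (g.vel (φ s z)).2 * g.force (φ s z).1 (g.vel (φ s z)) (0, 1) +
        g.force (φ s z).1 (g.vel (φ s z)) (1, 0) * (g.vel (φ s z)).1 +
        g.force (φ s z).1 (g.vel (φ s z)) (0, 1) * (g.vel (φ s z)).2 = 0
      ring
    rw [h3] at h2
    exact h2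
  have h4 := is_const_of_deriv_eq_zero (𝕜 := ℝ) (f := fun s => g.ener (φ s z))
    (fun s => (h1 s).differentiableAt) (fun s => (h1 s).deriv) t 0
  have h5 : g.ener (φ t z) = g.ener (φ 0 z) := h4
  rw [h5, hφ.1]

end KleinEmb
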