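import Pool.Agent.Helper719.Emb.Defs
import Pool.Agent.Helper719.Emb.P_variation
import Pool.Agent.Helper719.Emb.P_ham
import Pool.Agent.Helper719.Emb.P_alg
import Pool.Agent.Helper719.Emb.P_field_smooth
import Pool.Agent.Helper719.Emb.P_ener_fderiv
import Pool.Agent.Helper719.Emb.P_flow_ener

open scoped ContDiff Topology ENNReal
open Set MeasureTheory Filter

noncomputable section

namespace KleinEmb



private theorem gf_euler (g : KleinMetric) (z ζ : (ℝ × ℝ) × (ℝ × ℝ)) :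
    ζ.2.1 * (g.vel z).1 + z.2.1 * (fderiv ℝ g.field z ζ).1.1
      + (ζ.2.2 * (g.vel z).2 + z.2.2 * (fderiv ℝ g.field z ζ).1.2) = 2 * fderiv ℝ g.ener z ζ := by
  have hsm := field_smooth g
  have hF : HasFDerivAt g.field (fderiv ℝ g.field z) z :=
    (hsm.1.differentiable (by simp)).differentiableAt.hasFDerivAt
  have hE : HasFDerivAt g.ener (fderiv ℝ g.ener z) z :=
    (hsm.2.differentiable (by simp)).differentiableAt.hasFDerivAt
  have hline : HasDerivAt (fun s : ℝ => z + s • ζ) ζ 0 := by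
    have h := ((hasDerivAt_id (0 : ℝ)).smul_const ζ).const_add z
    simpa using h
  have hz0 : z + (0 : ℝ) • ζ = z := by simp
  have hF' : HasDerivAt (fun s : ℝ => g.field (z + s • ζ)) (fderiv ℝ g.field z ζ) 0 := by
    have h : HasFDerivAt g.field (fderiv ℝ g.field z) (z + (0 : ℝ) • ζ) := by rw [hz0]; exact hF
    exact h.comp_hasDerivAt (0 : ℝ) hline
  have hE' : HasDerivAt (fun s : ℝ => g.ener (z + s • ζ)) (fderiv ℝ g.ener z ζ) 0 := by
    have h : HasFDerivAt g.ener (fderiv ℝ g.ener z) (z + (0 : ℝ) • ζ) := by rw [hz0]; exact hE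
    exact h.comp_hasDerivAt (0 : ℝ) hline
  have hP : HasDerivAt (fun s : ℝ => (z + s • ζ).2) ζ.2 0 := hline.snd
  have hP1 : HasDerivAt (fun s : ℝ => (z + s • ζ).2.1) ζ.2.1 0 := hP.fst
  have hP2 : HasDerivAt (fun s : ℝ => (z + s • ζ).2.2) ζ.2.2 0 := hP.snd
  have hV : HasDerivAt (fun s : ℝ => (g.field (z + s • ζ)).1) (fderiv ℝ g.field z ζ).1 0 := hF'.fst
  have hV1 : HasDerivAt (fun s : ℝ => (g.field (z + s • ζ)).1.1) (fderiv ℝ g.field z ζ).1.1 0 := hV.fst
  have hV2 : HasDerivAt (fun s : ℝ => (g.field (z + s • ζ)).1.2) (fderiv ℝ g.field z ζ).1.2 0 := hV.snd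
  have hsum := (hP1.mul hV1).add (hP2.mul hV2)
  have hE2 := hE'.const_mul 2
  have hfun : ((fun s : ℝ => (z + s • ζ).2.1) * (fun s : ℝ => (g.field (z + s • ζ)).1.1)
      + (fun s : ℝ => (z + s • ζ).2.2) * (fun s : ℝ => (g.field (z + s • ζ)).1.2))
      = fun s : ℝ => 2 * g.ener (z + s • ζ) := by
    funext s
    simp only [Pi.add_apply, Pi.mul_apply, KleinMetric.field, KleinMetric.ener]
    ring
  rw [hfun] at hsum
  have h := hsum.unique hE2
  rw [hz0] at h
  have hfv : (g.field z).1 = g.vel z := rfl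
  rw [hfv] at h
  linarith [h]

private theorem gf_deriv (g : KleinMetric) (φ) (hφ : g.IsFlow φ) (z w : (ℝ × ℝ) × (ℝ × ℝ)) (t : ℝ) :
    HasDerivAt (fun t => (φ t z).2.1 * (fderiv ℝ (φ t) z w).1.1 + (φ t z).2.2 * (fderiv ℝ (φ t) z w).1.2)
      (fderiv ℝ g.ener z w) t := by
  have hsm := field_smooth g
  have hvar := variation g.field hsm.1 φ (fun p τ => hφ.2.1 p τ) hφ.2.2 z w t
  have hfl := hφ.2.1 z t
  set ζ := fderiv ℝ (φ t) z w with hζ
  have hP : HasDerivAt (fun s : ℝ => (φ s z).2) (g.field (φ t z)).2 t := hfl.snd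
  have hP1 : HasDerivAt (fun s : ℝ => (φ s z).2.1) (g.field (φ t z)).2.1 t := hP.fst
  have hP2 : HasDerivAt (fun s : ℝ => (φ s z).2.2) (g.field (φ t z)).2.2 t := hP.snd
  have hX : HasDerivAt (fun s : ℝ => (fderiv ℝ (φ s) z w).1) (fderiv ℝ g.field (φ t z) ζ).1 t := hvar.fst
  have hX1 : HasDerivAt (fun s : ℝ => (fderiv ℝ (φ s) z w).1.1) (fderiv ℝ g.field (φ t z) ζ).1.1 t := hX.fst
  have hX2 : HasDerivAt (fun s : ℝ => (fderiv ℝ (φ s) z w).1.2) (fderiv ℝ g.field (φ t z) ζ).1.2 t := hX.snd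
  have hsum := (hP1.mul hX1).add (hP2.mul hX2)
  -- differentiability of φ t
  have hdiff : DifferentiableAt ℝ (φ t) z := by
    have h1 : ContDiff ℝ 2 (fun y : (ℝ × ℝ) × (ℝ × ℝ) => φ t y) :=
      hφ.2.2.comp (contDiff_const.prodMk contDiff_id : ContDiff ℝ 2 (fun y : (ℝ × ℝ) × (ℝ × ℝ) => (t, y)))
    exact (h1.differentiable (by simp)).differentiableAt
  have hE : HasFDerivAt g.ener (fderiv ℝ g.ener (φ t z)) (φ t z) :=
    (hsm.2.differentiable (by simp)).differentiableAt.hasFDerivAt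
  have hEz : HasFDerivAt g.ener (fderiv ℝ g.ener z) z :=
    (hsm.2.differentiable (by simp)).differentiableAt.hasFDerivAt
  have hcomp := hE.comp z hdiff.hasFDerivAt
  have hfun : g.ener ∘ φ t = g.ener := by
    funext y
    exact flow_ener g φ hφ y t
  rw [hfun] at hcomp
  have huniq := hcomp.unique hEz
  have happ : fderiv ℝ g.ener (φ t z) ζ = fderiv ℝ g.ener z w := by
    rw [← huniq]; rfl
  have heul := gf_euler g (φ t z) ζ
  have hef := ener_fderiv g (φ t z) ζ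
  have hf2 : (g.field (φ t z)).2 = (g.force (φ t z).1 (g.vel (φ t z)) (1, 0), g.force (φ t z).1 (g.vel (φ t z)) (0, 1)) := rfl
  have hval : (g.field (φ t z)).2.1 * ζ.1.1 + (φ t z).2.1 * (fderiv ℝ g.field (φ t z) ζ).1.1
      + ((g.field (φ t z)).2.2 * ζ.1.2 + (φ t z).2.2 * (fderiv ℝ g.field (φ t z) ζ).1.2)
      = fderiv ℝ g.ener z w := by
    rw [hf2, ← happ]
    simp only
    linarith
  have hsum' := hsum.congr_deriv hval
  exact hsum'

theorem gauss_flow (g : KleinMetric) (φ) (hφ : g.IsFlow φ) (p v w : ℝ × ℝ) (t : ℝ) :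
    (φ t (p, g.mom p v)).2.1 * (fderiv ℝ (φ t) (p, g.mom p v) (0, g.mom p w)).1.1 +
      (φ t (p, g.mom p v)).2.2 * (fderiv ℝ (φ t) (p, g.mom p v) (0, g.mom p w)).1.2
      = t * g.inn p v w := by
  set z : (ℝ × ℝ) × (ℝ × ℝ) := (p, g.mom p v) with hz
  set w' : (ℝ × ℝ) × (ℝ × ℝ) := (0, g.mom p w) with hw'
  have hc : fderiv ℝ g.ener z w' = g.inn p v w := by
    rw [ener_fderiv g z w', hz, (alg g p v w).1, hw']
    have h1 := (alg g p w v).2.2.1
    have h2 := (alg g p v w).2.2.2.1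
    simp only [Prod.fst_zero, Prod.snd_zero, zero_mul, neg_zero]
    linarith
  have hd := gf_deriv g φ hφ z w'
  have hd0 : ∀ s, HasDerivAt (fun t => (φ t z).2.1 * (fderiv ℝ (φ t) z w').1.1
      + (φ t z).2.2 * (fderiv ℝ (φ t) z w').1.2 - t * g.inn p v w) 0 s := by
    intro s
    have h1 := (hd s).sub ((hasDerivAt_id s).mul_const (g.inn p v w))
    rw [hc] at h1
    have h2 : g.inn p v w - 1 * g.inn p v w = 0 := by ring
    rw [h2] at h1
    exact h1
  have hconst := is_const_of_deriv_eq_zero (f := fun t => (φ t z).2.1 * (fderiv ℝ (φ t) z w').1.1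
      + (φ t z).2.2 * (fderiv ℝ (φ t) z w').1.2 - t * g.inn p v w)
      (fun s => (hd0 s).differentiableAt) (fun s => (hd0 s).deriv) t 0
  have hφ0 : φ 0 = id := funext hφ.1
  have h0 : (fderiv ℝ (φ 0) z w').1 = 0 := by
    rw [hφ0, fderiv_id]
    rfl
  simp only [h0, Prod.fst_zero, Prod.snd_zero, mul_zero, zero_mul, add_zero, sub_zero] at hconst
  linarith

end KleinEmb
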