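import Pool.Agent.Helper719.Emb.Defs
import Pool.Agent.Helper719.Emb.P_ham
import Pool.Agent.Helper719.Emb.P_alg
import Pool.Agent.Helper719.Emb.P_geo_flow
import Pool.Agent.Helper719.Emb.P_flow_ener
import Pool.Agent.Helper719.Emb.P_exp_eq
import Pool.Agent.Helper719.Emb.P_gauss_flow

open scoped ContDiff Topology ENNReal
open Set MeasureTheory Filter

noncomputable section

namespace KleinEmb



theorem gauss (g : KleinMetric) (p v w : ℝ × ℝ) :
    |g.inn p v w| ≤ g.len p v * g.len (g.expMap p v) (fderiv ℝ (g.expMap p) v w) := by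
  obtain ⟨φ, hφ⟩ := geo_flow g
  -- the momentum map as a continuous linear map
  let L : (ℝ × ℝ) →L[ℝ] (ℝ × ℝ) :=
    ((g.E p) • ContinuousLinearMap.fst ℝ ℝ ℝ + (g.F p) • ContinuousLinearMap.snd ℝ ℝ ℝ).prod
      ((g.F p) • ContinuousLinearMap.fst ℝ ℝ ℝ + (g.G p) • ContinuousLinearMap.snd ℝ ℝ ℝ)
  have hL : ∀ x, L x = g.mom p x := by
    intro x
    simp [L, KleinMetric.mom]
  have hexp : g.expMap p = fun x => (φ 1 (p, L x)).1 := by
    funext x
    rw [exp_eq g φ hφ, hL]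
  have hd1 : Differentiable ℝ (φ 1) := by
    have h2 : ContDiff ℝ 2 (φ 1) := by
      have := hφ.2.2.comp (contDiff_prodMk_right (𝕜 := ℝ) (n := 2)
        (E := ℝ) (F := (ℝ × ℝ) × (ℝ × ℝ)) 1)
      exact this
    exact h2.differentiable (by norm_num)
  set z : (ℝ × ℝ) × (ℝ × ℝ) := (p, g.mom p v) with hz
  have hfd : fderiv ℝ (g.expMap p) v w = (fderiv ℝ (φ 1) z (0, g.mom p w)).1 := by
    rw [hexp]
    have hin : HasFDerivAt (fun x : ℝ × ℝ => ((p, L x) : (ℝ × ℝ) × (ℝ × ℝ)))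
        ((0 : (ℝ × ℝ) →L[ℝ] (ℝ × ℝ)).prod L) v :=
      (hasFDerivAt_const p v).prodMk L.hasFDerivAt
    have hout : HasFDerivAt (φ 1) (fderiv ℝ (φ 1) z) ((p, L v) : (ℝ × ℝ) × (ℝ × ℝ)) := by
      rw [hL, ← hz]
      exact (hd1 z).hasFDerivAt
    have hc := (hout.comp v hin).fst
    have hc' : HasFDerivAt (fun x => (φ 1 (p, L x)).1)
      ((ContinuousLinearMap.fst ℝ (ℝ × ℝ) (ℝ × ℝ)).comp ((fderiv ℝ (φ 1) z).comp
        ((0 : (ℝ × ℝ) →L[ℝ] (ℝ × ℝ)).prod L))) v := hc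
    rw [hc'.fderiv]
    simp [hL]
  rw [hfd]
  set ξ : ℝ × ℝ := (fderiv ℝ (φ 1) z (0, g.mom p w)).1 with hξ
  have hq : g.expMap p v = (φ 1 z).1 := exp_eq g φ hφ p v
  rw [hq]
  set q : ℝ × ℝ := (φ 1 z).1 with hqd
  set u : ℝ × ℝ := g.vel (φ 1 z) with hu
  have hmu : g.mom q u = (φ 1 z).2 := by
    have := (alg g q 0 0).2.2.2.2.2.2.2.2 (φ 1 z).2
    exact this
  have hgf := gauss_flow g φ hφ p v w 1
  rw [← hz] at hgf
  have h3 := (alg g q u ξ).2.2.1
  rw [hmu] at h3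
  have hinn : g.inn p v w = g.inn q u ξ := by
    rw [← h3]
    rw [one_mul] at hgf
    rw [← hgf]
  have hle := (alg g q u ξ).2.2.2.2.2.2.1
  have hle' := (alg g q u (-ξ)).2.2.2.2.2.2.1
  have hneg : g.inn q u (-ξ) = - g.inn q u ξ := by
    simp only [KleinMetric.inn, Prod.fst_neg, Prod.snd_neg]; ring
  have hlenneg : g.len q (-ξ) = g.len q ξ := by
    unfold KleinMetric.len
    congr 1
    simp only [KleinMetric.inn, Prod.fst_neg, Prod.snd_neg]; ring
  have huu : g.inn q u u = g.inn p v v := by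
    have e1 := (alg g q u 0).2.1
    have e2 := (alg g p v 0).2.1
    have e3 := flow_ener g φ hφ z 1
    rw [hmu] at e1
    have e4 : ((q, (φ 1 z).2) : (ℝ × ℝ) × (ℝ × ℝ)) = φ 1 z := rfl
    rw [e4, e3, hz, e2] at e1
    linarith
  have hlen : g.len q u = g.len p v := by
    unfold KleinMetric.len
    rw [huu]
  rw [hinn, ← hlen]
  rw [hneg, hlenneg] at hle'
  rw [abs_le]
  constructor
  · linarith
  · exact hle

end KleinEmb
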