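import Pool.Agent.Helper719.Emb.Defs
import Pool.Agent.Helper719.Emb.P_global_flow

open scoped ContDiff Topology ENNReal
open Set MeasureTheory Filter

noncomputable section

namespace KleinEmb



theorem hadamard_bij (Φ : ℝ × ℝ → ℝ × ℝ) (m : ℝ) (hm : 0 < m)
    (h : ∀ p v, m * ‖v‖ ≤ ‖fderiv ℝ Φ p v‖) (p : ℝ × ℝ) :
    ∃ e : (ℝ × ℝ) ≃L[ℝ] (ℝ × ℝ), (e : (ℝ × ℝ) →L[ℝ] (ℝ × ℝ)) = fderiv ℝ Φ p := by
  have hinj : Function.Injective ((fderiv ℝ Φ p : (ℝ × ℝ) →L[ℝ] (ℝ × ℝ)) : (ℝ × ℝ) →ₗ[ℝ] (ℝ × ℝ)) := by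
    rw [injective_iff_map_eq_zero]
    intro v hv
    have h1 := h p v
    have h2 : fderiv ℝ Φ p v = 0 := hv
    rw [h2, norm_zero] at h1
    have h3 : ‖v‖ ≤ 0 := by
      by_contra hc
      push Not at hc
      have := mul_pos hm hc
      linarith
    exact norm_le_zero_iff.1 h3
  refine ⟨(LinearEquiv.ofInjectiveEndo _ hinj).toContinuousLinearEquiv, ?_⟩
  apply ContinuousLinearMap.ext
  intro v
  rfl

/-- Hadamard's global inverse function theorem -/
theorem hadamard (Φ : ℝ × ℝ → ℝ × ℝ) (hΦ : ContDiff ℝ ∞ Φ) (m : ℝ) (hm : 0 < m)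
    (h : ∀ p v, m * ‖v‖ ≤ ‖fderiv ℝ Φ p v‖) : Function.Bijective Φ := by
  have hE := hadamard_bij Φ m hm h
  have hdiff : Differentiable ℝ Φ := hΦ.differentiable (by simp)
  have hinv : ∀ p w, fderiv ℝ Φ p ((fderiv ℝ Φ p).inverse w) = w := by
    intro p w
    obtain ⟨e, he⟩ := hE p
    rw [← he, ContinuousLinearMap.inverse_equiv]
    simp
  have hbound : ∀ p w, ‖(fderiv ℝ Φ p).inverse w‖ ≤ ‖w‖ / m := by
    intro p w
    have h1 := h p ((fderiv ℝ Φ p).inverse w)
    rw [hinv] at h1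
    rw [le_div_iff₀ hm]
    linarith
  let V : (ℝ × ℝ) × (ℝ × ℝ) → (ℝ × ℝ) × (ℝ × ℝ) :=
    fun q => (0, (fderiv ℝ Φ q.2).inverse q.1)
  have hV : ContDiff ℝ ∞ V := by
    refine contDiff_const.prodMk ?_
    have h1 : ContDiff ℝ ∞ (fun q : (ℝ × ℝ) × (ℝ × ℝ) => (fderiv ℝ Φ q.2).inverse) := by
      rw [contDiff_iff_contDiffAt]
      intro q
      obtain ⟨e, he⟩ := hE q.2
      have h2 : ContDiffAt ℝ ∞ (ContinuousLinearMap.inverse : ((ℝ × ℝ) →L[ℝ] (ℝ × ℝ)) → _)
          (fderiv ℝ Φ q.2) := by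
        rw [← he]
        exact contDiffAt_map_inverse e
      have h3 : ContDiff ℝ ∞ (fderiv ℝ Φ) := hΦ.fderiv_right (by simp)
      exact ContDiffAt.comp q h2 ((h3.comp contDiff_snd).contDiffAt)
    exact h1.clm_apply contDiff_fst
  obtain ⟨φ, hφ0, hφd, hφC⟩ := global_flow hV (fun R T => R * (1 + T / m))
    (by
      intro R R' T T' hR hRR hT hTT
      have : T / m ≤ T' / m := div_le_div_of_nonneg_right hTT hm.le
      have : 0 ≤ T / m := div_nonneg hT hm.le
      apply mul_le_mul hRR (by linarith) (by linarith) (by linarith))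
    (by
      intro χ hχ γ hγ τ
      have hc1 : ∀ τ, (γ τ).1 = (γ 0).1 := by
        intro τ
        have hd : ∀ s, HasDerivAt (fun s => (γ s).1) 0 s := by
          intro s
          have h0 : HasDerivAt (fun s => (γ s).1) (χ (γ s) • V (γ s)).1 s :=
            (ContinuousLinearMap.fst ℝ (ℝ × ℝ) (ℝ × ℝ)).hasFDerivAt.comp_hasDerivAt s (hγ s)
          have h00 : (χ (γ s) • V (γ s)).1 = 0 := by simp [V]
          rw [h00] at h0
          exact h0
        exact is_const_of_deriv_eq_zero (fun s => (hd s).differentiableAt)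
          (fun s => (hd s).deriv) τ 0
      have hc2 : ‖(γ τ).2 - (γ 0).2‖ ≤ ‖(γ 0).1‖ / m * ‖τ - 0‖ := by
        refine Convex.norm_image_sub_le_of_norm_hasDerivWithin_le (s := univ)
          (f := fun s => (γ s).2)
          (f' := fun s => χ (γ s) • (fderiv ℝ Φ (γ s).2).inverse (γ s).1)
          (fun s _ => (show HasDerivAt (fun s => (γ s).2)
            (χ (γ s) • (fderiv ℝ Φ (γ s).2).inverse (γ s).1) s from
            (ContinuousLinearMap.snd ℝ (ℝ × ℝ) (ℝ × ℝ)).hasFDerivAt.comp_hasDerivAt s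
              (hγ s)).hasDerivWithinAt) (fun s _ => ?_) convex_univ
          (mem_univ _) (mem_univ _)
        rw [norm_smul]
        have h1 := hbound (γ s).2 (γ s).1
        rw [hc1 s] at h1 ⊢
        have h2 := hχ (γ s)
        have h3 : ‖χ (γ s)‖ ≤ 1 := by
          rw [Real.norm_eq_abs, abs_of_nonneg h2.1]; exact h2.2
        calc ‖χ (γ s)‖ * ‖(fderiv ℝ Φ (γ s).2).inverse (γ 0).1‖
            ≤ 1 * (‖(γ 0).1‖ / m) := mul_le_mul h3 h1 (norm_nonneg _) (by norm_num)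
          _ = _ := one_mul _
      have hn1 : ‖(γ 0).1‖ ≤ ‖γ 0‖ := norm_fst_le _
      have hn2 : ‖(γ 0).2‖ ≤ ‖γ 0‖ := norm_snd_le _
      have hn0 : 0 ≤ ‖γ 0‖ := norm_nonneg _
      have habs : 0 ≤ |τ| / m := div_nonneg (abs_nonneg _) hm.le
      rw [Prod.norm_def]
      apply max_le
      · rw [hc1 τ]
        nlinarith
      · have h5 : ‖(γ τ).2‖ ≤ ‖(γ τ).2 - (γ 0).2‖ + ‖(γ 0).2‖ := by
          have := norm_add_le ((γ τ).2 - (γ 0).2) (γ 0).2
          simpa using this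
        rw [sub_zero, Real.norm_eq_abs] at hc2
        have h6 : ‖(γ 0).1‖ / m * |τ| ≤ ‖γ 0‖ * (|τ| / m) := by
          rw [div_mul_eq_mul_div, mul_div_assoc]
          exact mul_le_mul_of_nonneg_right hn1 habs
        linarith)
  -- the section
  let z0 : ℝ × ℝ := 0
  have hw : ∀ w t, (φ t (w, z0)).1 = w := by
    intro w t
    have hd : ∀ s, HasDerivAt (fun s => (φ s (w, z0)).1) 0 s := by
      intro s
      have h0 : HasDerivAt (fun s => (φ s (w, z0)).1) (V (φ s (w, z0))).1 s :=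
        (ContinuousLinearMap.fst ℝ (ℝ × ℝ) (ℝ × ℝ)).hasFDerivAt.comp_hasDerivAt s (hφd (w, z0) s)
      exact h0
    have := is_const_of_deriv_eq_zero (fun s => (hd s).differentiableAt)
          (fun s => (hd s).deriv) t 0
    rw [this, hφ0]
  let S : ℝ × ℝ → ℝ × ℝ := fun w => (φ 1 (w, z0)).2
  have hS : Continuous S := by
    have h1 : Continuous (fun z : ℝ × ((ℝ × ℝ) × (ℝ × ℝ)) => φ z.1 z.2) := hφC.continuous
    have h2 : Continuous (fun w : ℝ × ℝ => ((1 : ℝ), (w, z0))) := by fun_prop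
    exact (h1.comp h2).snd
  have hΦS : ∀ w, Φ (S w) = Φ z0 + w := by
    intro w
    have hd : ∀ s, HasDerivAt (fun s : ℝ => Φ ((φ s (w, z0)).2) - s • w) 0 s := by
      intro s
      have h1 : HasDerivAt (fun s => (φ s (w, z0)).2)
          ((fderiv ℝ Φ (φ s (w, z0)).2).inverse (φ s (w, z0)).1) s :=
        (ContinuousLinearMap.snd ℝ (ℝ × ℝ) (ℝ × ℝ)).hasFDerivAt.comp_hasDerivAt s (hφd (w, z0) s)
      have h2 : HasDerivAt (fun s => Φ ((φ s (w, z0)).2))
          (fderiv ℝ Φ (φ s (w, z0)).2 ((fderiv ℝ Φ (φ s (w, z0)).2).inverse (φ s (w, z0)).1)) s :=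
        (hdiff _).hasFDerivAt.comp_hasDerivAt s h1
      rw [hinv, hw] at h2
      have h3 : HasDerivAt (fun s : ℝ => s • w) ((1 : ℝ) • w) s := (hasDerivAt_id s).smul_const w
      have h4 := h2.sub h3
      have h40 : w - (1 : ℝ) • w = 0 := by simp
      rw [h40] at h4
      exact h4
    have h5 := is_const_of_deriv_eq_zero (fun s => (hd s).differentiableAt)
          (fun s => (hd s).deriv) 1 0
    simp only [hφ0, one_smul, zero_smul, sub_zero] at h5
    exact sub_eq_iff_eq_add.1 h5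
  have hsurj : Function.Surjective Φ := by
    intro y
    exact ⟨S (y - Φ z0), by rw [hΦS]; abel⟩
  have hR : ∀ z, S (Φ z - Φ z0) = z := by
    have hclosed : IsClosed {z | S (Φ z - Φ z0) = z} :=
      isClosed_eq (hS.comp (hΦ.continuous.sub continuous_const)) continuous_id
    have hopen : IsOpen {z | S (Φ z - Φ z0) = z} := by
      rw [isOpen_iff_mem_nhds]
      intro z1 hz1
      obtain ⟨e, he⟩ := hE z1
      have hst : HasStrictFDerivAt Φ (e : (ℝ × ℝ) →L[ℝ] (ℝ × ℝ)) z1 := by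
        rw [he]
        exact hΦ.contDiffAt.hasStrictFDerivAt (by simp)
      let ψ := hst.toOpenPartialHomeomorph Φ
      have hN : ψ.source ∈ 𝓝 z1 := ψ.open_source.mem_nhds hst.mem_toOpenPartialHomeomorph_source
      have hψinj : InjOn Φ ψ.source := by
        have := ψ.injOn
        simpa [ψ] using this
      have hcont : ContinuousAt (fun z => S (Φ z - Φ z0)) z1 :=
        (hS.comp (hΦ.continuous.sub continuous_const)).continuousAt
      have hz1' : S (Φ z1 - Φ z0) = z1 := hz1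
      have hpre : ∀ᶠ z in 𝓝 z1, S (Φ z - Φ z0) ∈ ψ.source := by
        apply hcont.eventually_mem
        show ψ.source ∈ 𝓝 (S (Φ z1 - Φ z0))
        rw [hz1']
        exact hN
      filter_upwards [hpre, hN] with z hz hz'
      apply hψinj hz hz'
      rw [hΦS]
      abel
    have huniv : {z | S (Φ z - Φ z0) = z} = univ := by
      apply IsClopen.eq_univ ⟨hclosed, hopen⟩
      refine ⟨S 0, ?_⟩
      show S (Φ (S 0) - Φ z0) = S 0
      rw [hΦS]
      simp
    intro z
    have : z ∈ {z | S (Φ z - Φ z0) = z} := by rw [huniv]; trivial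
    exact this
  refine ⟨?_, hsurj⟩
  intro a b hab
  rw [← hR a, ← hR b, hab]

end KleinEmb
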