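import Pool.Agent.Helper719.Emb.Defs
import Pool.Agent.Helper719.Emb.P_ham
import Pool.Agent.Helper719.Emb.P_alg
import Pool.Agent.Helper719.Emb.P_exp_smooth
import Pool.Agent.Helper719.Emb.P_gauss

open scoped ContDiff Topology ENNReal
open Set MeasureTheory Filter

noncomputable section

namespace KleinEmb



theorem ls_inn_deriv (g : KleinMetric) (p : ℝ × ℝ) (v : ℝ → ℝ × ℝ) (v' : ℝ × ℝ) (t : ℝ)
    (hv : HasDerivAt v v' t) :
    HasDerivAt (fun s => g.inn p (v s) (v s)) (2 * g.inn p (v t) v') t := by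
  have h1 : HasDerivAt (fun s => (v s).1) v'.1 t :=
    (hasFDerivAt_fst (𝕜 := ℝ) (p := v t)).comp_hasDerivAt t hv
  have h2 : HasDerivAt (fun s => (v s).2) v'.2 t :=
    (hasFDerivAt_snd (𝕜 := ℝ) (p := v t)).comp_hasDerivAt t hv
  have h3 := (((h1.mul h1).const_mul (g.E p)).add
    (((h1.mul h2).add (h2.mul h1)).const_mul (g.F p))).add ((h2.mul h2).const_mul (g.G p))
  unfold KleinMetric.inn
  refine h3.congr_deriv ?_
  ring

theorem ls_len_cont (g : KleinMetric) (c : ℝ → ℝ × ℝ) (hc : ContDiff ℝ 1 c) :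
    Continuous fun s => g.len (c s) (deriv c s) := by
  have h1 : Continuous c := hc.continuous
  have h2 : Continuous (deriv c) := hc.continuous_deriv le_rfl
  have hE := g.smooth_E.continuous
  have hF := g.smooth_F.continuous
  have hG := g.smooth_G.continuous
  unfold KleinMetric.len KleinMetric.inn
  fun_prop

theorem lift_step (g : KleinMetric) (p v₀ : ℝ × ℝ)
    (hb : Function.Bijective (fderiv ℝ (g.expMap p) v₀)) (c : ℝ → ℝ × ℝ) (hc : ContDiff ℝ 1 c)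
    (t₀ : ℝ) (h0 : g.expMap p v₀ = c t₀) :
    ∃ δ > 0, ∀ t, t₀ ≤ t → t < t₀ + δ → ∃ v, g.expMap p v = c t ∧
      g.len p v ≤ g.len p v₀ + ∫ s in t₀..t, g.len (c s) (deriv c s) := by
  set f := g.expMap p with hfdef
  have hfC : ContDiff ℝ 2 f := exp_smooth g p
  have hfd : ∀ x, HasFDerivAt f (fderiv ℝ f x) x := fun x =>
    ((hfC.differentiable (by norm_num)) x).hasFDerivAt
  obtain ⟨e, he⟩ : ∃ e : (ℝ × ℝ) ≃L[ℝ] (ℝ × ℝ), (e : (ℝ × ℝ) →L[ℝ] (ℝ × ℝ)) = fderiv ℝ f v₀ := by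
    refine ⟨ContinuousLinearEquiv.ofBijective (fderiv ℝ f v₀)
      (LinearMap.ker_eq_bot.2 hb.1) (LinearMap.range_eq_top.2 hb.2), ?_⟩
    exact ContinuousLinearMap.ext fun x => rfl
  have hf1 : ContDiffAt ℝ 2 f v₀ := hfC.contDiffAt
  have hf2 : HasFDerivAt f (e : (ℝ × ℝ) →L[ℝ] (ℝ × ℝ)) v₀ := by
    rw [he]; exact hfd v₀
  have hn : (2 : WithTop ℕ∞) ≠ 0 := by norm_num
  obtain ⟨ψ, hψ0, hψC, hψr⟩ : ∃ ψ : ℝ × ℝ → ℝ × ℝ, ψ (f v₀) = v₀ ∧ ContDiffAt ℝ 2 ψ (f v₀) ∧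
      ∀ᶠ y in 𝓝 (f v₀), f (ψ y) = y :=
    ⟨hf1.localInverse hf2 hn, hf1.localInverse_apply_image hf2 hn, hf1.to_localInverse hf2 hn,
      (hf1.hasStrictFDerivAt' hf2 hn).eventually_right_inverse⟩
  rw [h0] at hψ0 hψC hψr
  have hψe : ∀ᶠ y in 𝓝 (c t₀), ContDiffAt ℝ 2 ψ y := hψC.eventually (by norm_num)
  have hct : Tendsto c (𝓝 t₀) (𝓝 (c t₀)) := hc.continuous.continuousAt
  have hev := hct.eventually (hψe.and hψr)
  obtain ⟨δ, hδ, hball⟩ := Metric.eventually_nhds_iff.1 hev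
  refine ⟨δ, hδ, fun t ht1 ht2 => ⟨ψ (c t), ?_, ?_⟩⟩
  · refine (hball ?_).2
    rw [Real.dist_eq, abs_of_nonneg (by linarith)]
    linarith
  -- the lifted curve
  have hin : ∀ s, t₀ ≤ s → s ≤ t → ContDiffAt ℝ 2 ψ (c s) ∧ (∀ᶠ r in 𝓝 s, f (ψ (c r)) = c r) := by
    intro s hs1 hs2
    have hs : dist s t₀ < δ := by
      rw [Real.dist_eq, abs_of_nonneg (by linarith)]
      linarith
    refine ⟨(hball hs).1, ?_⟩
    have : ∀ᶠ r in 𝓝 s, dist r t₀ < δ :=
      (continuous_id.dist continuous_const).continuousAt.eventually_lt continuousAt_const hs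
    filter_upwards [this] with r hr
    exact (hball hr).2
  have hvd : ∀ s, t₀ ≤ s → s ≤ t → ∃ v', HasDerivAt (fun r => ψ (c r)) v' s ∧
      fderiv ℝ f (ψ (c s)) v' = deriv c s := by
    intro s hs1 hs2
    obtain ⟨h1, h2⟩ := hin s hs1 hs2
    have h3 : HasDerivAt c (deriv c s) s := ((hc.differentiable (by norm_num)) s).hasDerivAt
    have h4 : HasFDerivAt ψ (fderiv ℝ ψ (c s)) (c s) :=
      (h1.differentiableAt (by norm_num)).hasFDerivAt
    have h5 : HasDerivAt (fun r => ψ (c r)) (fderiv ℝ ψ (c s) (deriv c s)) s :=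
      h4.comp_hasDerivAt s h3
    refine ⟨_, h5, ?_⟩
    have h6 := HasFDerivAt.comp_hasDerivAt (l := f) (f := fun r => ψ (c r)) s (hfd (ψ (c s))) h5
    have h7 : HasDerivAt (fun r => f (ψ (c r))) (deriv c s) s := h3.congr_of_eventuallyEq h2
    exact h6.unique h7
  have hLc := ls_len_cont g c hc
  have main : ∀ ε : ℝ, 0 < ε → g.len p (ψ (c t)) ≤ g.len p v₀ +
      (∫ s in t₀..t, g.len (c s) (deriv c s)) + ε := by
    intro ε hε
    have hnn : ∀ v, 0 ≤ g.inn p v v := fun v => (alg g p v v).2.2.2.2.1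
    have hlen0 : ∀ q v, 0 ≤ g.len q v := fun q v => Real.sqrt_nonneg _
    have hpos : ∀ v, 0 < ε ^ 2 + g.inn p v v := fun v => by
      have := hnn v
      positivity
    have hderiv : ∀ s ∈ Icc t₀ t, ∃ d, HasDerivAt
        (fun r => √(ε ^ 2 + g.inn p (ψ (c r)) (ψ (c r)))) d s ∧
        d ≤ g.len (c s) (deriv c s) := by
      intro s hs
      obtain ⟨v', hv1, hv2⟩ := hvd s hs.1 hs.2
      have h1 := ((ls_inn_deriv g p _ v' s hv1).const_add (ε ^ 2)).sqrt (hpos _).ne'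
      refine ⟨_, h1, ?_⟩
      have h2 := gauss g p (ψ (c s)) v'
      have h3 : fderiv ℝ (g.expMap p) (ψ (c s)) v' = deriv c s := hv2
      have hs' : f (ψ (c s)) = c s := (hin s hs.1 hs.2).2.self_of_nhds
      have h4 : g.expMap p (ψ (c s)) = c s := hs'
      rw [h3, h4] at h2
      have h5 : g.len p (ψ (c s)) ≤ √(ε ^ 2 + g.inn p (ψ (c s)) (ψ (c s))) :=
        Real.sqrt_le_sqrt (by nlinarith [sq_nonneg ε])
      have h6 : 0 < √(ε ^ 2 + g.inn p (ψ (c s)) (ψ (c s))) := Real.sqrt_pos.2 (hpos _)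
      rw [div_le_iff₀ (by positivity)]
      have h7 := le_abs_self (g.inn p (ψ (c s)) v')
      have h8 : g.len p (ψ (c s)) * g.len (c s) (deriv c s) ≤
          √(ε ^ 2 + g.inn p (ψ (c s)) (ψ (c s))) * g.len (c s) (deriv c s) :=
        mul_le_mul_of_nonneg_right h5 (hlen0 _ _)
      nlinarith
    choose! d hd1 hd2 using hderiv
    have key := intervalIntegral.sub_le_integral_of_hasDeriv_right_of_le_Ico
      (g := fun r => √(ε ^ 2 + g.inn p (ψ (c r)) (ψ (c r)))) (g' := d)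
      (φ := fun s => g.len (c s) (deriv c s)) (a := t₀) (b := t) ht1
      (fun s hs => (hd1 s hs).continuousAt.continuousWithinAt)
      (fun s hs => (hd1 s ⟨hs.1, hs.2.le⟩).hasDerivWithinAt)
      (hLc.continuousOn.integrableOn_compact isCompact_Icc)
      (fun s hs => hd2 s ⟨hs.1, hs.2.le⟩)
    simp only [hψ0] at key
    have h5 : g.len p (ψ (c t)) ≤ √(ε ^ 2 + g.inn p (ψ (c t)) (ψ (c t))) :=
      Real.sqrt_le_sqrt (by nlinarith [sq_nonneg ε])
    have h6 : √(ε ^ 2 + g.inn p v₀ v₀) ≤ ε + g.len p v₀ := by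
      rw [Real.sqrt_le_left (by have := hlen0 p v₀; positivity)]
      have := (alg g p v₀ v₀).2.2.2.2.2.2.2.1
      nlinarith [hlen0 p v₀]
    linarith
  have := le_of_forall_pos_le_add main
  exact this

end KleinEmb
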