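import Pool.Agent.Helper719.Emb.Defs
import Pool.Agent.Helper719.Emb.P_ham
import Pool.Agent.Helper719.Emb.P_alg
import Pool.Agent.Helper719.Emb.P_ellip
import Pool.Agent.Helper719.Emb.P_exp_smooth
import Pool.Agent.Helper719.Emb.P_exp_zero
import Pool.Agent.Helper719.Emb.P_lift_step

open scoped ContDiff Topology ENNReal
open Set MeasureTheory Filter

noncomputable section

namespace KleinEmb



theorem lift (g : KleinMetric) (r : ℝ) (hr : g.IsEmbRadius r) (c : ℝ → ℝ × ℝ) (hc : ContDiff ℝ 1 c)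
    (T : ℝ) (hT : 0 ≤ T) (hlen : ∫ s in (0 : ℝ)..T, g.len (c s) (deriv c s) < r) :
    ∃ v, g.len (c 0) v < r ∧ g.expMap (c 0) v = c T := by
  have hE : Continuous g.E := g.smooth_E.continuous
  have hF : Continuous g.F := g.smooth_F.continuous
  have hG : Continuous g.G := g.smooth_G.continuous
  have hcc : Continuous c := hc.continuous
  have hdc : Continuous (deriv c) := hc.continuous_deriv (by norm_num)
  obtain ⟨f, hf⟩ : ∃ f : ℝ → ℝ, f = fun s => g.len (c s) (deriv c s) := ⟨_, rfl⟩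
  have hfc : Continuous f := by
    rw [hf]
    unfold KleinMetric.len KleinMetric.inn
    fun_prop
  have hf0 : ∀ s, 0 ≤ f s := by
    intro s
    rw [hf]
    exact Real.sqrt_nonneg _
  have hfi : ∀ a b, IntervalIntegrable f volume a b := fun a b => hfc.intervalIntegrable a b
  obtain ⟨l, hl⟩ : ∃ l : ℝ → ℝ, l = fun t => ∫ s in (0 : ℝ)..t, f s := ⟨_, rfl⟩
  have hlc : Continuous l := by
    rw [hl]
    exact intervalIntegral.continuous_primitive hfi 0
  have hadd : ∀ a b, l a + ∫ s in a..b, f s = l b := by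
    intro a b
    rw [hl]
    exact intervalIntegral.integral_add_adjacent_intervals (hfi 0 a) (hfi a b)
  have hmono : ∀ a b, a ≤ b → l a ≤ l b := by
    intro a b hab
    have := intervalIntegral.integral_nonneg (μ := volume) hab (fun s _ => hf0 s)
    linarith [hadd a b]
  have hlT : l T < r := by
    rw [hl, hf]
    exact hlen
  have hl0 : l 0 = 0 := by
    rw [hl]
    exact intervalIntegral.integral_same
  have hl0' : ∀ t, 0 ≤ t → 0 ≤ l t := fun t ht => hl0 ▸ hmono 0 t ht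
  have hlenc : Continuous (fun v => g.len (c 0) v) := by
    unfold KleinMetric.len KleinMetric.inn
    fun_prop
  have hexpc : Continuous (g.expMap (c 0)) := (exp_smooth g (c 0)).continuous
  obtain ⟨m, M, hm, hM, hel⟩ := ellip g
  have hbound : ∀ t v, t ∈ Set.Icc 0 T → g.len (c 0) v ≤ l t →
      v ∈ Metric.closedBall (0 : ℝ × ℝ) (√(l T ^ 2 / m)) := by
    intro t v ht hv
    have h1 := (hel (c 0) v).1
    have h2 : g.len (c 0) v ^ 2 = g.inn (c 0) v v := (alg g (c 0) v v).2.2.2.2.2.2.2.1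
    have h3 : 0 ≤ g.len (c 0) v := Real.sqrt_nonneg _
    have h4 : g.len (c 0) v ^ 2 ≤ l T ^ 2 :=
      pow_le_pow_left₀ h3 (hv.trans (hmono t T ht.2)) 2
    have h5 : v.1 ^ 2 + v.2 ^ 2 ≤ l T ^ 2 / m := by
      rw [le_div_iff₀ hm]
      nlinarith
    rw [mem_closedBall_zero_iff, Prod.norm_def, Real.norm_eq_abs, Real.norm_eq_abs]
    refine max_le ?_ ?_
    · exact Real.abs_le_sqrt (by nlinarith [sq_nonneg v.2])
    · exact Real.abs_le_sqrt (by nlinarith [sq_nonneg v.1])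
  have hcl : IsClosed ({t | ∃ v, g.expMap (c 0) v = c t ∧ g.len (c 0) v ≤ l t} ∩
      Set.Icc 0 T) := by
    have hK : IsCompact ((Set.Icc 0 T ×ˢ Metric.closedBall (0 : ℝ × ℝ) (√(l T ^ 2 / m))) ∩
        ({z : ℝ × (ℝ × ℝ) | g.expMap (c 0) z.2 = c z.1} ∩
          {z : ℝ × (ℝ × ℝ) | g.len (c 0) z.2 ≤ l z.1})) := by
      refine (isCompact_Icc.prod (isCompact_closedBall _ _)).inter_right
        (IsClosed.inter ?_ ?_)
      · exact isClosed_eq (hexpc.comp continuous_snd) (hcc.comp continuous_fst)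
      · exact isClosed_le (hlenc.comp continuous_snd) (hlc.comp continuous_fst)
    have hI := (hK.image continuous_fst).isClosed
    convert hI using 1
    ext t
    constructor
    · rintro ⟨⟨v, hv1, hv2⟩, ht⟩
      exact ⟨(t, v), ⟨⟨ht, hbound t v ht hv2⟩, hv1, hv2⟩, rfl⟩
    · rintro ⟨⟨t', v⟩, ⟨⟨ht, _⟩, hv1, hv2⟩, rfl⟩
      exact ⟨⟨v, hv1, hv2⟩, ht⟩
  have h0A : (0 : ℝ) ∈ {t | ∃ v, g.expMap (c 0) v = c t ∧ g.len (c 0) v ≤ l t} := by
    refine ⟨0, (exp_zero g (c 0) 0).1, ?_⟩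
    rw [hl0]
    unfold KleinMetric.len KleinMetric.inn
    simp
  have hsub := hcl.Icc_subset_of_forall_exists_gt h0A (by
    rintro x ⟨⟨v₀, hv1, hv2⟩, hx⟩ y hy
    have hlt : g.len (c 0) v₀ < r :=
      lt_of_le_of_lt (hv2.trans (hmono x T hx.2.le)) hlT
    obtain ⟨δ, hδ, hstep⟩ := lift_step g (c 0) v₀ ((hr.2 (c 0)).2 v₀ hlt) c hc x hv1
    have hy' : x < y := hy
    have ht1 : x < min y (x + δ / 2) := lt_min hy' (by linarith)
    obtain ⟨v, hv3, hv4⟩ := hstep (min y (x + δ / 2)) ht1.le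
      (lt_of_le_of_lt (min_le_right _ _) (by linarith))
    refine ⟨min y (x + δ / 2), ⟨v, hv3, ?_⟩, ht1, min_le_left _ _⟩
    rw [← hadd x]
    refine hv4.trans ?_
    rw [hf]
    linarith)
  obtain ⟨v, hv1, hv2⟩ := hsub ⟨hT, le_rfl⟩
  exact ⟨v, lt_of_le_of_lt hv2 hlT, hv1⟩

end KleinEmb
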