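import Pool.Agent.Helper719.Emb.Defs
import Pool.Agent.Helper719.Emb.P_lift

open scoped ContDiff Topology ENNReal
open Set MeasureTheory Filter

noncomputable section

namespace KleinEmb



theorem sys_bound_len_neg (g : KleinMetric) (p v : ℝ × ℝ) : g.len p (-v) = g.len p v := by
  unfold KleinMetric.len KleinMetric.inn
  congr 1
  simp only [Prod.fst_neg, Prod.snd_neg]
  ring

theorem sys_bound_cont (g : KleinMetric) (c : ℝ → ℝ × ℝ) (hc : ContDiff ℝ 1 c) :
    Continuous (fun s => g.len (c s) (deriv c s)) := by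
  have h1 : Continuous c := hc.continuous
  have h2 : Continuous (deriv c) := hc.continuous_deriv le_rfl
  have hE : Continuous (fun s => g.E (c s)) := g.smooth_E.continuous.comp h1
  have hF : Continuous (fun s => g.F (c s)) := g.smooth_F.continuous.comp h1
  have hG : Continuous (fun s => g.G (c s)) := g.smooth_G.continuous.comp h1
  have hd1 : Continuous (fun s => (deriv c s).1) := continuous_fst.comp h2
  have hd2 : Continuous (fun s => (deriv c s).2) := continuous_snd.comp h2
  unfold KleinMetric.len KleinMetric.inn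
  exact (((hE.mul (hd1.mul hd1)).add (hF.mul ((hd1.mul hd2).add (hd2.mul hd1)))).add
    (hG.mul (hd2.mul hd2))).sqrt

theorem sys_bound (g : KleinMetric) (r : ℝ) (hr : g.IsEmbRadius r) (c : ℝ → ℝ × ℝ)
    (hc : ContDiff ℝ 1 c) (T : ℝ) (hT : 0 < T) (n k : ℤ) (hnk : n ≠ 0 ∨ k ≠ 0)
    (hend : c T = deck n k (c 0)) :
    2 * r ≤ ∫ s in (0 : ℝ)..T, g.len (c s) (deriv c s) := by
  by_contra hlt
  push Not at hlt
  set L : ℝ → ℝ := fun s => g.len (c s) (deriv c s) with hL
  have hLc : Continuous L := sys_bound_cont g c hc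
  have hLi : ∀ a b : ℝ, IntervalIntegrable L volume a b := fun a b => hLc.intervalIntegrable a b
  have hL0 : ∀ s, 0 ≤ L s := fun s => Real.sqrt_nonneg _
  set ℓ : ℝ := ∫ s in (0 : ℝ)..T, L s with hℓ
  have hℓ0 : 0 ≤ ℓ := intervalIntegral.integral_nonneg hT.le (fun s _ => hL0 s)
  have hPc : Continuous (fun t => ∫ s in (0 : ℝ)..t, L s) :=
    intervalIntegral.continuous_primitive hLi 0
  have hivt := intermediate_value_Icc hT.le hPc.continuousOn
  obtain ⟨tm, htm, hPtm⟩ : ∃ t ∈ Icc (0 : ℝ) T, (∫ s in (0 : ℝ)..t, L s) = ℓ / 2 := by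
    have h1 : ℓ / 2 ∈ Icc (∫ s in (0 : ℝ)..(0 : ℝ), L s) (∫ s in (0 : ℝ)..T, L s) := by
      rw [intervalIntegral.integral_same]
      constructor
      · linarith
      · rw [← hℓ]
        linarith
    exact hivt h1
  have hrest : ∫ s in tm..T, L s = ℓ / 2 := by
    have h1 := intervalIntegral.integral_add_adjacent_intervals (hLi 0 tm) (hLi tm T)
    rw [hPtm, ← hℓ] at h1
    linarith
  -- the second half
  have hc1 : ContDiff ℝ 1 (fun s => c (tm + s)) := hc.comp (contDiff_const.add contDiff_id)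
  have hd1 : ∀ s, deriv (fun s => c (tm + s)) s = deriv c (tm + s) := by
    intro s
    exact deriv_comp_const_add _ tm s
  have hl1 : ∫ s in (0 : ℝ)..(T - tm), g.len (c (tm + s)) (deriv (fun s => c (tm + s)) s) < r := by
    have h1 : (∫ s in (0 : ℝ)..(T - tm), g.len (c (tm + s)) (deriv (fun s => c (tm + s)) s)) =
        ∫ s in (0 : ℝ)..(T - tm), L (tm + s) := by
      refine intervalIntegral.integral_congr fun s _ => ?_
      simp only [hd1, hL]
    rw [h1, intervalIntegral.integral_comp_add_left, add_zero, add_sub_cancel, hrest]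
    linarith
  obtain ⟨v2, hv2, he2⟩ := lift g r hr (fun s => c (tm + s)) hc1 (T - tm)
    (by linarith [htm.2]) hl1
  -- the first half, reversed
  have hc2 : ContDiff ℝ 1 (fun s => c (tm - s)) := hc.comp (contDiff_const.sub contDiff_id)
  have hd2 : ∀ s, deriv (fun s => c (tm - s)) s = -deriv c (tm - s) := by
    intro s
    exact deriv_comp_const_sub _ tm s
  have hl2 : ∫ s in (0 : ℝ)..tm, g.len (c (tm - s)) (deriv (fun s => c (tm - s)) s) < r := by
    have h1 : (∫ s in (0 : ℝ)..tm, g.len (c (tm - s)) (deriv (fun s => c (tm - s)) s)) =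
        ∫ s in (0 : ℝ)..tm, L (tm - s) := by
      refine intervalIntegral.integral_congr fun s _ => ?_
      simp only [hd2, hL, sys_bound_len_neg]
    rw [h1, intervalIntegral.integral_comp_sub_left, sub_self, sub_zero, hPtm]
    linarith
  obtain ⟨v1, hv1, he1⟩ := lift g r hr (fun s => c (tm - s)) hc2 tm htm.1 hl2
  simp only [add_zero, add_sub_cancel] at hv2 he2
  simp only [sub_zero, sub_self] at hv1 he1
  have hkey : v2 = v1 := (hr.2 (c tm)).1 v2 v1 hv2 hv1 n k (by rw [he2, he1, hend])
  have hcc : c T = c 0 := by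
    rw [← he2, ← he1, hkey]
  rw [hcc] at hend
  unfold deck at hend
  have e1 : (c 0).1 = (c 0).1 + (n : ℝ) / 2 := congrArg Prod.fst hend
  have e2 : (c 0).2 = (-1) ^ n * (c 0).2 + (k : ℝ) := congrArg Prod.snd hend
  have hn : n = 0 := by
    have : (n : ℝ) = 0 := by linarith
    exact_mod_cast this
  rw [hn, zpow_zero, one_mul] at e2
  have hk : k = 0 := by
    have : (k : ℝ) = 0 := by linarith
    exact_mod_cast this
  rcases hnk with h | h
  · exact h hn
  · exact h hk

end KleinEmb
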