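import Pool.Agent.Helper719.Emb.Defs
import Pool.Agent.Helper719.Emb.P_sys_bound

open scoped ContDiff Topology ENNReal
open Set MeasureTheory Filter

noncomputable section

namespace KleinEmb



theorem inj_bound (g : KleinMetric) : g.inj ≠ ⊤ ∧ ∀ (c : ℝ → ℝ × ℝ) (T : ℝ) (n k : ℤ),
    ContDiff ℝ 1 c → 0 < T → (n ≠ 0 ∨ k ≠ 0) → c T = deck n k (c 0) →
    2 * g.inj.toReal ≤ ∫ s in (0 : ℝ)..T, g.len (c s) (deriv c s) := by
  have key : ∀ (c : ℝ → ℝ × ℝ) (T : ℝ) (n k : ℤ), ContDiff ℝ 1 c → 0 < T → (n ≠ 0 ∨ k ≠ 0) →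
      c T = deck n k (c 0) →
      g.inj ≤ ENNReal.ofReal ((∫ s in (0 : ℝ)..T, g.len (c s) (deriv c s)) / 2) := by
    intro c T n k hc hT hnk hend
    unfold KleinMetric.inj
    refine iSup₂_le (fun r hr => ENNReal.ofReal_le_ofReal ?_)
    have := sys_bound g r hr c hc T hT n k hnk hend
    linarith
  refine ⟨?_, fun c T n k hc hT hnk hend => ?_⟩
  · have := key (fun t => (0, t)) 1 0 1 (by fun_prop) one_pos (Or.inr one_ne_zero)
      (by simp [deck])
    exact ne_top_of_le_ne_top ENNReal.ofReal_ne_top this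
  · have h := key c T n k hc hT hnk hend
    have h0 : 0 ≤ ∫ s in (0 : ℝ)..T, g.len (c s) (deriv c s) :=
      intervalIntegral.integral_nonneg hT.le (fun _ _ => Real.sqrt_nonneg _)
    have h1 : g.inj.toReal ≤ (∫ s in (0 : ℝ)..T, g.len (c s) (deriv c s)) / 2 := by
      have := ENNReal.toReal_mono ENNReal.ofReal_ne_top h
      rwa [ENNReal.toReal_ofReal (by linarith)] at this
    linarith

end KleinEmb
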