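import Pool.Agent.Helper719.Emb.Defs
import Pool.Agent.Helper719.Emb.P_hadamard

open scoped ContDiff Topology ENNReal
open Set MeasureTheory Filter

noncomputable section

namespace KleinEmb



theorem inv_smooth (Φ : ℝ × ℝ → ℝ × ℝ) (hΦ : ContDiff ℝ ∞ Φ) (m : ℝ) (hm : 0 < m)
    (h : ∀ p v, m * ‖v‖ ≤ ‖fderiv ℝ Φ p v‖) :
    ∃ Ψ : ℝ × ℝ → ℝ × ℝ, ContDiff ℝ ∞ Ψ ∧ (∀ p, Ψ (Φ p) = p) ∧ ∀ w, Φ (Ψ w) = w := by
  have hbij := hadamard Φ hΦ m hm h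
  obtain ⟨Ψ, hΨ1, hΨ2⟩ : ∃ Ψ : ℝ × ℝ → ℝ × ℝ, (∀ p, Ψ (Φ p) = p) ∧ ∀ w, Φ (Ψ w) = w :=
    ⟨(Equiv.ofBijective Φ hbij).symm, fun p => (Equiv.ofBijective Φ hbij).symm_apply_apply p,
      fun w => (Equiv.ofBijective Φ hbij).apply_symm_apply w⟩
  refine ⟨Ψ, ?_, hΨ1, hΨ2⟩
  rw [contDiff_iff_contDiffAt]
  intro w
  have hinj : Function.Injective (fderiv ℝ Φ (Ψ w) : ℝ × ℝ →ₗ[ℝ] ℝ × ℝ) := by
    rw [← LinearMap.ker_eq_bot, LinearMap.ker_eq_bot']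
    intro v hv
    have h1 := h (Ψ w) v
    have h2 : fderiv ℝ Φ (Ψ w) v = 0 := hv
    rw [h2, norm_zero] at h1
    have h3 : ‖v‖ ≤ 0 := by
      by_contra hcon
      push Not at hcon
      have := mul_pos hm hcon
      linarith
    exact norm_le_zero_iff.mp h3
  obtain ⟨e, he⟩ : ∃ e : (ℝ × ℝ) ≃L[ℝ] (ℝ × ℝ), (e : (ℝ × ℝ) →L[ℝ] (ℝ × ℝ)) = fderiv ℝ Φ (Ψ w) := by
    refine ⟨(LinearEquiv.ofInjectiveEndo _ hinj).toContinuousLinearEquiv, ?_⟩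
    ext v <;> rfl
  have hat : ContDiffAt ℝ ∞ Φ (Ψ w) := hΦ.contDiffAt
  have hf' : HasFDerivAt Φ (e : (ℝ × ℝ) →L[ℝ] (ℝ × ℝ)) (Ψ w) := by
    rw [he]
    exact (hat.differentiableAt (by simp)).hasFDerivAt
  have hn : (∞ : WithTop ℕ∞) ≠ 0 := by simp
  have h1 := hat.to_localInverse hf' hn
  rw [hΨ2 w] at h1
  refine h1.congr_of_eventuallyEq ?_
  have h2 := (hat.hasStrictFDerivAt' hf' hn).eventually_right_inverse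
  rw [hΨ2 w] at h2
  filter_upwards [h2] with y hy
  apply hbij.1
  rw [hΨ2 y]
  exact hy.symm

end KleinEmb
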