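import Pool.Agent.Helper719.Emb.Defs
import Pool.Agent.Helper719.Emb.P_prof
import Pool.Agent.Helper719.Emb.P_cg
import Pool.Agent.Helper719.Emb.P_sturm

open scoped ContDiff Topology ENNReal
open Set MeasureTheory Filter

noncomputable section

namespace KleinEmb



theorem jacobi_aux_smooth {f : ℝ → ℝ} (hf : IsProf f) :
    ContDiff ℝ ∞ (fun z => deriv f z / f z) := by
  have h1 : ContDiff ℝ ∞ (deriv f) := (contDiff_infty_iff_deriv.1 hf.smooth).2
  exact h1.div hf.smooth (fun z => (hf.pos z).ne')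

/-- no conjugate points before `π`: a family `C(s), X(·,s), Y(·,s), U(·,s)` linearised at `s = 0`:
`ξ, η, μ, ζ` are the `s`-derivatives of `X, Y, U, C`, and the speed has `s`-derivative `0`. -/
theorem jacobi (f X Y U : ℝ → ℝ) (C V : ℝ) (hf : IsProf f) (h : IsCG f X Y U C V)
    (hV0 : 0 < V) (hV : V < Real.pi) (ξ η μ : ℝ → ℝ) (ζ : ℝ)
    (hξ : ∀ t, HasDerivAt ξ (ζ / f (Y t) ^ 2 - 2 * C * deriv f (Y t) * η t / f (Y t) ^ 3) t)
    (hη : ∀ t, HasDerivAt η (μ t / f (Y t) ^ 2 - 2 * U t * deriv f (Y t) * η t / f (Y t) ^ 3) t)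
    (hμ : ∀ t, HasDerivAt μ (V ^ 2 * (deriv (fun z => deriv f z / f z) (Y t) * η t)) t)
    (hen : ∀ t, C * ζ + U t * μ t = V ^ 2 * f (Y t) * deriv f (Y t) * η t)
    (hξ0 : ξ 0 = 0) (hη0 : η 0 = 0) (hξ1 : ξ 1 = 0) (hη1 : η 1 = 0) :
    ζ = 0 ∧ μ 0 = 0 := by
  have hLs := jacobi_aux_smooth hf
  have hLd : Differentiable ℝ (fun z => deriv f z / f z) := hLs.differentiable (by simp)
  have hfd : Differentiable ℝ f := hf.smooth.differentiable (by simp)
  have hpos : ∀ t, 0 < f (Y t) := fun t => hf.pos (Y t)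
  have hYc : Continuous Y := continuous_iff_continuousAt.2 fun t => (h.hY t).continuousAt
  -- the function n and its derivatives
  obtain ⟨n, hn⟩ : ∃ n : ℝ → ℝ, n = fun t => C * η t - U t * ξ t := ⟨_, rfl⟩
  obtain ⟨n1, hn1⟩ : ∃ n1 : ℝ → ℝ, n1 = fun t => (C * μ t - U t * ζ) / f (Y t) ^ 2 -
    V ^ 2 * (deriv f (Y t) / f (Y t)) * ξ t := ⟨_, rfl⟩
  have hd1 : ∀ t, HasDerivAt n (n1 t) t := by
    intro t
    have h1 := ((hη t).const_mul C).sub ((h.hU t).mul (hξ t))
    have h2 : C * (μ t / f (Y t) ^ 2 - 2 * U t * deriv f (Y t) * η t / f (Y t) ^ 3) -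
        (V ^ 2 * (deriv f (Y t) / f (Y t)) * ξ t +
          U t * (ζ / f (Y t) ^ 2 - 2 * C * deriv f (Y t) * η t / f (Y t) ^ 3)) = n1 t := by
      rw [hn1]
      ring
    rw [h2] at h1
    rw [hn]
    exact h1
  have hd2 : ∀ t, HasDerivAt n1
      (V ^ 2 * deriv (fun z => deriv f z / f z) (Y t) / f (Y t) ^ 2 * n t) t := by
    intro t
    have hne : f (Y t) ≠ 0 := (hpos t).ne'
    have hg : HasDerivAt (fun t => f (Y t)) (deriv f (Y t) * (U t / f (Y t) ^ 2)) t :=
      (hfd (Y t)).hasDerivAt.comp t (h.hY t)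
    have hL : HasDerivAt (fun t => deriv f (Y t) / f (Y t))
        (deriv (fun z => deriv f z / f z) (Y t) * (U t / f (Y t) ^ 2)) t :=
      HasDerivAt.comp (h₂ := fun z => deriv f z / f z) t (hLd (Y t)).hasDerivAt (h.hY t)
    have h1 := ((((hμ t).const_mul C).sub ((h.hU t).mul_const ζ)).div (hg.pow 2)
      (pow_ne_zero 2 hne)).sub ((hL.const_mul (V ^ 2)).mul (hξ t))
    have he := h.en t
    have he2 := hen t
    have hkey : ((C * (V ^ 2 * (deriv (fun z => deriv f z / f z) (Y t) * η t)) -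
          V ^ 2 * (deriv f (Y t) / f (Y t)) * ζ) * f (Y t) ^ 2 -
        (C * μ t - U t * ζ) * (2 * f (Y t) ^ (2 - 1) *
          (deriv f (Y t) * (U t / f (Y t) ^ 2)))) / (f (Y t) ^ 2) ^ 2 -
        (V ^ 2 * (deriv (fun z => deriv f z / f z) (Y t) * (U t / f (Y t) ^ 2)) * ξ t +
          V ^ 2 * (deriv f (Y t) / f (Y t)) *
            (ζ / f (Y t) ^ 2 - 2 * C * deriv f (Y t) * η t / f (Y t) ^ 3)) =
        V ^ 2 * deriv (fun z => deriv f z / f z) (Y t) / f (Y t) ^ 2 * n t := by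
      rw [hn]
      simp only
      generalize deriv (fun z => deriv f z / f z) (Y t) = D
      generalize deriv f (Y t) = a at he2 ⊢
      generalize f (Y t) = F at he he2 hne ⊢
      generalize U t = u at he he2 ⊢
      generalize μ t = m at he2 ⊢
      generalize η t = e at he2 ⊢
      generalize ξ t = x
      have e1 : C ^ 2 + u ^ 2 - V ^ 2 * F ^ 2 = 0 := by rw [he, sub_self]
      have e2 : C * ζ + u * m - V ^ 2 * F * a * e = 0 := by rw [he2, sub_self]
      have hk : ((C * (V ^ 2 * (D * e)) - V ^ 2 * (a / F) * ζ) * F ^ 2 -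
          (C * m - u * ζ) * (2 * F ^ (2 - 1) * (a * (u / F ^ 2)))) / (F ^ 2) ^ 2 -
          (V ^ 2 * (D * (u / F ^ 2)) * x + V ^ 2 * (a / F) * (ζ / F ^ 2 - 2 * C * a * e / F ^ 3)) -
          V ^ 2 * D / F ^ 2 * (C * e - u * x) =
          (2 * a / F ^ 5) * (ζ * (C ^ 2 + u ^ 2 - V ^ 2 * F ^ 2) -
            C * (C * ζ + u * m - V ^ 2 * F * a * e)) := by
        field_simp
        ring
      rw [e1, e2, mul_zero, mul_zero, sub_zero, mul_zero, sub_eq_zero] at hk
      exact hk
    rw [← hkey, hn1]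
    exact_mod_cast h1
  have hsgn : ∀ σ : ℝ, σ * n1 0 ≤ 0 := by
    intro σ
    by_contra hcon
    push Not at hcon
    have h1 := sturm (fun t => σ * n t) (fun t => σ * n1 t / V)
      (fun t => V * deriv (fun z => deriv f z / f z) (Y t) / f (Y t) ^ 2)
      (fun t => V * t) (fun _ => V) 1 one_pos ?_ ?_ ?_ ?_ ?_ ?_ ?_ ?_ ?_ ?_ ?_ 1 one_pos le_rfl
    · have h2 : n 1 = 0 := by
        rw [hn]
        simp only [hξ1, hη1, mul_zero, sub_zero]
      simp only [h2, mul_zero, lt_irrefl] at h1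
    · intro t
      have h2 := (hd1 t).const_mul σ
      have h3 : V * (σ * n1 t / V) = σ * n1 t := by field_simp
      rw [h3]
      exact h2
    · intro t
      have h2 := ((hd2 t).const_mul σ).div_const V
      have h3 : σ * (V ^ 2 * deriv (fun z => deriv f z / f z) (Y t) / f (Y t) ^ 2 * n t) / V =
          V * deriv (fun z => deriv f z / f z) (Y t) / f (Y t) ^ 2 * (σ * n t) := by
        field_simp
      rw [h3] at h2
      exact h2
    · intro t
      have h2 := (hasDerivAt_id t).const_mul V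
      rw [mul_one] at h2
      exact h2
    · intro _
      exact hV0
    · intro t
      have h2 := hf.curv (Y t)
      have h3 : 0 < f (Y t) ^ 2 := pow_pos (hpos t) 2
      rw [le_div_iff₀ h3]
      nlinarith
    · refine (continuous_const.mul ?_).div ((hfd.continuous.comp hYc).pow 2)
        (fun t => pow_ne_zero 2 (hpos t).ne')
      have h2 : Continuous (deriv (fun z => deriv f z / f z)) :=
        (contDiff_infty_iff_deriv.1 hLs).2.continuous
      exact h2.comp hYc
    · exact continuous_const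
    · rw [hn]
      simp only [hξ0, hη0, mul_zero, sub_zero]
    · exact div_pos hcon hV0
    · exact mul_zero V
    · rw [mul_one]
      exact hV
  have h0 : n1 0 = 0 := by
    have h1 := hsgn 1
    have h2 := hsgn (-1)
    linarith
  rw [hn1] at h0
  simp only [hξ0, mul_zero, sub_zero] at h0
  have hp := pow_pos (hpos 0) 2
  have h1 : C * μ 0 - U 0 * ζ = 0 := by
    rcases div_eq_zero_iff.1 h0 with h2 | h2
    · exact h2
    · exact absurd h2 hp.ne'
  have h2 := hen 0
  rw [hη0, mul_zero] at h2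
  have h3 := h.en 0
  have h4 : 0 < C ^ 2 + U 0 ^ 2 := by
    rw [h3]
    positivity
  constructor
  · have h5 : (C ^ 2 + U 0 ^ 2) * ζ = 0 := by
      linear_combination C * h2 - U 0 * h1
    exact (mul_eq_zero.1 h5).resolve_left h4.ne'
  · have h5 : (C ^ 2 + U 0 ^ 2) * μ 0 = 0 := by
      linear_combination C * h1 + U 0 * h2
    exact (mul_eq_zero.1 h5).resolve_left h4.ne'

end KleinEmb
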