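import Pool.Agent.Helper719.Emb.Defs

open scoped ContDiff Topology ENNReal
open Set MeasureTheory Filter

noncomputable section

namespace KleinEmb



theorem path_transfer (g : KleinMetric) (b : ℝ) (Φ Ψ : ℝ × ℝ → ℝ × ℝ) (f : ℝ × ℝ → ℝ) (hb : 0 < b)
    (hΦ : ContDiff ℝ ∞ Φ) (hΨ : ContDiff ℝ ∞ Ψ) (h1 : ∀ p, Ψ (Φ p) = p)
    (h2 : ∀ w, Φ (Ψ w) = w) (hpos : ∀ w, 0 < f w)
    (h5 : ∀ x y, Φ (x + 1 / 2, -y) = ((Φ (x, y)).1 + Real.pi, -(Φ (x, y)).2))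
    (h6 : ∀ x y, Φ (x, y + 1) = ((Φ (x, y)).1, (Φ (x, y)).2 + 2 * b))
    (h7 : ∀ p v, g.inn p v v = f (Φ p) ^ 2 * ((fderiv ℝ Φ p v).1 ^ 2 + (fderiv ℝ Φ p v).2 ^ 2))
    (c : ℝ → ℝ × ℝ) (T : ℝ) (n k : ℤ) (hc : ContDiff ℝ 1 c)
    (hend : c T = ((c 0).1 + n * Real.pi, (-1) ^ n * (c 0).2 + 2 * b * k)) :
    ContDiff ℝ 1 (fun t => Ψ (c t)) ∧ Ψ (c T) = deck n k (Ψ (c 0)) ∧
    ∀ t, g.len (Ψ (c t)) (deriv (fun t => Ψ (c t)) t) =
      f (c t) * √((deriv c t).1 ^ 2 + (deriv c t).2 ^ 2) := by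
  have C1 : ∀ (k : ℤ) (x y : ℝ), Φ (x, y + k) = ((Φ (x, y)).1, (Φ (x, y)).2 + 2 * b * k) := by
    intro k x y
    induction k using Int.induction_on with
    | zero => simp
    | succ i ih =>
      have e1 : y + ((i : ℤ) + 1 : ℤ) = (y + ((i : ℤ) : ℝ)) + 1 := by push_cast; ring
      rw [e1, h6, ih]
      ext
      · rfl
      · change (Φ (x, y)).2 + 2 * b * ((i : ℤ) : ℝ) + 2 * b = _
        push_cast
        ring
    | pred i ih =>
      have e1 : y + ((-(i : ℤ) : ℤ) : ℝ) = (y + ((-(i : ℤ) - 1 : ℤ) : ℝ)) + 1 := by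
        push_cast; ring
      rw [e1, h6] at ih
      have i1 := congrArg Prod.fst ih
      have i2 := congrArg Prod.snd ih
      simp only at i1 i2
      ext
      · exact i1
      · change (Φ (x, y + ((-(i : ℤ) - 1 : ℤ) : ℝ))).2 = _
        push_cast at i2 ⊢
        linarith
  have hne : (-1 : ℝ) ≠ 0 := by norm_num
  have C2 : ∀ (n : ℤ) (x y : ℝ), Φ (x + n / 2, (-1) ^ n * y) =
      ((Φ (x, y)).1 + n * Real.pi, (-1) ^ n * (Φ (x, y)).2) := by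
    intro n x y
    induction n using Int.induction_on with
    | zero => simp
    | succ i ih =>
      have e1 : (x + (((i : ℤ) + 1 : ℤ) : ℝ) / 2, (-1 : ℝ) ^ ((i : ℤ) + 1) * y) =
          ((x + ((i : ℤ) : ℝ) / 2) + 1 / 2, -((-1 : ℝ) ^ (i : ℤ) * y)) := by
        rw [zpow_add₀ hne, zpow_one]
        ext
        · push_cast; ring
        · change _ = _; simp
      rw [e1, h5, ih]
      rw [zpow_add₀ hne, zpow_one]
      ext
      · change (Φ (x, y)).1 + ((i : ℤ) : ℝ) * Real.pi + Real.pi = _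
        push_cast; ring
      · change -((-1 : ℝ) ^ (i : ℤ) * (Φ (x, y)).2) = _
        simp
    | pred i ih =>
      have e0 : (-1 : ℝ) ^ (-(i : ℤ)) = -((-1 : ℝ) ^ (-(i : ℤ) - 1)) := by
        rw [zpow_sub_one₀ hne]
        simp
      have e1 : (x + ((-(i : ℤ) : ℤ) : ℝ) / 2, (-1 : ℝ) ^ (-(i : ℤ)) * y) =
          ((x + ((-(i : ℤ) - 1 : ℤ) : ℝ) / 2) + 1 / 2, -((-1 : ℝ) ^ (-(i : ℤ) - 1) * y)) := by
        rw [e0]
        ext
        · push_cast; ring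
        · change _ = _; simp
      rw [e1, h5] at ih
      have i1 := congrArg Prod.fst ih
      have i2 := congrArg Prod.snd ih
      simp only at i1 i2
      rw [e0] at i2
      ext
      · change (Φ (x + ((-(i : ℤ) - 1 : ℤ) : ℝ) / 2, (-1 : ℝ) ^ (-(i : ℤ) - 1) * y)).1 = _
        push_cast at i1 ⊢
        linarith
      · change (Φ (x + ((-(i : ℤ) - 1 : ℤ) : ℝ) / 2, (-1 : ℝ) ^ (-(i : ℤ) - 1) * y)).2 = _
        linarith
  have C3 : ∀ (n k : ℤ) (p : ℝ × ℝ), Φ (deck n k p) =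
      ((Φ p).1 + n * Real.pi, (-1) ^ n * (Φ p).2 + 2 * b * k) := by
    intro n k p
    unfold deck
    rw [C1, C2]
  have hΨ1 : ContDiff ℝ 1 (fun t => Ψ (c t)) := (hΨ.of_le (by exact_mod_cast le_top)).comp hc
  refine ⟨hΨ1, ?_, ?_⟩
  · have e1 := C3 n k (Ψ (c 0))
    rw [h2, ← hend] at e1
    rw [← e1, h1]
  · intro t
    have hv : HasDerivAt (fun t => Ψ (c t)) (deriv (fun t => Ψ (c t)) t) t :=
      ((hΨ1.differentiable one_ne_zero) t).hasDerivAt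
    have hΦd : HasFDerivAt Φ (fderiv ℝ Φ (Ψ (c t))) (Ψ (c t)) :=
      ((hΦ.differentiable (by simp)) _).hasFDerivAt
    have hcomp : HasDerivAt (fun s => Φ (Ψ (c s)))
        (fderiv ℝ Φ (Ψ (c t)) (deriv (fun t => Ψ (c t)) t)) t :=
      HasFDerivAt.comp_hasDerivAt t hΦd hv
    have e2 : (fun s => Φ (Ψ (c s))) = c := funext fun s => h2 _
    rw [e2] at hcomp
    have e3 := hcomp.deriv
    unfold KleinMetric.len
    rw [h7, ← e3, h2, Real.sqrt_mul (sq_nonneg _), Real.sqrt_sq (hpos _).le]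

end KleinEmb
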