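import Pool.Agent.Helper719.Emb.Defs
import Pool.Agent.Helper719.Emb.P_rot

open scoped ContDiff Topology ENNReal
open Set MeasureTheory Filter

noncomputable section

namespace KleinEmb



theorem normalize_inj (c : ℝ) (u v : ℝ × ℝ) (h1 : (rot c u).1 = (rot c v).1)
    (h2 : (rot c u).2 = (rot c v).2) : u = v := by
  have hcs := Real.sin_sq_add_cos_sq c
  have e1 : ∀ z : ℝ × ℝ, z.1 = Real.cos c * (rot c z).1 + Real.sin c * (rot c z).2 := by
    intro z
    simp only [rot]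
    linear_combination (-z.1) * hcs
  have e2 : ∀ z : ℝ × ℝ, z.2 = -Real.sin c * (rot c z).1 + Real.cos c * (rot c z).2 := by
    intro z
    simp only [rot]
    linear_combination (-z.2) * hcs
  apply Prod.ext
  · rw [e1 u, e1 v, h1, h2]
  · rw [e2 u, e2 v, h1, h2]

theorem normalize (Φ : ℝ × ℝ → ℝ × ℝ) (hΦ : Function.Bijective Φ) (ca cb : ℝ) (βa βb : ℝ × ℝ)
    (ha : ∀ x y, Φ (x + 1 / 2, -y) = rot ca ((Φ (x, y)).1, -(Φ (x, y)).2) + βa)
    (hb : ∀ x y, Φ (x, y + 1) = rot cb (Φ (x, y)) + βb) :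
    ∃ (c μ b : ℝ) (t : ℝ × ℝ) (ε : ℝ), 0 < μ ∧ 0 < b ∧ (ε = 1 ∨ ε = -1) ∧
      (∀ x y, μ * (rot c (Φ (x + 1 / 2, -y))).1 + t.1 =
        μ * (rot c (Φ (x, y))).1 + t.1 + Real.pi) ∧
      (∀ x y, ε * μ * (rot c (Φ (x + 1 / 2, -y))).2 + t.2 =
        -(ε * μ * (rot c (Φ (x, y))).2 + t.2)) ∧
      (∀ x y, μ * (rot c (Φ (x, y + 1))).1 + t.1 = μ * (rot c (Φ (x, y))).1 + t.1) ∧
      (∀ x y, ε * μ * (rot c (Φ (x, y + 1))).2 + t.2 =
        ε * μ * (rot c (Φ (x, y))).2 + t.2 + 2 * b) := by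
  -- for an admissible angle
  have hA : ∀ c : ℝ, Real.cos (c + ca) = Real.cos c → Real.sin (c + ca) = -Real.sin c →
      (∀ x y, (rot c (Φ (x + 1 / 2, -y))).1 = (rot c (Φ (x, y))).1 + (rot c βa).1) ∧
      (∀ x y, (rot c (Φ (x + 1 / 2, -y))).2 = -(rot c (Φ (x, y))).2 + (rot c βa).2) := by
    intro c h1 h2
    rw [Real.cos_add] at h1
    rw [Real.sin_add] at h2
    refine ⟨fun x y => ?_, fun x y => ?_⟩
    · rw [ha]
      simp only [rot, Prod.fst_add, Prod.snd_add]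
      linear_combination (Φ (x, y)).1 * h1 + (Φ (x, y)).2 * h2
    · rw [ha]
      simp only [rot, Prod.fst_add, Prod.snd_add]
      linear_combination (Φ (x, y)).1 * h2 - (Φ (x, y)).2 * h1
  have hc0 : Real.cos (-ca / 2 + ca) = Real.cos (-ca / 2) := by
    rw [show -ca / 2 + ca = ca / 2 by ring, show -ca / 2 = -(ca / 2) by ring, Real.cos_neg]
  have hs0 : Real.sin (-ca / 2 + ca) = -Real.sin (-ca / 2) := by
    rw [show -ca / 2 + ca = ca / 2 by ring, show -ca / 2 = -(ca / 2) by ring, Real.sin_neg, neg_neg]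
  -- `τ ≠ 0`
  have hτ0 : (rot (-ca / 2) βa).1 ≠ 0 := by
    intro h0
    obtain ⟨hA1, hA2⟩ := hA _ hc0 hs0
    have e1 : (rot (-ca / 2) (Φ ((0 : ℝ) + 1 / 2 + 1 / 2, - -(0 : ℝ)))).1 =
        (rot (-ca / 2) (Φ (0, 0))).1 := by
      rw [hA1, hA1, h0]; ring
    have e2 : (rot (-ca / 2) (Φ ((0 : ℝ) + 1 / 2 + 1 / 2, - -(0 : ℝ)))).2 =
        (rot (-ca / 2) (Φ (0, 0))).2 := by
      rw [hA2, hA2]; ring
    have e3 := hΦ.1 (normalize_inj _ _ _ e1 e2)
    have e4 := congrArg Prod.fst e3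
    norm_num at e4
  obtain ⟨c, hcc, hcs, hτ⟩ : ∃ c : ℝ, Real.cos (c + ca) = Real.cos c ∧
      Real.sin (c + ca) = -Real.sin c ∧ 0 < (rot c βa).1 := by
    rcases lt_or_gt_of_ne hτ0 with h | h
    · refine ⟨-ca / 2 + Real.pi, ?_, ?_, ?_⟩
      · rw [show -ca / 2 + Real.pi + ca = (-ca / 2 + ca) + Real.pi by ring, Real.cos_add_pi,
          Real.cos_add_pi, hc0]
      · rw [show -ca / 2 + Real.pi + ca = (-ca / 2 + ca) + Real.pi by ring, Real.sin_add_pi,
          Real.sin_add_pi, hs0]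
      · simp only [rot, Real.cos_add_pi, Real.sin_add_pi] at h ⊢
        linarith
    · exact ⟨-ca / 2, hc0, hs0, h⟩
  obtain ⟨hA1, hA2⟩ := hA c hcc hcs
  -- the shift is a translation
  have hcb : Real.cos cb = 1 := by
    by_contra hne
    have hlt : Real.cos cb < 1 := lt_of_le_of_ne (Real.cos_le_one _) hne
    have hD : 0 < 2 - 2 * Real.cos cb := by linarith
    have hcs' := Real.sin_sq_add_cos_sq cb
    set z : ℝ × ℝ := (((1 - Real.cos cb) * βb.1 - Real.sin cb * βb.2) / (2 - 2 * Real.cos cb),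
      (Real.sin cb * βb.1 + (1 - Real.cos cb) * βb.2) / (2 - 2 * Real.cos cb)) with hz
    obtain ⟨⟨x, y⟩, hxy⟩ := hΦ.2 z
    have hfix : rot cb z + βb = z := by
      apply Prod.ext
      · simp only [rot, hz, Prod.fst_add]
        field_simp
        linear_combination (-βb.1) * hcs'
      · simp only [rot, hz, Prod.snd_add]
        field_simp
        linear_combination (-βb.2) * hcs'
    have h1 := hb x y
    rw [hxy, hfix, ← hxy] at h1
    have h2 := hΦ.1 h1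
    have h3 := congrArg Prod.snd h2
    simp at h3
  have hsb : Real.sin cb = 0 := by
    have := Real.sin_sq_add_cos_sq cb
    rw [hcb] at this
    nlinarith
  have hB1 : ∀ x y, (rot c (Φ (x, y + 1))).1 = (rot c (Φ (x, y))).1 + (rot c βb).1 := by
    intro x y
    rw [hb]
    simp only [rot, Prod.fst_add, Prod.snd_add, hcb, hsb]
    ring
  have hB2 : ∀ x y, (rot c (Φ (x, y + 1))).2 = (rot c (Φ (x, y))).2 + (rot c βb).2 := by
    intro x y
    rw [hb]
    simp only [rot, Prod.fst_add, Prod.snd_add, hcb, hsb]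
    ring
  set τ := (rot c βa).1 with hτd
  set σ := (rot c βa).2 with hσd
  set q := (rot c βb).2 with hqd
  have hp0 : (rot c βb).1 = 0 := by
    have e1 := hA1 0 (0 + 1)
    have e2 := hA1 0 0
    have e3 := hB1 (0 + 1 / 2) (-(0 + 1))
    have e4 := hB1 0 0
    rw [show (-(0 + 1) + 1 : ℝ) = -0 by norm_num] at e3
    have e5 : 2 * (rot c βb).1 = 0 := by linear_combination (-1 : ℝ) * e3 + e2 - e1 - e4
    linarith
  have hq0 : q ≠ 0 := by
    intro h0
    have e1 : (rot c (Φ (0, (0 : ℝ) + 1))).1 = (rot c (Φ (0, 0))).1 := by rw [hB1, hp0, add_zero]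
    have e2 : (rot c (Φ (0, (0 : ℝ) + 1))).2 = (rot c (Φ (0, 0))).2 := by rw [hB2, h0, add_zero]
    have e3 := hΦ.1 (normalize_inj _ _ _ e1 e2)
    have e4 := congrArg Prod.snd e3
    simp at e4
  have hμ : 0 < Real.pi / τ := div_pos Real.pi_pos hτ
  obtain ⟨ε, hε, hεq⟩ : ∃ ε : ℝ, (ε = 1 ∨ ε = -1) ∧ ε * q = |q| := by
    rcases lt_or_gt_of_ne hq0 with h | h
    · exact ⟨-1, Or.inr rfl, by rw [abs_of_neg h]; ring⟩
    · exact ⟨1, Or.inl rfl, by rw [abs_of_pos h]; ring⟩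
  refine ⟨c, Real.pi / τ, Real.pi / τ * |q| / 2, (0, -(ε * (Real.pi / τ) * σ / 2)), ε, hμ,
    by have := abs_pos.2 hq0; positivity, hε, ?_, ?_, ?_, ?_⟩
  · intro x y
    rw [hA1]
    have : Real.pi / τ * τ = Real.pi := div_mul_cancel₀ _ hτ.ne'
    linear_combination this
  · intro x y
    rw [hA2]
    simp only
    ring
  · intro x y
    rw [hB1, hp0]
    ring
  · intro x y
    rw [hB2]
    simp only
    linear_combination (Real.pi / τ) * hεq

end KleinEmb
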