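import Pool.Agent.Helper719.Emb.Defs
import Pool.Agent.Helper719.Emb.P_ellip
import Pool.Agent.Helper719.Emb.P_rot
import Pool.Agent.Helper719.Emb.P_develop
import Pool.Agent.Helper719.Emb.P_inv_smooth
import Pool.Agent.Helper719.Emb.P_normalize

open scoped ContDiff Topology ENNReal
open Set MeasureTheory Filter

noncomputable section

namespace KleinEmb



theorem uniformize_lb (u : ℝ × ℝ → ℝ) (hu : Continuous u)
    (h1 : ∀ x y, u (x + 1 / 2, -y) = u (x, y)) (h2 : ∀ x y, u (x, y + 1) = u (x, y)) :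
    ∃ U : ℝ, ∀ p, U ≤ u p := by
  have h3 : ∀ x y, u (x + 1, y) = u (x, y) := by
    intro x y
    have e : u (x + 1, y) = u ((x + 1 / 2) + 1 / 2, -(-y)) := by
      congr 1
      ext
      · change x + 1 = x + 1 / 2 + 1 / 2
        ring
      · change y = - -y
        ring
    rw [e, h1, h1]
  have h4 : ∀ (n : ℤ) (x y : ℝ), u (x + n, y) = u (x, y) := by
    intro n x y
    have hp : Function.Periodic (fun s => u (s, y)) 1 := fun s => h3 s y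
    have := hp.int_mul n x
    simpa using this
  have h5 : ∀ (n : ℤ) (x y : ℝ), u (x, y + n) = u (x, y) := by
    intro n x y
    have hp : Function.Periodic (fun s => u (x, s)) 1 := fun s => h2 x s
    have := hp.int_mul n y
    simpa using this
  obtain ⟨q, -, hq⟩ := (isCompact_Icc.prod isCompact_Icc :
    IsCompact (Icc (0 : ℝ) 1 ×ˢ Icc (0 : ℝ) 1)).exists_isMinOn
    ⟨(0, 0), by simp⟩ hu.continuousOn
  refine ⟨u q, fun p => ?_⟩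
  have h6 : u p = u (Int.fract p.1, Int.fract p.2) := by
    have a1 : p = (Int.fract p.1 + (⌊p.1⌋ : ℝ), Int.fract p.2 + (⌊p.2⌋ : ℝ)) := by
      ext
      · exact (Int.fract_add_floor p.1).symm
      · exact (Int.fract_add_floor p.2).symm
    conv_lhs => rw [a1]
    rw [h4, h5]
  rw [h6]
  refine hq (a := (Int.fract p.1, Int.fract p.2)) ?_
  exact ⟨⟨Int.fract_nonneg _, (Int.fract_lt_one _).le⟩,
    ⟨Int.fract_nonneg _, (Int.fract_lt_one _).le⟩⟩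

theorem uniformize_norm (Φ : ℝ × ℝ → ℝ × ℝ) (K : ℝ) (hK : 0 < K)
    (h : ∀ p v, K * (v.1 ^ 2 + v.2 ^ 2) ≤ (fderiv ℝ Φ p v).1 ^ 2 + (fderiv ℝ Φ p v).2 ^ 2) :
    ∃ m : ℝ, 0 < m ∧ ∀ p v, m * ‖v‖ ≤ ‖fderiv ℝ Φ p v‖ := by
  refine ⟨√(K / 2), Real.sqrt_pos.mpr (by positivity), fun p v => ?_⟩
  have a1 : ‖v‖ ^ 2 ≤ v.1 ^ 2 + v.2 ^ 2 := by
    rw [Prod.norm_def, Real.norm_eq_abs, Real.norm_eq_abs]
    rcases max_choice |v.1| |v.2| with h1 | h1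
    · rw [h1, sq_abs]
      nlinarith [sq_nonneg v.2]
    · rw [h1, sq_abs]
      nlinarith [sq_nonneg v.1]
  have a2 : (fderiv ℝ Φ p v).1 ^ 2 + (fderiv ℝ Φ p v).2 ^ 2 ≤ 2 * ‖fderiv ℝ Φ p v‖ ^ 2 := by
    have b1 : |(fderiv ℝ Φ p v).1| ≤ ‖fderiv ℝ Φ p v‖ := by
      rw [← Real.norm_eq_abs]
      exact norm_fst_le _
    have b2 : |(fderiv ℝ Φ p v).2| ≤ ‖fderiv ℝ Φ p v‖ := by
      rw [← Real.norm_eq_abs]
      exact norm_snd_le _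
    have c1 := pow_le_pow_left₀ (abs_nonneg _) b1 2
    have c2 := pow_le_pow_left₀ (abs_nonneg _) b2 2
    rw [sq_abs] at c1 c2
    linarith
  have a3 := h p v
  have a4 : K / 2 * ‖v‖ ^ 2 ≤ ‖fderiv ℝ Φ p v‖ ^ 2 := by
    have := mul_le_mul_of_nonneg_left a1 hK.le
    linarith
  refine le_of_sq_le_sq ?_ (norm_nonneg _)
  rw [mul_pow, Real.sq_sqrt (by positivity)]
  exact a4

/-- the linear part of the normalisation -/
def uniformize_A (c μ ε : ℝ) : ℝ × ℝ →L[ℝ] ℝ × ℝ :=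
  (μ • (Real.cos c • ContinuousLinearMap.fst ℝ ℝ ℝ - Real.sin c • ContinuousLinearMap.snd ℝ ℝ ℝ)).prod
    ((ε * μ) • (Real.sin c • ContinuousLinearMap.fst ℝ ℝ ℝ +
      Real.cos c • ContinuousLinearMap.snd ℝ ℝ ℝ))

theorem uniformize_A_apply (c μ ε : ℝ) (z : ℝ × ℝ) :
    uniformize_A c μ ε z = (μ * (rot c z).1, ε * μ * (rot c z).2) := by
  simp [uniformize_A, rot]
  ring

theorem uniformize_A_sq (c μ ε : ℝ) (hε : ε = 1 ∨ ε = -1) (z : ℝ × ℝ) :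
    (uniformize_A c μ ε z).1 ^ 2 + (uniformize_A c μ ε z).2 ^ 2 = μ ^ 2 * (z.1 ^ 2 + z.2 ^ 2) := by
  rw [uniformize_A_apply]
  have h1 : ε ^ 2 = 1 := by rcases hε with h | h <;> rw [h] <;> norm_num
  have h2 := Real.sin_sq_add_cos_sq c
  simp only [rot]
  calc
    _ = μ ^ 2 * ((Real.cos c * z.1 - Real.sin c * z.2) ^ 2 +
        ε ^ 2 * (Real.sin c * z.1 + Real.cos c * z.2) ^ 2) := by ring
    _ = μ ^ 2 * ((Real.sin c ^ 2 + Real.cos c ^ 2) * (z.1 ^ 2 + z.2 ^ 2)) := by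
        rw [h1]
        ring
    _ = _ := by rw [h2, one_mul]

/-- Uniformisation of a metric on the Klein bottle: `g = f² |dΦ|²`. -/
theorem uniformize (g : KleinMetric) : ∃ (b : ℝ) (Φ Ψ : ℝ × ℝ → ℝ × ℝ) (f : ℝ × ℝ → ℝ), 0 < b ∧
    ContDiff ℝ ∞ Φ ∧ ContDiff ℝ ∞ Ψ ∧ ContDiff ℝ ∞ f ∧ (∀ p, Ψ (Φ p) = p) ∧ (∀ w, Φ (Ψ w) = w) ∧
    (∀ w, 0 < f w) ∧ (∀ x y, f (x + Real.pi, -y) = f (x, y)) ∧ (∀ x y, f (x, y + 2 * b) = f (x, y)) ∧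
    (∀ x y, Φ (x + 1 / 2, -y) = ((Φ (x, y)).1 + Real.pi, -(Φ (x, y)).2)) ∧
    (∀ x y, Φ (x, y + 1) = ((Φ (x, y)).1, (Φ (x, y)).2 + 2 * b)) ∧
    (∀ p v, g.inn p v v = f (Φ p) ^ 2 * ((fderiv ℝ Φ p v).1 ^ 2 + (fderiv ℝ Φ p v).2 ^ 2)) := by
  obtain ⟨u, Φ₀, ca, cb, βa, βb, hu, hΦ₀, hu1, hu2, hd, ha, hb⟩ := develop g
  obtain ⟨m, M, hm, -, hmM⟩ := ellip g
  obtain ⟨U, hU⟩ := uniformize_lb u hu.continuous hu1 hu2
  -- lower bound for Φ₀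
  have hlow : ∀ p v, Real.exp (2 * U) * m * (v.1 ^ 2 + v.2 ^ 2) ≤
      (fderiv ℝ Φ₀ p v).1 ^ 2 + (fderiv ℝ Φ₀ p v).2 ^ 2 := by
    intro p v
    rw [hd p v, mul_assoc]
    have h1 : Real.exp (2 * U) ≤ Real.exp (2 * u p) := Real.exp_le_exp.mpr (by linarith [hU p])
    have h2 := (hmM p v).1
    have h3 : 0 ≤ m * (v.1 ^ 2 + v.2 ^ 2) := by positivity
    exact mul_le_mul h1 h2 h3 (Real.exp_pos _).le
  obtain ⟨m0, hm0, hm0'⟩ := uniformize_norm Φ₀ _ (mul_pos (Real.exp_pos (2 * U)) hm) hlow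
  obtain ⟨Ψ₀, -, hl, hr⟩ := inv_smooth Φ₀ hΦ₀ m0 hm0 hm0'
  have hbij : Function.Bijective Φ₀ := by
    refine ⟨fun x y hxy => ?_, fun w => ⟨Ψ₀ w, hr w⟩⟩
    have := congrArg Ψ₀ hxy
    rwa [hl, hl] at this
  obtain ⟨c, μ, b, t, ε, hμ, hb0, hε, n1, n2, n3, n4⟩ := normalize Φ₀ hbij ca cb βa βb ha hb
  -- the normalised map
  obtain ⟨Φ, hΦdef⟩ : ∃ Φ : ℝ × ℝ → ℝ × ℝ, Φ = fun p => uniformize_A c μ ε (Φ₀ p) + t := ⟨_, rfl⟩
  have hΦ1 : ∀ p, (Φ p).1 = μ * (rot c (Φ₀ p)).1 + t.1 := by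
    intro p
    rw [hΦdef]
    change (uniformize_A c μ ε (Φ₀ p)).1 + t.1 = _
    rw [uniformize_A_apply]
  have hΦ2 : ∀ p, (Φ p).2 = ε * μ * (rot c (Φ₀ p)).2 + t.2 := by
    intro p
    rw [hΦdef]
    change (uniformize_A c μ ε (Φ₀ p)).2 + t.2 = _
    rw [uniformize_A_apply]
  have hΦs : ContDiff ℝ ∞ Φ := by
    rw [hΦdef]
    exact ((uniformize_A c μ ε).contDiff.comp hΦ₀).add contDiff_const
  have hΦd : ∀ p v, fderiv ℝ Φ p v = uniformize_A c μ ε (fderiv ℝ Φ₀ p v) := by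
    intro p v
    have h1 : DifferentiableAt ℝ Φ₀ p := (hΦ₀.differentiable (by simp)) p
    have h2 : HasFDerivAt Φ ((uniformize_A c μ ε).comp (fderiv ℝ Φ₀ p)) p := by
      rw [hΦdef]
      exact ((uniformize_A c μ ε).hasFDerivAt.comp p h1.hasFDerivAt).add_const t
    rw [h2.fderiv]
    rfl
  have hΦsq : ∀ p v, (fderiv ℝ Φ p v).1 ^ 2 + (fderiv ℝ Φ p v).2 ^ 2 =
      μ ^ 2 * (Real.exp (2 * u p) * g.inn p v v) := by
    intro p v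
    rw [hΦd, uniformize_A_sq c μ ε hε, hd]
  have hlow2 : ∀ p v, μ ^ 2 * (Real.exp (2 * U) * m) * (v.1 ^ 2 + v.2 ^ 2) ≤
      (fderiv ℝ Φ p v).1 ^ 2 + (fderiv ℝ Φ p v).2 ^ 2 := by
    intro p v
    rw [hΦd, uniformize_A_sq c μ ε hε, mul_assoc]
    exact mul_le_mul_of_nonneg_left (hlow p v) (by positivity)
  obtain ⟨m1, hm1, hm1'⟩ := uniformize_norm Φ _
    (mul_pos (pow_pos hμ 2) (mul_pos (Real.exp_pos (2 * U)) hm)) hlow2
  obtain ⟨Ψ, hΨs, hΨl, hΨr⟩ := inv_smooth Φ hΦs m1 hm1 hm1'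
  have g1 : ∀ x y, Φ (x + 1 / 2, -y) = ((Φ (x, y)).1 + Real.pi, -(Φ (x, y)).2) := by
    intro x y
    ext
    · change (Φ (x + 1 / 2, -y)).1 = (Φ (x, y)).1 + Real.pi
      rw [hΦ1, hΦ1, n1]
    · change (Φ (x + 1 / 2, -y)).2 = -(Φ (x, y)).2
      rw [hΦ2, hΦ2, n2]
  have g2 : ∀ x y, Φ (x, y + 1) = ((Φ (x, y)).1, (Φ (x, y)).2 + 2 * b) := by
    intro x y
    ext
    · change (Φ (x, y + 1)).1 = (Φ (x, y)).1
      rw [hΦ1, hΦ1, n3]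
    · change (Φ (x, y + 1)).2 = (Φ (x, y)).2 + 2 * b
      rw [hΦ2, hΦ2, n4]
  have i1 : ∀ x y, Ψ (x + Real.pi, -y) = ((Ψ (x, y)).1 + 1 / 2, -(Ψ (x, y)).2) := by
    intro x y
    have h1 := g1 (Ψ (x, y)).1 (Ψ (x, y)).2
    have h2 : ((Ψ (x, y)).1, (Ψ (x, y)).2) = Ψ (x, y) := rfl
    rw [h2, hΨr] at h1
    have h3 : ((x, y).1 + Real.pi, -(x, y).2) = (x + Real.pi, -y) := rfl
    rw [h3] at h1
    rw [← h1, hΨl]
  have i2 : ∀ x y, Ψ (x, y + 2 * b) = ((Ψ (x, y)).1, (Ψ (x, y)).2 + 1) := by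
    intro x y
    have h1 := g2 (Ψ (x, y)).1 (Ψ (x, y)).2
    have h2 : ((Ψ (x, y)).1, (Ψ (x, y)).2) = Ψ (x, y) := rfl
    rw [h2, hΨr] at h1
    have h3 : ((x, y).1, (x, y).2 + 2 * b) = (x, y + 2 * b) := rfl
    rw [h3] at h1
    rw [← h1, hΨl]
  refine ⟨b, Φ, Ψ, fun w => Real.exp (-u (Ψ w)) / μ, hb0, hΦs, hΨs, ?_, hΨl, hΨr, ?_, ?_, ?_,
    g1, g2, ?_⟩
  · exact ((hu.comp hΨs).neg.exp).div_const μ
  · intro w
    exact div_pos (Real.exp_pos _) hμ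
  · intro x y
    change Real.exp (-u (Ψ (x + Real.pi, -y))) / μ = Real.exp (-u (Ψ (x, y))) / μ
    rw [i1, hu1]
  · intro x y
    change Real.exp (-u (Ψ (x, y + 2 * b))) / μ = Real.exp (-u (Ψ (x, y))) / μ
    rw [i2, hu2]
  · intro p v
    change g.inn p v v = (Real.exp (-u (Ψ (Φ p))) / μ) ^ 2 * _
    rw [hΦsq, hΨl]
    have h1 : Real.exp (-u p) ^ 2 * Real.exp (2 * u p) = 1 := by
      rw [← Real.exp_nat_mul, ← Real.exp_add]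
      have : ((2 : ℕ) : ℝ) * -u p + 2 * u p = 0 := by push_cast; ring
      rw [this, Real.exp_zero]
    have h2 : μ ≠ 0 := hμ.ne'
    calc
      g.inn p v v = 1 * g.inn p v v := (one_mul _).symm
      _ = Real.exp (-u p) ^ 2 * Real.exp (2 * u p) * g.inn p v v := by rw [h1]
      _ = _ := by
        field_simp

end KleinEmb
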