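import Pool.Agent.Helper719.Emb.Defs
import Pool.Agent.Helper719.Emb.P_bavard
import Pool.Agent.Helper719.Emb.P_inj_bound
import Pool.Agent.Helper719.Emb.P_W
import Pool.Agent.Helper719.Emb.P_W_smooth
import Pool.Agent.Helper719.Emb.P_uniformize
import Pool.Agent.Helper719.Emb.P_area_eq
import Pool.Agent.Helper719.Emb.P_path_transfer

open scoped ContDiff Topology ENNReal
open Set MeasureTheory Filter

noncomputable section

namespace KleinEmb



theorem lw_vol_pos (g : KleinMetric) : 0 < g.vol := by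
  obtain ⟨hW, hWpos, _⟩ := W_smooth g
  have hcont : Continuous (Function.uncurry fun x y : ℝ => g.W (x, y)) := hW.continuous
  change 0 < ∫ x in (0 : ℝ)..(1 / 2), ∫ y in (0 : ℝ)..1, g.W (x, y)
  have hc2 : Continuous fun x : ℝ => ∫ y in (0 : ℝ)..1, g.W (x, y) :=
    intervalIntegral.continuous_parametric_intervalIntegral_of_continuous' hcont 0 1
  refine intervalIntegral.intervalIntegral_pos_of_pos (hc2.intervalIntegrable _ _) (fun x => ?_)
    (by norm_num)
  refine intervalIntegral.intervalIntegral_pos_of_pos ?_ (fun y => hWpos (x, y)) one_pos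
  exact (hW.continuous.comp (by fun_prop : Continuous fun y : ℝ => (x, y))).intervalIntegrable _ _

theorem lower (g : KleinMetric) : ENNReal.ofReal (8 * √2 / Real.pi) < g.embRatio := by
  have hvol := lw_vol_pos g
  obtain ⟨htop, hinj⟩ := inj_bound g
  unfold KleinMetric.embRatio
  by_cases h0 : g.inj = 0
  · rw [h0, zero_pow two_ne_zero, ENNReal.div_zero (ENNReal.ofReal_pos.2 hvol).ne']
    exact ENNReal.ofReal_lt_top
  have hr : 0 < g.inj.toReal := ENNReal.toReal_pos h0 htop
  set r : ℝ := g.inj.toReal with hrdef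
  have hinjr : g.inj = ENNReal.ofReal r := (ENNReal.ofReal_toReal htop).symm
  obtain ⟨b, Φ, Ψ, f, hb, hΦ, hΨ, hf, h1, h2, hpos, h3, h4, h5, h6, h7⟩ := uniformize g
  have hbav := bavard f (hf.of_le (by exact_mod_cast le_top)) hpos b r hb hr h3 h4 (by
    intro c T n k hc hT hnk hend
    obtain ⟨e1, e2, e3⟩ := path_transfer g b Φ Ψ f hb hΦ hΨ h1 h2 hpos h5 h6 h7 c T n k hc hend
    have e4 := hinj (fun t => Ψ (c t)) T n k e1 hT hnk e2
    refine e4.trans (le_of_eq ?_)
    refine intervalIntegral.integral_congr fun t _ => ?_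
    exact e3 t)
  rw [← area_eq g b Φ Ψ f hb hΦ hΨ hf h1 h2 hpos h3 h4 h5 h6 h7] at hbav
  rw [hinjr, ENNReal.lt_div_iff_mul_lt (Or.inl (pow_ne_zero 2 (ENNReal.ofReal_pos.2 hr).ne'))
    (Or.inl (ENNReal.pow_ne_top ENNReal.ofReal_ne_top)), ← ENNReal.ofReal_pow hr.le,
    ← ENNReal.ofReal_mul (by positivity)]
  exact (ENNReal.ofReal_lt_ofReal_iff hvol).2 hbav

end KleinEmb
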