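import Pool.Agent.Helper719.Emb.Defs
import Pool.Agent.Helper719.Emb.P_prof
import Pool.Agent.Helper719.Emb.P_pm

open scoped ContDiff Topology ENNReal
open Set MeasureTheory Filter

noncomputable section

namespace KleinEmb



theorem pm_vol (f : ℝ → ℝ) (hf : IsProf f) :
    (profMetric f hf).vol = 2 * Real.pi * ∫ y in (0 : ℝ)..(2 * c0), f y ^ 2 := by
  have hc : 0 < c0 := c0_pos
  have hpi := Real.pi_pos
  have hcont : Continuous f := hf.smooth.continuous
  have h1 : ∀ x y : ℝ, √((profMetric f hf).E (x, y) * (profMetric f hf).G (x, y) -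
      (profMetric f hf).F (x, y) ^ 2) = 8 * Real.pi * c0 * f (4 * c0 * y) ^ 2 := by
    intro x y
    have h2 := hf.pos (4 * c0 * y)
    have h3 : (profMetric f hf).E (x, y) * (profMetric f hf).G (x, y) -
      (profMetric f hf).F (x, y) ^ 2 = (8 * Real.pi * c0 * f (4 * c0 * y) ^ 2) ^ 2 := by
      show 4 * Real.pi ^ 2 * f (4 * c0 * y) ^ 2 * (16 * c0 ^ 2 * f (4 * c0 * y) ^ 2) - 0 ^ 2 = _
      ring
    rw [h3, Real.sqrt_sq (by positivity)]
  unfold KleinMetric.vol
  simp only [h1]
  have h2 : ∫ y in (0 : ℝ)..1, 8 * Real.pi * c0 * f (4 * c0 * y) ^ 2 =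
      2 * Real.pi * ∫ y in (0 : ℝ)..(4 * c0), f y ^ 2 := by
    rw [intervalIntegral.integral_const_mul]
    have h3 := intervalIntegral.mul_integral_comp_mul_left (f := fun y => f y ^ 2) (a := 0) (b := 1)
      (4 * c0)
    rw [mul_zero, mul_one] at h3
    rw [← h3]
    ring
  have hper : Function.Periodic (fun y => f y ^ 2) (2 * c0) := fun y => by
    simp only [hf.per]
  have hint : ∀ a b : ℝ, IntervalIntegrable (fun y => f y ^ 2) volume a b := fun a b =>
    (hcont.pow 2).intervalIntegrable a b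
  have h4 : ∫ y in (0 : ℝ)..(4 * c0), f y ^ 2 = 2 * ∫ y in (0 : ℝ)..(2 * c0), f y ^ 2 := by
    rw [← intervalIntegral.integral_add_adjacent_intervals (hint 0 (2 * c0)) (hint (2 * c0) (4 * c0))]
    have h5 := hper.intervalIntegral_add_eq (2 * c0) 0
    have h6 : 2 * c0 + 2 * c0 = 4 * c0 := by ring
    rw [h6, zero_add] at h5
    rw [h5]
    ring
  rw [h2, h4, intervalIntegral.integral_const]
  simp only [sub_zero, smul_eq_mul]
  ring

end KleinEmb
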