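import Pool.Agent.Helper719.Emb.Defs
import Pool.Agent.Helper719.Emb.P_prof

open scoped ContDiff Topology ENNReal
open Set MeasureTheory Filter

noncomputable section

namespace KleinEmb



theorem cosh_c0 : Real.cosh c0 = √2 := by
  have h2 : 0 < √2 := by positivity
  have h1 : (0 : ℝ) < 1 + √2 := by linarith
  unfold c0
  rw [Real.cosh_log h1]
  have h3 : √2 * √2 = 2 := Real.mul_self_sqrt (by norm_num)
  have h4 : (1 + √2)⁻¹ = √2 - 1 := by
    rw [inv_eq_iff_eq_inv, eq_comm, inv_eq_iff_eq_inv, eq_comm]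
    rw [inv_eq_one_div, div_eq_iff (by linarith)]
    nlinarith
  rw [h4]
  ring

/-- the angle function -/
def AA (q : ℝ) (y : ℝ) : ℝ :=
  (2 * c0 / Real.pi) * Real.arcsin (q * Real.sin (Real.pi * y / (2 * c0)))

theorem qsin_lt (q : ℝ) (hq0 : 0 < q) (hq1 : q < 1) (u : ℝ) : |q * Real.sin u| < 1 := by
  rw [abs_mul, abs_of_pos hq0]
  have h := Real.abs_sin_le_one u
  nlinarith [abs_nonneg (Real.sin u)]

theorem AA_abs_le (q : ℝ) (y : ℝ) : |AA q y| ≤ |c0| := by
  have hc := c0_pos
  have hpi := Real.pi_pos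
  rw [abs_of_pos hc, AA, abs_mul, abs_of_pos (by positivity : 0 < 2 * c0 / Real.pi)]
  have h1 : |Real.arcsin (q * Real.sin (Real.pi * y / (2 * c0)))| ≤ Real.pi / 2 :=
    abs_le.2 ⟨by linarith [Real.neg_pi_div_two_le_arcsin (q * Real.sin (Real.pi * y / (2 * c0)))],
      Real.arcsin_le_pi_div_two _⟩
  calc 2 * c0 / Real.pi * |Real.arcsin (q * Real.sin (Real.pi * y / (2 * c0)))|
      ≤ 2 * c0 / Real.pi * (Real.pi / 2) := mul_le_mul_of_nonneg_left h1 (by positivity)
    _ = c0 := by field_simp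

theorem abs_arcsin' (z : ℝ) : |Real.arcsin z| = Real.arcsin |z| := by
  rcases le_total 0 z with h | h
  · rw [abs_of_nonneg h, abs_of_nonneg (Real.arcsin_nonneg.2 h)]
  · rw [abs_of_nonpos h, abs_of_nonpos (Real.arcsin_nonpos.2 h), Real.arcsin_neg]

theorem AA_hasDeriv (q : ℝ) (hq0 : 0 < q) (hq1 : q < 1) (y : ℝ) :
    HasDerivAt (AA q) (q * Real.cos (Real.pi * y / (2 * c0)) /
      √(1 - (q * Real.sin (Real.pi * y / (2 * c0))) ^ 2)) y := by
  have hc := c0_pos
  have hpi := Real.pi_pos
  have hlt := abs_lt.1 (qsin_lt q hq0 hq1 (Real.pi * y / (2 * c0)))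
  have h1 : HasDerivAt (fun y : ℝ => Real.pi * y / (2 * c0)) (Real.pi / (2 * c0)) y := by
    have h := ((hasDerivAt_id y).const_mul Real.pi).div_const (2 * c0)
    simpa using h
  have h2 : HasDerivAt (fun y : ℝ => q * Real.sin (Real.pi * y / (2 * c0)))
      (q * (Real.cos (Real.pi * y / (2 * c0)) * (Real.pi / (2 * c0)))) y := (h1.sin).const_mul q
  have h3 := (Real.hasDerivAt_arcsin (x := q * Real.sin (Real.pi * y / (2 * c0)))
    (by linarith [hlt.1] : _ ≠ _) (ne_of_lt hlt.2))
  have h4 := (h3.comp y h2).const_mul (2 * c0 / Real.pi)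
  refine h4.congr_deriv ?_
  field_simp

theorem w_pos (q : ℝ) (hq0 : 0 < q) (hq1 : q < 1) (u : ℝ) :
    0 < 1 - (q * Real.sin u) ^ 2 := by
  have h := qsin_lt q hq0 hq1 u
  have h2 : (q * Real.sin u) ^ 2 < 1 := by
    rw [← sq_abs]
    have := abs_nonneg (q * Real.sin u)
    nlinarith
  linarith

theorem Ap_hasDeriv (q : ℝ) (hq0 : 0 < q) (hq1 : q < 1) (y : ℝ) :
    HasDerivAt (fun y => q * Real.cos (Real.pi * y / (2 * c0)) /
      √(1 - (q * Real.sin (Real.pi * y / (2 * c0))) ^ 2))
      (-(Real.pi / (2 * c0) * q * (1 - q ^ 2) * Real.sin (Real.pi * y / (2 * c0))) /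
        √(1 - (q * Real.sin (Real.pi * y / (2 * c0))) ^ 2) ^ 3) y := by
  have hc := c0_pos
  have hpi := Real.pi_pos
  have h1 : HasDerivAt (fun y : ℝ => Real.pi * y / (2 * c0)) (Real.pi / (2 * c0)) y := by
    have h := ((hasDerivAt_id y).const_mul Real.pi).div_const (2 * c0)
    simpa using h
  have hw := w_pos q hq0 hq1 (Real.pi * y / (2 * c0))
  have h2 : HasDerivAt (fun y : ℝ => q * Real.sin (Real.pi * y / (2 * c0)))
      (q * (Real.cos (Real.pi * y / (2 * c0)) * (Real.pi / (2 * c0)))) y := (h1.sin).const_mul q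
  have h3 : HasDerivAt (fun y : ℝ => q * Real.cos (Real.pi * y / (2 * c0)))
      (q * (-Real.sin (Real.pi * y / (2 * c0)) * (Real.pi / (2 * c0)))) y := (h1.cos).const_mul q
  have h4 : HasDerivAt (fun y : ℝ => 1 - (q * Real.sin (Real.pi * y / (2 * c0))) ^ 2)
      (-(2 * (q * Real.sin (Real.pi * y / (2 * c0))) *
        (q * (Real.cos (Real.pi * y / (2 * c0)) * (Real.pi / (2 * c0)))))) y := by
    have h := (h2.pow 2).const_sub 1
    refine h.congr_deriv ?_
    norm_num
  have h5 := h4.sqrt hw.ne'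
  have h6 := h3.div h5 (Real.sqrt_ne_zero'.2 hw)
  refine h6.congr_deriv ?_
  set S := √(1 - (q * Real.sin (Real.pi * y / (2 * c0))) ^ 2) with hS
  have hSp : 0 < S := Real.sqrt_pos.2 hw
  have hS2 : S ^ 2 = 1 - (q * Real.sin (Real.pi * y / (2 * c0))) ^ 2 := Real.sq_sqrt hw.le
  have hsc := Real.sin_sq_add_cos_sq (Real.pi * y / (2 * c0))
  set s := Real.sin (Real.pi * y / (2 * c0))
  set c := Real.cos (Real.pi * y / (2 * c0))
  have hK : (Real.pi / (2 * c0)) = (Real.pi / (2 * c0)) := rfl
  generalize Real.pi / (2 * c0) = K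
  rw [div_eq_div_iff (by positivity) (by positivity)]
  have h7 : (q * (-s * K) * S - q * c * (-(2 * (q * s) * (q * (c * K))) / (2 * S))) * S ^ 3 =
      (q * (-s * K) * S ^ 2 + q * c * ((q * s) * (q * (c * K)))) * S ^ 2 := by
    field_simp
    try ring
  rw [h7]
  have h8 : q * (-s * K) * S ^ 2 + q * c * ((q * s) * (q * (c * K))) =
      -(K * q * (1 - q ^ 2) * s) := by
    rw [hS2]
    linear_combination q ^ 3 * s * K * hsc
  rw [h8]

theorem prof_q (q : ℝ) (hq0 : 0 < q) (hq1 : q < 1) :
    IsProf (fun y => 1 / Real.cosh ((2 * c0 / Real.pi) *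
      Real.arcsin (q * Real.sin (Real.pi * y / (2 * c0))))) := by
  have hc := c0_pos
  have hpi := Real.pi_pos
  change IsProf (fun y => 1 / Real.cosh (AA q y))
  refine ⟨?_, ?_, ?_, ?_, ?_, ?_, ?_⟩
  · have hA : ContDiff ℝ ∞ (AA q) := by
      rw [contDiff_iff_contDiffAt]
      intro y
      have hlt := abs_lt.1 (qsin_lt q hq0 hq1 (Real.pi * y / (2 * c0)))
      have h1 : ContDiffAt ℝ ∞ Real.arcsin (q * Real.sin (Real.pi * y / (2 * c0))) :=
        Real.contDiffAt_arcsin (by linarith [hlt.1] : _ ≠ _) (ne_of_lt hlt.2)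
      have h2 : ContDiffAt ℝ ∞ (fun y : ℝ => q * Real.sin (Real.pi * y / (2 * c0))) y := by
        apply ContDiff.contDiffAt
        fun_prop
      have h3 : ContDiffAt ℝ ∞ (fun y : ℝ =>
          Real.arcsin (q * Real.sin (Real.pi * y / (2 * c0)))) y :=
        ContDiffAt.comp (g := Real.arcsin)
          (f := fun y : ℝ => q * Real.sin (Real.pi * y / (2 * c0))) y h1 h2
      exact contDiffAt_const.mul h3
    exact contDiff_const.div (Real.contDiff_cosh.comp hA) fun y => (Real.cosh_pos _).ne'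
  · intro y
    have h1 : Real.cosh (AA q y) ≤ √2 := by
      rw [← cosh_c0]
      exact Real.cosh_le_cosh.2 (AA_abs_le q y)
    exact one_div_le_one_div_of_le (Real.cosh_pos _) h1
  · intro y
    rw [div_le_one (Real.cosh_pos _)]
    exact Real.one_le_cosh _
  · intro y
    have h1 : AA q (-y) = -AA q y := by
      unfold AA
      have h2 : Real.pi * (-y) / (2 * c0) = -(Real.pi * y / (2 * c0)) := by ring
      rw [h2, Real.sin_neg, mul_neg, Real.arcsin_neg]
      ring
    simp only [h1, Real.cosh_neg]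
  · intro y
    have h1 : AA q (y + 2 * c0) = -AA q y := by
      unfold AA
      have h2 : Real.pi * (y + 2 * c0) / (2 * c0) = Real.pi * y / (2 * c0) + Real.pi := by
        field_simp
      rw [h2, Real.sin_add_pi, mul_neg, Real.arcsin_neg]
      ring
    simp only [h1, Real.cosh_neg]
  · intro k y
    apply one_div_le_one_div_of_le (Real.cosh_pos _)
    apply Real.cosh_le_cosh.2
    have h1 : y - 2 * c0 * k = (2 * c0 / Real.pi) * (Real.pi * y / (2 * c0) - k * Real.pi) := by
      field_simp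
    rw [h1, AA, abs_mul, abs_mul]
    refine mul_le_mul_of_nonneg_left ?_ (abs_nonneg _)
    set v := Real.pi * y / (2 * c0) - k * Real.pi with hv
    have h2 : |Real.sin (Real.pi * y / (2 * c0))| = |Real.sin v| := by
      rw [hv, Real.sin_sub_int_mul_pi, abs_mul]
      have h3 : |((-1 : ℝ) ^ k)| = 1 := by
        rw [abs_zpow]
        simp
      rw [h3, one_mul]
    rcases le_or_gt (Real.pi / 2) |v| with h3 | h3
    · refine le_trans ?_ h3
      have h4 := Real.neg_pi_div_two_le_arcsin (q * Real.sin (Real.pi * y / (2 * c0)))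
      exact abs_le.2 ⟨h4, Real.arcsin_le_pi_div_two _⟩
    · rw [abs_arcsin', abs_mul, abs_of_pos hq0, h2]
      have h4 : |Real.sin v| = Real.sin |v| := by
        rcases le_total 0 v with h | h
        · rw [abs_of_nonneg h] at h3 ⊢
          exact abs_of_nonneg (Real.sin_nonneg_of_nonneg_of_le_pi h (by linarith))
        · rw [abs_of_nonpos h] at h3 ⊢
          rw [Real.sin_neg]
          refine abs_of_nonpos ?_
          exact Real.sin_nonpos_of_nonpos_of_neg_pi_le h (by linarith)
      have h5 : q * |Real.sin v| ≤ Real.sin |v| := by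
        rw [← h4]
        have := abs_nonneg (Real.sin v)
        nlinarith
      calc Real.arcsin (q * |Real.sin v|) ≤ Real.arcsin (Real.sin |v|) :=
            Real.monotone_arcsin h5
        _ = |v| := Real.arcsin_sin (by linarith [abs_nonneg v]) h3.le
  · intro y
    have hf : ∀ z, HasDerivAt (fun y => 1 / Real.cosh (AA q y))
        (-(Real.sinh (AA q z) * (q * Real.cos (Real.pi * z / (2 * c0)) /
          √(1 - (q * Real.sin (Real.pi * z / (2 * c0))) ^ 2))) / Real.cosh (AA q z) ^ 2) z := by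
      intro z
      have h1 := ((AA_hasDeriv q hq0 hq1 z).cosh).fun_inv (Real.cosh_pos _).ne'
      simpa only [one_div] using h1
    have hquot : (fun z => deriv (fun y => 1 / Real.cosh (AA q y)) z /
        (1 / Real.cosh (AA q z))) = fun z => -((Real.sinh (AA q z) / Real.cosh (AA q z)) *
          (q * Real.cos (Real.pi * z / (2 * c0)) /
          √(1 - (q * Real.sin (Real.pi * z / (2 * c0))) ^ 2))) := by
      funext z
      rw [(hf z).deriv]
      have := (Real.cosh_pos (AA q z)).ne'
      field_simp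
    rw [hquot]
    have hA := AA_hasDeriv q hq0 hq1 y
    have hAp := Ap_hasDeriv q hq0 hq1 y
    have hw := w_pos q hq0 hq1 (Real.pi * y / (2 * c0))
    have hsc := Real.sin_sq_add_cos_sq (Real.pi * y / (2 * c0))
    have hch := Real.cosh_pos (AA q y)
    have hq := (hA.sinh.div hA.cosh hch.ne').mul hAp
    have hder := hq.neg
    have hd := hder.deriv
    have hsq := Real.cosh_sq (AA q y)
    have hsign : Real.sinh (AA q y) * Real.sin (Real.pi * y / (2 * c0)) ≥ 0 := by
      rcases le_total 0 (Real.sin (Real.pi * y / (2 * c0))) with h | h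
      · have h1 : 0 ≤ AA q y := by
          unfold AA
          exact mul_nonneg (by positivity) (Real.arcsin_nonneg.2 (by positivity))
        exact mul_nonneg (Real.sinh_nonneg_iff.2 h1) h
      · have h1 : AA q y ≤ 0 := by
          unfold AA
          exact mul_nonpos_of_nonneg_of_nonpos (by positivity)
            (Real.arcsin_nonpos.2 (mul_nonpos_of_nonneg_of_nonpos hq0.le h))
        exact mul_nonneg_of_nonpos_of_nonpos (Real.sinh_nonpos_iff.2 h1) h
    have hS2 : √(1 - (q * Real.sin (Real.pi * y / (2 * c0))) ^ 2) ^ 2 =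
        1 - (q * Real.sin (Real.pi * y / (2 * c0))) ^ 2 := Real.sq_sqrt hw.le
    have hSp : 0 < √(1 - (q * Real.sin (Real.pi * y / (2 * c0))) ^ 2) := Real.sqrt_pos.2 hw
    have hgoal : deriv (fun z => -((Real.sinh (AA q z) / Real.cosh (AA q z)) *
          (q * Real.cos (Real.pi * z / (2 * c0)) /
          √(1 - (q * Real.sin (Real.pi * z / (2 * c0))) ^ 2)))) y =
        -((1 / Real.cosh (AA q y)) ^ 2 * (q * Real.cos (Real.pi * y / (2 * c0)) /
          √(1 - (q * Real.sin (Real.pi * y / (2 * c0))) ^ 2)) ^ 2) +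
        (Real.sinh (AA q y) * Real.sin (Real.pi * y / (2 * c0))) / Real.cosh (AA q y) *
          (Real.pi / (2 * c0) * q * (1 - q ^ 2) /
          √(1 - (q * Real.sin (Real.pi * y / (2 * c0))) ^ 2) ^ 3) := by
      refine hd.trans ?_
      have h9 : Real.cosh (AA q y) * Real.cosh (AA q y) - Real.sinh (AA q y) * Real.sinh (AA q y)
          = 1 := by nlinarith
      generalize (q * Real.cos (Real.pi * y / (2 * c0)) /
          √(1 - (q * Real.sin (Real.pi * y / (2 * c0))) ^ 2)) = P
      have h10 : (Real.cosh (AA q y) * P * Real.cosh (AA q y) -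
          Real.sinh (AA q y) * (Real.sinh (AA q y) * P)) = P := by
        linear_combination P * h9
      rw [h10]
      simp only [Pi.div_apply]
      ring
    rw [hgoal]
    have h11 : (q * Real.cos (Real.pi * y / (2 * c0)) /
          √(1 - (q * Real.sin (Real.pi * y / (2 * c0))) ^ 2)) ^ 2 ≤ 1 := by
      rw [div_pow, hS2, div_le_one hw]
      have : q ^ 2 ≤ 1 := by nlinarith
      nlinarith
    have h12 : 0 ≤ (Real.sinh (AA q y) * Real.sin (Real.pi * y / (2 * c0))) / Real.cosh (AA q y) *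
          (Real.pi / (2 * c0) * q * (1 - q ^ 2) /
          √(1 - (q * Real.sin (Real.pi * y / (2 * c0))) ^ 2) ^ 3) := by
      have h13 : 0 ≤ 1 - q ^ 2 := by nlinarith
      apply mul_nonneg (div_nonneg hsign hch.le)
      positivity
    have h14 : 0 ≤ (1 / Real.cosh (AA q y)) ^ 2 := by positivity
    nlinarith

end KleinEmb
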