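import Pool.Agent.Helper719.Emb.Defs
import Pool.Agent.Helper719.Emb.P_prof
import Pool.Agent.Helper719.Emb.P_prof_q

open scoped ContDiff Topology ENNReal
open Set MeasureTheory Filter

noncomputable section

namespace KleinEmb



theorem pe_exp_c0 : Real.exp c0 = 1 + √2 := by
  unfold c0
  exact Real.exp_log (by positivity)

theorem pe_exp_neg_c0 : Real.exp (-c0) = √2 - 1 := by
  rw [Real.exp_neg, pe_exp_c0]
  have h : (1 + √2) ≠ 0 := by positivity
  field_simp
  nlinarith [Real.sq_sqrt (show (0:ℝ) ≤ 2 by norm_num)]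

theorem pe_sinh_c0 : Real.sinh c0 = 1 := by
  rw [Real.sinh_eq, pe_exp_c0, pe_exp_neg_c0]; ring

theorem pe_cosh_c0 : Real.cosh c0 = √2 := by
  rw [Real.cosh_eq, pe_exp_c0, pe_exp_neg_c0]; ring

/-- the integral of `sech²` -/
theorem pe_int_sech (a b : ℝ) :
    ∫ y in a..b, (1 / Real.cosh y) ^ 2 = Real.sinh b / Real.cosh b - Real.sinh a / Real.cosh a := by
  have hd : ∀ y : ℝ, HasDerivAt (fun y => Real.sinh y / Real.cosh y) ((1 / Real.cosh y) ^ 2) y := by
    intro y
    have h := (Real.hasDerivAt_sinh y).div (Real.hasDerivAt_cosh y) (Real.cosh_pos y).ne'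
    have h2 := Real.cosh_sq y
    have h3 := (Real.cosh_pos y).ne'
    have h4 : (1 / Real.cosh y) ^ 2 =
        (Real.cosh y * Real.cosh y - Real.sinh y * Real.sinh y) / Real.cosh y ^ 2 := by
      rw [show Real.cosh y * Real.cosh y - Real.sinh y * Real.sinh y = 1 by nlinarith, one_div,
        inv_pow, one_div]
    rw [h4]
    exact h
  refine intervalIntegral.integral_eq_sub_of_hasDerivAt (fun y _ => hd y) ?_
  apply Continuous.intervalIntegrable
  exact (continuous_const.div Real.continuous_cosh fun y => (Real.cosh_pos y).ne').pow 2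

/-- the profile at `q = 1`, first half -/
theorem pe_first (y : ℝ) (h0 : 0 ≤ y) (h1 : y ≤ c0) :
    (2 * c0 / Real.pi) * Real.arcsin (1 * Real.sin (Real.pi * y / (2 * c0))) = y := by
  have hc := c0_pos
  have hp := Real.pi_pos
  rw [one_mul, Real.arcsin_sin]
  · field_simp
  · have : 0 ≤ Real.pi * y / (2 * c0) := by positivity
    linarith
  · rw [div_le_div_iff₀ (by positivity) (by norm_num)]
    nlinarith

/-- the profile at `q = 1`, second half -/
theorem pe_second (y : ℝ) (h0 : c0 ≤ y) (h1 : y ≤ 2 * c0) :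
    (2 * c0 / Real.pi) * Real.arcsin (1 * Real.sin (Real.pi * y / (2 * c0))) = 2 * c0 - y := by
  have hc := c0_pos
  have hp := Real.pi_pos
  have e : Real.sin (Real.pi * y / (2 * c0)) = Real.sin (Real.pi * (2 * c0 - y) / (2 * c0)) := by
    rw [← Real.sin_pi_sub]
    congr 1
    field_simp
  rw [e]
  exact pe_first (2 * c0 - y) (by linarith) (by linarith)

theorem prof_exists (ε : ℝ) (hε : 0 < ε) :
    ∃ f : ℝ → ℝ, IsProf f ∧ ∫ y in (0 : ℝ)..(2 * c0), f y ^ 2 ≤ √2 + ε := by
  have hc := c0_pos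
  let G : ℝ → ℝ → ℝ := fun q y => (1 / Real.cosh ((2 * c0 / Real.pi) *
      Real.arcsin (q * Real.sin (Real.pi * y / (2 * c0))))) ^ 2
  have hG : Continuous (Function.uncurry G) := by
    have h1 : Continuous fun p : ℝ × ℝ => (2 * c0 / Real.pi) *
      Real.arcsin (p.1 * Real.sin (Real.pi * p.2 / (2 * c0))) := by
      refine continuous_const.mul (Real.continuous_arcsin.comp ?_)
      refine continuous_fst.mul (Real.continuous_sin.comp ?_)
      exact (continuous_const.mul continuous_snd).div_const _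
    have h2 : Continuous fun p : ℝ × ℝ => (1 / Real.cosh ((2 * c0 / Real.pi) *
      Real.arcsin (p.1 * Real.sin (Real.pi * p.2 / (2 * c0))))) ^ 2 :=
      (continuous_const.div (Real.continuous_cosh.comp h1)
        fun p => (Real.cosh_pos _).ne').pow 2
    exact h2
  have hF : Continuous fun q => ∫ y in (0 : ℝ)..(2 * c0), G q y :=
    intervalIntegral.continuous_parametric_intervalIntegral_of_continuous' hG 0 (2 * c0)
  have hG1 : ∀ a b : ℝ, IntervalIntegrable (G 1) MeasureTheory.volume a b := fun a b =>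
    (hG.comp (continuous_const.prodMk continuous_id)).intervalIntegrable a b
  have hF1 : ∫ y in (0 : ℝ)..(2 * c0), G 1 y = √2 := by
    rw [← intervalIntegral.integral_add_adjacent_intervals (hG1 0 c0) (hG1 c0 (2 * c0))]
    have e1 : ∫ y in (0 : ℝ)..c0, G 1 y = ∫ y in (0 : ℝ)..c0, (1 / Real.cosh y) ^ 2 := by
      refine intervalIntegral.integral_congr fun y hy => ?_
      rw [Set.uIcc_of_le hc.le] at hy
      change (1 / Real.cosh _) ^ 2 = _
      rw [pe_first y hy.1 hy.2]
    have e2 : ∫ y in c0..(2 * c0), G 1 y = ∫ y in c0..(2 * c0), (1 / Real.cosh (2 * c0 - y)) ^ 2 := by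
      refine intervalIntegral.integral_congr fun y hy => ?_
      rw [Set.uIcc_of_le (by linarith)] at hy
      change (1 / Real.cosh _) ^ 2 = _
      rw [pe_second y hy.1 hy.2]
    rw [e1, e2, intervalIntegral.integral_comp_sub_left (fun y => (1 / Real.cosh y) ^ 2) (2 * c0),
      pe_int_sech, show 2 * c0 - 2 * c0 = 0 by ring, show 2 * c0 - c0 = c0 by ring, pe_int_sech,
      pe_sinh_c0, pe_cosh_c0]
    simp only [Real.sinh_zero, zero_div, sub_zero]
    have h2 : √2 * √2 = 2 := Real.mul_self_sqrt (by norm_num)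
    have h3 : √2 ≠ 0 := by positivity
    field_simp
    nlinarith
  have hcont := Metric.continuous_iff.1 hF 1 ε hε
  obtain ⟨δ, hδ, hδ'⟩ := hcont
  set q : ℝ := max (1 / 2) (1 - δ / 2) with hq
  have hq0 : 0 < q := lt_of_lt_of_le (by norm_num) (le_max_left _ _)
  have hq1 : q < 1 := max_lt (by norm_num) (by linarith)
  have hq2 : dist q 1 < δ := by
    rw [Real.dist_eq, abs_sub_comm, abs_of_pos (by linarith)]
    have := le_max_right (1 / 2 : ℝ) (1 - δ / 2)
    linarith
  have h5 := hδ' q hq2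
  rw [Real.dist_eq, hF1] at h5
  refine ⟨_, prof_q q hq0 hq1, ?_⟩
  have h6 := (abs_lt.1 h5).2
  change ∫ y in (0 : ℝ)..(2 * c0), G q y ≤ √2 + ε
  linarith

end KleinEmb
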