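import Pool.Agent.Helper719.Emb.Defs
import Pool.Agent.Helper719.Emb.P_prof
import Pool.Agent.Helper719.Emb.P_pm
import Pool.Agent.Helper719.Emb.P_cg
import Pool.Agent.Helper719.Emb.P_cg_of_geo
import Pool.Agent.Helper719.Emb.P_variation
import Pool.Agent.Helper719.Emb.P_jacobi
import Pool.Agent.Helper719.Emb.P_ham
import Pool.Agent.Helper719.Emb.P_alg
import Pool.Agent.Helper719.Emb.P_field_smooth
import Pool.Agent.Helper719.Emb.P_ener_fderiv
import Pool.Agent.Helper719.Emb.P_geo_flow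
import Pool.Agent.Helper719.Emb.P_flow_ener
import Pool.Agent.Helper719.Emb.P_geo_of_flow
import Pool.Agent.Helper719.Emb.P_exp_eq
import Pool.Agent.Helper719.Emb.P_exp_smooth
import Pool.Agent.Helper719.Emb.P_gauss
import Pool.Agent.Helper719.Emb.P_exp_zero

open scoped ContDiff Topology ENNReal
open Set MeasureTheory Filter

noncomputable section

namespace KleinEmb



theorem prof_imm_fst {A B : Type} [NormedAddCommGroup A] [NormedSpace ℝ A] [NormedAddCommGroup B]
    [NormedSpace ℝ B] {F : ℝ → A × B} {F' : A × B} {t : ℝ} (h : HasDerivAt F F' t) :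
    HasDerivAt (fun t => (F t).1) F'.1 t := by
  have h1 := h.hasFDerivAt.fst.hasDerivAt
  simpa using h1

theorem prof_imm_snd {A B : Type} [NormedAddCommGroup A] [NormedSpace ℝ A] [NormedAddCommGroup B]
    [NormedSpace ℝ B] {F : ℝ → A × B} {F' : A × B} {t : ℝ} (h : HasDerivAt F F' t) :
    HasDerivAt (fun t => (F t).2) F'.2 t := by
  have h1 := h.hasFDerivAt.snd.hasDerivAt
  simpa using h1

theorem prof_imm_E (f : ℝ → ℝ) (hf : IsProf f) (a : ℝ) (p : ℝ × ℝ) :
    HasFDerivAt (fun p : ℝ × ℝ => a * f (4 * c0 * p.2) ^ 2)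
      ((a * (2 * f (4 * c0 * p.2) * (deriv f (4 * c0 * p.2) * (4 * c0)))) •
        ContinuousLinearMap.snd ℝ ℝ ℝ) p := by
  have hd : Differentiable ℝ f := hf.smooth.differentiable (by simp)
  have h1 : HasDerivAt (fun y : ℝ => a * f (4 * c0 * y) ^ 2)
      (a * (2 * f (4 * c0 * p.2) * (deriv f (4 * c0 * p.2) * (4 * c0)))) p.2 := by
    have h2 : HasDerivAt (fun y : ℝ => 4 * c0 * y) (4 * c0) p.2 := by
      simpa using (hasDerivAt_id p.2).const_mul (4 * c0)
    have h3 : HasDerivAt (fun y : ℝ => f (4 * c0 * y)) (deriv f (4 * c0 * p.2) * (4 * c0)) p.2 :=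
      (hd (4 * c0 * p.2)).hasDerivAt.comp p.2 h2
    have h4 := (h3.pow 2).const_mul a
    simpa using h4
  exact h1.comp_hasFDerivAt p (hasFDerivAt_snd)

theorem prof_imm_force (f : ℝ → ℝ) (hf : IsProf f) (p v : ℝ × ℝ) :
    (profMetric f hf).force p v (1, 0) = 0 ∧
    (profMetric f hf).force p v (0, 1) = 4 * c0 * (f (4 * c0 * p.2) * deriv f (4 * c0 * p.2)) *
      (4 * Real.pi ^ 2 * v.1 ^ 2 + 16 * c0 ^ 2 * v.2 ^ 2) := by
  have hE : fderiv ℝ (profMetric f hf).E p = (4 * Real.pi ^ 2 * (2 * f (4 * c0 * p.2) *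
      (deriv f (4 * c0 * p.2) * (4 * c0)))) • ContinuousLinearMap.snd ℝ ℝ ℝ :=
    (prof_imm_E f hf (4 * Real.pi ^ 2) p).fderiv
  have hG : fderiv ℝ (profMetric f hf).G p = (16 * c0 ^ 2 * (2 * f (4 * c0 * p.2) *
      (deriv f (4 * c0 * p.2) * (4 * c0)))) • ContinuousLinearMap.snd ℝ ℝ ℝ :=
    (prof_imm_E f hf (16 * c0 ^ 2) p).fderiv
  have hF : fderiv ℝ (profMetric f hf).F p = 0 := by
    have : (profMetric f hf).F = fun _ => 0 := rfl
    rw [this]
    simp
  unfold KleinMetric.force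
  rw [hE, hG, hF]
  constructor
  · simp
  · simp
    ring

theorem prof_imm_vel (f : ℝ → ℝ) (hf : IsProf f) (z : (ℝ × ℝ) × (ℝ × ℝ)) :
    (profMetric f hf).vel z = (z.2.1 / (4 * Real.pi ^ 2 * f (4 * c0 * z.1.2) ^ 2),
      z.2.2 / (16 * c0 ^ 2 * f (4 * c0 * z.1.2) ^ 2)) := by
  have h1 := hf.pos (4 * c0 * z.1.2)
  have h2 := Real.pi_pos
  have h3 := c0_pos
  unfold KleinMetric.vel
  have hE : (profMetric f hf).E z.1 = 4 * Real.pi ^ 2 * f (4 * c0 * z.1.2) ^ 2 := rfl
  have hF : (profMetric f hf).F z.1 = 0 := rfl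
  have hG : (profMetric f hf).G z.1 = 16 * c0 ^ 2 * f (4 * c0 * z.1.2) ^ 2 := rfl
  rw [hE, hF, hG]
  generalize f (4 * c0 * z.1.2) = F at h1
  generalize Real.pi = q at h2
  generalize c0 = c at h3
  refine Prod.ext ?_ ?_
  · simp only
    rw [div_eq_div_iff (by nlinarith [mul_pos (pow_pos h2 2) (pow_pos h1 2), mul_pos (pow_pos h3 2) (pow_pos h1 2), mul_pos (mul_pos (pow_pos h2 2) (pow_pos h1 2)) (mul_pos (pow_pos h3 2) (pow_pos h1 2))]) (by positivity)]
    ring
  · simp only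
    rw [div_eq_div_iff (by nlinarith [mul_pos (pow_pos h2 2) (pow_pos h1 2), mul_pos (pow_pos h3 2) (pow_pos h1 2), mul_pos (mul_pos (pow_pos h2 2) (pow_pos h1 2)) (mul_pos (pow_pos h3 2) (pow_pos h1 2))]) (by positivity)]
    ring

theorem prof_imm_ener (f : ℝ → ℝ) (hf : IsProf f) (z : (ℝ × ℝ) × (ℝ × ℝ)) :
    2 * (profMetric f hf).ener z = z.2.1 ^ 2 / (4 * Real.pi ^ 2 * f (4 * c0 * z.1.2) ^ 2) +
      z.2.2 ^ 2 / (16 * c0 ^ 2 * f (4 * c0 * z.1.2) ^ 2) := by
  unfold KleinMetric.ener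
  rw [prof_imm_vel]
  simp only
  ring

theorem prof_imm_field (f : ℝ → ℝ) (hf : IsProf f) (z : (ℝ × ℝ) × (ℝ × ℝ)) :
    (profMetric f hf).field z = ((z.2.1 / (4 * Real.pi ^ 2 * f (4 * c0 * z.1.2) ^ 2),
      z.2.2 / (16 * c0 ^ 2 * f (4 * c0 * z.1.2) ^ 2)),
      (0, 8 * c0 * (deriv f (4 * c0 * z.1.2) / f (4 * c0 * z.1.2)) * (profMetric f hf).ener z)) := by
  have h1 := hf.pos (4 * c0 * z.1.2)
  have h2 := Real.pi_pos
  have h3 := c0_pos
  unfold KleinMetric.field
  rw [(prof_imm_force f hf z.1 _).1, (prof_imm_force f hf z.1 _).2, prof_imm_vel]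
  refine Prod.ext rfl (Prod.ext rfl ?_)
  simp only
  have e : 8 * c0 * (deriv f (4 * c0 * z.1.2) / f (4 * c0 * z.1.2)) * (profMetric f hf).ener z =
      4 * c0 * (deriv f (4 * c0 * z.1.2) / f (4 * c0 * z.1.2)) * (2 * (profMetric f hf).ener z) := by
    ring
  rw [e, prof_imm_ener]
  field_simp

theorem prof_imm_lin (f : ℝ → ℝ) (hf : IsProf f) (z ζ : (ℝ × ℝ) × (ℝ × ℝ))
    (he : fderiv ℝ (profMetric f hf).ener z ζ = 0) :
    fderiv ℝ (profMetric f hf).field z ζ =
      ((ζ.2.1 / (4 * Real.pi ^ 2 * f (4 * c0 * z.1.2) ^ 2) -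
        2 * z.2.1 * deriv f (4 * c0 * z.1.2) * (4 * c0 * ζ.1.2) /
          (4 * Real.pi ^ 2 * f (4 * c0 * z.1.2) ^ 3),
      ζ.2.2 / (16 * c0 ^ 2 * f (4 * c0 * z.1.2) ^ 2) -
        2 * z.2.2 * deriv f (4 * c0 * z.1.2) * (4 * c0 * ζ.1.2) /
          (16 * c0 ^ 2 * f (4 * c0 * z.1.2) ^ 3)),
      (0, 8 * c0 * (deriv (fun y => deriv f y / f y) (4 * c0 * z.1.2) * (4 * c0 * ζ.1.2)) *
        (profMetric f hf).ener z)) := by
  have h1 := hf.pos (4 * c0 * z.1.2)
  have h2 := Real.pi_pos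
  have h3 := c0_pos
  have hd : Differentiable ℝ f := hf.smooth.differentiable (by simp)
  have hd2 : Differentiable ℝ (deriv f) :=
    (hf.smooth.deriv' : ContDiff ℝ ∞ (deriv f)).differentiable (by simp)
  have hline : HasDerivAt (fun s : ℝ => z + s • ζ) ζ 0 := by
    simpa using ((hasDerivAt_id (0 : ℝ)).smul_const ζ).const_add z
  have hz0 : z + (0 : ℝ) • ζ = z := by simp
  have hfield : HasDerivAt (fun s : ℝ => (profMetric f hf).field (z + s • ζ))
      (fderiv ℝ (profMetric f hf).field z ζ) 0 := by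
    have h4 : HasFDerivAt (profMetric f hf).field (fderiv ℝ (profMetric f hf).field z)
        (z + (0 : ℝ) • ζ) := by
      rw [hz0]
      exact (((field_smooth (profMetric f hf)).1.differentiable (by simp)) z).hasFDerivAt
    exact h4.comp_hasDerivAt (0 : ℝ) hline
  have hener : HasDerivAt (fun s : ℝ => (profMetric f hf).ener (z + s • ζ)) 0 0 := by
    have h4 : HasFDerivAt (profMetric f hf).ener (fderiv ℝ (profMetric f hf).ener z)
        (z + (0 : ℝ) • ζ) := by
      rw [hz0]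
      exact (((field_smooth (profMetric f hf)).2.differentiable (by simp)) z).hasFDerivAt
    have h5 := h4.comp_hasDerivAt (0 : ℝ) hline
    rw [he] at h5
    exact h5
  have hY : HasDerivAt (fun s : ℝ => 4 * c0 * (z + s • ζ).1.2) (4 * c0 * ζ.1.2) 0 := by
    have : HasDerivAt (fun s : ℝ => z.1.2 + s * ζ.1.2) ζ.1.2 0 := by
      simpa using ((hasDerivAt_id (0 : ℝ)).mul_const ζ.1.2).const_add z.1.2
    exact this.const_mul (4 * c0)
  have hP : HasDerivAt (fun s : ℝ => (z + s • ζ).2.1) ζ.2.1 0 := by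
    have : HasDerivAt (fun s : ℝ => z.2.1 + s * ζ.2.1) ζ.2.1 0 := by
      simpa using ((hasDerivAt_id (0 : ℝ)).mul_const ζ.2.1).const_add z.2.1
    exact this
  have hQ : HasDerivAt (fun s : ℝ => (z + s • ζ).2.2) ζ.2.2 0 := by
    have : HasDerivAt (fun s : ℝ => z.2.2 + s * ζ.2.2) ζ.2.2 0 := by
      simpa using ((hasDerivAt_id (0 : ℝ)).mul_const ζ.2.2).const_add z.2.2
    exact this
  have hY0 : 4 * c0 * (z + (0 : ℝ) • ζ).1.2 = 4 * c0 * z.1.2 := by rw [hz0]
  have hfY : HasDerivAt (fun s : ℝ => f (4 * c0 * (z + s • ζ).1.2))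
      (deriv f (4 * c0 * z.1.2) * (4 * c0 * ζ.1.2)) 0 := by
    have h5 : HasDerivAt f (deriv f (4 * c0 * z.1.2)) (4 * c0 * (z + (0 : ℝ) • ζ).1.2) := by
      rw [hY0]; exact (hd _).hasDerivAt
    exact h5.comp (0 : ℝ) hY
  have hlY : HasDerivAt (fun s : ℝ => deriv f (4 * c0 * (z + s • ζ).1.2) / f (4 * c0 * (z + s • ζ).1.2))
      (deriv (fun y => deriv f y / f y) (4 * c0 * z.1.2) * (4 * c0 * ζ.1.2)) 0 := by
    have h5 : HasDerivAt (fun y => deriv f y / f y) (deriv (fun y => deriv f y / f y) (4 * c0 * z.1.2))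
        (4 * c0 * (z + (0 : ℝ) • ζ).1.2) := by
      rw [hY0]
      exact ((hd2 _).div (hd _) h1.ne').hasDerivAt
    exact h5.comp (0 : ℝ) hY
  have hf0 : f (4 * c0 * (z + (0 : ℝ) • ζ).1.2) = f (4 * c0 * z.1.2) := by rw [hz0]
  have hden : ∀ a : ℝ, HasDerivAt (fun s : ℝ => a * f (4 * c0 * (z + s • ζ).1.2) ^ 2)
      (a * (2 * f (4 * c0 * z.1.2) * (deriv f (4 * c0 * z.1.2) * (4 * c0 * ζ.1.2)))) 0 := by
    intro a
    have h6 := (hfY.pow 2).const_mul a
    simp only [Nat.cast_ofNat, Nat.add_one_sub_one, pow_one] at h6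
    rw [hf0] at h6
    exact h6
  have hc1 : HasDerivAt (fun s : ℝ => (z + s • ζ).2.1 / (4 * Real.pi ^ 2 * f (4 * c0 * (z + s • ζ).1.2) ^ 2))
      (ζ.2.1 / (4 * Real.pi ^ 2 * f (4 * c0 * z.1.2) ^ 2) -
        2 * z.2.1 * deriv f (4 * c0 * z.1.2) * (4 * c0 * ζ.1.2) /
          (4 * Real.pi ^ 2 * f (4 * c0 * z.1.2) ^ 3)) 0 := by
    have h7 := hP.div (hden (4 * Real.pi ^ 2)) (by rw [hf0]; positivity)
    rw [hf0, hz0] at h7
    refine h7.congr_deriv ?_
    field_simp
  have hc2 : HasDerivAt (fun s : ℝ => (z + s • ζ).2.2 / (16 * c0 ^ 2 * f (4 * c0 * (z + s • ζ).1.2) ^ 2))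
      (ζ.2.2 / (16 * c0 ^ 2 * f (4 * c0 * z.1.2) ^ 2) -
        2 * z.2.2 * deriv f (4 * c0 * z.1.2) * (4 * c0 * ζ.1.2) /
          (16 * c0 ^ 2 * f (4 * c0 * z.1.2) ^ 3)) 0 := by
    have h7 := hQ.div (hden (16 * c0 ^ 2)) (by rw [hf0]; positivity)
    rw [hf0, hz0] at h7
    refine h7.congr_deriv ?_
    field_simp
  have hc3 : HasDerivAt (fun s : ℝ => 8 * c0 * (deriv f (4 * c0 * (z + s • ζ).1.2) /
      f (4 * c0 * (z + s • ζ).1.2)) * (profMetric f hf).ener (z + s • ζ))
      (8 * c0 * (deriv (fun y => deriv f y / f y) (4 * c0 * z.1.2) * (4 * c0 * ζ.1.2)) *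
        (profMetric f hf).ener z) 0 := by
    have h7 := (hlY.const_mul (8 * c0)).mul hener
    rw [hz0] at h7
    refine h7.congr_deriv ?_
    ring
  have hall := (hc1.prodMk hc2).prodMk ((hasDerivAt_const (0 : ℝ) (0 : ℝ)).prodMk hc3)
  have hfield' : HasDerivAt (fun s : ℝ => (((z + s • ζ).2.1 / (4 * Real.pi ^ 2 * f (4 * c0 * (z + s • ζ).1.2) ^ 2),
      (z + s • ζ).2.2 / (16 * c0 ^ 2 * f (4 * c0 * (z + s • ζ).1.2) ^ 2)),
      ((0 : ℝ), 8 * c0 * (deriv f (4 * c0 * (z + s • ζ).1.2) / f (4 * c0 * (z + s • ζ).1.2)) *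
        (profMetric f hf).ener (z + s • ζ))))
      (fderiv ℝ (profMetric f hf).field z ζ) 0 := by
    have : (fun s : ℝ => (profMetric f hf).field (z + s • ζ)) = _ :=
      funext (fun s => prof_imm_field f hf (z + s • ζ))
    rw [this] at hfield
    exact hfield
  exact hfield'.unique hall

theorem prof_imm_alg (q c F F' P Q p' q' x y V : ℝ) (hq : 0 < q) (hc : 0 < c) (hF : 0 < F)
    (h6 : -(x * 0) - y * (4 * c * (F * F') * (4 * q ^ 2 * (P / (4 * q ^ 2 * F ^ 2)) ^ 2 +
      16 * c ^ 2 * (Q / (16 * c ^ 2 * F ^ 2)) ^ 2)) + p' * (P / (4 * q ^ 2 * F ^ 2)) +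
      q' * (Q / (16 * c ^ 2 * F ^ 2)) = 0)
    (h8 : (P / (2 * q)) ^ 2 + (Q / (4 * c)) ^ 2 = V ^ 2 * F ^ 2) :
    P / (2 * q) * (p' / (2 * q)) + Q / (4 * c) * (q' / (4 * c)) = V ^ 2 * F * F' * (4 * c * y) := by
  have e1 : 4 * q ^ 2 * (P / (4 * q ^ 2 * F ^ 2)) ^ 2 + 16 * c ^ 2 * (Q / (16 * c ^ 2 * F ^ 2)) ^ 2 =
      ((P / (2 * q)) ^ 2 + (Q / (4 * c)) ^ 2) / F ^ 4 := by
    field_simp
    ring
  rw [h8] at e1
  rw [e1] at h6
  have e2 : P / (2 * q) * (p' / (2 * q)) + Q / (4 * c) * (q' / (4 * c)) =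
      F ^ 2 * (p' * (P / (4 * q ^ 2 * F ^ 2)) + q' * (Q / (16 * c ^ 2 * F ^ 2))) := by
    field_simp
    ring
  have e3 : p' * (P / (4 * q ^ 2 * F ^ 2)) + q' * (Q / (16 * c ^ 2 * F ^ 2)) =
      y * (4 * c * (F * F') * (V ^ 2 * F ^ 2 / F ^ 4)) := by linarith
  rw [e2, e3]
  field_simp

theorem prof_imm (f : ℝ → ℝ) (hf : IsProf f) (p v : ℝ × ℝ)
    (hv : (profMetric f hf).len p v < Real.pi / 2) :
    Function.Bijective (fderiv ℝ ((profMetric f hf).expMap p) v) := by
  set g := profMetric f hf with hg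
  have h2 := Real.pi_pos
  have h3 := c0_pos
  have hd : Differentiable ℝ f := hf.smooth.differentiable (by simp)
  have hinj : ∀ w, fderiv ℝ (g.expMap p) v w = 0 → w = 0 := by
    intro w hw
    by_cases hv0 : v = 0
    · rw [hv0, (exp_zero g p w).2] at hw
      exact hw
    have hV0 : 0 < g.len p v := by
      have hnn : 0 ≤ g.len p v := Real.sqrt_nonneg _
      rcases hnn.lt_or_eq with h | h
      · exact h
      · exfalso
        have h4 := (alg g p v w).2.2.2.2.2.2.2.1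
        rw [← h] at h4
        exact hv0 ((alg g p v w).2.2.2.2.2.1 (by rw [← h4]; ring))
    have hVpi : g.len p v < Real.pi := by linarith
    -- gauss
    have hinn : g.inn p v w = 0 := by
      have h4 := gauss g p v w
      rw [hw] at h4
      have h5 : g.len (g.expMap p v) 0 = 0 := by
        unfold KleinMetric.len KleinMetric.inn
        simp
      rw [h5, mul_zero] at h4
      exact abs_nonpos_iff.mp h4
    obtain ⟨φ, hφ⟩ := geo_flow g
    set z0 : (ℝ × ℝ) × (ℝ × ℝ) := (p, g.mom p v) with hz0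
    set w0 : (ℝ × ℝ) × (ℝ × ℝ) := (0, g.mom p w) with hw0
    set ζ : ℝ → (ℝ × ℝ) × (ℝ × ℝ) := fun t => fderiv ℝ (φ t) z0 w0 with hζ
    have hφ0 : φ 0 = id := funext hφ.1
    have hζ0 : ζ 0 = w0 := by
      show fderiv ℝ (φ 0) z0 w0 = w0
      rw [hφ0]; simp
    have hφt : ∀ t, ContDiff ℝ 2 (φ t) := by
      intro t
      have h5 : ContDiff ℝ 2 (fun z : (ℝ × ℝ) × (ℝ × ℝ) => ((t, z) : ℝ × ((ℝ × ℝ) × (ℝ × ℝ)))) :=
        contDiff_const.prodMk contDiff_id
      exact hφ.2.2.comp h5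
    have hφd : ∀ t, Differentiable ℝ (φ t) := fun t => (hφt t).differentiable (by norm_num)
    have hvar : ∀ t, HasDerivAt ζ (fderiv ℝ g.field (φ t z0) (ζ t)) t := by
      intro t
      exact variation g.field (field_smooth g).1 φ (fun p τ => hφ.2.1 p τ) hφ.2.2 z0 w0 t
    -- energy
    have hen0 : fderiv ℝ g.ener z0 w0 = 0 := by
      rw [ener_fderiv]
      have h6 := alg g p v w
      have h7 := alg g p w v
      have h8 : g.vel z0 = v := h6.1
      rw [h8]
      simp only [hw0, Prod.fst_zero, Prod.snd_zero, zero_mul, neg_zero, sub_zero, zero_add]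
      rw [h7.2.2.1, h6.2.2.2.1, hinn]
    have hent : ∀ t, fderiv ℝ g.ener (φ t z0) (ζ t) = 0 := by
      intro t
      have hge : Differentiable ℝ g.ener := (field_smooth g).2.differentiable (by simp)
      have h6 : fderiv ℝ (fun z => g.ener (φ t z)) z0 = (fderiv ℝ g.ener (φ t z0)).comp (fderiv ℝ (φ t) z0) :=
        fderiv_comp z0 (hge _) (hφd t z0)
      have h7 : (fun z => g.ener (φ t z)) = g.ener := funext (fun z => flow_ener g φ hφ z t)
      rw [h7] at h6
      have h8 := congrArg (fun L : ((ℝ × ℝ) × (ℝ × ℝ)) →L[ℝ] ℝ => L w0) h6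
      simp only [ContinuousLinearMap.comp_apply] at h8
      rw [hen0] at h8
      exact h8.symm
    -- momentum constant
    have hPder : ∀ t, HasDerivAt (fun t => (φ t z0).2.1) 0 t := by
      intro t
      have h6 := hφ.2.1 z0 t
      rw [prof_imm_field] at h6
      exact prof_imm_fst (prof_imm_snd h6)
    have hP : ∀ t, (φ t z0).2.1 = (g.mom p v).1 := by
      intro t
      have h6 := is_const_of_deriv_eq_zero (f := fun t => (φ t z0).2.1)
        (fun t => (hPder t).differentiableAt) (fun t => (hPder t).deriv) t 0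
      rw [h6, hφ.1 z0]
    have hlin : ∀ t, HasDerivAt ζ _ t := fun t => by
      have h6 := hvar t
      rw [prof_imm_lin f hf _ _ (hent t)] at h6
      exact h6
    have hζPder : ∀ t, HasDerivAt (fun t => (ζ t).2.1) 0 t := fun t => prof_imm_fst (prof_imm_snd (hlin t))
    have hζP : ∀ t, (ζ t).2.1 = (g.mom p w).1 := by
      intro t
      have h6 := is_const_of_deriv_eq_zero (f := fun t => (ζ t).2.1)
        (fun t => (hζPder t).differentiableAt) (fun t => (hζPder t).deriv) t 0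
      rw [h6, hζ0]
    -- the geodesic
    obtain ⟨hgeo, hgeod⟩ := geo_of_flow g φ hφ p v
    have hcg := cg_of_geo f hf _ hgeo
    have hγ0 : (φ 0 (p, g.mom p v)).1 = p := by rw [hφ.1]
    have hγ'0 : deriv (fun t => (φ t (p, g.mom p v)).1) 0 = v := by
      rw [hgeod 0, hφ.1]
      exact (alg g p v w).1
    set Y : ℝ → ℝ := fun t => 4 * c0 * (φ t z0).1.2 with hY
    set X : ℝ → ℝ := fun t => 2 * Real.pi * (φ t z0).1.1 with hX
    have hU : ∀ t, f (4 * c0 * (φ t (p, g.mom p v)).1.2) ^ 2 *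
        (4 * c0 * (deriv (fun t => (φ t (p, g.mom p v)).1) t).2) = (φ t z0).2.2 / (4 * c0) := by
      intro t
      rw [hgeod t, prof_imm_vel]
      have h6 := hf.pos (4 * c0 * (φ t z0).1.2)
      rw [← hz0]
      field_simp
      ring
    have hC : f (4 * c0 * ((fun t => (φ t (p, g.mom p v)).1) 0).2) ^ 2 * (2 * Real.pi *
        (deriv (fun t => (φ t (p, g.mom p v)).1) 0).1) = (g.mom p v).1 / (2 * Real.pi) := by
      rw [hgeod 0, prof_imm_vel]
      have h6 := hf.pos (4 * c0 * (φ 0 z0).1.2)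
      rw [← hz0, hP 0]
      field_simp
      ring
    have hcg' : IsCG f X Y (fun t => (φ t z0).2.2 / (4 * c0)) ((g.mom p v).1 / (2 * Real.pi))
        (g.len p v) := by
      have e1 := funext hU
      rw [e1, hC, hγ'0] at hcg
      rw [hγ0] at hcg
      exact hcg
    have hYt : ∀ t, Y t = 4 * c0 * (φ t z0).1.2 := fun t => rfl
    -- ξ at time one
    have hexp1 : (ζ 1).1 = 0 := by
      have hline : HasDerivAt (fun s : ℝ => v + s • w) w 0 := by
        simpa using ((hasDerivAt_id (0 : ℝ)).smul_const w).const_add v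
      have hexpd : Differentiable ℝ (g.expMap p) := (exp_smooth g p).differentiable (by norm_num)
      have hv0' : v + (0 : ℝ) • w = v := by simp
      have ha : HasDerivAt (fun s : ℝ => g.expMap p (v + s • w)) (fderiv ℝ (g.expMap p) v w) 0 := by
        have h4 : HasFDerivAt (g.expMap p) (fderiv ℝ (g.expMap p) v) (v + (0 : ℝ) • w) := by
          rw [hv0']; exact (hexpd v).hasFDerivAt
        exact h4.comp_hasDerivAt (0 : ℝ) hline
      have hlinez : HasDerivAt (fun s : ℝ => z0 + s • w0) w0 0 := by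
        simpa using ((hasDerivAt_id (0 : ℝ)).smul_const w0).const_add z0
      have hz0' : z0 + (0 : ℝ) • w0 = z0 := by simp
      have hb : HasDerivAt (fun s : ℝ => φ 1 (z0 + s • w0)) (ζ 1) 0 := by
        have h4 : HasFDerivAt (φ 1) (fderiv ℝ (φ 1) z0) (z0 + (0 : ℝ) • w0) := by
          rw [hz0']; exact (hφd 1 z0).hasFDerivAt
        exact h4.comp_hasDerivAt (0 : ℝ) hlinez
      have heq : (fun s : ℝ => g.expMap p (v + s • w)) = fun s : ℝ => (φ 1 (z0 + s • w0)).1 := by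
        funext s
        rw [exp_eq g φ hφ]
        congr 2
        rw [hz0, hw0]
        refine Prod.ext ?_ (Prod.ext ?_ ?_)
        · simp
        · simp [KleinMetric.mom]; ring
        · simp [KleinMetric.mom]; ring
      rw [heq] at ha
      rw [← hw]
      exact (prof_imm_fst hb).unique ha
    have hζ01 : (ζ 0).1 = 0 := by rw [hζ0]
    -- apply the Jacobi lemma
    have hener : ∀ t, 2 * g.ener (φ t z0) = g.len p v ^ 2 := by
      intro t
      rw [flow_ener g φ hφ z0 t, (alg g p v w).2.1, (alg g p v w).2.2.2.2.2.2.2.1]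
      ring
    have hj := jacobi f X Y (fun t => (φ t z0).2.2 / (4 * c0)) ((g.mom p v).1 / (2 * Real.pi))
      (g.len p v) hf hcg' hV0 hVpi (fun t => 2 * Real.pi * (ζ t).1.1) (fun t => 4 * c0 * (ζ t).1.2)
      (fun t => (ζ t).2.2 / (4 * c0)) ((g.mom p w).1 / (2 * Real.pi))
      (by
        intro t
        have h6 := (prof_imm_fst (prof_imm_fst (hlin t))).const_mul (2 * Real.pi)
        have h7 := hf.pos (4 * c0 * (φ t z0).1.2)
        refine h6.congr_deriv ?_
        rw [hYt, hP t, hζP t]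
        field_simp
        ring)
      (by
        intro t
        have h6 := (prof_imm_snd (prof_imm_fst (hlin t))).const_mul (4 * c0)
        have h7 := hf.pos (4 * c0 * (φ t z0).1.2)
        refine h6.congr_deriv ?_
        rw [hYt]
        field_simp
        ring)
      (by
        intro t
        have h6 := (prof_imm_snd (prof_imm_snd (hlin t))).div_const (4 * c0)
        refine h6.congr_deriv ?_
        rw [hYt, ← hener t]
        field_simp
        ring)
      (by
        intro t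
        have h6 := hent t
        rw [ener_fderiv, (prof_imm_force f hf _ _).1, (prof_imm_force f hf _ _).2, prof_imm_vel,
          hζP t, hP t] at h6
        have h7 := hf.pos (4 * c0 * (φ t z0).1.2)
        have h8 := hcg'.en t
        rw [hYt] at h8 ⊢
        exact prof_imm_alg Real.pi c0 _ _ _ _ _ _ _ _ _ h2 h3 h7 h6 h8)
      (by simp only [hζ01]; simp)
      (by simp only [hζ01]; simp)
      (by simp only [hexp1]; simp)
      (by simp only [hexp1]; simp)
    have hm1 : (g.mom p w).1 = 0 := by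
      have h6 := hj.1
      have h7 : (2 * Real.pi) ≠ 0 := by positivity
      rcases div_eq_zero_iff.mp h6 with h | h
      · exact h
      · exact absurd h h7
    have hm2 : (g.mom p w).2 = 0 := by
      have h6 := hj.2
      simp only [hζ0] at h6
      have h7 : (4 * c0) ≠ 0 := by positivity
      rcases div_eq_zero_iff.mp h6 with h | h
      · exact h
      · exact absurd h h7
    have h9 := alg g p w w
    apply h9.2.2.2.2.2.1
    rw [← h9.2.2.1, hm1, hm2]
    ring
  have hinj' : Function.Injective (fderiv ℝ (g.expMap p) v) := by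
    rw [injective_iff_map_eq_zero]
    exact hinj
  refine ⟨hinj', ?_⟩
  exact (LinearMap.injective_iff_surjective (f := (fderiv ℝ (g.expMap p) v).toLinearMap)).mp hinj'

end KleinEmb
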