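import Pool.Agent.Helper719.Emb.Defs
import Pool.Agent.Helper719.Emb.P_prof
import Pool.Agent.Helper719.Emb.P_pm
import Pool.Agent.Helper719.Emb.P_cg
import Pool.Agent.Helper719.Emb.P_cg_of_geo
import Pool.Agent.Helper719.Emb.P_cg_sys
import Pool.Agent.Helper719.Emb.P_cg_inj
import Pool.Agent.Helper719.Emb.P_ham
import Pool.Agent.Helper719.Emb.P_alg
import Pool.Agent.Helper719.Emb.P_exp_spec

open scoped ContDiff Topology ENNReal
open Set MeasureTheory Filter

noncomputable section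

namespace KleinEmb



theorem prof_inj (f : ℝ → ℝ) (hf : IsProf f) (p v w : ℝ × ℝ)
    (hv : (profMetric f hf).len p v < Real.pi / 2) (hw : (profMetric f hf).len p w < Real.pi / 2)
    (n k : ℤ) (h : (profMetric f hf).expMap p v = deck n k ((profMetric f hf).expMap p w)) :
    v = w := by
  obtain ⟨γ₁, g1, g10, g1d, g1e⟩ := exp_spec (profMetric f hf) p v
  obtain ⟨γ₂, g2, g20, g2d, g2e⟩ := exp_spec (profMetric f hf) p w
  have c1 := cg_of_geo f hf γ₁ g1
  have c2 := cg_of_geo f hf γ₂ g2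
  rw [g10, g1d] at c1
  rw [g20, g2d] at c2
  rw [g1e, g2e] at h
  have hx : (γ₁ 1).1 = (γ₂ 1).1 + n / 2 := by
    have := congrArg Prod.fst h
    simpa [deck] using this
  have hy : (γ₁ 1).2 = (-1) ^ n * (γ₂ 1).2 + k := by
    have := congrArg Prod.snd h
    simpa [deck] using this
  obtain ⟨hn, hk⟩ := cg_sys f _ _ _ _ _ _ _ _ _ _ hf c1 c2 hv hw
    (by simp only [g10, g20]) (by simp only [g10, g20]) n k
    (by simp only [hx]; ring) (by simp only [hy]; ring)
  subst hn
  subst hk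
  obtain ⟨hC, hU⟩ := cg_inj f _ _ _ _ _ _ _ _ _ _ hf c1 c2 hv hw
    (by simp only [g10, g20]) (by simp only [g10, g20])
    (by simp only [hx]; simp) (by simp only [hy]; simp)
  simp only [g10, g20, g1d, g2d] at hU
  have hf0 : f (4 * c0 * p.2) ^ 2 ≠ 0 := by
    have := hf.pos (4 * c0 * p.2)
    positivity
  have hpi : (2 * Real.pi) ≠ 0 := by
    have := Real.pi_pos
    positivity
  have hc : (4 * c0) ≠ 0 := by
    have := c0_pos
    positivity
  have e1 : v.1 = w.1 := mul_left_cancel₀ hpi (mul_left_cancel₀ hf0 hC)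
  have e2 : v.2 = w.2 := mul_left_cancel₀ hc (mul_left_cancel₀ hf0 hU)
  exact Prod.ext e1 e2

end KleinEmb
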