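import Pool.Agent.Helper719.Emb.Defs
import Pool.Agent.Helper719.Emb.P_prof
import Pool.Agent.Helper719.Emb.P_pm
import Pool.Agent.Helper719.Emb.P_prof_exists
import Pool.Agent.Helper719.Emb.P_pm_vol
import Pool.Agent.Helper719.Emb.P_prof_inj
import Pool.Agent.Helper719.Emb.P_prof_imm

open scoped ContDiff Topology ENNReal
open Set MeasureTheory Filter

noncomputable section

namespace KleinEmb



theorem upper (ε : ℝ) (hε : 0 < ε) :
    ∃ g : KleinMetric, g.embRatio ≤ ENNReal.ofReal (8 * √2 / Real.pi + ε) := by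
  have hpi := Real.pi_pos
  obtain ⟨f, hf, hint⟩ := prof_exists (Real.pi * ε / 8) (by positivity)
  refine ⟨profMetric f hf, ?_⟩
  have hrad : (profMetric f hf).IsEmbRadius (Real.pi / 2) :=
    ⟨by positivity, fun p => ⟨fun v w hv hw n k h => prof_inj f hf p v w hv hw n k h,
      fun v hv => prof_imm f hf p v hv⟩⟩
  have hinj : ENNReal.ofReal (Real.pi / 2) ≤ (profMetric f hf).inj :=
    le_iSup₂_of_le (Real.pi / 2) hrad le_rfl
  have hvol : (profMetric f hf).vol ≤ 2 * Real.pi * (√2 + Real.pi * ε / 8) := by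
    rw [pm_vol]
    exact mul_le_mul_of_nonneg_left hint (by positivity)
  have h1 : (profMetric f hf).embRatio ≤
      ENNReal.ofReal (2 * Real.pi * (√2 + Real.pi * ε / 8)) /
        ENNReal.ofReal (Real.pi / 2) ^ 2 := by
    unfold KleinMetric.embRatio
    exact ENNReal.div_le_div (ENNReal.ofReal_le_ofReal hvol) (by gcongr)
  refine h1.trans (le_of_eq ?_)
  rw [← ENNReal.ofReal_pow (by positivity), ← ENNReal.ofReal_div_of_pos (by positivity)]
  congr 1
  field_simp
  ring

end KleinEmb
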