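import Pool.Agent.Helper719.Emb.Defs
import Pool.Agent.Helper719.Emb.P_upper
import Pool.Agent.Helper719.Emb.P_lower

open scoped ContDiff Topology ENNReal
open Set MeasureTheory Filter

noncomputable section

namespace KleinEmb



/-- The embolic constant of the Klein bottle is `8√2/π` and it is not attained. -/
theorem main : (⨅ g : KleinMetric, g.embRatio) = ENNReal.ofReal (8 * √2 / Real.pi) ∧
    ∀ g : KleinMetric, (⨅ g' : KleinMetric, g'.embRatio) < g.embRatio := by
  have h : (⨅ g : KleinMetric, g.embRatio) = ENNReal.ofReal (8 * √2 / Real.pi) := by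
    apply le_antisymm
    · refine ENNReal.le_of_forall_pos_le_add fun ε hε _ => ?_
      obtain ⟨g, hg⟩ := upper (ε : ℝ) (by exact_mod_cast hε)
      refine (iInf_le _ g).trans (hg.trans ?_)
      rw [ENNReal.ofReal_add (by positivity) (by positivity), ENNReal.ofReal_coe_nnreal]
    · exact le_iInf fun g => (lower g).le
  exact ⟨h, fun g => by rw [h]; exact lower g⟩

end KleinEmb
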