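import Pool.Agent.Helper719.Emb.Defs
import Pool.Agent.Helper719.Emb.P_fou

open scoped ContDiff Topology ENNReal
open Set MeasureTheory Filter

noncomputable section

namespace KleinEmb



/-- one dimensional character -/
def PV1 (n : ℤ) (x : ℝ) : ℂ := Complex.exp (2 * Real.pi * Complex.I * n * x)

theorem PV1_cont (n : ℤ) : Continuous (PV1 n) := by
  unfold PV1
  fun_prop

theorem PV1_int (n : ℤ) : ∫ x in (0 : ℝ)..1, PV1 n x = if n = 0 then 1 else 0 := by
  by_cases hn : n = 0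
  · subst hn
    simp [PV1]
  · rw [if_neg hn]
    have hc : (2 * Real.pi * Complex.I * n : ℂ) ≠ 0 := by
      have h1 : (n : ℂ) ≠ 0 := by exact_mod_cast hn
      have h2 : (Real.pi : ℂ) ≠ 0 := by exact_mod_cast Real.pi_ne_zero
      simp [h1, h2, Complex.I_ne_zero]
    unfold PV1
    rw [integral_exp_mul_complex hc]
    have h3 : Complex.exp (2 * Real.pi * Complex.I * n * ((1 : ℝ) : ℂ)) = 1 := by
      rw [← Complex.exp_int_mul_two_pi_mul_I n]
      congr 1
      push_cast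
      ring
    rw [h3]
    simp

theorem PV1_mul (m n : ℤ) (x : ℝ) : PV1 m x * PV1 n x = PV1 (m + n) x := by
  unfold PV1
  rw [← Complex.exp_add]
  congr 1
  push_cast
  ring

theorem PV1_conj (n : ℤ) (x : ℝ) : (starRingEnd ℂ) (PV1 n x) = PV1 (-n) x := by
  unfold PV1
  rw [← Complex.exp_conj]
  congr 1
  simp only [map_mul, Complex.conj_I, Complex.conj_ofReal, map_ofNat, map_intCast]
  push_cast
  ring

theorem PV1_ee (l : ℤ × ℤ) (x y : ℝ) : ee l (x, y) = PV1 l.1 x * PV1 l.2 y := by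
  unfold ee PV1
  rw [← Complex.exp_add]
  congr 1
  ring

theorem PV_expand (s : Finset (ℤ × ℤ)) (c : ℤ × ℤ → ℂ) (x y : ℝ) :
    (((‖∑ l ∈ s, c l * ee l (x, y)‖ ^ 2 : ℝ)) : ℂ) =
      ∑ l ∈ s, ∑ l' ∈ s, c l * (starRingEnd ℂ) (c l') * PV1 (l.1 - l'.1) x *
        PV1 (l.2 - l'.2) y := by
  have h1 : (((‖∑ l ∈ s, c l * ee l (x, y)‖ ^ 2 : ℝ)) : ℂ) =
      (∑ l ∈ s, c l * ee l (x, y)) * (starRingEnd ℂ) (∑ l ∈ s, c l * ee l (x, y)) := by
    rw [Complex.mul_conj']
    push_cast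
    rfl
  rw [h1, map_sum, Finset.sum_mul_sum]
  refine Finset.sum_congr rfl fun l _ => Finset.sum_congr rfl fun l' _ => ?_
  rw [map_mul, PV1_ee, PV1_ee, map_mul, PV1_conj, PV1_conj, sub_eq_add_neg, sub_eq_add_neg,
    ← PV1_mul, ← PV1_mul]
  ring

theorem parseval (s : Finset (ℤ × ℤ)) (c : ℤ × ℤ → ℂ) :
    ∫ x in (0 : ℝ)..1, ∫ y in (0 : ℝ)..1, ‖∑ l ∈ s, c l * ee l (x, y)‖ ^ 2 = ∑ l ∈ s, ‖c l‖ ^ 2 := by
  have key : ((∫ x in (0 : ℝ)..1, ∫ y in (0 : ℝ)..1, ‖∑ l ∈ s, c l * ee l (x, y)‖ ^ 2 : ℝ) : ℂ) =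
      ((∑ l ∈ s, ‖c l‖ ^ 2 : ℝ) : ℂ) := by
    rw [← intervalIntegral.integral_ofReal]
    have h1 : ∀ x : ℝ, ((∫ y in (0 : ℝ)..1, ‖∑ l ∈ s, c l * ee l (x, y)‖ ^ 2 : ℝ) : ℂ) =
        ∑ l ∈ s, ∑ l' ∈ s, c l * (starRingEnd ℂ) (c l') * (if l.2 - l'.2 = 0 then 1 else 0) *
          PV1 (l.1 - l'.1) x := by
      intro x
      rw [← intervalIntegral.integral_ofReal]
      simp_rw [PV_expand]
      have hi : ∀ l l' : ℤ × ℤ, IntervalIntegrable (fun y : ℝ => c l * (starRingEnd ℂ) (c l') *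
          PV1 (l.1 - l'.1) x * PV1 (l.2 - l'.2) y) volume 0 1 := fun l l' =>
        (continuous_const.mul (PV1_cont _)).intervalIntegrable _ _
      have hi2 : ∀ l : ℤ × ℤ, IntervalIntegrable (fun y : ℝ => ∑ l' ∈ s,
          c l * (starRingEnd ℂ) (c l') * PV1 (l.1 - l'.1) x * PV1 (l.2 - l'.2) y) volume 0 1 :=
        fun l => (continuous_finsetSum _ fun l' _ =>
          continuous_const.mul (PV1_cont _)).intervalIntegrable _ _
      rw [intervalIntegral.integral_finsetSum fun l _ => hi2 l]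
      refine Finset.sum_congr rfl fun l _ => ?_
      rw [intervalIntegral.integral_finsetSum fun l' _ => hi l l']
      refine Finset.sum_congr rfl fun l' _ => ?_
      rw [intervalIntegral.integral_const_mul, PV1_int]
      ring
    simp_rw [h1]
    have hi : ∀ l l' : ℤ × ℤ, IntervalIntegrable (fun x : ℝ => c l * (starRingEnd ℂ) (c l') *
        (if l.2 - l'.2 = 0 then 1 else 0) * PV1 (l.1 - l'.1) x) volume 0 1 := fun l l' =>
      (continuous_const.mul (PV1_cont _)).intervalIntegrable _ _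
    have hi2 : ∀ l : ℤ × ℤ, IntervalIntegrable (fun x : ℝ => ∑ l' ∈ s,
        c l * (starRingEnd ℂ) (c l') * (if l.2 - l'.2 = 0 then 1 else 0) *
          PV1 (l.1 - l'.1) x) volume 0 1 :=
      fun l => (continuous_finsetSum _ fun l' _ =>
        continuous_const.mul (PV1_cont _)).intervalIntegrable _ _
    rw [intervalIntegral.integral_finsetSum fun l _ => hi2 l, Complex.ofReal_sum]
    refine Finset.sum_congr rfl fun l hl => ?_
    rw [intervalIntegral.integral_finsetSum fun l' _ => hi l l', Finset.sum_eq_single l]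
    · rw [intervalIntegral.integral_const_mul, PV1_int]
      simp only [sub_self, if_true, mul_one]
      rw [Complex.mul_conj']
      push_cast
      rfl
    · intro l' _ hne
      rw [intervalIntegral.integral_const_mul, PV1_int]
      by_cases h2 : l.2 - l'.2 = 0
      · have h3 : l.1 - l'.1 ≠ 0 := by
          intro h4
          apply hne
          exact Prod.ext (by linarith) (by linarith)
        rw [if_neg h3, mul_zero]
      · rw [if_neg h2, mul_zero, zero_mul]
    · intro h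
      exact absurd hl h
  exact_mod_cast key

end KleinEmb
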