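import Pool.Agent.Helper719.Emb.Defs
import Pool.Agent.Helper719.Emb.P_fou
import Pool.Agent.Helper719.Emb.P_parseval
import Pool.Agent.Helper719.Emb.P_pdeM

open scoped ContDiff Topology ENNReal
open Set MeasureTheory Filter

noncomputable section

namespace KleinEmb



theorem ee_cont (k : ℤ × ℤ) : Continuous (ee k) := by
  unfold ee
  fun_prop

theorem ee_sub (k l : ℤ × ℤ) (p : ℝ × ℝ) :
    ee (-(k - l)) p = ee l p * (starRingEnd ℂ) (ee k p) := by
  unfold ee
  rw [← Complex.exp_conj, ← Complex.exp_add]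
  congr 1
  simp only [Prod.fst_neg, Prod.fst_sub, Prod.snd_neg, Prod.snd_sub, Int.cast_neg, Int.cast_sub,
    map_mul, Complex.conj_ofReal, Complex.conj_I, map_add, map_intCast, map_ofNat]
  ring

theorem inner_cont {V : Type} [NormedAddCommGroup V] [NormedSpace ℝ V] (f : ℝ × ℝ → V)
    (hf : Continuous f) : Continuous fun x => ∫ y in (0:ℝ)..1, f (x, y) :=
  intervalIntegral.continuous_parametric_intervalIntegral_of_continuous' (f := fun x y => f (x, y))
    (by simpa [Function.uncurry_def] using hf) 0 1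

/-- double integral -/
def II {V : Type} [NormedAddCommGroup V] [NormedSpace ℝ V] (f : ℝ × ℝ → V) : V :=
  ∫ x in (0 : ℝ)..1, ∫ y in (0 : ℝ)..1, f (x, y)

theorem II_add {V : Type} [NormedAddCommGroup V] [NormedSpace ℝ V] (f g : ℝ × ℝ → V)
    (hf : Continuous f) (hg : Continuous g) :
    II (fun p => f p + g p) = II f + II g := by
  unfold II
  rw [← intervalIntegral.integral_add ((inner_cont f hf).intervalIntegrable _ _)
    ((inner_cont g hg).intervalIntegrable _ _)]
  congr 1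
  ext x
  exact intervalIntegral.integral_add
    (Continuous.intervalIntegrable (by fun_prop) _ _)
    (Continuous.intervalIntegrable (by fun_prop) _ _)

theorem II_mul (c : ℂ) (f : ℝ × ℝ → ℂ) : II (fun p => c * f p) = c * II f := by
  unfold II
  simp only [intervalIntegral.integral_const_mul]

theorem II_mulR (c : ℝ) (f : ℝ × ℝ → ℝ) : II (fun p => c * f p) = c * II f := by
  unfold II
  simp only [intervalIntegral.integral_const_mul]

theorem II_four (c1 c2 c3 c4 : ℂ) (f1 f2 f3 f4 : ℝ × ℝ → ℂ) (h1 : Continuous f1)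
    (h2 : Continuous f2) (h3 : Continuous f3) (h4 : Continuous f4) :
    II (fun p => (c1 * f1 p + c2 * f2 p) + (c3 * f3 p + c4 * f4 p)) =
      (c1 * II f1 + c2 * II f2) + (c3 * II f3 + c4 * II f4) := by
  rw [II_add (fun p => c1 * f1 p + c2 * f2 p) (fun p => c3 * f3 p + c4 * f4 p) (by fun_prop)
    (by fun_prop), II_add (fun p => c1 * f1 p) (fun p => c2 * f2 p) (by fun_prop) (by fun_prop),
    II_add (fun p => c3 * f3 p) (fun p => c4 * f4 p) (by fun_prop) (by fun_prop),
    II_mul, II_mul, II_mul, II_mul]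

theorem II_sum {ι : Type} (s : Finset ι) (f : ι → ℝ × ℝ → ℂ) (hf : ∀ i, Continuous (f i)) :
    II (fun p => ∑ i ∈ s, f i p) = ∑ i ∈ s, II (f i) := by
  classical
  induction s using Finset.induction_on with
  | empty => simp [II]
  | insert a s ha ih =>
    rw [Finset.sum_insert ha, ← ih, ← II_add _ _ (hf a) (by fun_prop)]
    congr 1
    ext p
    rw [Finset.sum_insert ha]

theorem II_re (f : ℝ × ℝ → ℂ) (hf : Continuous f) :
    (II f).re = II (fun p => (f p).re) := by
  unfold II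
  have h1 := Complex.reCLM.intervalIntegral_comp_comm
    ((inner_cont f hf).intervalIntegrable (μ := volume) 0 1)
  simp only [Complex.reCLM_apply] at h1
  rw [← h1]
  congr 1
  ext x
  have h2 := Complex.reCLM.intervalIntegral_comp_comm (f := fun y => f (x, y)) (μ := volume)
    (a := 0) (b := 1) (Continuous.intervalIntegrable (by fun_prop) _ _)
  simp only [Complex.reCLM_apply] at h2
  rw [← h2]

theorem II_mono (f g : ℝ × ℝ → ℝ) (hf : Continuous f) (hg : Continuous g)
    (h : ∀ p ∈ Icc (0:ℝ) 1 ×ˢ Icc (0:ℝ) 1, f p ≤ g p) : II f ≤ II g := by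
  unfold II
  apply intervalIntegral.integral_mono_on zero_le_one
    ((inner_cont f hf).intervalIntegrable _ _) ((inner_cont g hg).intervalIntegrable _ _)
  intro x hx
  apply intervalIntegral.integral_mono_on zero_le_one
    (Continuous.intervalIntegrable (by fun_prop) _ _)
    (Continuous.intervalIntegrable (by fun_prop) _ _)
  intro y hy
  exact h (x, y) ⟨hx, hy⟩

theorem quad_real (a b d m x y : ℝ) (ha : 0 < a) (hdet : 0 < a * d - b ^ 2)
    (hm : m ≤ (a * d - b ^ 2) / (a + d)) :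
    m * (x ^ 2 + y ^ 2) ≤ a * x ^ 2 + 2 * b * (x * y) + d * y ^ 2 := by
  have hd : 0 < d := by
    by_contra h
    push Not at h
    nlinarith [sq_nonneg b, mul_nonneg ha.le (neg_nonneg.2 h)]
  have h1 : m * (a + d) ≤ a * d - b ^ 2 := by
    rwa [le_div_iff₀ (by positivity)] at hm
  set M := (a * d - b ^ 2) / (a + d) with hM
  have hM0 : 0 < M := by positivity
  have hM1 : M * (a + d) = a * d - b ^ 2 := by
    rw [hM]; field_simp
  have h2 : M * (x ^ 2 + y ^ 2) ≤ a * x ^ 2 + 2 * b * (x * y) + d * y ^ 2 := by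
    have h3 : 0 < a - M := by
      have : 0 < (a - M) * (a + d) := by nlinarith [sq_nonneg b]
      exact (pos_iff_pos_of_mul_pos this).2 (by positivity)
    have h4 : (a - M) * (a * x ^ 2 + 2 * b * (x * y) + d * y ^ 2 - M * (x ^ 2 + y ^ 2)) =
        ((a - M) * x + b * y) ^ 2 + M ^ 2 * y ^ 2 := by
      have h5 : (a - M) * (d - M) = b ^ 2 + M ^ 2 := by nlinarith
      linear_combination y ^ 2 * h5
    have h6 : 0 ≤ (a - M) * (a * x ^ 2 + 2 * b * (x * y) + d * y ^ 2 - M * (x ^ 2 + y ^ 2)) := by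
      rw [h4]; positivity
    have := nonneg_of_mul_nonneg_right h6 h3
    linarith
  have h7 : m * (x ^ 2 + y ^ 2) ≤ M * (x ^ 2 + y ^ 2) :=
    mul_le_mul_of_nonneg_right hm (by positivity)
  linarith

theorem quad_cx (a b d m : ℝ) (w v : ℂ) (ha : 0 < a) (hdet : 0 < a * d - b ^ 2)
    (hm : m ≤ (a * d - b ^ 2) / (a + d)) :
    m * (‖w‖ ^ 2 + ‖v‖ ^ 2) ≤ ((a : ℂ) * (w * (starRingEnd ℂ) w) + b * (v * (starRingEnd ℂ) w)
      + b * (w * (starRingEnd ℂ) v) + d * (v * (starRingEnd ℂ) v)).re := by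
  have h1 := quad_real a b d m w.re v.re ha hdet hm
  have h2 := quad_real a b d m w.im v.im ha hdet hm
  rw [← Complex.normSq_eq_norm_sq, ← Complex.normSq_eq_norm_sq, Complex.normSq_apply,
    Complex.normSq_apply]
  simp only [Complex.add_re, Complex.mul_re, Complex.ofReal_re, Complex.ofReal_im, Complex.conj_re,
    Complex.conj_im, Complex.mul_im]
  nlinarith

theorem uv_sq (k : ℤ × ℤ) (hk : k ≠ 0) : (uv k).1 ^ 2 + (uv k).2 ^ 2 = 1 := by
  unfold uv
  have h : 0 < (k.1 : ℝ) ^ 2 + (k.2 : ℝ) ^ 2 := by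
    by_cases h1 : k.1 = 0
    · have h2 : k.2 ≠ 0 := fun h2 => hk (Prod.ext h1 h2)
      have : (k.2 : ℝ) ≠ 0 := by exact_mod_cast h2
      positivity
    · have : (k.1 : ℝ) ≠ 0 := by exact_mod_cast h1
      positivity
  simp only [div_pow]
  rw [Real.sq_sqrt h.le, ← add_div, div_self h.ne']

theorem pde_coercive (a b d : ℝ × ℝ → ℝ) (ha : Continuous a) (hb : Continuous b) (hd : Continuous d)
    (hpa : Per a) (hpb : Per b) (hpd : Per d) (hpos : ∀ p, 0 < a p) (hdet : ∀ p, 0 < a p * d p - b p ^ 2) :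
    ∃ m > 0, ∀ (s : Finset (ℤ × ℤ)) (c : ℤ × ℤ → ℂ), m * ∑ k ∈ s, ‖c k‖ ^ 2 ≤
      (∑ k ∈ s, ∑ l ∈ s, pdeM a b d k l * c l * (starRingEnd ℂ) (c k)).re := by
  classical
  have hdpos : ∀ p, 0 < d p := by
    intro p
    by_contra h
    push Not at h
    nlinarith [sq_nonneg (b p), mul_nonneg (hpos p).le (neg_nonneg.2 h), hdet p]
  obtain ⟨m0, hm0, hm1⟩ : ∃ m0 > 0, ∀ p ∈ Icc (0:ℝ) 1 ×ˢ Icc (0:ℝ) 1,
      m0 ≤ (a p * d p - b p ^ 2) / (a p + d p) := by
    obtain ⟨p0, hp0, hmin⟩ := (isCompact_Icc.prod isCompact_Icc :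
      IsCompact (Icc (0:ℝ) 1 ×ˢ Icc (0:ℝ) 1)).exists_isMinOn ⟨(0, 0), by simp⟩
      (f := fun p => (a p * d p - b p ^ 2) / (a p + d p))
      (Continuous.continuousOn (Continuous.div (by fun_prop) (by fun_prop)
        (fun p => (add_pos (hpos p) (hdpos p)).ne')))
    refine ⟨(a p0 * d p0 - b p0 ^ 2) / (a p0 + d p0),
      div_pos (hdet p0) (add_pos (hpos p0) (hdpos p0)), fun p hp => ?_⟩
    exact isMinOn_iff.1 hmin p hp
  refine ⟨min m0 1, lt_min hm0 one_pos, fun s c => ?_⟩
  -- the functions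
  let w : ℝ × ℝ → ℂ := fun p => ∑ l ∈ s, ((uv l).1 * c l) * ee l p
  let v : ℝ × ℝ → ℂ := fun p => ∑ l ∈ s, ((uv l).2 * c l) * ee l p
  have hee := ee_cont
  have hw : Continuous w := by
    apply continuous_finsetSum
    intro l _
    exact continuous_const.mul (ee_cont l)
  have hv : Continuous v := by
    apply continuous_finsetSum
    intro l _
    exact continuous_const.mul (ee_cont l)
  let Q : ℝ × ℝ → ℂ := fun p => (a p : ℂ) * (w p * (starRingEnd ℂ) (w p))
    + b p * (v p * (starRingEnd ℂ) (w p))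
      + b p * (w p * (starRingEnd ℂ) (v p)) + d p * (v p * (starRingEnd ℂ) (v p))
  have hacx : Continuous (fun p => (a p : ℂ)) := Complex.continuous_ofReal.comp ha
  have hbcx : Continuous (fun p => (b p : ℂ)) := Complex.continuous_ofReal.comp hb
  have hdcx : Continuous (fun p => (d p : ℂ)) := Complex.continuous_ofReal.comp hd
  have hcw : Continuous (fun p => (starRingEnd ℂ) (w p)) := Complex.continuous_conj.comp hw
  have hcv : Continuous (fun p => (starRingEnd ℂ) (v p)) := Complex.continuous_conj.comp hv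
  have hQ : Continuous Q := by
    exact (((hacx.mul (hw.mul hcw)).add (hbcx.mul (hv.mul hcw))).add
      (hbcx.mul (hw.mul hcv))).add (hdcx.mul (hv.mul hcv))
  -- the terms
  let φ : ℤ × ℤ → ℤ × ℤ → ℝ × ℝ → ℂ := fun k l p =>
    (((uv k).1 * (uv l).1 * c l * (starRingEnd ℂ) (c k)) * (a p * ee (-(k - l)) p)
     + ((uv k).1 * (uv l).2 * c l * (starRingEnd ℂ) (c k)) * (b p * ee (-(k - l)) p))
     + (((uv k).2 * (uv l).1 * c l * (starRingEnd ℂ) (c k)) * (b p * ee (-(k - l)) p)
     + ((uv k).2 * (uv l).2 * c l * (starRingEnd ℂ) (c k)) * (d p * ee (-(k - l)) p))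
  have hφc : ∀ k l, Continuous (φ k l) := by
    intro k l
    have h1 := hee (-(k - l))
    exact (((continuous_const.mul (hacx.mul h1)).add (continuous_const.mul (hbcx.mul h1)))).add
      ((continuous_const.mul (hbcx.mul h1)).add (continuous_const.mul (hdcx.mul h1)))
  have hφI : ∀ k l, II (φ k l) =
      ((uv k).1 * (fc (fun p => (a p : ℂ)) (k - l) * (uv l).1
        + fc (fun p => (b p : ℂ)) (k - l) * (uv l).2) +
      (uv k).2 * (fc (fun p => (b p : ℂ)) (k - l) * (uv l).1
        + fc (fun p => (d p : ℂ)) (k - l) * (uv l).2)) * c l * (starRingEnd ℂ) (c k) := by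
    intro k l
    have h1 := hee (-(k - l))
    have ea : II (fun p => (a p : ℂ) * ee (-(k - l)) p) = fc (fun p => (a p : ℂ)) (k - l) := rfl
    have eb : II (fun p => (b p : ℂ) * ee (-(k - l)) p) = fc (fun p => (b p : ℂ)) (k - l) := rfl
    have ed : II (fun p => (d p : ℂ) * ee (-(k - l)) p) = fc (fun p => (d p : ℂ)) (k - l) := rfl
    rw [← ea, ← eb, ← ed]
    refine (II_four _ _ _ _ (fun p => (a p : ℂ) * ee (-(k - l)) p)
      (fun p => (b p : ℂ) * ee (-(k - l)) p) (fun p => (b p : ℂ) * ee (-(k - l)) p)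
      (fun p => (d p : ℂ) * ee (-(k - l)) p)
      (hacx.mul h1) (hbcx.mul h1) (hbcx.mul h1) (hdcx.mul h1)).trans ?_
    ring
  have hsumQ : ∀ p, ∑ k ∈ s, ∑ l ∈ s, φ k l p = Q p := by
    intro p
    simp only [Q, w, v, φ, map_sum, map_mul, Complex.conj_ofReal]
    simp only [Finset.sum_mul_sum]
    simp only [Finset.mul_sum]
    rw [← Finset.sum_add_distrib, ← Finset.sum_add_distrib, ← Finset.sum_add_distrib,
      Finset.sum_comm]
    apply Finset.sum_congr rfl
    intro l _
    rw [← Finset.sum_add_distrib, ← Finset.sum_add_distrib, ← Finset.sum_add_distrib]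
    apply Finset.sum_congr rfl
    intro k _
    rw [ee_sub]
    ring
  have hS1 : ∑ k ∈ s, ∑ l ∈ s, II (φ k l) = II Q := by
    have : Q = fun p => ∑ k ∈ s, ∑ l ∈ s, φ k l p := by
      ext p
      exact (hsumQ p).symm
    rw [this, II_sum s (fun k p => ∑ l ∈ s, φ k l p)
      (fun k => continuous_finsetSum _ (fun l _ => hφc k l))]
    apply Finset.sum_congr rfl
    intro k _
    rw [II_sum s (fun l p => φ k l p) (fun l => hφc k l)]
  have hlast : ∑ k ∈ s, ∑ l ∈ s, (if k = 0 ∧ l = 0 then (1:ℂ) else 0) * c l * (starRingEnd ℂ) (c k)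
      = ((∑ k ∈ s, if k = 0 then ‖c k‖ ^ 2 else 0 : ℝ) : ℂ) := by
    push_cast
    apply Finset.sum_congr rfl
    intro k hk
    by_cases h0 : k = 0
    · subst h0
      rw [Finset.sum_eq_single (0 : ℤ × ℤ)]
      · simp only [and_self, if_true, one_mul]
        rw [Complex.mul_conj, Complex.normSq_eq_norm_sq]
      · intro l _ hl
        simp [hl]
      · intro h
        exact absurd hk h
    · simp [h0]
  have hS : ∑ k ∈ s, ∑ l ∈ s, pdeM a b d k l * c l * (starRingEnd ℂ) (c k) =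
      II Q + ((∑ k ∈ s, if k = 0 then ‖c k‖ ^ 2 else 0 : ℝ) : ℂ) := by
    rw [← hS1, ← hlast, ← Finset.sum_add_distrib]
    apply Finset.sum_congr rfl
    intro k _
    rw [← Finset.sum_add_distrib]
    apply Finset.sum_congr rfl
    intro l _
    rw [hφI]
    unfold pdeM
    ring
  rw [hS, Complex.add_re, Complex.ofReal_re, II_re Q hQ]
  have hmono : II (fun p => m0 * (‖w p‖ ^ 2 + ‖v p‖ ^ 2)) ≤ II (fun p => (Q p).re) := by
    apply II_mono
    · fun_prop
    · exact Complex.continuous_re.comp hQ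
    · intro p hp
      exact quad_cx (a p) (b p) (d p) m0 (w p) (v p) (hpos p) (hdet p) (hm1 p hp)
  have hpars : II (fun p => m0 * (‖w p‖ ^ 2 + ‖v p‖ ^ 2)) =
      m0 * ∑ k ∈ s, ((uv k).1 ^ 2 + (uv k).2 ^ 2) * ‖c k‖ ^ 2 := by
    rw [II_mulR, II_add _ _ (by fun_prop) (by fun_prop)]
    have h1 : II (fun p => ‖w p‖ ^ 2) = ∑ l ∈ s, ‖((uv l).1 : ℂ) * c l‖ ^ 2 :=
      parseval s (fun l => ((uv l).1 : ℂ) * c l)
    have h2 : II (fun p => ‖v p‖ ^ 2) = ∑ l ∈ s, ‖((uv l).2 : ℂ) * c l‖ ^ 2 :=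
      parseval s (fun l => ((uv l).2 : ℂ) * c l)
    rw [h1, h2, ← Finset.sum_add_distrib]
    congr 1
    apply Finset.sum_congr rfl
    intro l _
    rw [norm_mul, norm_mul, mul_pow, mul_pow, Complex.norm_real, Complex.norm_real,
      Real.norm_eq_abs, Real.norm_eq_abs, sq_abs, sq_abs]
    ring
  rw [hpars] at hmono
  refine le_trans ?_ (add_le_add hmono le_rfl)
  rw [Finset.mul_sum, Finset.mul_sum, ← Finset.sum_add_distrib]
  apply Finset.sum_le_sum
  intro k _
  by_cases h0 : k = 0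
  · subst h0
    have : uv 0 = (0, 0) := by simp [uv]
    rw [this, if_pos rfl]
    have := min_le_right m0 1
    nlinarith [sq_nonneg ‖c 0‖]
  · rw [uv_sq k h0, if_neg h0]
    have := min_le_left m0 1
    nlinarith [sq_nonneg ‖c k‖]

end KleinEmb
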